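import Pool.Agent.TH817.Z3.Stm
import Pool.Agent.H337R2.LZ.D3
import Pool.Agent.H336R2.HD.A1
import Pool.Agent.H336R2.HD.A3
import Pool.Agent.H336R2.HD.D1

/-!
# p-adic size of the Hankel determinant, with refined charges (tasks D3, D3l)
-/

set_option autoImplicit false

open Polynomial Pool.Agent.H337R2

namespace Pool.Agent.TH817.Z3.D

open Pool.Agent.TH817.Z3

noncomputable section

/-- the greedy algorithm with general costs -/
theorem greedy {K : Type} [DecidableEq K] (S : Finset K) (hS : S.Nonempty) (c Φ : K → ℕ → ℤ) (μ : ℤ)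
    (h0 : ∀ k ∈ S, ∀ a, 0 ≤ Φ k a) (hst : ∀ k ∈ S, ∀ a, Φ k a - Φ k (a + 1) = max 0 (c k a - μ)) (m : ℕ) :
    ∃ (κ : ℕ → K) (s : ℕ → ℤ), (∀ i, κ i ∈ S) ∧ (∀ i, μ ≤ s i) ∧
      (∑ i ∈ Finset.range m, s i ≤ m * μ + ∑ k ∈ S, Φ k 0) ∧
      ∀ k ∈ S, ∀ i, c k (((Finset.range i).filter fun l => κ l = k).card) ≤ s i := by
  classical
  have hpick : ∀ l : K → ℕ, ∃ k ∈ S, ∀ k' ∈ S, c k' (l k') ≤ c k (l k) :=
    fun l => Finset.exists_max_image S (fun k => c k (l k)) hS
  choose pick hp1 hp2 using hpick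
  obtain ⟨L, hL0, hLs⟩ : ∃ L : ℕ → K → ℕ, (∀ k, L 0 k = 0) ∧
      ∀ i k, L (i + 1) k = L i k + if pick (L i) = k then 1 else 0 :=
    ⟨fun i => Nat.rec (motive := fun _ => K → ℕ) (fun _ => 0)
      (fun _ l k => l k + if pick l = k then 1 else 0) i, fun _ => rfl, fun _ _ => rfl⟩
  have hcount : ∀ i k, ((Finset.range i).filter fun l => pick (L l) = k).card = L i k := by
    intro i k
    induction i with
    | zero => simp [hL0]
    | succ i ih =>
      rw [hLs, Finset.range_add_one, Finset.filter_insert]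
      split_ifs with h
      · rw [Finset.card_insert_of_notMem (by simp), ih]
      · rw [ih, add_zero]
  let sq : ℕ → ℤ := fun i => max μ (c (pick (L i)) (L i (pick (L i))))
  refine ⟨fun i => pick (L i), sq, fun i => hp1 _, fun i => le_max_left _ _, ?_, ?_⟩
  · have key : ∀ m : ℕ, ∑ i ∈ Finset.range m, max μ (c (pick (L i)) (L i (pick (L i)))) +
        ∑ k ∈ S, Φ k (L m k) ≤ m * μ + ∑ k ∈ S, Φ k 0 := by
      intro m
      induction m with
      | zero => simp [hL0]
      | succ m ih =>
        rw [Finset.sum_range_succ]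
        have h1 : ∑ k ∈ S, Φ k (L (m + 1) k) =
            ∑ k ∈ S, Φ k (L m k) - max 0 (c (pick (L m)) (L m (pick (L m))) - μ) := by
          rw [← Finset.add_sum_erase S _ (hp1 (L m)), ← Finset.add_sum_erase S _ (hp1 (L m))]
          rw [Finset.sum_congr rfl (g := fun k => Φ k (L m k)) (fun k hk => ?_)]
          · have h2 := hst _ (hp1 (L m)) (L m (pick (L m)))
            have h3 : L (m + 1) (pick (L m)) = L m (pick (L m)) + 1 := by
              rw [hLs, if_pos rfl]
            rw [h3]
            linarith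
          · have h2 : pick (L m) ≠ k := (Finset.ne_of_mem_erase hk).symm
            simp only [hLs, if_neg h2, add_zero]
        rw [h1]
        have h4 : max μ (c (pick (L m)) (L m (pick (L m)))) =
            μ + max 0 (c (pick (L m)) (L m (pick (L m))) - μ) := by
          rcases le_total μ (c (pick (L m)) (L m (pick (L m)))) with h | h
          · rw [max_eq_right h, max_eq_right (by linarith)]; ring
          · rw [max_eq_left h, max_eq_left (by linarith)]; ring
        rw [h4]
        push_cast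
        linarith
    have h5 : 0 ≤ ∑ k ∈ S, Φ k (L m k) :=
      Finset.sum_nonneg fun k hk => h0 k hk _
    linarith [key m]
  · intro k hk i
    rw [hcount]
    exact (hp2 (L i) k hk).trans (le_max_right _ _)

/-- the exponent depends only on the class -/
lemma eF_mod (n p k : ℕ) : eF n p (k % p) = eF n p k := by
  unfold eF
  have h : (k % p) % p = k % p := Nat.mod_mod _ _
  rw [Pool.Agent.H574R2.D3.D2_cnt_congr (A := n / 2 + 1) (B := 3 * n) h,
    Pool.Agent.H574R2.D3.D2_cnt_congr (A := n + 1) (B := 7 * n / 2) h,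
    Pool.Agent.H574R2.D3.D2_cnt_congr (A := 7 * n / 2 + 1) (B := 8 * n) h,
    Pool.Agent.H574R2.D3.D2_cnt_congr (A := 4 * n + 1) (B := 17 * n / 2) h]

/-- the greedy choice of classes: usual charges `S`, refined charges `T` -/
lemma D3_pick2 (S T : Finset ℕ) (hST : Disjoint S T) (c : ℕ → ℤ) (μ : ℤ) (m : ℕ) :
    ∃ (κ : ℕ → ℕ) (s : ℕ → ℤ), (∀ i, μ ≤ s i) ∧
      (∑ i ∈ Finset.range m, s i ≤ m * μ + ∑ k ∈ S, TT (c k - μ) + ∑ k ∈ T, TR (c k - μ)) ∧
      (∀ k ∈ S, ∀ i, c k - 2 * (((Finset.range i).filter fun l => κ l = k).card : ℤ) ≤ s i) ∧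
      (∀ k ∈ T, ∀ i, c k - 2 * (((Finset.range i).filter fun l => κ l = k).card : ℤ) -
        (if ((Finset.range i).filter fun l => κ l = k).card = 0 then 0 else 2) ≤ s i) := by
  rcases (S ∪ T).eq_empty_or_nonempty with hS0 | hS0
  · rw [Finset.union_eq_empty] at hS0
    obtain ⟨h1, h2⟩ := hS0
    subst h1; subst h2
    refine ⟨fun _ => 0, fun _ => μ, fun _ => le_rfl, ?_, fun k hk => absurd hk (Finset.notMem_empty k),
      fun k hk => absurd hk (Finset.notMem_empty k)⟩
    rw [Finset.sum_empty, Finset.sum_empty, add_zero, add_zero, Finset.sum_const, Finset.card_range,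
      nsmul_eq_mul]
  · obtain ⟨κ, s, -, h2, h3, h4⟩ := greedy (S ∪ T) hS0
      (fun k a => if k ∈ T then c k - 2 * (a : ℤ) - (if a = 0 then 0 else 2) else c k - 2 * (a : ℤ))
      (fun k a => if k ∈ T then (if a = 0 then TR (c k - μ) else TT (c k - μ - 2 * (a : ℤ) - 2))
        else TT (c k - μ - 2 * (a : ℤ))) μ
      (by
        intro k _ a
        have h := Pool.Agent.H336R2.HD.D1_TT_nonneg
        split_ifs
        · unfold TR
          have := h (c k - μ - 4)
          have := le_max_right (c k - μ) 0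
          linarith
        · exact h _
        · exact h _)
      (by
        intro k _ a
        have h := Pool.Agent.H336R2.HD.D1_TT_step
        by_cases hk : k ∈ T
        · simp only [if_pos hk]
          rcases Nat.eq_zero_or_pos a with ha | ha
          · subst ha
            rw [if_pos rfl, if_neg (by omega), if_pos rfl]
            unfold TR
            have e : c k - μ - 2 * ((0 + 1 : ℕ) : ℤ) - 2 = c k - μ - 4 := by push_cast; ring
            rw [e, max_comm]
            push_cast
            simp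
          · rw [if_neg (by omega), if_neg (by omega), if_neg (by omega)]
            have h1 := h (c k - μ - 2 * (a : ℤ) - 2)
            have e : c k - μ - 2 * ((a + 1 : ℕ) : ℤ) - 2 = c k - μ - 2 * (a : ℤ) - 2 - 2 := by
              push_cast; ring
            rw [e, h1]
            congr 1
            ring
        · simp only [if_neg hk]
          have h1 := h (c k - μ - 2 * (a : ℤ))
          have e : c k - μ - 2 * ((a + 1 : ℕ) : ℤ) = c k - μ - 2 * (a : ℤ) - 2 := by
            push_cast; ring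
          rw [e, h1]
          congr 1
          ring) m
    refine ⟨κ, s, h2, ?_, ?_, ?_⟩
    · rw [Finset.sum_union hST] at h3
      refine h3.trans (le_of_eq ?_)
      rw [add_assoc]
      congr 1
      congr 1
      · refine Finset.sum_congr rfl fun k hk => ?_
        rw [if_neg (Finset.disjoint_left.1 hST hk)]
        simp
      · refine Finset.sum_congr rfl fun k hk => ?_
        rw [if_pos hk, if_pos rfl]
    · intro k hk i
      have h5 := h4 k (Finset.mem_union_left _ hk) i
      simp only [if_neg (Finset.disjoint_left.1 hST hk)] at h5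
      exact h5
    · intro k hk i
      have h5 := h4 k (Finset.mem_union_right _ hk) i
      simp only [if_pos hk] at h5
      exact h5

/-! ### node polynomials at arbitrary sites -/

lemma lin0 (p : ℕ) [Fact p.Prime] (k r : ℕ) (h : r % p = k % p) :
    PB p (p : ℚ) (p : ℚ)⁻¹ (TS (-(k : ℚ)) (X + C ((r : ℕ) : ℚ))) := by
  rw [TS_lin]
  refine Pool.Agent.H574R2.D3.D3_lin_dvd p (-(k : ℤ) + r) ?_ _ (by push_cast; ring)
  have h1 : (r : ℤ) % p = (k : ℤ) % p := by exact_mod_cast h
  have h2 : (p : ℤ) ∣ (r : ℤ) - k := Int.ModEq.dvd (show (k : ℤ) ≡ r [ZMOD p] from h1.symm)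
  rwa [neg_add_eq_sub]

lemma ND_PB (p : ℕ) [hp : Fact p.Prime] (k : ℕ) (τ : ℕ → ℕ) (i : ℕ) :
    PB p (p : ℚ) ((p : ℚ)⁻¹ ^ ((Finset.range i).filter fun l => τ l % p = k % p).card)
      (TS (-(k : ℚ)) (Pool.Agent.LZ.D3_ND τ i)) := by
  have hp0 : (0 : ℚ) < p := by exact_mod_cast hp.1.pos
  have hp1 : (1 : ℚ) ≤ p := by exact_mod_cast hp.1.one_le
  unfold Pool.Agent.LZ.D3_ND
  rw [map_prod]
  have h := PB.prod (p := p) (Finset.range i) (fun l => if τ l % p = k % p then (p : ℚ)⁻¹ else 1)
    (fun l => TS (-(k : ℚ)) (X + C ((τ l : ℕ) : ℚ))) hp0.le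
    (fun l _ => by split_ifs <;> positivity) (fun l _ => by
      show PB p (p : ℚ) (if τ l % p = k % p then (p : ℚ)⁻¹ else 1) _
      split_ifs with hl
      · exact lin0 p k (τ l) hl
      · exact Pool.Agent.LZ.D3_lin1 p (p : ℚ) hp1 k (τ l))
  rw [Finset.prod_ite, Finset.prod_const, Finset.prod_const_one, mul_one] at h
  exact h

lemma NN_PB (p : ℕ) [hp : Fact p.Prime] (k : ℕ) (τ : ℕ → ℕ) (i j : ℕ) :
    PB p (p : ℚ) ((p : ℚ)⁻¹ ^ ((Finset.range i).filter fun l => τ l % p = k % p).card *
          (p : ℚ)⁻¹ ^ ((Finset.range j).filter fun l => τ l % p = k % p).card)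
      (TS (-(k : ℚ)) (Pool.Agent.LZ.D3_ND τ i * Pool.Agent.LZ.D3_ND τ j)) := by
  have hp0 : (0 : ℚ) < p := by exact_mod_cast hp.1.pos
  rw [map_mul]
  exact PB.mul hp0.le (by positivity) (by positivity) (ND_PB p k τ i) (ND_PB p k τ j)

lemma ND_eval (τ : ℕ → ℕ) (i k : ℕ) (h : ∃ l, l < i ∧ τ l = k) :
    (Pool.Agent.LZ.D3_ND τ i).eval (-(k : ℚ)) = 0 := by
  obtain ⟨l, hl, hk⟩ := h
  unfold Pool.Agent.LZ.D3_ND
  rw [eval_prod]
  refine Finset.prod_eq_zero (Finset.mem_range.2 hl) ?_
  rw [eval_add, eval_X, eval_C, hk, neg_add_cancel]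

theorem D3_of (hC2 : StC2) : StD3 := by
  intro n p _ hn hp2 q x hx m μ S T hS hT hST σ hσ h
  classical
  have hpp : p.Prime := Fact.out
  have hp0 : (0 : ℚ) < p := by exact_mod_cast hpp.pos
  have hp1 : (1 : ℚ) ≤ p := by exact_mod_cast hpp.one_le
  obtain ⟨κ, s, hs1, hs2, hs3, hs4⟩ := D3_pick2 S T hST (fun k => 1 - eF n p k) μ m
  -- the sites
  set τ : ℕ → ℕ := fun l => if κ l ∈ T then σ (κ l) else κ l with hτ
  -- number of factors in the class of `k`, for `k % p ∈ S ∪ T`
  have hcard : ∀ κ0 ∈ S ∪ T, ∀ i, ((Finset.range i).filter fun l => κ l = κ0).card ≤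
      ((Finset.range i).filter fun l => τ l % p = κ0).card := by
    intro κ0 hκ0 i
    apply Finset.card_le_card
    intro l hl
    rw [Finset.mem_filter] at hl ⊢
    refine ⟨hl.1, ?_⟩
    rw [hτ]
    simp only
    split_ifs with h1
    · rw [hσ _ h1, hl.2]
    · rw [hl.2]
      apply Nat.mod_eq_of_lt
      rcases Finset.mem_union.1 hκ0 with h2 | h2
      · exact Finset.mem_range.1 (hS h2)
      · exact Finset.mem_range.1 (hT h2)
  have hmat : padicNorm p (Matrix.of fun i j : Fin m =>
      (q : ℚ) * NL n x (Pool.Agent.LZ.D3_ND τ i * Pool.Agent.LZ.D3_ND τ j)).det ≤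
      ∏ i ∈ Finset.range m, (p : ℚ) ^ (s i) := by
    refine Pool.Agent.H336R2.HD.A3_padic_det p m _ (fun i => (p : ℚ) ^ (s i))
      (fun i => by positivity) fun i j => ?_
    rw [Matrix.of_apply, NL_apply]
    have hW : padicNorm p ((q : ℚ) * xf n x (PF n *
        (Pool.Agent.LZ.D3_ND τ i * Pool.Agent.LZ.D3_ND τ j))) ≤ (p : ℚ) ^ ((s i + s j) / 2) := by
      refine hC2 hn hp2 q x hx _ ((p : ℚ) ^ ((s i + s j) / 2)) (by positivity)
        (fun k => (p : ℚ)⁻¹ ^ ((Finset.range i.1).filter fun l => τ l % p = k % p).card *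
          (p : ℚ)⁻¹ ^ ((Finset.range j.1).filter fun l => τ l % p = k % p).card)
        (fun k => by positivity) (fun k hk => ?_) (fun k hk => ?_) (fun k hk => ?_)
      · exact NN_PB p k τ i.1 j.1
      · exact Pool.Agent.LZ.D3_NN_PB1 p 1 le_rfl k τ τ i.1 j.1
      · have hzp : ∀ (z : ℤ) (a b : ℕ), (p : ℚ) ^ z * ((p : ℚ)⁻¹ ^ a * (p : ℚ)⁻¹ ^ b) =
            (p : ℚ) ^ (z - a - b : ℤ) := by
          intro z a b
          rw [zpow_sub₀ hp0.ne', zpow_sub₀ hp0.ne', zpow_natCast, zpow_natCast,
            inv_pow, inv_pow, div_eq_mul_inv, div_eq_mul_inv, mul_assoc]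
        rcases h k hk with h1 | ⟨h1, h1'⟩ | h1
        · left
          have h2 := hs3 _ h1 i
          have h3 := hs3 _ h1 j
          have h4 := hcard _ (Finset.mem_union_left _ h1) i.1
          have h5 := hcard _ (Finset.mem_union_left _ h1) j.1
          simp only [eF_mod] at h2 h3
          rw [hzp]
          refine zpow_le_zpow_right₀ hp1 ?_
          omega
        · have h2 := hs4 _ h1 i
          have h3 := hs4 _ h1 j
          have h4 := hcard _ (Finset.mem_union_right _ h1) i.1
          have h5 := hcard _ (Finset.mem_union_right _ h1) j.1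
          simp only [eF_mod] at h2 h3
          rcases h1' with ⟨hk1, hk2⟩ | hk1
          · by_cases hz : ((Finset.range i.1).filter fun l => κ l = k % p).card = 0 ∧
                ((Finset.range j.1).filter fun l => κ l = k % p).card = 0
            · left
              rw [if_pos hz.1, hz.1] at h2
              rw [if_pos hz.2, hz.2] at h3
              rw [hzp]
              refine zpow_le_zpow_right₀ hp1 ?_
              push_cast at h2 h3
              omega
            · right; right; right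
              refine ⟨hk2, ?_⟩
              rw [eval_mul]
              have hex : ∀ i0 : ℕ, ((Finset.range i0).filter fun l => κ l = k % p).card ≠ 0 →
                  ∃ l, l < i0 ∧ τ l = k := by
                intro i0 hi0
                obtain ⟨l, hl⟩ := Finset.card_ne_zero.1 hi0
                rw [Finset.mem_filter, Finset.mem_range] at hl
                refine ⟨l, hl.1, ?_⟩
                rw [hτ]
                simp only
                rw [hl.2, if_pos h1]
                exact hk1.symm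
              by_cases hz1 : ((Finset.range i.1).filter fun l => κ l = k % p).card = 0
              · have hz2 : ((Finset.range j.1).filter fun l => κ l = k % p).card ≠ 0 :=
                  fun hh => hz ⟨hz1, hh⟩
                rw [ND_eval τ j.1 k (hex _ hz2), mul_zero]
              · rw [ND_eval τ i.1 k (hex _ hz1), zero_mul]
          · right; right; left
            refine ⟨hk1, ?_⟩
            rw [hzp]
            refine zpow_le_zpow_right₀ hp1 ?_
            split_ifs at h2 h3 <;> omega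
        · right; left
          refine ⟨h1.1.trans (zpow_le_zpow_right₀ hp1 ?_), h1.2⟩
          have h2 := hs1 i
          have h3 := hs1 j
          omega
    calc padicNorm p ((q : ℚ) * xf n x (PF n *
          (Pool.Agent.LZ.D3_ND τ i * Pool.Agent.LZ.D3_ND τ j))) ^ 2
        ≤ ((p : ℚ) ^ ((s i + s j) / 2)) ^ 2 := pow_le_pow_left₀ (padicNorm.nonneg _) hW 2
      _ = (p : ℚ) ^ ((s i + s j) / 2 * 2) := by
          rw [← zpow_natCast, ← zpow_mul]
          rfl
      _ ≤ (p : ℚ) ^ (s i + s j) := zpow_le_zpow_right₀ hp1 (by omega)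
      _ = (p : ℚ) ^ (s i) * (p : ℚ) ^ (s j) := zpow_add₀ hp0.ne' _ _
  have hdet : (Matrix.of fun i j : Fin m => (q : ℚ) * NL n x
      (Pool.Agent.LZ.D3_ND τ i * Pool.Agent.LZ.D3_ND τ j)).det = (q : ℚ) ^ m * DET n x m := by
    have h1 : (Matrix.of fun i j : Fin m => (q : ℚ) * NL n x
        (Pool.Agent.LZ.D3_ND τ i * Pool.Agent.LZ.D3_ND τ j)) =
        (q : ℚ) • (Matrix.of fun i j : Fin m => NL n x
          (Pool.Agent.LZ.D3_ND τ i * Pool.Agent.LZ.D3_ND τ j)) := by
      ext i j
      simp
    rw [h1, Matrix.det_smul, Fintype.card_fin,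
      Pool.Agent.H336R2.HD.A1_det_monic (NL n x) m (Pool.Agent.LZ.D3_ND τ)
        (fun i _ => Pool.Agent.LZ.D3_ND_monic τ i)]
    rfl
  rw [← hdet]
  refine le_trans hmat ?_
  rw [Pool.Agent.H574R2.D3.D3_prod_zpow (p : ℚ) hp0.ne' s m]
  exact zpow_le_zpow_right₀ hp1 hs2

/-- the constant is an integer -/
lemma D3_cF (n p : ℕ) [Fact p.Prime] : padicNorm p (cF n) ≤ 1 := by
  have h1 : (5 * n / 2).factorial ^ 2 ∣ (9 * n / 2).factorial ^ 2 :=
    pow_dvd_pow_of_dvd (Nat.factorial_dvd_factorial (by omega)) 2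
  obtain ⟨c, hc⟩ := h1
  have h : cF n = (((c : ℕ) : ℤ) : ℚ) := by
    unfold cF
    rw [hc]
    have h2 : (((5 * n / 2).factorial ^ 2 : ℕ) : ℚ) ≠ 0 := by
      exact_mod_cast pow_ne_zero 2 (Nat.factorial_ne_zero _)
    rw [Nat.cast_mul ((5 * n / 2).factorial ^ 2) c, mul_div_cancel_left₀ _ h2]
    push_cast
    rfl
  rw [h]
  exact padicNorm.of_int _

theorem D3l_of (hC2 : StC2) : StD3l := by
  intro n p _ hn hp2 hp q x hx m
  have h := D3_of hC2 hn hp2 q x hx m 0 ∅ ∅ (Finset.empty_subset _) (Finset.empty_subset _)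
    (Finset.disjoint_empty_left _) id (fun κ hκ => absurd hκ (Finset.notMem_empty κ)) (by
    intro k hk
    right; right
    rw [zpow_zero]
    have h1 := Finset.mem_Icc.1 hk
    refine ⟨D3_cF n p, by omega, fun k' hk' hne hd => ?_⟩
    have h2 := Finset.mem_Icc.1 hk'
    have h3 : ((k' : ℤ) - k) ≠ 0 := by omega
    have h4 := Int.le_of_dvd (by positivity : 0 < |(k' : ℤ) - k|) ((dvd_abs _ _).2 hd)
    rcases abs_cases ((k' : ℤ) - k) with ⟨h5, -⟩ | ⟨h5, -⟩
    · rw [h5] at h4; omega
    · rw [h5] at h4; omega)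
  simpa using h

end

end Pool.Agent.TH817.Z3.D
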