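import Pool.Agent.TH817.Z3.Stm
import Pool.Agent.H337R2.Count

/-!
# Task E4: the p-adic size of the determinant in a cell
-/

set_option autoImplicit false

open Polynomial Pool.Agent.H337R2

namespace Pool.Agent.TH817.Z3.E

open Pool.Agent.TH817.Z3

theorem TT_nonneg (y : ℤ) : 0 ≤ TT y := by
  show 0 ≤ Pool.Agent.H336R2.HD.TT y
  unfold Pool.Agent.H336R2.HD.TT
  split_ifs with h
  · positivity
  · exact le_rfl

theorem TR_nonneg (y : ℤ) : 0 ≤ TR y := by
  unfold TR
  have := TT_nonneg (y - 4)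
  have := le_max_right y 0
  linarith

theorem cF_norm {n p : ℕ} [Fact p.Prime] (hp2 : 9 * n < p ^ 2) : padicNorm p (cF n) =
    (p : ℚ) ^ (2 * ((5 * n / 2 / p : ℕ) : ℤ) - 2 * ((9 * n / 2 / p : ℕ) : ℤ)) := by
  have hp0 : (p : ℚ) ≠ 0 := by exact_mod_cast (Fact.out : p.Prime).ne_zero
  unfold cF
  rw [padicNorm.div, pow_two, pow_two]
  push_cast
  rw [padicNorm.mul, padicNorm.mul, norm_factorial (N := 9 * n / 2) (by omega),
    norm_factorial (N := 5 * n / 2) (by omega),
    div_eq_mul_inv, ← zpow_add₀ hp0, ← zpow_add₀ hp0, ← zpow_neg, ← zpow_add₀ hp0]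
  congr 1
  push_cast
  ring

/-- class `0` -/
theorem E4_eF0 (hE1f : StE1) {c : Cell} (hc : c.ok = true) {n p : ℕ} (hp : 0 < p)
    (h0 : c.u0 * n < p * c.v0) (h1 : p * c.v1 ≤ c.u1 * n) : eF n p 0 = c.e0 := by
  have f1 := hE1f hc hp h0 h1 (a := 1) (by decide)
  have f2 := hE1f hc hp h0 h1 (a := 2) (by decide)
  have f5 := hE1f hc hp h0 h1 (a := 5) (by decide)
  have f6 := hE1f hc hp h0 h1 (a := 6) (by decide)
  have f7 := hE1f hc hp h0 h1 (a := 7) (by decide)
  have f8 := hE1f hc hp h0 h1 (a := 8) (by decide)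
  have f9 := hE1f hc hp h0 h1 (a := 9) (by decide)
  have f16 := hE1f hc hp h0 h1 (a := 16) (by decide)
  have f17 := hE1f hc hp h0 h1 (a := 17) (by decide)
  have key : ∀ A B : ℕ, A ≤ B → (cnt p (A + 1) B 0 : ℤ) = ((B / p : ℕ) : ℤ) - ((A / p : ℕ) : ℤ) := by
    intro A B hAB
    rw [cnt_eq p (A + 1) B 0 hp (by omega)]
    push_cast
    rw [sub_zero, sub_zero, add_sub_cancel_right]
  have c1 := key (n / 2) (3 * n) (by omega)
  have c2 := key n (7 * n / 2) (by omega)
  have c3 := key (7 * n / 2) (8 * n) (by omega)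
  have c4 := key (4 * n) (17 * n / 2) (by omega)
  have g1 : n / 2 / p = c.fl 1 := by rw [← f1, one_mul]
  have g2 : n / p = c.fl 2 := by rw [← f2]; congr 1; omega
  have g6 : 3 * n / p = c.fl 6 := by rw [← f6]; congr 1; omega
  have g8 : 4 * n / p = c.fl 8 := by rw [← f8]; congr 1; omega
  have g16 : 8 * n / p = c.fl 16 := by rw [← f16]; congr 1; omega
  unfold eF Cell.e0
  rw [c1, c2, c3, c4, f5, f7, f9, f17, g1, g2, g6, g8, g16]
  ring

/-- from the integer exponent to the real statement -/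
theorem E4_fin {c : Cell} {n p q : ℕ} {x : ℚ} (hp : p.Prime) {z K : ℤ}
    (h : padicNorm p ((q : ℚ) ^ (2 * n) * DET n x (2 * n)) ≤ (p : ℚ) ^ z)
    (hz : 2 * z ≤ c.AB.1 * n + 2 * c.AB.2 * p + K) :
    ((padicNorm p ((q : ℚ) ^ (2 * n) * DET n x (2 * n)) : ℚ) : ℝ) ≤
      (p : ℝ) ^ ((c.AB.1 : ℝ) / 2 * n + c.AB.2 * p + (K : ℝ) / 2) := by
  have h1 : ((padicNorm p ((q : ℚ) ^ (2 * n) * DET n x (2 * n)) : ℚ) : ℝ) ≤
      (((p : ℚ) ^ z : ℚ) : ℝ) := by
    exact_mod_cast h
  refine h1.trans ?_
  rw [Rat.cast_zpow, Rat.cast_natCast, ← Real.rpow_intCast]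
  refine Real.rpow_le_rpow_of_exponent_le (by exact_mod_cast hp.one_lt.le) ?_
  have h2 : (2 : ℝ) * z ≤ c.AB.1 * n + 2 * c.AB.2 * p + K := by exact_mod_cast hz
  linarith

lemma mem_cnt {p k κ : ℕ} (hp : 0 < p) (h : k % p = κ) : (p : ℤ) ∣ (k : ℤ) - (κ : ℤ) := by
  refine ⟨((k / p : ℕ) : ℤ), ?_⟩
  have := Nat.div_add_mod k p
  rw [h] at this
  have h2 : (k : ℤ) = (p : ℤ) * ((k / p : ℕ) : ℤ) + ((κ : ℕ) : ℤ) := by
    exact_mod_cast this.symm
  linarith

lemma mod_of_dvd {p k κ : ℕ} (hκ : κ < p) (h : (p : ℤ) ∣ (k : ℤ) - (κ : ℤ)) : k % p = κ := by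
  have h1 : (κ : ℤ) ≡ k [ZMOD p] := (Int.modEq_iff_dvd).2 h
  have h2 : κ ≡ k [MOD p] := (Int.natCast_modEq_iff).1 h1
  have h3 : κ % p = k % p := h2
  rw [Nat.mod_eq_of_lt hκ] at h3
  exact h3.symm

/-- the cell estimate -/
theorem E4_of (hD3 : StD3) (hE1f : StE1) (hE2 : StE2) : StE4 := by
  classical
  intro c hc
  obtain ⟨M, hM⟩ := hE2 hc
  refine ⟨((4 * c.mu * 0 + 2 * (TT (1 - c.e0 - c.mu) + TR (1 - c.e0 - c.mu)) + M : ℤ) : ℝ) / 2, ?_⟩
  intro n hn p hp hp2 h0 h1 q x hx
  have : Fact p.Prime := ⟨hp⟩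
  have he0 := E4_eF0 hE1f hc hp.pos h0 h1
  have hK := TT_nonneg (1 - c.e0 - c.mu)
  have hK' := TR_nonneg (1 - c.e0 - c.mu)
  by_cases hfull : c.full = true
  · -- all classes charged
    have hd := hD3 hn hp2 q x hx (2 * n) c.mu (Finset.range p) ∅ (Finset.Subset.refl _)
      (Finset.empty_subset _) (Finset.disjoint_empty_right _) id
      (fun κ hκ => absurd hκ (Finset.notMem_empty κ))
      (fun k _ => Or.inl (Finset.mem_range.2 (Nat.mod_lt _ hp.pos)))
    rw [Finset.sum_empty, add_zero] at hd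
    refine E4_fin hp hd ?_
    have hs := hM hn hp h0 h1 (fun κ => TT (1 - eF n p κ - c.mu))
      (TT (1 - c.e0 - c.mu) + TR (1 - c.e0 - c.mu))
      (by linarith) (by show TT (1 - eF n p 0 - c.mu) ≤ _; rw [he0]; linarith)
      (by
        intro r _ _
        have hcost : c.cost (eF n p r) ((cnt p (3 * n + 1) (17 * n / 2) r : ℕ) : ℤ)
            ((cnt p (8 * n + 1) (17 * n / 2) r : ℕ) : ℤ) = TT (1 - eF n p r - c.mu) := by
          unfold Cell.cost
          rw [if_pos hfull]
        exact le_of_eq hcost.symm)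
    push_cast
    linarith
  · -- not full
    have hok := hc
    unfold Cell.ok at hok
    rw [Bool.and_eq_true, Bool.and_eq_true] at hok
    obtain ⟨⟨-, hok1⟩, hok2⟩ := hok
    have hmu : 2 * (c.fl 5 : ℤ) - 2 * (c.fl 9 : ℤ) ≤ c.mu := by
      rw [Bool.or_eq_true, decide_eq_true_eq] at hok1
      rcases hok1 with h2 | h2
      · exact absurd h2 hfull
      · exact h2
    have f5 := hE1f hc hp.pos h0 h1 (a := 5) (by decide)
    have f9 := hE1f hc hp.pos h0 h1 (a := 9) (by decide)
    set S : Finset ℕ := (Finset.range p).filter fun κ => 2 ≤ cnt p (3 * n + 1) (17 * n / 2) κ ∧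
      ¬ (c.ref = true ∧ 1 ≤ cnt p (8 * n + 1) (17 * n / 2) κ) with hS
    set T : Finset ℕ := (Finset.range p).filter fun κ => 2 ≤ cnt p (3 * n + 1) (17 * n / 2) κ ∧
      (c.ref = true ∧ 1 ≤ cnt p (8 * n + 1) (17 * n / 2) κ) with hT
    have hpnat : (1 : ℚ) ≤ (p : ℚ) := by exact_mod_cast hp.one_lt.le
    -- the simple hit pole
    have hex : ∀ κ ∈ T, ∃ k, 8 * n + 1 ≤ k ∧ k ≤ 17 * n / 2 ∧ k % p = κ := by
      intro κ hκ
      rw [hT, Finset.mem_filter, Finset.mem_range] at hκ
      obtain ⟨h2, -, -, h3⟩ := hκ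
      unfold cnt at h3
      obtain ⟨k, hk⟩ := Finset.card_pos.1 h3
      rw [Finset.mem_filter, Finset.mem_Icc] at hk
      exact ⟨k, hk.1.1, hk.1.2, mod_of_dvd h2 hk.2⟩
    set σ : ℕ → ℕ := fun κ => if h : ∃ k, 8 * n + 1 ≤ k ∧ k ≤ 17 * n / 2 ∧ k % p = κ then h.choose else κ
      with hσd
    have hσ : ∀ κ ∈ T, 8 * n + 1 ≤ σ κ ∧ σ κ ≤ 17 * n / 2 ∧ σ κ % p = κ := by
      intro κ hκ
      have h2 := hex κ hκ
      rw [hσd]
      simp only [dif_pos h2]
      exact h2.choose_spec
    have href : ∀ κ ∈ T, 11 * n < 4 * p := by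
      intro κ hκ
      rw [hT, Finset.mem_filter] at hκ
      have h2 := hκ.2.2.1
      rw [h2] at hok2
      simp only [Bool.not_true, Bool.false_or, decide_eq_true_eq] at hok2
      have hv0 : 0 < c.v0 := by
        by_contra h
        have : c.v0 = 0 := by omega
        rw [this] at h0
        omega
      have h3 : 11 * n * c.v0 < 4 * p * c.v0 := by
        calc 11 * n * c.v0 = (11 * c.v0) * n := by ring
          _ ≤ (4 * c.u0) * n := Nat.mul_le_mul_right n hok2
          _ = 4 * (c.u0 * n) := by ring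
          _ < 4 * (p * c.v0) := by omega
          _ = 4 * p * c.v0 := by ring
      exact Nat.lt_of_mul_lt_mul_right h3
    have hd := hD3 hn hp2 q x hx (2 * n) c.mu S T (Finset.filter_subset _ _) (Finset.filter_subset _ _)
      (by
        rw [Finset.disjoint_left]
        intro κ hκ1 hκ2
        rw [hS, Finset.mem_filter] at hκ1
        rw [hT, Finset.mem_filter] at hκ2
        exact hκ1.2.2 hκ2.2.2) σ (fun κ hκ => (hσ κ hκ).2.2)
      (by
        intro k hk
        by_cases hkS : k % p ∈ S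
        · exact Or.inl hkS
        · right
          have hkI := Finset.mem_Icc.1 hk
          by_cases hkT : k % p ∈ T
          · left
            refine ⟨hkT, ?_⟩
            obtain ⟨s1, s2, s3⟩ := hσ _ hkT
            have hr := href _ hkT
            have hdv : (p : ℤ) ∣ (σ (k % p) : ℤ) - (k : ℤ) := by
              have h4 := mem_cnt hp.pos s3
              have h5 := mem_cnt (p := p) (k := k) hp.pos rfl
              have h6 := dvd_sub h4 h5
              have e : ((σ (k % p) : ℤ) - ((k % p : ℕ) : ℤ)) - ((k : ℤ) - ((k % p : ℕ) : ℤ)) =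
                  (σ (k % p) : ℤ) - k := by ring
              rwa [e] at h6
            by_cases hk8 : 8 * n < k
            · left
              constructor
              · by_contra hne
                have h3 : ((σ (k % p) : ℤ) - k) ≠ 0 := by omega
                have h4 := Int.le_of_dvd (by positivity : 0 < |(σ (k % p) : ℤ) - k|) ((dvd_abs _ _).2 hdv)
                rcases abs_cases ((σ (k % p) : ℤ) - k) with ⟨h5, -⟩ | ⟨h5, -⟩
                · rw [h5] at h4; omega
                · rw [h5] at h4; omega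
              · unfold mF
                rw [if_neg (by omega), if_pos (by omega)]
            · right
              have h4 := Int.le_of_dvd (by omega : 0 < (σ (k % p) : ℤ) - k) hdv
              omega
          · right
            have hkc : ¬ 2 ≤ cnt p (3 * n + 1) (17 * n / 2) (k % p) := by
              intro h2
              by_cases h3 : c.ref = true ∧ 1 ≤ cnt p (8 * n + 1) (17 * n / 2) (k % p)
              · exact hkT (by
                  rw [hT, Finset.mem_filter]
                  exact ⟨Finset.mem_range.2 (Nat.mod_lt _ hp.pos), h2, h3⟩)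
              · exact hkS (by
                  rw [hS, Finset.mem_filter]
                  exact ⟨Finset.mem_range.2 (Nat.mod_lt _ hp.pos), h2, h3⟩)
            have hkm : (p : ℤ) ∣ (k : ℤ) - ((k % p : ℕ) : ℤ) := mem_cnt hp.pos rfl
            -- no other site in `(3n, 17n/2]` in the class
            have hno : ∀ k' : ℕ, 3 * n + 1 ≤ k' → k' ≤ 17 * n / 2 → k' ≠ k →
                ¬ (p : ℤ) ∣ (k' : ℤ) - k := by
              intro k' hk1 hk2 hne hdvd
              apply hkc
              have hk'm : (p : ℤ) ∣ (k' : ℤ) - ((k % p : ℕ) : ℤ) := by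
                have h2 := dvd_add hdvd hkm
                have e : ((k' : ℤ) - k) + ((k : ℤ) - ((k % p : ℕ) : ℤ)) =
                    (k' : ℤ) - ((k % p : ℕ) : ℤ) := by ring
                rwa [e] at h2
              have hsub : ({k, k'} : Finset ℕ) ⊆ (Finset.Icc (3 * n + 1) (17 * n / 2)).filter
                  (fun m : ℕ => (p : ℤ) ∣ (m : ℤ) - ((k % p : ℕ) : ℤ)) := by
                intro x hx2
                rw [Finset.mem_insert, Finset.mem_singleton] at hx2
                rw [Finset.mem_filter]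
                rcases hx2 with rfl | rfl
                · exact ⟨Finset.mem_Icc.2 ⟨by omega, hkI.2⟩, hkm⟩
                · exact ⟨Finset.mem_Icc.2 ⟨hk1, hk2⟩, hk'm⟩
              have hcard := Finset.card_le_card hsub
              rw [Finset.card_pair (Ne.symm hne)] at hcard
              exact hcard
            refine ⟨?_, ?_, ?_⟩
            · rw [cF_norm hp2, f5, f9]
              exact zpow_le_zpow_right₀ hpnat hmu
            · by_contra hlt
              push Not at hlt
              have hpp := hp.pos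
              refine hno (k - p) (by omega) (by omega) (by omega) ?_
              refine ⟨-1, ?_⟩
              have : ((k - p : ℕ) : ℤ) = (k : ℤ) - p := by
                rw [Nat.cast_sub (by omega)]
              rw [this]
              ring
            · intro k' hk' hne
              have hk'I := Finset.mem_Icc.1 hk'
              exact hno k' (by omega) hk'I.2 hne)
    refine E4_fin hp hd ?_
    have hsum : ∑ κ ∈ S, TT (1 - eF n p κ - c.mu) + ∑ κ ∈ T, TR (1 - eF n p κ - c.mu) =
        ∑ κ ∈ Finset.range p, if 2 ≤ cnt p (3 * n + 1) (17 * n / 2) κ then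
          (if c.ref = true ∧ 1 ≤ cnt p (8 * n + 1) (17 * n / 2) κ then TR (1 - eF n p κ - c.mu)
            else TT (1 - eF n p κ - c.mu)) else 0 := by
      rw [hS, hT, Finset.sum_filter, Finset.sum_filter, ← Finset.sum_add_distrib]
      refine Finset.sum_congr rfl fun κ _ => ?_
      by_cases a1 : 2 ≤ cnt p (3 * n + 1) (17 * n / 2) κ
      · by_cases a2 : c.ref = true ∧ 1 ≤ cnt p (8 * n + 1) (17 * n / 2) κ
        · rw [if_neg (by tauto), if_pos ⟨a1, a2⟩, if_pos a1, if_pos a2, zero_add]
        · rw [if_pos ⟨a1, a2⟩, if_neg (by tauto), if_pos a1, if_neg a2, add_zero]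
      · rw [if_neg (by tauto), if_neg (by tauto), if_neg a1, add_zero]
    have hs := hM hn hp h0 h1 (fun κ => if 2 ≤ cnt p (3 * n + 1) (17 * n / 2) κ then
          (if c.ref = true ∧ 1 ≤ cnt p (8 * n + 1) (17 * n / 2) κ then TR (1 - eF n p κ - c.mu)
            else TT (1 - eF n p κ - c.mu)) else 0) (TT (1 - c.e0 - c.mu) + TR (1 - c.e0 - c.mu))
      (by linarith)
      (by
        rw [he0]
        split_ifs <;> linarith)
      (by
        intro r _ hr
        unfold Cell.cost
        rw [if_neg hfull]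
        have e1 : (2 ≤ ((cnt p (3 * n + 1) (17 * n / 2) r : ℕ) : ℤ)) ↔
          2 ≤ cnt p (3 * n + 1) (17 * n / 2) r := by norm_cast
        have e2 : ((c.ref && decide (1 ≤ ((cnt p (8 * n + 1) (17 * n / 2) r : ℕ) : ℤ))) = true) ↔
          (c.ref = true ∧ 1 ≤ cnt p (8 * n + 1) (17 * n / 2) r) := by
          rw [Bool.and_eq_true, decide_eq_true_eq]
          norm_cast
        simp only [e1, e2]
        exact le_rfl)
    rw [← hsum] at hs
    push_cast at hs ⊢
    linarith

end Pool.Agent.TH817.Z3.E
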