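import Pool.Agent.TH817.Z3.Defs

/-!
# Irrationality exponent of `ζ(3)` (second design): the statements of the arithmetic tasks
-/

open Polynomial Pool.Agent.H337R2 Filter Topology

namespace Pool.Agent.TH817.Z3

/-! ### Cells -/

/-- cost of a refined class -/
def TR (y : ℤ) : ℤ := max y 0 + TT (y - 4)

/-- a cell `u0/v0 < p/n ≤ u1/v1`; `full`: all classes are charged; `ref`: refined charges; level `mu`;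
`od`: the thresholds `1, 2, 6, 7, 8, 16, 17` (in units `n/2`) in increasing order of the residues
`a n / 2 mod p` -/
structure Cell where
  u0 : ℕ
  v0 : ℕ
  u1 : ℕ
  v1 : ℕ
  full : Bool
  ref : Bool
  mu : ℤ
  od : List ℕ

/-- `⌊a n / 2 / p⌋` in the cell -/
def Cell.fl (c : Cell) (a : ℕ) : ℕ := a * c.v1 / (2 * c.u1)

/-- weight of a threshold in `e` -/
def wtE : ℕ → ℤ
  | 1 => -1
  | 2 => -1
  | 6 => 1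
  | 7 => 2
  | 8 => 1
  | 16 => -1
  | 17 => -1
  | _ => 0

/-- weight of a threshold in the number of sites in `(3n, 17n/2]` -/
def wtS : ℕ → ℤ
  | 6 => -1
  | 17 => 1
  | _ => 0

/-- weight of a threshold in the number of sites in `(8n, 17n/2]` -/
def wtW : ℕ → ℤ
  | 16 => -1
  | 17 => 1
  | _ => 0

/-- cost of a class with exponent `e`, `s` sites in `(3n, 17n/2]` and `w` sites in `(8n, 17n/2]` -/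
def Cell.cost (c : Cell) (e s w : ℤ) : ℤ :=
  if c.full then TT (1 - e - c.mu) else
    if 2 ≤ s then (if c.ref && decide (1 ≤ w) then TR (1 - e - c.mu) else TT (1 - e - c.mu)) else 0

/-- exponent of the class of `0` -/
def Cell.e0 (c : Cell) : ℤ :=
  2 * (c.fl 9 : ℤ) - 2 * (c.fl 5 : ℤ) + (c.fl 6 : ℤ) + 2 * (c.fl 7 : ℤ) + (c.fl 8 : ℤ) - (c.fl 1 : ℤ) -
    (c.fl 2 : ℤ) - (c.fl 16 : ℤ) - (c.fl 17 : ℤ)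

/-- the cost of the classes: pair `(A, B)` meaning `A n / 2 + B p`. `a`: last threshold passed (`0` at the
start), `e, s, w`: exponent and numbers of sites on the next interval -/
def Cell.go (c : Cell) : ℕ → ℤ → ℤ → ℤ → List ℕ → ℤ × ℤ
  | a, e, s, w, [] => (- (a : ℤ) * c.cost e s w, (1 + (c.fl a : ℤ)) * c.cost e s w)
  | a, e, s, w, b :: l =>
    let r := c.go b (e - wtE b) (s - wtS b) (w - wtW b) l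
    (r.1 + ((b : ℤ) - a) * c.cost e s w, r.2 - ((c.fl b : ℤ) - c.fl a) * c.cost e s w)

/-- exponent of the cell: `AB.1 n / 2 + AB.2 p` -/
def Cell.AB (c : Cell) : ℤ × ℤ :=
  let r := c.go 0 c.e0 ((c.fl 17 : ℤ) - c.fl 6) ((c.fl 17 : ℤ) - c.fl 16) c.od
  (r.1 + 4 * c.mu, r.2)

/-- the factorial part: `2 ∑_{i < 2n} ⌊i/p⌋ = sf.1 n + sf.2 p` -/
def Cell.sf (c : Cell) : ℤ × ℤ := (4 * (c.fl 4 : ℤ), - ((c.fl 4 : ℤ) * (c.fl 4 + 1)))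

/-- validity of a cell -/
def Cell.ok (c : Cell) : Bool :=
  decide (0 < c.u0) && decide (0 < c.v0) && decide (0 < c.u1) && decide (0 < c.v1) &&
  decide (c.u0 * c.v1 < c.u1 * c.v0) &&
  ([1, 2, 4, 5, 6, 7, 8, 9, 16, 17].all fun a => decide (a * c.v0 ≤ (c.fl a + 1) * (2 * c.u0))) &&
  (c.od.isPerm [1, 2, 6, 7, 8, 16, 17]) &&
  ((List.zip c.od (c.od.drop 1)).all fun x =>
    decide (0 ≤ ((x.2 : ℤ) - x.1) * c.v0 - 2 * ((c.fl x.2 : ℤ) - c.fl x.1) * c.u0) &&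
    decide (0 ≤ ((x.2 : ℤ) - x.1) * c.v1 - 2 * ((c.fl x.2 : ℤ) - c.fl x.1) * c.u1)) &&
  (c.full || decide (2 * (c.fl 5 : ℤ) - 2 * (c.fl 9 : ℤ) ≤ c.mu)) &&
  (!c.ref || decide (11 * c.v0 ≤ 4 * c.u0))

/-- limit for a cell -/
def Cell.lim (c : Cell) : ℚ :=
  ((c.AB.1 : ℚ) / 2 + (c.sf.1 : ℚ)) * ((c.u1 : ℚ) / c.v1 - (c.u0 : ℚ) / c.v0) +
    ((c.AB.2 + c.sf.2 : ℤ) : ℚ) * (((c.u1 : ℚ) / c.v1) ^ 2 - ((c.u0 : ℚ) / c.v0) ^ 2) / 2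

/-! ### C. p-adic size of the linear form -/

def StC1 : Prop := ∀ {n p : ℕ} [Fact p.Prime] (_ : 1 ≤ n) (_ : 9 * n < p ^ 2) (E : ℚ[X]) {k : ℕ}
  (_ : k ∈ sF n) (A : ℚ) (_ : 0 ≤ A) (_ : PB p (p : ℚ) A (TS (-(k : ℚ)) E)) (i : ℕ),
  padicNorm p (pa (sF n) (mF n) (PF n * E) k i) ≤ (p : ℚ) ^ (-eF n p k - i : ℤ) * A

def StC1i : Prop := ∀ {n p : ℕ} [Fact p.Prime] (_ : 1 ≤ n) (E : ℚ[X]) {k : ℕ}
  (_ : k ∈ sF n) (A : ℚ) (_ : 0 ≤ A) (_ : PB p 1 A (TS (-(k : ℚ)) E)) (i : ℕ)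
  (_ : ∀ k' ∈ sF n, k' ≠ k → ¬ (p : ℤ) ∣ (k' : ℤ) - k),
  padicNorm p (pa (sF n) (mF n) (PF n * E) k i) ≤ padicNorm p (cF n) * A

/-- for each pole `k`: general bound, isolated and unhit, unhit, or simple and killed by `E` -/
def StC2 : Prop := ∀ {n p : ℕ} [Fact p.Prime] (_ : 1 ≤ n) (_ : 9 * n < p ^ 2) (q : ℕ) (x : ℚ)
  (_ : QI q x) (E : ℚ[X]) (W : ℚ) (_ : 0 ≤ W) (A : ℕ → ℚ) (_ : ∀ k, 0 ≤ A k)
  (_ : ∀ k ∈ sF n, PB p (p : ℚ) (A k) (TS (-(k : ℚ)) E))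
  (_ : ∀ k ∈ sF n, PB p 1 1 (TS (-(k : ℚ)) E))
  (_ : ∀ k ∈ sF n, (p : ℚ) ^ (1 - eF n p k) * A k ≤ W ∨
    (padicNorm p (cF n) ≤ W ∧ k < 3 * n + 1 + p ∧ ∀ k' ∈ sF n, k' ≠ k → ¬ (p : ℤ) ∣ (k' : ℤ) - k) ∨
    (k < 3 * n + 1 + p ∧ (p : ℚ) ^ (-1 - eF n p k) * A k ≤ W) ∨
    (mF n k = 1 ∧ E.eval (-(k : ℚ)) = 0)),
  padicNorm p ((q : ℚ) * xf n x (PF n * E)) ≤ W

def StC3 : Prop := ∀ {n p : ℕ} [Fact p.Prime] (_ : 1 ≤ n) (q : ℕ) (x : ℚ) (_ : QI q x)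
  (E : ℚ[X]) (A : ℚ) (_ : 0 ≤ A)
  (_ : ∀ k ∈ sF n, PB p ((14 * n + 1 : ℕ) : ℚ) A (TS (-(k : ℚ)) E)),
  padicNorm p ((q : ℚ) * xf n x (PF n * E)) ≤ ((14 * n + 1 : ℕ) : ℚ) ^ 40 * A

/-! ### D. determinant, p-adic -/

/-- `S`: classes with the usual charges; `T`: refined classes, all of whose poles are unhit except for one
simple pole `σ κ` -/
def StD3 : Prop := ∀ {n p : ℕ} [Fact p.Prime] (_ : 1 ≤ n) (_ : 9 * n < p ^ 2) (q : ℕ) (x : ℚ)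
  (_ : QI q x) (m : ℕ) (μ : ℤ) (S T : Finset ℕ) (_ : S ⊆ Finset.range p) (_ : T ⊆ Finset.range p)
  (_ : Disjoint S T) (σ : ℕ → ℕ) (_ : ∀ κ ∈ T, σ κ % p = κ)
  (_ : ∀ k ∈ sF n, k % p ∈ S ∨
    (k % p ∈ T ∧ ((k = σ (k % p) ∧ mF n k = 1) ∨ k < 3 * n + 1 + p)) ∨
    (padicNorm p (cF n) ≤ (p : ℚ) ^ μ ∧ k < 3 * n + 1 + p ∧
      ∀ k' ∈ sF n, k' ≠ k → ¬ (p : ℤ) ∣ (k' : ℤ) - k)),
  padicNorm p ((q : ℚ) ^ m * DET n x m) ≤ (p : ℚ) ^ ((m : ℤ) * μ + ∑ κ ∈ S, TT (1 - eF n p κ - μ) +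
    ∑ κ ∈ T, TR (1 - eF n p κ - μ))

def StD3l : Prop := ∀ {n p : ℕ} [Fact p.Prime] (_ : 1 ≤ n) (_ : 9 * n < p ^ 2) (_ : 11 * n ≤ 2 * p) (q : ℕ)
  (x : ℚ) (_ : QI q x) (m : ℕ), padicNorm p ((q : ℚ) ^ m * DET n x m) ≤ 1

def StD4m : Prop := ∀ {n p : ℕ} [Fact p.Prime] (_ : 1 ≤ n) (_ : 14 * n < p ^ 2) (q : ℕ) (x : ℚ)
  (_ : QI q x), padicNorm p ((q : ℚ) ^ (2 * n) * DET n x (2 * n)) ≤
    ((p : ℚ) ^ 3) ^ (2 * n) * ∏ i ∈ Finset.range (2 * n), padicNorm p ((i.factorial : ℕ) : ℚ) ^ 2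

def StD4c : Prop := ∀ {n p : ℕ} [Fact p.Prime] (_ : 1 ≤ n) (q : ℕ) (x : ℚ)
  (_ : QI q x), padicNorm p ((q : ℚ) ^ (2 * n) * DET n x (2 * n)) ≤
    (((14 * n + 1 : ℕ) : ℚ) ^ 40) ^ (2 * n) *
      ∏ i ∈ Finset.range (2 * n), padicNorm p ((i.factorial : ℕ) : ℚ) ^ 2

/-! ### E. cells -/

def StE1 : Prop := ∀ {c : Cell} (_ : c.ok = true) {n p : ℕ} (_ : 0 < p) (_ : c.u0 * n < p * c.v0)
  (_ : p * c.v1 ≤ c.u1 * n) {a : ℕ} (_ : a ∈ [1, 2, 4, 5, 6, 7, 8, 9, 16, 17]), a * n / 2 / p = c.fl a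

def StE2 : Prop := ∀ {c : Cell} (_ : c.ok = true), ∃ M : ℤ, ∀ {n p : ℕ} (_ : 1 ≤ n) (_ : p.Prime)
  (_ : c.u0 * n < p * c.v0) (_ : p * c.v1 ≤ c.u1 * n) (f : ℕ → ℤ) (K : ℤ) (_ : 0 ≤ K) (_ : f 0 ≤ K)
  (_ : ∀ r, 1 ≤ r → r < p → f r ≤ c.cost (eF n p r) ((cnt p (3 * n + 1) (17 * n / 2) r : ℕ) : ℤ)
    ((cnt p (8 * n + 1) (17 * n / 2) r : ℕ) : ℤ)),
  2 * ∑ r ∈ Finset.range p, f r ≤ (c.AB.1 - 4 * c.mu) * n + 2 * c.AB.2 * p + 2 * K + M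

def StE4 : Prop := ∀ c : Cell, c.ok = true → ∃ K0 : ℝ, ∀ n : ℕ, 1 ≤ n → ∀ p : ℕ, p.Prime →
  9 * n < p ^ 2 → c.u0 * n < p * c.v0 → p * c.v1 ≤ c.u1 * n → ∀ (q : ℕ) (x : ℚ), QI q x →
  ((padicNorm p ((q : ℚ) ^ (2 * n) * DET n x (2 * n)) : ℚ) : ℝ) ≤
    (p : ℝ) ^ ((c.AB.1 : ℝ) / 2 * n + c.AB.2 * p + K0)

/-- chain of cells from `u / v` to `6` -/
def PMchk : ℕ → ℕ → List Cell → Bool
  | u, v, [] => decide (0 < v) && decide (u = 6 * v)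
  | u, v, c :: l => decide (0 < v) && decide (0 < c.v0) && decide (0 < c.v1) &&
      decide (c.u0 * v = u * c.v0) && decide (c.u0 * c.v1 ≤ c.u1 * c.v0) && PMchk c.u1 c.v1 l

/-! ### F. sums over primes -/

def StF4 : Prop := ∀ {c : Cell}, c.ok = true → ∀ {n p : ℕ}, 1 ≤ n → 0 < p → c.u0 * n < p * c.v0 →
  p * c.v1 ≤ c.u1 * n →
  ((2 * ∑ i ∈ Finset.range (2 * n), (i / p) : ℕ) : ℤ) = c.sf.1 * n + c.sf.2 * p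

def StF5 : Prop := ∀ᶠ n : ℕ in atTop,
  ∑ p ∈ (Finset.range (n + 1)).filter (fun p : ℕ => p.Prime ∧ 80 * p ≤ n),
    2 * ∑ i ∈ Finset.range (2 * n), Real.log ((padicNorm p ((i.factorial : ℕ) : ℚ) : ℚ) : ℝ) ≤
  - (2 * ∑ i ∈ Finset.range (2 * n), Real.log (i.factorial : ℝ)) +
    ∑ p ∈ PR (1 / 80) 6 n, ((2 * ∑ i ∈ Finset.range (2 * n), (i / p) : ℕ) : ℝ) * Real.log p

/-- `4 log 2 - 6 = -3.2274` -/
def StF6 : Prop := ∀ ε : ℝ, 0 < ε → ∀ᶠ n : ℕ in atTop,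
  4 * (n : ℝ) ^ 2 * Real.log n - (3228 / 1000 + ε) * (n : ℝ) ^ 2 ≤
    2 * ∑ i ∈ Finset.range (2 * n), Real.log (i.factorial : ℝ)

def StF7 : Prop := ∀ ε : ℝ, 0 < ε → ∀ᶠ n : ℕ in atTop,
  2 * (n : ℝ) * ∑ p ∈ (Finset.range (n + 1)).filter (fun p : ℕ => p.Prime ∧ p ^ 2 ≤ 14 * n),
      40 * Real.log (14 * n + 1) +
  6 * (n : ℝ) * ∑ p ∈ (Finset.range (n + 1)).filter (fun p : ℕ => p.Prime ∧ 80 * p ≤ n), Real.log p ≤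
  (6 / 80 + ε) * (n : ℝ) ^ 2

/-- the p-adic part (uniform in `q` and `x`); `10.0084 + 6/80 + 3.228 = 13.3114` -/
def StP : Prop := ∀ ε : ℝ, 0 < ε → ∀ᶠ n : ℕ in atTop, ∀ (q : ℕ) (x : ℚ), QI q x →
  DET n x (2 * n) ≠ 0 →
  ∑ p ∈ (Finset.range (6 * n + 1)).filter Nat.Prime,
    Real.log ((padicNorm p ((q : ℚ) ^ (2 * n) * DET n x (2 * n)) : ℚ) : ℝ) ≤
  -(4 * (n : ℝ) ^ 2 * Real.log n) + (13312 / 1000 + ε) * (n : ℝ) ^ 2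

def StPl : Prop := ∀ (q : ℕ) (x : ℚ), QI q x → ∀ n : ℕ, 1 ≤ n → ∀ p : ℕ, p.Prime → 6 * n < p →
  padicNorm p ((q : ℚ) ^ (2 * n) * DET n x (2 * n)) ≤ 1

/-- from the cells to `StP` (`L`: list of cells) -/
def StPM : Prop := ∀ (L : List Cell), PMchk 1 80 L = true → L.all Cell.ok = true →
  (L.map Cell.lim).sum ≤ 10009 / 1000 → StD4m → StD4c → StE4 → StF4 → StF5 → StF6 → StF7 → StP

end Pool.Agent.TH817.Z3
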