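import Pool.Agent.TH817.Z3.StmH
import Pool.Agent.H336R2.HD.A5

/-!
# Irrationality exponent of `ζ(3)` (second design): the conclusion, with parameters

`κ`: quality of the approximation, `A`: archimedean exponent, `P`: `p`-adic exponent, `c < (A - P) / 2`,
`μ > κ / c`.
-/

open Polynomial Pool.Agent.H337R2 Pool.Agent.TH817.Z3 Filter Topology

namespace Pool.Agent.TH817.Z3

noncomputable section

/-- the archimedean part, with parameters -/
def StAMg (κ A : ℝ) : Prop := ∀ᶠ n : ℕ in atTop, ∀ x : ℚ,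
  |(x : ℝ) - zr 3| ≤ Real.exp (-(κ * n)) → DET n x (2 * n) ≠ 0 →
  Real.log |((DET n x (2 * n) : ℚ) : ℝ)| ≤ 4 * (n : ℝ) ^ 2 * Real.log n - A * (n : ℝ) ^ 2

/-- the `p`-adic part, with a parameter -/
def StPg (P : ℝ) : Prop := ∀ ε : ℝ, 0 < ε → ∀ᶠ n : ℕ in atTop, ∀ (q : ℕ) (x : ℚ), QI q x →
  DET n x (2 * n) ≠ 0 →
  ∑ p ∈ (Finset.range (6 * n + 1)).filter Nat.Prime,
    Real.log ((padicNorm p ((q : ℚ) ^ (2 * n) * DET n x (2 * n)) : ℚ) : ℝ) ≤
  -(4 * (n : ℝ) ^ 2 * Real.log n) + (P + ε) * (n : ℝ) ^ 2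

/-- the conclusion, with a parameter: the irrationality exponent of `ζ(3)` is at most `μ` -/
def StZg (μ : ℝ) : Prop := ∃ c : ℝ, 0 < c ∧ ∀ (a : ℤ) (b : ℕ), 1 ≤ b →
  c / (b : ℝ) ^ μ ≤ |zr 3 - (a : ℝ) / b|

/-- no good approximation with a large denominator -/
theorem large_den {κ A P c μ : ℝ} (hc : 1 ≤ c) (hc20 : c ≤ 20) (hcA : 2 * c < A - P) (hκ : 0 < κ)
    (hμ : κ < μ * c) (hA : StAMg κ A) (hP : StPg P) (hPl : StPl) (hH : StH6) (hZ : StZ1) :
    ∃ b0 : ℕ, 1 ≤ b0 ∧ ∀ (a : ℤ) (b : ℕ), b0 ≤ b →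
      ((b : ℝ) ^ μ)⁻¹ < |zr 3 - (a : ℝ) / b| := by
  have hc0 : 0 < c := by linarith
  obtain ⟨p0, hp0⟩ := hH
  obtain ⟨L0, hL0⟩ := hZ ((μ * c - κ) / κ) (div_pos (by linarith) hκ)
  have hev := hA.and (hP ((A - P - 2 * c) / 2) (by linarith))
  rw [eventually_atTop] at hev
  obtain ⟨n0, hn0⟩ := hev
  obtain ⟨b0, hb0⟩ := exists_nat_gt (Real.exp (20 * (|L0| + n0 + p0 + 1)))
  refine ⟨b0, ?_, fun a b hb => ?_⟩
  · have : (0 : ℝ) < b0 := (Real.exp_pos _).trans hb0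
    have : 0 < b0 := by exact_mod_cast this
    omega
  by_contra hcon
  push Not at hcon
  have hbR : Real.exp (20 * (|L0| + n0 + p0 + 1)) < b := hb0.trans_le (by exact_mod_cast hb)
  have hbpos : (0 : ℝ) < b := (Real.exp_pos _).trans hbR
  have hb1 : 0 < b := by exact_mod_cast hbpos
  set L : ℝ := Real.log b with hL
  have hLbig : 20 * (|L0| + n0 + p0 + 1) < L := by
    rw [hL]
    exact (Real.lt_log_iff_exp_lt hbpos).2 hbR
  have hn0c : (0 : ℝ) ≤ n0 := Nat.cast_nonneg _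
  have hp0c : (0 : ℝ) ≤ p0 := Nat.cast_nonneg _
  have hL0c : (0 : ℝ) ≤ |L0| := abs_nonneg _
  have hL0d : L0 ≤ |L0| := le_abs_self _
  have hLpos : 0 < L := by linarith
  have hLL : |L0| + n0 + p0 + 1 < L / c := by
    rw [lt_div_iff₀ hc0]
    nlinarith
  obtain ⟨n, hnp, hmod, hnL, hnU⟩ := hL0 (L / c) (by linarith)
  have : Fact n.Prime := ⟨hnp⟩
  have hnR : |L0| + n0 + p0 + 1 < n := by linarith
  have hnn0 : n0 ≤ n := by
    have : (n0 : ℝ) ≤ n := by linarith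
    exact_mod_cast this
  have hnp0 : p0 ≤ n := by
    have : (p0 : ℝ) ≤ n := by linarith
    exact_mod_cast this
  have hn1 : 1 ≤ n := hnp.one_lt.le
  have hnpos : (0 : ℝ) < n := by linarith
  -- the rational number
  set x : ℚ := (a : ℚ) / b with hx
  have hbq : (b : ℚ) ≠ 0 := by exact_mod_cast hb1.ne'
  have hxR : (x : ℝ) = (a : ℝ) / b := by rw [hx]; push_cast; rfl
  have hu : QI b x := ⟨hb1, a, by rw [hx]; field_simp⟩
  have hDne : DET n x (2 * n) ≠ 0 := hp0 n hnp0 hnp hmod x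
  obtain ⟨hAn, hPn⟩ := hn0 n hnn0
  -- the distance
  have hdist : |(x : ℝ) - zr 3| ≤ Real.exp (-(κ * n)) := by
    rw [abs_sub_comm, hxR]
    refine hcon.trans ?_
    have h1 : ((b : ℝ) ^ μ)⁻¹ = Real.exp (-(μ * L)) := by
      rw [Real.exp_neg, Real.rpow_def_of_pos hbpos, mul_comm]
    rw [h1]
    apply Real.exp_le_exp.2
    have h3 : (n : ℝ) ≤ (1 + (μ * c - κ) / κ) * (L / c) := hnU
    have h4 : κ * n ≤ κ * ((1 + (μ * c - κ) / κ) * (L / c)) :=
      mul_le_mul_of_nonneg_left h3 hκ.le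
    have h5 : κ * ((1 + (μ * c - κ) / κ) * (L / c)) = μ * L := by
      field_simp
      ring
    linarith
  -- archimedean bound
  have hArch := hAn x hdist hDne
  have hP1 := hPn b x hu hDne
  -- product formula
  set z : ℚ := (b : ℚ) ^ (2 * n) * DET n x (2 * n) with hz
  have hz0 : z ≠ 0 := mul_ne_zero (pow_ne_zero _ hbq) hDne
  set S : Finset ℕ := (Finset.range (6 * n + 1)).filter Nat.Prime with hS
  have hpf := Pool.Agent.H336R2.HD.A5_prod_formula z hz0 S (fun p hp => (Finset.mem_filter.1 hp).2)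
    (fun p => ((padicNorm p z : ℚ) : ℝ)) (fun p _ => le_rfl) (fun p hp hpS => by
      rw [hS, Finset.mem_filter, Finset.mem_range] at hpS
      have h1 : 6 * n < p := by
        by_contra h; exact hpS ⟨by omega, hp⟩
      exact hPl b x hu n hn1 p hp h1)
  have hpos : ∀ p ∈ S, 0 < ((padicNorm p z : ℚ) : ℝ) := by
    intro p hp
    have : Fact p.Prime := ⟨(Finset.mem_filter.1 hp).2⟩
    have h1 : 0 < padicNorm p z := lt_of_le_of_ne (padicNorm.nonneg _) (Ne.symm (padicNorm.nonzero hz0))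
    exact_mod_cast h1
  have hprodpos : 0 < ∏ p ∈ S, ((padicNorm p z : ℚ) : ℝ) := Finset.prod_pos hpos
  have hzabs : 0 < |(z : ℝ)| := abs_pos.2 (by exact_mod_cast hz0)
  have hlog := Real.log_nonneg hpf
  rw [Real.log_mul hzabs.ne' hprodpos.ne', Real.log_prod (fun p hp => (hpos p hp).ne')] at hlog
  have hzlog : Real.log |(z : ℝ)| = 2 * n * L + Real.log |((DET n x (2 * n) : ℚ) : ℝ)| := by
    rw [hz]
    push_cast
    rw [abs_mul, Real.log_mul (abs_pos.2 (by positivity)).ne' (abs_pos.2 (by exact_mod_cast hDne)).ne',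
      abs_of_pos (by positivity), Real.log_pow]
    push_cast
    ring
  have h1 : 2 * n * L ≤ 2 * c * (n : ℝ) ^ 2 := by
    have : L ≤ c * n := by
      have h6 : L / c < n := hnL
      rw [div_lt_iff₀ hc0] at h6
      linarith
    calc 2 * n * L ≤ 2 * n * (c * n) := by gcongr
      _ = _ := by ring
  have h2 : (0 : ℝ) < (n : ℝ) ^ 2 := by positivity
  nlinarith

/-- the conclusion, with parameters -/
theorem Z_of {κ A P c μ : ℝ} (hc : 1 ≤ c) (hc20 : c ≤ 20) (hcA : 2 * c < A - P) (hκ : 0 < κ)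
    (hμ : κ < μ * c) (hA : StAMg κ A) (hP : StPg P) (hPl : StPl) (hH : StH6) (hZ : StZ1) :
    StZg μ := by
  obtain ⟨b0, hb0, h⟩ := large_den hc hc20 hcA hκ hμ hA hP hPl hH hZ
  have hb0R : (0 : ℝ) < b0 := by exact_mod_cast hb0
  refine ⟨((b0 : ℝ) ^ μ)⁻¹, by positivity, fun a b hb => ?_⟩
  have hbR : (0 : ℝ) < b := by exact_mod_cast hb
  have h1 := h (a * b0) (b * b0) (Nat.le_mul_of_pos_left b0 hb)
  push_cast at h1
  rw [mul_div_mul_right _ _ hb0R.ne'] at h1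
  refine le_trans (le_of_eq ?_) h1.le
  rw [Real.mul_rpow hbR.le hb0R.le, mul_inv, div_eq_mul_inv]
  ring

end

end Pool.Agent.TH817.Z3
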