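import Pool.Agent.TH817.Z3.C1
import Pool.Agent.TH817.Z3.C2
import Pool.Agent.TH817.Z3.D3
import Pool.Agent.TH817.Z3.E4
import Pool.Agent.TH817.Z3.F3
import Pool.Agent.TH817.Z3.Z2
import Pool.Agent.TH986.Z3.C3
import Pool.Agent.TH902.Z3.E2
import Pool.Agent.TH879.Z3.F4
import Pool.Agent.TH615.Z3.D4
import Pool.Agent.TH615.Z3.PM
import Pool.Agent.TH731.Z3.H2
import Pool.Agent.TH416.Z3.H3
import Pool.Agent.TH989.Z3.H4
import Pool.Agent.TH740.Z3.H5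
import Pool.Agent.TH740.Z3.H6
import Pool.Agent.TH986.Z3.Z1
import Pool.Agent.TH250.Z3.Stm

/-!
# Irrationality exponent of `ζ(3)` at most `4.68`: assembly
-/

namespace Pool.Agent.TH817.Z3

theorem hC2 : StC2 := C.C2_of C.C1_pa C.C1_pa_int

theorem hP : StP :=
  Pool.Agent.TH615.Z3.PM cells E5_chk E5_ok F3_total (Pool.Agent.TH615.Z3.D4m_of hC2)
    (Pool.Agent.TH615.Z3.D4c_of Pool.Agent.TH986.Z3.C3)
    (E.E4_of (D.D3_of hC2) Pool.Agent.TH902.Z3.E1 Pool.Agent.TH902.Z3.E2)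
    Pool.Agent.TH879.Z3.F4 Pool.Agent.TH879.Z3.F5 Pool.Agent.TH879.Z3.F6 Pool.Agent.TH879.Z3.F7

theorem hPl : StPl := Pool.Agent.TH615.Z3.Pl_of (D.D3l_of hC2)

theorem hH3 : StH3 :=
  Pool.Agent.TH416.Z3.H3_of C.C1_pa Pool.Agent.TH731.Z3.H1 Pool.Agent.TH731.Z3.H2

theorem hH4 : StH4 := Pool.Agent.TH989.Z3.H4_of C.C1_pa

theorem hH6 : StH6 := Pool.Agent.TH740.Z3.H6_of hH3 hH4 Pool.Agent.TH740.Z3.L5.H5'

/-- **irrationality exponent of `ζ(3)` at most `4.68`**, from the archimedean bound -/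
theorem Z_pre (hAM : Pool.Agent.TH250.Z3.StAM) : StZg ((468 : ℝ) / 100) :=
  Z_of (κ := 31078 / 1000) (A := 26596 / 1000) (P := 13312 / 1000) (c := 66415 / 10000)
    (by norm_num) (by norm_num) (by norm_num) (by norm_num) (by norm_num) hAM hP hPl hH6
    Pool.Agent.TH986.Z3.Z1

end Pool.Agent.TH817.Z3
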