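import Pool.Agent.TH817.Z3.Stm

/-!
# The cells: `(1/80, 6]`
-/

namespace Pool.Agent.TH817.Z3

def cellsP0 : List Cell := [
⟨1, 80, 17, 1358, true, false, -318, [17, 16, 8, 7, 6, 2, 1]⟩,
⟨17, 1358, 8, 639, true, false, -318, [16, 8, 7, 6, 2, 1, 17]⟩,
⟨8, 639, 15, 1198, true, false, -318, [8, 7, 6, 2, 17, 1, 16]⟩,
⟨15, 1198, 7, 559, true, false, -318, [8, 7, 6, 17, 2, 16, 1]⟩,
⟨7, 559, 11, 878, true, false, -318, [8, 7, 6, 17, 16, 2, 1]⟩,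
⟨11, 878, 5, 399, true, false, -318, [8, 7, 17, 6, 16, 2, 1]⟩,
⟨5, 399, 9, 718, true, false, -318, [8, 17, 7, 16, 6, 2, 1]⟩,
⟨9, 718, 17, 1356, true, false, -316, [17, 8, 16, 7, 6, 2, 1]⟩,
⟨17, 1356, 4, 319, true, false, -316, [8, 16, 7, 6, 2, 1, 17]⟩,
⟨4, 319, 15, 1196, true, false, -316, [7, 6, 2, 17, 1, 16, 8]⟩,
⟨15, 1196, 7, 558, true, false, -316, [7, 6, 17, 2, 16, 1, 8]⟩,
⟨7, 558, 3, 239, true, false, -316, [6, 17, 16, 2, 8, 1, 7]⟩,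
⟨3, 239, 17, 1354, true, false, -316, [17, 16, 8, 2, 7, 1, 6]⟩,
⟨17, 1354, 11, 876, true, false, -316, [16, 8, 2, 7, 1, 6, 17]⟩,
⟨11, 876, 8, 637, true, false, -316, [16, 8, 2, 7, 1, 17, 6]⟩,
⟨8, 637, 5, 398, true, false, -316, [8, 2, 7, 17, 1, 6, 16]⟩,
⟨5, 398, 7, 557, true, false, -318, [8, 17, 7, 2, 16, 6, 1]⟩,
⟨7, 557, 9, 716, true, false, -318, [8, 17, 7, 16, 2, 6, 1]⟩,
⟨9, 716, 17, 1352, true, false, -316, [17, 8, 16, 7, 2, 6, 1]⟩,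
⟨17, 1352, 2, 159, true, false, -316, [8, 16, 7, 2, 6, 1, 17]⟩,
⟨2, 159, 15, 1192, true, false, -316, [7, 6, 2, 17, 1, 16, 8]⟩,
⟨15, 1192, 11, 874, true, false, -316, [7, 6, 17, 2, 16, 1, 8]⟩,
⟨11, 874, 7, 556, true, false, -316, [7, 17, 6, 2, 16, 1, 8]⟩,
⟨7, 556, 17, 1350, true, false, -316, [17, 6, 16, 2, 8, 1, 7]⟩,
⟨17, 1350, 5, 397, true, false, -316, [6, 16, 2, 8, 1, 7, 17]⟩,
⟨5, 397, 8, 635, true, false, -316, [16, 6, 2, 8, 1, 17, 7]⟩,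
⟨8, 635, 3, 238, true, false, -316, [6, 2, 8, 17, 1, 7, 16]⟩,
⟨3, 238, 17, 1348, true, false, -314, [17, 8, 2, 16, 7, 1, 6]⟩,
⟨17, 1348, 7, 555, true, false, -314, [8, 2, 16, 7, 1, 6, 17]⟩,
⟨7, 555, 11, 872, true, false, -314, [8, 16, 2, 7, 1, 6, 17]⟩,
⟨11, 872, 4, 317, true, false, -314, [8, 16, 2, 7, 1, 17, 6]⟩,
⟨4, 317, 5, 396, true, false, -314, [2, 7, 17, 1, 6, 16, 8]⟩,
⟨5, 396, 17, 1346, true, false, -316, [17, 7, 2, 16, 6, 1, 8]⟩,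
⟨17, 1346, 7, 554, true, false, -316, [7, 2, 16, 6, 1, 8, 17]⟩,
⟨7, 554, 8, 633, true, false, -316, [16, 2, 6, 8, 1, 17, 7]⟩,
⟨8, 633, 9, 712, true, false, -316, [2, 6, 8, 17, 1, 7, 16]⟩,
⟨9, 712, 11, 870, true, false, -314, [2, 6, 17, 8, 1, 16, 7]⟩,
⟨11, 870, 15, 1186, true, false, -314, [2, 17, 6, 8, 1, 16, 7]⟩,
⟨15, 1186, 17, 1344, true, false, -314, [17, 2, 6, 8, 16, 1, 7]⟩,
⟨17, 1344, 1, 79, true, false, -314, [2, 6, 8, 16, 1, 7, 17]⟩,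
⟨1, 79, 17, 1342, true, false, -314, [17, 7, 1, 16, 8, 6, 2]⟩,
⟨17, 1342, 15, 1184, true, false, -314, [7, 1, 16, 8, 6, 2, 17]⟩,
⟨15, 1184, 11, 868, true, false, -314, [7, 16, 1, 8, 6, 17, 2]⟩,
⟨11, 868, 9, 710, true, false, -314, [7, 16, 1, 8, 17, 6, 2]⟩,
⟨9, 710, 8, 631, true, false, -312, [16, 7, 1, 17, 8, 6, 2]⟩,
⟨8, 631, 7, 552, true, false, -312, [7, 17, 1, 8, 6, 2, 16]⟩,
⟨7, 552, 17, 1340, true, false, -312, [17, 8, 1, 6, 16, 2, 7]⟩,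
⟨17, 1340, 5, 394, true, false, -312, [8, 1, 6, 16, 2, 7, 17]⟩,
⟨5, 394, 4, 315, true, false, -314, [8, 16, 6, 1, 17, 7, 2]⟩,
⟨4, 315, 11, 866, true, false, -314, [6, 17, 1, 7, 2, 16, 8]⟩,
⟨11, 866, 7, 551, true, false, -314, [17, 6, 1, 7, 2, 16, 8]⟩,
⟨7, 551, 17, 1338, true, false, -314, [17, 6, 1, 7, 16, 2, 8]⟩,
⟨17, 1338, 3, 236, true, false, -314, [6, 1, 7, 16, 2, 8, 17]⟩,
⟨3, 236, 8, 629, true, false, -312, [16, 7, 1, 17, 8, 2, 6]⟩,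
⟨8, 629, 5, 393, true, false, -312, [7, 17, 1, 8, 2, 6, 16]⟩,
⟨5, 393, 17, 1336, true, false, -312, [17, 7, 1, 8, 2, 16, 6]⟩,
⟨17, 1336, 7, 550, true, false, -312, [7, 1, 8, 2, 16, 6, 17]⟩,
⟨7, 550, 11, 864, true, false, -312, [8, 1, 16, 2, 6, 17, 7]⟩,
⟨11, 864, 15, 1178, true, false, -312, [8, 1, 16, 2, 17, 6, 7]⟩,
⟨15, 1178, 2, 157, true, false, -312, [8, 16, 1, 17, 2, 6, 7]⟩,
⟨2, 157, 17, 1334, true, false, -312, [17, 1, 6, 2, 7, 16, 8]⟩,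
⟨17, 1334, 9, 706, true, false, -312, [1, 6, 2, 7, 16, 8, 17]⟩,
⟨9, 706, 7, 549, true, false, -310, [1, 6, 2, 16, 7, 17, 8]⟩,
⟨7, 549, 5, 392, true, false, -310, [1, 6, 16, 2, 7, 17, 8]⟩,
⟨5, 392, 8, 627, true, false, -312, [16, 6, 1, 17, 7, 2, 8]⟩,
⟨8, 627, 11, 862, true, false, -312, [6, 17, 1, 7, 2, 8, 16]⟩,
⟨11, 862, 17, 1332, true, false, -312, [17, 6, 1, 7, 2, 8, 16]⟩,
⟨17, 1332, 3, 235, true, false, -312, [6, 1, 7, 2, 8, 16, 17]⟩,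
⟨3, 235, 7, 548, true, false, -312, [7, 1, 8, 2, 16, 17, 6]⟩,
⟨7, 548, 15, 1174, true, false, -312, [8, 1, 16, 2, 17, 6, 7]⟩,
⟨15, 1174, 4, 313, true, false, -312, [8, 16, 1, 17, 2, 6, 7]⟩,
⟨4, 313, 17, 1330, true, false, -312, [17, 1, 2, 6, 7, 16, 8]⟩,
⟨17, 1330, 9, 704, true, false, -312, [1, 2, 6, 7, 16, 8, 17]⟩,
⟨9, 704, 5, 391, true, false, -310, [1, 2, 6, 16, 7, 17, 8]⟩,
⟨5, 391, 11, 860, true, false, -310, [1, 2, 16, 6, 17, 7, 8]⟩,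
⟨11, 860, 7, 547, true, false, -310, [1, 2, 16, 17, 6, 7, 8]⟩,
⟨7, 547, 15, 1172, true, false, -310, [1, 16, 2, 17, 6, 7, 8]⟩,
⟨15, 1172, 8, 625, true, false, -310, [16, 1, 17, 2, 6, 7, 8]⟩,
⟨8, 625, 17, 1328, true, false, -310, [17, 1, 2, 6, 7, 8, 16]⟩,
⟨17, 1328, 1, 78, true, false, -310, [1, 2, 6, 7, 8, 16, 17]⟩,
⟨1, 78, 17, 1324, true, false, -310, [17, 16, 8, 7, 6, 2, 1]⟩,
⟨17, 1324, 8, 623, true, false, -310, [16, 8, 7, 6, 2, 1, 17]⟩,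
⟨8, 623, 15, 1168, true, false, -310, [8, 7, 6, 2, 17, 1, 16]⟩,
⟨15, 1168, 7, 545, true, false, -310, [8, 7, 6, 17, 2, 16, 1]⟩,
⟨7, 545, 11, 856, true, false, -310, [8, 7, 6, 17, 16, 2, 1]⟩,
⟨11, 856, 5, 389, true, false, -310, [8, 7, 17, 6, 16, 2, 1]⟩,
⟨5, 389, 9, 700, true, false, -310, [8, 17, 7, 16, 6, 2, 1]⟩,
⟨9, 700, 17, 1322, true, false, -308, [17, 8, 16, 7, 6, 2, 1]⟩,
⟨17, 1322, 4, 311, true, false, -308, [8, 16, 7, 6, 2, 1, 17]⟩,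
⟨4, 311, 15, 1166, true, false, -308, [7, 6, 2, 17, 1, 16, 8]⟩,
⟨15, 1166, 7, 544, true, false, -308, [7, 6, 17, 2, 16, 1, 8]⟩,
⟨7, 544, 3, 233, true, false, -308, [6, 17, 16, 2, 8, 1, 7]⟩,
⟨3, 233, 17, 1320, true, false, -308, [17, 16, 8, 2, 7, 1, 6]⟩,
⟨17, 1320, 11, 854, true, false, -308, [16, 8, 2, 7, 1, 6, 17]⟩,
⟨11, 854, 8, 621, true, false, -308, [16, 8, 2, 7, 1, 17, 6]⟩,
⟨8, 621, 5, 388, true, false, -308, [8, 2, 7, 17, 1, 6, 16]⟩,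
⟨5, 388, 7, 543, true, false, -310, [8, 17, 7, 2, 16, 6, 1]⟩,
⟨7, 543, 9, 698, true, false, -310, [8, 17, 7, 16, 2, 6, 1]⟩,
⟨9, 698, 17, 1318, true, false, -308, [17, 8, 16, 7, 2, 6, 1]⟩,
⟨17, 1318, 2, 155, true, false, -308, [8, 16, 7, 2, 6, 1, 17]⟩,
⟨2, 155, 15, 1162, true, false, -308, [7, 6, 2, 17, 1, 16, 8]⟩,
⟨15, 1162, 11, 852, true, false, -308, [7, 6, 17, 2, 16, 1, 8]⟩,
⟨11, 852, 7, 542, true, false, -308, [7, 17, 6, 2, 16, 1, 8]⟩,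
⟨7, 542, 17, 1316, true, false, -308, [17, 6, 16, 2, 8, 1, 7]⟩,
⟨17, 1316, 5, 387, true, false, -308, [6, 16, 2, 8, 1, 7, 17]⟩,
⟨5, 387, 8, 619, true, false, -308, [16, 6, 2, 8, 1, 17, 7]⟩,
⟨8, 619, 3, 232, true, false, -308, [6, 2, 8, 17, 1, 7, 16]⟩,
⟨3, 232, 17, 1314, true, false, -306, [17, 8, 2, 16, 7, 1, 6]⟩,
⟨17, 1314, 7, 541, true, false, -306, [8, 2, 16, 7, 1, 6, 17]⟩,
⟨7, 541, 11, 850, true, false, -306, [8, 16, 2, 7, 1, 6, 17]⟩,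
⟨11, 850, 4, 309, true, false, -306, [8, 16, 2, 7, 1, 17, 6]⟩,
⟨4, 309, 5, 386, true, false, -306, [2, 7, 17, 1, 6, 16, 8]⟩,
⟨5, 386, 17, 1312, true, false, -308, [17, 7, 2, 16, 6, 1, 8]⟩,
⟨17, 1312, 7, 540, true, false, -308, [7, 2, 16, 6, 1, 8, 17]⟩,
⟨7, 540, 8, 617, true, false, -308, [16, 2, 6, 8, 1, 17, 7]⟩,
⟨8, 617, 9, 694, true, false, -308, [2, 6, 8, 17, 1, 7, 16]⟩,
⟨9, 694, 11, 848, true, false, -306, [2, 6, 17, 8, 1, 16, 7]⟩,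
⟨11, 848, 15, 1156, true, false, -306, [2, 17, 6, 8, 1, 16, 7]⟩,
⟨15, 1156, 17, 1310, true, false, -306, [17, 2, 6, 8, 16, 1, 7]⟩,
⟨17, 1310, 1, 77, true, false, -306, [2, 6, 8, 16, 1, 7, 17]⟩,
⟨1, 77, 17, 1308, true, false, -306, [17, 7, 1, 16, 8, 6, 2]⟩,
⟨17, 1308, 15, 1154, true, false, -306, [7, 1, 16, 8, 6, 2, 17]⟩,
⟨15, 1154, 11, 846, true, false, -306, [7, 16, 1, 8, 6, 17, 2]⟩,
⟨11, 846, 9, 692, true, false, -306, [7, 16, 1, 8, 17, 6, 2]⟩,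
⟨9, 692, 8, 615, true, false, -304, [16, 7, 1, 17, 8, 6, 2]⟩,
⟨8, 615, 7, 538, true, false, -304, [7, 17, 1, 8, 6, 2, 16]⟩,
⟨7, 538, 17, 1306, true, false, -304, [17, 8, 1, 6, 16, 2, 7]⟩,
⟨17, 1306, 5, 384, true, false, -304, [8, 1, 6, 16, 2, 7, 17]⟩,
⟨5, 384, 4, 307, true, false, -306, [8, 16, 6, 1, 17, 7, 2]⟩,
⟨4, 307, 11, 844, true, false, -306, [6, 17, 1, 7, 2, 16, 8]⟩,
⟨11, 844, 7, 537, true, false, -306, [17, 6, 1, 7, 2, 16, 8]⟩,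
⟨7, 537, 17, 1304, true, false, -306, [17, 6, 1, 7, 16, 2, 8]⟩,
⟨17, 1304, 3, 230, true, false, -306, [6, 1, 7, 16, 2, 8, 17]⟩,
⟨3, 230, 8, 613, true, false, -304, [16, 7, 1, 17, 8, 2, 6]⟩,
⟨8, 613, 5, 383, true, false, -304, [7, 17, 1, 8, 2, 6, 16]⟩,
⟨5, 383, 17, 1302, true, false, -304, [17, 7, 1, 8, 2, 16, 6]⟩,
⟨17, 1302, 7, 536, true, false, -304, [7, 1, 8, 2, 16, 6, 17]⟩,
⟨7, 536, 11, 842, true, false, -304, [8, 1, 16, 2, 6, 17, 7]⟩,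
⟨11, 842, 15, 1148, true, false, -304, [8, 1, 16, 2, 17, 6, 7]⟩,
⟨15, 1148, 2, 153, true, false, -304, [8, 16, 1, 17, 2, 6, 7]⟩,
⟨2, 153, 17, 1300, true, false, -304, [17, 1, 6, 2, 7, 16, 8]⟩,
⟨17, 1300, 9, 688, true, false, -304, [1, 6, 2, 7, 16, 8, 17]⟩,
⟨9, 688, 7, 535, true, false, -302, [1, 6, 2, 16, 7, 17, 8]⟩,
⟨7, 535, 5, 382, true, false, -302, [1, 6, 16, 2, 7, 17, 8]⟩,
⟨5, 382, 8, 611, true, false, -304, [16, 6, 1, 17, 7, 2, 8]⟩,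
⟨8, 611, 11, 840, true, false, -304, [6, 17, 1, 7, 2, 8, 16]⟩,
⟨11, 840, 17, 1298, true, false, -304, [17, 6, 1, 7, 2, 8, 16]⟩,
⟨17, 1298, 3, 229, true, false, -304, [6, 1, 7, 2, 8, 16, 17]⟩,
⟨3, 229, 7, 534, true, false, -304, [7, 1, 8, 2, 16, 17, 6]⟩,
⟨7, 534, 15, 1144, true, false, -304, [8, 1, 16, 2, 17, 6, 7]⟩,
⟨15, 1144, 4, 305, true, false, -304, [8, 16, 1, 17, 2, 6, 7]⟩,
⟨4, 305, 17, 1296, true, false, -304, [17, 1, 2, 6, 7, 16, 8]⟩,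
⟨17, 1296, 9, 686, true, false, -304, [1, 2, 6, 7, 16, 8, 17]⟩,
⟨9, 686, 5, 381, true, false, -302, [1, 2, 6, 16, 7, 17, 8]⟩,
⟨5, 381, 11, 838, true, false, -302, [1, 2, 16, 6, 17, 7, 8]⟩,
⟨11, 838, 7, 533, true, false, -302, [1, 2, 16, 17, 6, 7, 8]⟩,
⟨7, 533, 15, 1142, true, false, -302, [1, 16, 2, 17, 6, 7, 8]⟩,
⟨15, 1142, 8, 609, true, false, -302, [16, 1, 17, 2, 6, 7, 8]⟩,
⟨8, 609, 17, 1294, true, false, -302, [17, 1, 2, 6, 7, 8, 16]⟩,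
⟨17, 1294, 1, 76, true, false, -302, [1, 2, 6, 7, 8, 16, 17]⟩,
⟨1, 76, 17, 1290, true, false, -302, [17, 16, 8, 7, 6, 2, 1]⟩,
⟨17, 1290, 8, 607, true, false, -302, [16, 8, 7, 6, 2, 1, 17]⟩,
⟨8, 607, 15, 1138, true, false, -302, [8, 7, 6, 2, 17, 1, 16]⟩,
⟨15, 1138, 7, 531, true, false, -302, [8, 7, 6, 17, 2, 16, 1]⟩,
⟨7, 531, 11, 834, true, false, -302, [8, 7, 6, 17, 16, 2, 1]⟩,
⟨11, 834, 5, 379, true, false, -302, [8, 7, 17, 6, 16, 2, 1]⟩,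
⟨5, 379, 9, 682, true, false, -302, [8, 17, 7, 16, 6, 2, 1]⟩,
⟨9, 682, 17, 1288, true, false, -300, [17, 8, 16, 7, 6, 2, 1]⟩,
⟨17, 1288, 4, 303, true, false, -300, [8, 16, 7, 6, 2, 1, 17]⟩,
⟨4, 303, 15, 1136, true, false, -300, [7, 6, 2, 17, 1, 16, 8]⟩,
⟨15, 1136, 7, 530, true, false, -300, [7, 6, 17, 2, 16, 1, 8]⟩,
⟨7, 530, 3, 227, true, false, -300, [6, 17, 16, 2, 8, 1, 7]⟩,
⟨3, 227, 17, 1286, true, false, -300, [17, 16, 8, 2, 7, 1, 6]⟩,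
⟨17, 1286, 11, 832, true, false, -300, [16, 8, 2, 7, 1, 6, 17]⟩,
⟨11, 832, 8, 605, true, false, -300, [16, 8, 2, 7, 1, 17, 6]⟩,
⟨8, 605, 5, 378, true, false, -300, [8, 2, 7, 17, 1, 6, 16]⟩,
⟨5, 378, 7, 529, true, false, -302, [8, 17, 7, 2, 16, 6, 1]⟩,
⟨7, 529, 9, 680, true, false, -302, [8, 17, 7, 16, 2, 6, 1]⟩,
⟨9, 680, 17, 1284, true, false, -300, [17, 8, 16, 7, 2, 6, 1]⟩,
⟨17, 1284, 2, 151, true, false, -300, [8, 16, 7, 2, 6, 1, 17]⟩,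
⟨2, 151, 15, 1132, true, false, -300, [7, 6, 2, 17, 1, 16, 8]⟩,
⟨15, 1132, 11, 830, true, false, -300, [7, 6, 17, 2, 16, 1, 8]⟩,
⟨11, 830, 7, 528, true, false, -300, [7, 17, 6, 2, 16, 1, 8]⟩,
⟨7, 528, 17, 1282, true, false, -300, [17, 6, 16, 2, 8, 1, 7]⟩,
⟨17, 1282, 5, 377, true, false, -300, [6, 16, 2, 8, 1, 7, 17]⟩,
⟨5, 377, 8, 603, true, false, -300, [16, 6, 2, 8, 1, 17, 7]⟩,
⟨8, 603, 3, 226, true, false, -300, [6, 2, 8, 17, 1, 7, 16]⟩,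
⟨3, 226, 17, 1280, true, false, -298, [17, 8, 2, 16, 7, 1, 6]⟩,
⟨17, 1280, 7, 527, true, false, -298, [8, 2, 16, 7, 1, 6, 17]⟩,
⟨7, 527, 11, 828, true, false, -298, [8, 16, 2, 7, 1, 6, 17]⟩,
⟨11, 828, 4, 301, true, false, -298, [8, 16, 2, 7, 1, 17, 6]⟩,
⟨4, 301, 5, 376, true, false, -298, [2, 7, 17, 1, 6, 16, 8]⟩,
⟨5, 376, 17, 1278, true, false, -300, [17, 7, 2, 16, 6, 1, 8]⟩,
⟨17, 1278, 7, 526, true, false, -300, [7, 2, 16, 6, 1, 8, 17]⟩,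
⟨7, 526, 8, 601, true, false, -300, [16, 2, 6, 8, 1, 17, 7]⟩,
⟨8, 601, 9, 676, true, false, -300, [2, 6, 8, 17, 1, 7, 16]⟩,
⟨9, 676, 11, 826, true, false, -298, [2, 6, 17, 8, 1, 16, 7]⟩,
⟨11, 826, 15, 1126, true, false, -298, [2, 17, 6, 8, 1, 16, 7]⟩,
⟨15, 1126, 17, 1276, true, false, -298, [17, 2, 6, 8, 16, 1, 7]⟩,
⟨17, 1276, 1, 75, true, false, -298, [2, 6, 8, 16, 1, 7, 17]⟩]

def cellsP1 : List Cell := [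
⟨1, 75, 17, 1274, true, false, -298, [17, 7, 1, 16, 8, 6, 2]⟩,
⟨17, 1274, 15, 1124, true, false, -298, [7, 1, 16, 8, 6, 2, 17]⟩,
⟨15, 1124, 11, 824, true, false, -298, [7, 16, 1, 8, 6, 17, 2]⟩,
⟨11, 824, 9, 674, true, false, -298, [7, 16, 1, 8, 17, 6, 2]⟩,
⟨9, 674, 8, 599, true, false, -296, [16, 7, 1, 17, 8, 6, 2]⟩,
⟨8, 599, 7, 524, true, false, -296, [7, 17, 1, 8, 6, 2, 16]⟩,
⟨7, 524, 17, 1272, true, false, -296, [17, 8, 1, 6, 16, 2, 7]⟩,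
⟨17, 1272, 5, 374, true, false, -296, [8, 1, 6, 16, 2, 7, 17]⟩,
⟨5, 374, 4, 299, true, false, -298, [8, 16, 6, 1, 17, 7, 2]⟩,
⟨4, 299, 11, 822, true, false, -298, [6, 17, 1, 7, 2, 16, 8]⟩,
⟨11, 822, 7, 523, true, false, -298, [17, 6, 1, 7, 2, 16, 8]⟩,
⟨7, 523, 17, 1270, true, false, -298, [17, 6, 1, 7, 16, 2, 8]⟩,
⟨17, 1270, 3, 224, true, false, -298, [6, 1, 7, 16, 2, 8, 17]⟩,
⟨3, 224, 8, 597, true, false, -296, [16, 7, 1, 17, 8, 2, 6]⟩,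
⟨8, 597, 5, 373, true, false, -296, [7, 17, 1, 8, 2, 6, 16]⟩,
⟨5, 373, 17, 1268, true, false, -296, [17, 7, 1, 8, 2, 16, 6]⟩,
⟨17, 1268, 7, 522, true, false, -296, [7, 1, 8, 2, 16, 6, 17]⟩,
⟨7, 522, 11, 820, true, false, -296, [8, 1, 16, 2, 6, 17, 7]⟩,
⟨11, 820, 15, 1118, true, false, -296, [8, 1, 16, 2, 17, 6, 7]⟩,
⟨15, 1118, 2, 149, true, false, -296, [8, 16, 1, 17, 2, 6, 7]⟩,
⟨2, 149, 17, 1266, true, false, -296, [17, 1, 6, 2, 7, 16, 8]⟩,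
⟨17, 1266, 9, 670, true, false, -296, [1, 6, 2, 7, 16, 8, 17]⟩,
⟨9, 670, 7, 521, true, false, -294, [1, 6, 2, 16, 7, 17, 8]⟩,
⟨7, 521, 5, 372, true, false, -294, [1, 6, 16, 2, 7, 17, 8]⟩,
⟨5, 372, 8, 595, true, false, -296, [16, 6, 1, 17, 7, 2, 8]⟩,
⟨8, 595, 11, 818, true, false, -296, [6, 17, 1, 7, 2, 8, 16]⟩,
⟨11, 818, 17, 1264, true, false, -296, [17, 6, 1, 7, 2, 8, 16]⟩,
⟨17, 1264, 3, 223, true, false, -296, [6, 1, 7, 2, 8, 16, 17]⟩,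
⟨3, 223, 7, 520, true, false, -296, [7, 1, 8, 2, 16, 17, 6]⟩,
⟨7, 520, 15, 1114, true, false, -296, [8, 1, 16, 2, 17, 6, 7]⟩,
⟨15, 1114, 4, 297, true, false, -296, [8, 16, 1, 17, 2, 6, 7]⟩,
⟨4, 297, 17, 1262, true, false, -296, [17, 1, 2, 6, 7, 16, 8]⟩,
⟨17, 1262, 9, 668, true, false, -296, [1, 2, 6, 7, 16, 8, 17]⟩,
⟨9, 668, 5, 371, true, false, -294, [1, 2, 6, 16, 7, 17, 8]⟩,
⟨5, 371, 11, 816, true, false, -294, [1, 2, 16, 6, 17, 7, 8]⟩,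
⟨11, 816, 7, 519, true, false, -294, [1, 2, 16, 17, 6, 7, 8]⟩,
⟨7, 519, 15, 1112, true, false, -294, [1, 16, 2, 17, 6, 7, 8]⟩,
⟨15, 1112, 8, 593, true, false, -294, [16, 1, 17, 2, 6, 7, 8]⟩,
⟨8, 593, 17, 1260, true, false, -294, [17, 1, 2, 6, 7, 8, 16]⟩,
⟨17, 1260, 1, 74, true, false, -294, [1, 2, 6, 7, 8, 16, 17]⟩,
⟨1, 74, 17, 1256, true, false, -294, [17, 16, 8, 7, 6, 2, 1]⟩,
⟨17, 1256, 8, 591, true, false, -294, [16, 8, 7, 6, 2, 1, 17]⟩,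
⟨8, 591, 15, 1108, true, false, -294, [8, 7, 6, 2, 17, 1, 16]⟩,
⟨15, 1108, 7, 517, true, false, -294, [8, 7, 6, 17, 2, 16, 1]⟩,
⟨7, 517, 11, 812, true, false, -294, [8, 7, 6, 17, 16, 2, 1]⟩,
⟨11, 812, 5, 369, true, false, -294, [8, 7, 17, 6, 16, 2, 1]⟩,
⟨5, 369, 9, 664, true, false, -294, [8, 17, 7, 16, 6, 2, 1]⟩,
⟨9, 664, 17, 1254, true, false, -292, [17, 8, 16, 7, 6, 2, 1]⟩,
⟨17, 1254, 4, 295, true, false, -292, [8, 16, 7, 6, 2, 1, 17]⟩,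
⟨4, 295, 15, 1106, true, false, -292, [7, 6, 2, 17, 1, 16, 8]⟩,
⟨15, 1106, 7, 516, true, false, -292, [7, 6, 17, 2, 16, 1, 8]⟩,
⟨7, 516, 3, 221, true, false, -292, [6, 17, 16, 2, 8, 1, 7]⟩,
⟨3, 221, 17, 1252, true, false, -292, [17, 16, 8, 2, 7, 1, 6]⟩,
⟨17, 1252, 11, 810, true, false, -292, [16, 8, 2, 7, 1, 6, 17]⟩,
⟨11, 810, 8, 589, true, false, -292, [16, 8, 2, 7, 1, 17, 6]⟩,
⟨8, 589, 5, 368, true, false, -292, [8, 2, 7, 17, 1, 6, 16]⟩,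
⟨5, 368, 7, 515, true, false, -294, [8, 17, 7, 2, 16, 6, 1]⟩,
⟨7, 515, 9, 662, true, false, -294, [8, 17, 7, 16, 2, 6, 1]⟩,
⟨9, 662, 17, 1250, true, false, -292, [17, 8, 16, 7, 2, 6, 1]⟩,
⟨17, 1250, 2, 147, true, false, -292, [8, 16, 7, 2, 6, 1, 17]⟩,
⟨2, 147, 15, 1102, true, false, -292, [7, 6, 2, 17, 1, 16, 8]⟩,
⟨15, 1102, 11, 808, true, false, -292, [7, 6, 17, 2, 16, 1, 8]⟩,
⟨11, 808, 7, 514, true, false, -292, [7, 17, 6, 2, 16, 1, 8]⟩,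
⟨7, 514, 17, 1248, true, false, -292, [17, 6, 16, 2, 8, 1, 7]⟩,
⟨17, 1248, 5, 367, true, false, -292, [6, 16, 2, 8, 1, 7, 17]⟩,
⟨5, 367, 8, 587, true, false, -292, [16, 6, 2, 8, 1, 17, 7]⟩,
⟨8, 587, 3, 220, true, false, -292, [6, 2, 8, 17, 1, 7, 16]⟩,
⟨3, 220, 17, 1246, true, false, -290, [17, 8, 2, 16, 7, 1, 6]⟩,
⟨17, 1246, 7, 513, true, false, -290, [8, 2, 16, 7, 1, 6, 17]⟩,
⟨7, 513, 11, 806, true, false, -290, [8, 16, 2, 7, 1, 6, 17]⟩,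
⟨11, 806, 4, 293, true, false, -290, [8, 16, 2, 7, 1, 17, 6]⟩,
⟨4, 293, 5, 366, true, false, -290, [2, 7, 17, 1, 6, 16, 8]⟩,
⟨5, 366, 17, 1244, true, false, -292, [17, 7, 2, 16, 6, 1, 8]⟩,
⟨17, 1244, 7, 512, true, false, -292, [7, 2, 16, 6, 1, 8, 17]⟩,
⟨7, 512, 8, 585, true, false, -292, [16, 2, 6, 8, 1, 17, 7]⟩,
⟨8, 585, 9, 658, true, false, -292, [2, 6, 8, 17, 1, 7, 16]⟩,
⟨9, 658, 11, 804, true, false, -290, [2, 6, 17, 8, 1, 16, 7]⟩,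
⟨11, 804, 15, 1096, true, false, -290, [2, 17, 6, 8, 1, 16, 7]⟩,
⟨15, 1096, 17, 1242, true, false, -290, [17, 2, 6, 8, 16, 1, 7]⟩,
⟨17, 1242, 1, 73, true, false, -290, [2, 6, 8, 16, 1, 7, 17]⟩,
⟨1, 73, 17, 1240, true, false, -290, [17, 7, 1, 16, 8, 6, 2]⟩,
⟨17, 1240, 15, 1094, true, false, -290, [7, 1, 16, 8, 6, 2, 17]⟩,
⟨15, 1094, 11, 802, true, false, -290, [7, 16, 1, 8, 6, 17, 2]⟩,
⟨11, 802, 9, 656, true, false, -290, [7, 16, 1, 8, 17, 6, 2]⟩,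
⟨9, 656, 8, 583, true, false, -288, [16, 7, 1, 17, 8, 6, 2]⟩,
⟨8, 583, 7, 510, true, false, -288, [7, 17, 1, 8, 6, 2, 16]⟩,
⟨7, 510, 17, 1238, true, false, -288, [17, 8, 1, 6, 16, 2, 7]⟩,
⟨17, 1238, 5, 364, true, false, -288, [8, 1, 6, 16, 2, 7, 17]⟩,
⟨5, 364, 4, 291, true, false, -290, [8, 16, 6, 1, 17, 7, 2]⟩,
⟨4, 291, 11, 800, true, false, -290, [6, 17, 1, 7, 2, 16, 8]⟩,
⟨11, 800, 7, 509, true, false, -290, [17, 6, 1, 7, 2, 16, 8]⟩,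
⟨7, 509, 17, 1236, true, false, -290, [17, 6, 1, 7, 16, 2, 8]⟩,
⟨17, 1236, 3, 218, true, false, -290, [6, 1, 7, 16, 2, 8, 17]⟩,
⟨3, 218, 8, 581, true, false, -288, [16, 7, 1, 17, 8, 2, 6]⟩,
⟨8, 581, 5, 363, true, false, -288, [7, 17, 1, 8, 2, 6, 16]⟩,
⟨5, 363, 17, 1234, true, false, -288, [17, 7, 1, 8, 2, 16, 6]⟩,
⟨17, 1234, 7, 508, true, false, -288, [7, 1, 8, 2, 16, 6, 17]⟩,
⟨7, 508, 11, 798, true, false, -288, [8, 1, 16, 2, 6, 17, 7]⟩,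
⟨11, 798, 15, 1088, true, false, -288, [8, 1, 16, 2, 17, 6, 7]⟩,
⟨15, 1088, 2, 145, true, false, -288, [8, 16, 1, 17, 2, 6, 7]⟩,
⟨2, 145, 17, 1232, true, false, -288, [17, 1, 6, 2, 7, 16, 8]⟩,
⟨17, 1232, 9, 652, true, false, -288, [1, 6, 2, 7, 16, 8, 17]⟩,
⟨9, 652, 7, 507, true, false, -286, [1, 6, 2, 16, 7, 17, 8]⟩,
⟨7, 507, 5, 362, true, false, -286, [1, 6, 16, 2, 7, 17, 8]⟩,
⟨5, 362, 8, 579, true, false, -288, [16, 6, 1, 17, 7, 2, 8]⟩,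
⟨8, 579, 11, 796, true, false, -288, [6, 17, 1, 7, 2, 8, 16]⟩,
⟨11, 796, 17, 1230, true, false, -288, [17, 6, 1, 7, 2, 8, 16]⟩,
⟨17, 1230, 3, 217, true, false, -288, [6, 1, 7, 2, 8, 16, 17]⟩,
⟨3, 217, 7, 506, true, false, -288, [7, 1, 8, 2, 16, 17, 6]⟩,
⟨7, 506, 15, 1084, true, false, -288, [8, 1, 16, 2, 17, 6, 7]⟩,
⟨15, 1084, 4, 289, true, false, -288, [8, 16, 1, 17, 2, 6, 7]⟩,
⟨4, 289, 17, 1228, true, false, -288, [17, 1, 2, 6, 7, 16, 8]⟩,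
⟨17, 1228, 9, 650, true, false, -288, [1, 2, 6, 7, 16, 8, 17]⟩,
⟨9, 650, 5, 361, true, false, -286, [1, 2, 6, 16, 7, 17, 8]⟩,
⟨5, 361, 11, 794, true, false, -286, [1, 2, 16, 6, 17, 7, 8]⟩,
⟨11, 794, 7, 505, true, false, -286, [1, 2, 16, 17, 6, 7, 8]⟩,
⟨7, 505, 15, 1082, true, false, -286, [1, 16, 2, 17, 6, 7, 8]⟩,
⟨15, 1082, 8, 577, true, false, -286, [16, 1, 17, 2, 6, 7, 8]⟩,
⟨8, 577, 17, 1226, true, false, -286, [17, 1, 2, 6, 7, 8, 16]⟩,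
⟨17, 1226, 1, 72, true, false, -286, [1, 2, 6, 7, 8, 16, 17]⟩,
⟨1, 72, 17, 1222, true, false, -286, [17, 16, 8, 7, 6, 2, 1]⟩,
⟨17, 1222, 8, 575, true, false, -286, [16, 8, 7, 6, 2, 1, 17]⟩,
⟨8, 575, 15, 1078, true, false, -286, [8, 7, 6, 2, 17, 1, 16]⟩,
⟨15, 1078, 7, 503, true, false, -286, [8, 7, 6, 17, 2, 16, 1]⟩,
⟨7, 503, 11, 790, true, false, -286, [8, 7, 6, 17, 16, 2, 1]⟩,
⟨11, 790, 5, 359, true, false, -286, [8, 7, 17, 6, 16, 2, 1]⟩,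
⟨5, 359, 9, 646, true, false, -286, [8, 17, 7, 16, 6, 2, 1]⟩,
⟨9, 646, 17, 1220, true, false, -284, [17, 8, 16, 7, 6, 2, 1]⟩,
⟨17, 1220, 4, 287, true, false, -284, [8, 16, 7, 6, 2, 1, 17]⟩,
⟨4, 287, 15, 1076, true, false, -284, [7, 6, 2, 17, 1, 16, 8]⟩,
⟨15, 1076, 7, 502, true, false, -284, [7, 6, 17, 2, 16, 1, 8]⟩,
⟨7, 502, 3, 215, true, false, -284, [6, 17, 16, 2, 8, 1, 7]⟩,
⟨3, 215, 17, 1218, true, false, -284, [17, 16, 8, 2, 7, 1, 6]⟩,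
⟨17, 1218, 11, 788, true, false, -284, [16, 8, 2, 7, 1, 6, 17]⟩,
⟨11, 788, 8, 573, true, false, -284, [16, 8, 2, 7, 1, 17, 6]⟩,
⟨8, 573, 5, 358, true, false, -284, [8, 2, 7, 17, 1, 6, 16]⟩,
⟨5, 358, 7, 501, true, false, -286, [8, 17, 7, 2, 16, 6, 1]⟩,
⟨7, 501, 9, 644, true, false, -286, [8, 17, 7, 16, 2, 6, 1]⟩,
⟨9, 644, 17, 1216, true, false, -284, [17, 8, 16, 7, 2, 6, 1]⟩,
⟨17, 1216, 2, 143, true, false, -284, [8, 16, 7, 2, 6, 1, 17]⟩,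
⟨2, 143, 15, 1072, true, false, -284, [7, 6, 2, 17, 1, 16, 8]⟩,
⟨15, 1072, 11, 786, true, false, -284, [7, 6, 17, 2, 16, 1, 8]⟩,
⟨11, 786, 7, 500, true, false, -284, [7, 17, 6, 2, 16, 1, 8]⟩,
⟨7, 500, 17, 1214, true, false, -284, [17, 6, 16, 2, 8, 1, 7]⟩,
⟨17, 1214, 5, 357, true, false, -284, [6, 16, 2, 8, 1, 7, 17]⟩,
⟨5, 357, 8, 571, true, false, -284, [16, 6, 2, 8, 1, 17, 7]⟩,
⟨8, 571, 3, 214, true, false, -284, [6, 2, 8, 17, 1, 7, 16]⟩,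
⟨3, 214, 17, 1212, true, false, -282, [17, 8, 2, 16, 7, 1, 6]⟩,
⟨17, 1212, 7, 499, true, false, -282, [8, 2, 16, 7, 1, 6, 17]⟩,
⟨7, 499, 11, 784, true, false, -282, [8, 16, 2, 7, 1, 6, 17]⟩,
⟨11, 784, 4, 285, true, false, -282, [8, 16, 2, 7, 1, 17, 6]⟩,
⟨4, 285, 5, 356, true, false, -282, [2, 7, 17, 1, 6, 16, 8]⟩,
⟨5, 356, 17, 1210, true, false, -284, [17, 7, 2, 16, 6, 1, 8]⟩,
⟨17, 1210, 7, 498, true, false, -284, [7, 2, 16, 6, 1, 8, 17]⟩,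
⟨7, 498, 8, 569, true, false, -284, [16, 2, 6, 8, 1, 17, 7]⟩,
⟨8, 569, 9, 640, true, false, -284, [2, 6, 8, 17, 1, 7, 16]⟩,
⟨9, 640, 11, 782, true, false, -282, [2, 6, 17, 8, 1, 16, 7]⟩,
⟨11, 782, 15, 1066, true, false, -282, [2, 17, 6, 8, 1, 16, 7]⟩,
⟨15, 1066, 17, 1208, true, false, -282, [17, 2, 6, 8, 16, 1, 7]⟩,
⟨17, 1208, 1, 71, true, false, -282, [2, 6, 8, 16, 1, 7, 17]⟩,
⟨1, 71, 17, 1206, true, false, -282, [17, 7, 1, 16, 8, 6, 2]⟩,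
⟨17, 1206, 15, 1064, true, false, -282, [7, 1, 16, 8, 6, 2, 17]⟩,
⟨15, 1064, 11, 780, true, false, -282, [7, 16, 1, 8, 6, 17, 2]⟩,
⟨11, 780, 9, 638, true, false, -282, [7, 16, 1, 8, 17, 6, 2]⟩,
⟨9, 638, 8, 567, true, false, -280, [16, 7, 1, 17, 8, 6, 2]⟩,
⟨8, 567, 7, 496, true, false, -280, [7, 17, 1, 8, 6, 2, 16]⟩,
⟨7, 496, 17, 1204, true, false, -280, [17, 8, 1, 6, 16, 2, 7]⟩,
⟨17, 1204, 5, 354, true, false, -280, [8, 1, 6, 16, 2, 7, 17]⟩,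
⟨5, 354, 4, 283, true, false, -282, [8, 16, 6, 1, 17, 7, 2]⟩,
⟨4, 283, 11, 778, true, false, -282, [6, 17, 1, 7, 2, 16, 8]⟩,
⟨11, 778, 7, 495, true, false, -282, [17, 6, 1, 7, 2, 16, 8]⟩,
⟨7, 495, 17, 1202, true, false, -282, [17, 6, 1, 7, 16, 2, 8]⟩,
⟨17, 1202, 3, 212, true, false, -282, [6, 1, 7, 16, 2, 8, 17]⟩,
⟨3, 212, 8, 565, true, false, -280, [16, 7, 1, 17, 8, 2, 6]⟩,
⟨8, 565, 5, 353, true, false, -280, [7, 17, 1, 8, 2, 6, 16]⟩,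
⟨5, 353, 17, 1200, true, false, -280, [17, 7, 1, 8, 2, 16, 6]⟩,
⟨17, 1200, 7, 494, true, false, -280, [7, 1, 8, 2, 16, 6, 17]⟩,
⟨7, 494, 11, 776, true, false, -280, [8, 1, 16, 2, 6, 17, 7]⟩,
⟨11, 776, 15, 1058, true, false, -280, [8, 1, 16, 2, 17, 6, 7]⟩,
⟨15, 1058, 2, 141, true, false, -280, [8, 16, 1, 17, 2, 6, 7]⟩,
⟨2, 141, 17, 1198, true, false, -280, [17, 1, 6, 2, 7, 16, 8]⟩,
⟨17, 1198, 9, 634, true, false, -280, [1, 6, 2, 7, 16, 8, 17]⟩,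
⟨9, 634, 7, 493, true, false, -278, [1, 6, 2, 16, 7, 17, 8]⟩,
⟨7, 493, 5, 352, true, false, -278, [1, 6, 16, 2, 7, 17, 8]⟩,
⟨5, 352, 8, 563, true, false, -280, [16, 6, 1, 17, 7, 2, 8]⟩,
⟨8, 563, 11, 774, true, false, -280, [6, 17, 1, 7, 2, 8, 16]⟩,
⟨11, 774, 17, 1196, true, false, -280, [17, 6, 1, 7, 2, 8, 16]⟩,
⟨17, 1196, 3, 211, true, false, -280, [6, 1, 7, 2, 8, 16, 17]⟩,
⟨3, 211, 7, 492, true, false, -280, [7, 1, 8, 2, 16, 17, 6]⟩,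
⟨7, 492, 15, 1054, true, false, -280, [8, 1, 16, 2, 17, 6, 7]⟩,
⟨15, 1054, 4, 281, true, false, -280, [8, 16, 1, 17, 2, 6, 7]⟩,
⟨4, 281, 17, 1194, true, false, -280, [17, 1, 2, 6, 7, 16, 8]⟩,
⟨17, 1194, 9, 632, true, false, -280, [1, 2, 6, 7, 16, 8, 17]⟩,
⟨9, 632, 5, 351, true, false, -278, [1, 2, 6, 16, 7, 17, 8]⟩,
⟨5, 351, 11, 772, true, false, -278, [1, 2, 16, 6, 17, 7, 8]⟩,
⟨11, 772, 7, 491, true, false, -278, [1, 2, 16, 17, 6, 7, 8]⟩,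
⟨7, 491, 15, 1052, true, false, -278, [1, 16, 2, 17, 6, 7, 8]⟩,
⟨15, 1052, 8, 561, true, false, -278, [16, 1, 17, 2, 6, 7, 8]⟩,
⟨8, 561, 17, 1192, true, false, -278, [17, 1, 2, 6, 7, 8, 16]⟩,
⟨17, 1192, 1, 70, true, false, -278, [1, 2, 6, 7, 8, 16, 17]⟩]

def cellsP2 : List Cell := [
⟨1, 70, 17, 1188, true, false, -278, [17, 16, 8, 7, 6, 2, 1]⟩,
⟨17, 1188, 8, 559, true, false, -278, [16, 8, 7, 6, 2, 1, 17]⟩,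
⟨8, 559, 15, 1048, true, false, -278, [8, 7, 6, 2, 17, 1, 16]⟩,
⟨15, 1048, 7, 489, true, false, -278, [8, 7, 6, 17, 2, 16, 1]⟩,
⟨7, 489, 11, 768, true, false, -278, [8, 7, 6, 17, 16, 2, 1]⟩,
⟨11, 768, 5, 349, true, false, -278, [8, 7, 17, 6, 16, 2, 1]⟩,
⟨5, 349, 9, 628, true, false, -278, [8, 17, 7, 16, 6, 2, 1]⟩,
⟨9, 628, 17, 1186, true, false, -276, [17, 8, 16, 7, 6, 2, 1]⟩,
⟨17, 1186, 4, 279, true, false, -276, [8, 16, 7, 6, 2, 1, 17]⟩,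
⟨4, 279, 15, 1046, true, false, -276, [7, 6, 2, 17, 1, 16, 8]⟩,
⟨15, 1046, 7, 488, true, false, -276, [7, 6, 17, 2, 16, 1, 8]⟩,
⟨7, 488, 3, 209, true, false, -276, [6, 17, 16, 2, 8, 1, 7]⟩,
⟨3, 209, 17, 1184, true, false, -276, [17, 16, 8, 2, 7, 1, 6]⟩,
⟨17, 1184, 11, 766, true, false, -276, [16, 8, 2, 7, 1, 6, 17]⟩,
⟨11, 766, 8, 557, true, false, -276, [16, 8, 2, 7, 1, 17, 6]⟩,
⟨8, 557, 5, 348, true, false, -276, [8, 2, 7, 17, 1, 6, 16]⟩,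
⟨5, 348, 7, 487, true, false, -278, [8, 17, 7, 2, 16, 6, 1]⟩,
⟨7, 487, 9, 626, true, false, -278, [8, 17, 7, 16, 2, 6, 1]⟩,
⟨9, 626, 17, 1182, true, false, -276, [17, 8, 16, 7, 2, 6, 1]⟩,
⟨17, 1182, 2, 139, true, false, -276, [8, 16, 7, 2, 6, 1, 17]⟩,
⟨2, 139, 15, 1042, true, false, -276, [7, 6, 2, 17, 1, 16, 8]⟩,
⟨15, 1042, 11, 764, true, false, -276, [7, 6, 17, 2, 16, 1, 8]⟩,
⟨11, 764, 7, 486, true, false, -276, [7, 17, 6, 2, 16, 1, 8]⟩,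
⟨7, 486, 17, 1180, true, false, -276, [17, 6, 16, 2, 8, 1, 7]⟩,
⟨17, 1180, 5, 347, true, false, -276, [6, 16, 2, 8, 1, 7, 17]⟩,
⟨5, 347, 8, 555, true, false, -276, [16, 6, 2, 8, 1, 17, 7]⟩,
⟨8, 555, 3, 208, true, false, -276, [6, 2, 8, 17, 1, 7, 16]⟩,
⟨3, 208, 17, 1178, true, false, -274, [17, 8, 2, 16, 7, 1, 6]⟩,
⟨17, 1178, 7, 485, true, false, -274, [8, 2, 16, 7, 1, 6, 17]⟩,
⟨7, 485, 11, 762, true, false, -274, [8, 16, 2, 7, 1, 6, 17]⟩,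
⟨11, 762, 4, 277, true, false, -274, [8, 16, 2, 7, 1, 17, 6]⟩,
⟨4, 277, 5, 346, true, false, -274, [2, 7, 17, 1, 6, 16, 8]⟩,
⟨5, 346, 17, 1176, true, false, -276, [17, 7, 2, 16, 6, 1, 8]⟩,
⟨17, 1176, 7, 484, true, false, -276, [7, 2, 16, 6, 1, 8, 17]⟩,
⟨7, 484, 8, 553, true, false, -276, [16, 2, 6, 8, 1, 17, 7]⟩,
⟨8, 553, 9, 622, true, false, -276, [2, 6, 8, 17, 1, 7, 16]⟩,
⟨9, 622, 11, 760, true, false, -274, [2, 6, 17, 8, 1, 16, 7]⟩,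
⟨11, 760, 15, 1036, true, false, -274, [2, 17, 6, 8, 1, 16, 7]⟩,
⟨15, 1036, 17, 1174, true, false, -274, [17, 2, 6, 8, 16, 1, 7]⟩,
⟨17, 1174, 1, 69, true, false, -274, [2, 6, 8, 16, 1, 7, 17]⟩,
⟨1, 69, 17, 1172, true, false, -274, [17, 7, 1, 16, 8, 6, 2]⟩,
⟨17, 1172, 15, 1034, true, false, -274, [7, 1, 16, 8, 6, 2, 17]⟩,
⟨15, 1034, 11, 758, true, false, -274, [7, 16, 1, 8, 6, 17, 2]⟩,
⟨11, 758, 9, 620, true, false, -274, [7, 16, 1, 8, 17, 6, 2]⟩,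
⟨9, 620, 8, 551, true, false, -272, [16, 7, 1, 17, 8, 6, 2]⟩,
⟨8, 551, 7, 482, true, false, -272, [7, 17, 1, 8, 6, 2, 16]⟩,
⟨7, 482, 17, 1170, true, false, -272, [17, 8, 1, 6, 16, 2, 7]⟩,
⟨17, 1170, 5, 344, true, false, -272, [8, 1, 6, 16, 2, 7, 17]⟩,
⟨5, 344, 4, 275, true, false, -274, [8, 16, 6, 1, 17, 7, 2]⟩,
⟨4, 275, 11, 756, true, false, -274, [6, 17, 1, 7, 2, 16, 8]⟩,
⟨11, 756, 7, 481, true, false, -274, [17, 6, 1, 7, 2, 16, 8]⟩,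
⟨7, 481, 17, 1168, true, false, -274, [17, 6, 1, 7, 16, 2, 8]⟩,
⟨17, 1168, 3, 206, true, false, -274, [6, 1, 7, 16, 2, 8, 17]⟩,
⟨3, 206, 8, 549, true, false, -272, [16, 7, 1, 17, 8, 2, 6]⟩,
⟨8, 549, 5, 343, true, false, -272, [7, 17, 1, 8, 2, 6, 16]⟩,
⟨5, 343, 17, 1166, true, false, -272, [17, 7, 1, 8, 2, 16, 6]⟩,
⟨17, 1166, 7, 480, true, false, -272, [7, 1, 8, 2, 16, 6, 17]⟩,
⟨7, 480, 11, 754, true, false, -272, [8, 1, 16, 2, 6, 17, 7]⟩,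
⟨11, 754, 15, 1028, true, false, -272, [8, 1, 16, 2, 17, 6, 7]⟩,
⟨15, 1028, 2, 137, true, false, -272, [8, 16, 1, 17, 2, 6, 7]⟩,
⟨2, 137, 17, 1164, true, false, -272, [17, 1, 6, 2, 7, 16, 8]⟩,
⟨17, 1164, 9, 616, true, false, -272, [1, 6, 2, 7, 16, 8, 17]⟩,
⟨9, 616, 7, 479, true, false, -270, [1, 6, 2, 16, 7, 17, 8]⟩,
⟨7, 479, 5, 342, true, false, -270, [1, 6, 16, 2, 7, 17, 8]⟩,
⟨5, 342, 8, 547, true, false, -272, [16, 6, 1, 17, 7, 2, 8]⟩,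
⟨8, 547, 11, 752, true, false, -272, [6, 17, 1, 7, 2, 8, 16]⟩,
⟨11, 752, 17, 1162, true, false, -272, [17, 6, 1, 7, 2, 8, 16]⟩,
⟨17, 1162, 3, 205, true, false, -272, [6, 1, 7, 2, 8, 16, 17]⟩,
⟨3, 205, 7, 478, true, false, -272, [7, 1, 8, 2, 16, 17, 6]⟩,
⟨7, 478, 15, 1024, true, false, -272, [8, 1, 16, 2, 17, 6, 7]⟩,
⟨15, 1024, 4, 273, true, false, -272, [8, 16, 1, 17, 2, 6, 7]⟩,
⟨4, 273, 17, 1160, true, false, -272, [17, 1, 2, 6, 7, 16, 8]⟩,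
⟨17, 1160, 9, 614, true, false, -272, [1, 2, 6, 7, 16, 8, 17]⟩,
⟨9, 614, 5, 341, true, false, -270, [1, 2, 6, 16, 7, 17, 8]⟩,
⟨5, 341, 11, 750, true, false, -270, [1, 2, 16, 6, 17, 7, 8]⟩,
⟨11, 750, 7, 477, true, false, -270, [1, 2, 16, 17, 6, 7, 8]⟩,
⟨7, 477, 15, 1022, true, false, -270, [1, 16, 2, 17, 6, 7, 8]⟩,
⟨15, 1022, 8, 545, true, false, -270, [16, 1, 17, 2, 6, 7, 8]⟩,
⟨8, 545, 17, 1158, true, false, -270, [17, 1, 2, 6, 7, 8, 16]⟩,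
⟨17, 1158, 1, 68, true, false, -270, [1, 2, 6, 7, 8, 16, 17]⟩,
⟨1, 68, 17, 1154, true, false, -270, [17, 16, 8, 7, 6, 2, 1]⟩,
⟨17, 1154, 8, 543, true, false, -270, [16, 8, 7, 6, 2, 1, 17]⟩,
⟨8, 543, 15, 1018, true, false, -270, [8, 7, 6, 2, 17, 1, 16]⟩,
⟨15, 1018, 7, 475, true, false, -270, [8, 7, 6, 17, 2, 16, 1]⟩,
⟨7, 475, 11, 746, true, false, -270, [8, 7, 6, 17, 16, 2, 1]⟩,
⟨11, 746, 5, 339, true, false, -270, [8, 7, 17, 6, 16, 2, 1]⟩,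
⟨5, 339, 9, 610, true, false, -270, [8, 17, 7, 16, 6, 2, 1]⟩,
⟨9, 610, 17, 1152, true, false, -268, [17, 8, 16, 7, 6, 2, 1]⟩,
⟨17, 1152, 4, 271, true, false, -268, [8, 16, 7, 6, 2, 1, 17]⟩,
⟨4, 271, 15, 1016, true, false, -268, [7, 6, 2, 17, 1, 16, 8]⟩,
⟨15, 1016, 7, 474, true, false, -268, [7, 6, 17, 2, 16, 1, 8]⟩,
⟨7, 474, 3, 203, true, false, -268, [6, 17, 16, 2, 8, 1, 7]⟩,
⟨3, 203, 17, 1150, true, false, -268, [17, 16, 8, 2, 7, 1, 6]⟩,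
⟨17, 1150, 11, 744, true, false, -268, [16, 8, 2, 7, 1, 6, 17]⟩,
⟨11, 744, 8, 541, true, false, -268, [16, 8, 2, 7, 1, 17, 6]⟩,
⟨8, 541, 5, 338, true, false, -268, [8, 2, 7, 17, 1, 6, 16]⟩,
⟨5, 338, 7, 473, true, false, -270, [8, 17, 7, 2, 16, 6, 1]⟩,
⟨7, 473, 9, 608, true, false, -270, [8, 17, 7, 16, 2, 6, 1]⟩,
⟨9, 608, 17, 1148, true, false, -268, [17, 8, 16, 7, 2, 6, 1]⟩,
⟨17, 1148, 2, 135, true, false, -268, [8, 16, 7, 2, 6, 1, 17]⟩,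
⟨2, 135, 15, 1012, true, false, -268, [7, 6, 2, 17, 1, 16, 8]⟩,
⟨15, 1012, 11, 742, true, false, -268, [7, 6, 17, 2, 16, 1, 8]⟩,
⟨11, 742, 7, 472, true, false, -268, [7, 17, 6, 2, 16, 1, 8]⟩,
⟨7, 472, 17, 1146, true, false, -268, [17, 6, 16, 2, 8, 1, 7]⟩,
⟨17, 1146, 5, 337, true, false, -268, [6, 16, 2, 8, 1, 7, 17]⟩,
⟨5, 337, 8, 539, true, false, -268, [16, 6, 2, 8, 1, 17, 7]⟩,
⟨8, 539, 3, 202, true, false, -268, [6, 2, 8, 17, 1, 7, 16]⟩,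
⟨3, 202, 17, 1144, true, false, -266, [17, 8, 2, 16, 7, 1, 6]⟩,
⟨17, 1144, 7, 471, true, false, -266, [8, 2, 16, 7, 1, 6, 17]⟩,
⟨7, 471, 11, 740, true, false, -266, [8, 16, 2, 7, 1, 6, 17]⟩,
⟨11, 740, 4, 269, true, false, -266, [8, 16, 2, 7, 1, 17, 6]⟩,
⟨4, 269, 5, 336, true, false, -266, [2, 7, 17, 1, 6, 16, 8]⟩,
⟨5, 336, 17, 1142, true, false, -268, [17, 7, 2, 16, 6, 1, 8]⟩,
⟨17, 1142, 7, 470, true, false, -268, [7, 2, 16, 6, 1, 8, 17]⟩,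
⟨7, 470, 8, 537, true, false, -268, [16, 2, 6, 8, 1, 17, 7]⟩,
⟨8, 537, 9, 604, true, false, -268, [2, 6, 8, 17, 1, 7, 16]⟩,
⟨9, 604, 11, 738, true, false, -266, [2, 6, 17, 8, 1, 16, 7]⟩,
⟨11, 738, 15, 1006, true, false, -266, [2, 17, 6, 8, 1, 16, 7]⟩,
⟨15, 1006, 17, 1140, true, false, -266, [17, 2, 6, 8, 16, 1, 7]⟩,
⟨17, 1140, 1, 67, true, false, -266, [2, 6, 8, 16, 1, 7, 17]⟩,
⟨1, 67, 17, 1138, true, false, -266, [17, 7, 1, 16, 8, 6, 2]⟩,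
⟨17, 1138, 15, 1004, true, false, -266, [7, 1, 16, 8, 6, 2, 17]⟩,
⟨15, 1004, 11, 736, true, false, -266, [7, 16, 1, 8, 6, 17, 2]⟩,
⟨11, 736, 9, 602, true, false, -266, [7, 16, 1, 8, 17, 6, 2]⟩,
⟨9, 602, 8, 535, true, false, -264, [16, 7, 1, 17, 8, 6, 2]⟩,
⟨8, 535, 7, 468, true, false, -264, [7, 17, 1, 8, 6, 2, 16]⟩,
⟨7, 468, 17, 1136, true, false, -264, [17, 8, 1, 6, 16, 2, 7]⟩,
⟨17, 1136, 5, 334, true, false, -264, [8, 1, 6, 16, 2, 7, 17]⟩,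
⟨5, 334, 4, 267, true, false, -266, [8, 16, 6, 1, 17, 7, 2]⟩,
⟨4, 267, 11, 734, true, false, -266, [6, 17, 1, 7, 2, 16, 8]⟩,
⟨11, 734, 7, 467, true, false, -266, [17, 6, 1, 7, 2, 16, 8]⟩,
⟨7, 467, 17, 1134, true, false, -266, [17, 6, 1, 7, 16, 2, 8]⟩,
⟨17, 1134, 3, 200, true, false, -266, [6, 1, 7, 16, 2, 8, 17]⟩,
⟨3, 200, 8, 533, true, false, -264, [16, 7, 1, 17, 8, 2, 6]⟩,
⟨8, 533, 5, 333, true, false, -264, [7, 17, 1, 8, 2, 6, 16]⟩,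
⟨5, 333, 17, 1132, true, false, -264, [17, 7, 1, 8, 2, 16, 6]⟩,
⟨17, 1132, 7, 466, true, false, -264, [7, 1, 8, 2, 16, 6, 17]⟩,
⟨7, 466, 11, 732, true, false, -264, [8, 1, 16, 2, 6, 17, 7]⟩,
⟨11, 732, 15, 998, true, false, -264, [8, 1, 16, 2, 17, 6, 7]⟩,
⟨15, 998, 2, 133, true, false, -264, [8, 16, 1, 17, 2, 6, 7]⟩,
⟨2, 133, 17, 1130, true, false, -264, [17, 1, 6, 2, 7, 16, 8]⟩,
⟨17, 1130, 9, 598, true, false, -264, [1, 6, 2, 7, 16, 8, 17]⟩,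
⟨9, 598, 7, 465, true, false, -262, [1, 6, 2, 16, 7, 17, 8]⟩,
⟨7, 465, 5, 332, true, false, -262, [1, 6, 16, 2, 7, 17, 8]⟩,
⟨5, 332, 8, 531, true, false, -264, [16, 6, 1, 17, 7, 2, 8]⟩,
⟨8, 531, 11, 730, true, false, -264, [6, 17, 1, 7, 2, 8, 16]⟩,
⟨11, 730, 17, 1128, true, false, -264, [17, 6, 1, 7, 2, 8, 16]⟩,
⟨17, 1128, 3, 199, true, false, -264, [6, 1, 7, 2, 8, 16, 17]⟩,
⟨3, 199, 7, 464, true, false, -264, [7, 1, 8, 2, 16, 17, 6]⟩,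
⟨7, 464, 15, 994, true, false, -264, [8, 1, 16, 2, 17, 6, 7]⟩,
⟨15, 994, 4, 265, true, false, -264, [8, 16, 1, 17, 2, 6, 7]⟩,
⟨4, 265, 17, 1126, true, false, -264, [17, 1, 2, 6, 7, 16, 8]⟩,
⟨17, 1126, 9, 596, true, false, -264, [1, 2, 6, 7, 16, 8, 17]⟩,
⟨9, 596, 5, 331, true, false, -262, [1, 2, 6, 16, 7, 17, 8]⟩,
⟨5, 331, 11, 728, true, false, -262, [1, 2, 16, 6, 17, 7, 8]⟩,
⟨11, 728, 7, 463, true, false, -262, [1, 2, 16, 17, 6, 7, 8]⟩,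
⟨7, 463, 15, 992, true, false, -262, [1, 16, 2, 17, 6, 7, 8]⟩,
⟨15, 992, 8, 529, true, false, -262, [16, 1, 17, 2, 6, 7, 8]⟩,
⟨8, 529, 17, 1124, true, false, -262, [17, 1, 2, 6, 7, 8, 16]⟩,
⟨17, 1124, 1, 66, true, false, -262, [1, 2, 6, 7, 8, 16, 17]⟩,
⟨1, 66, 17, 1120, true, false, -262, [17, 16, 8, 7, 6, 2, 1]⟩,
⟨17, 1120, 8, 527, true, false, -262, [16, 8, 7, 6, 2, 1, 17]⟩,
⟨8, 527, 15, 988, true, false, -262, [8, 7, 6, 2, 17, 1, 16]⟩,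
⟨15, 988, 7, 461, true, false, -262, [8, 7, 6, 17, 2, 16, 1]⟩,
⟨7, 461, 11, 724, true, false, -262, [8, 7, 6, 17, 16, 2, 1]⟩,
⟨11, 724, 5, 329, true, false, -262, [8, 7, 17, 6, 16, 2, 1]⟩,
⟨5, 329, 9, 592, true, false, -262, [8, 17, 7, 16, 6, 2, 1]⟩,
⟨9, 592, 17, 1118, true, false, -260, [17, 8, 16, 7, 6, 2, 1]⟩,
⟨17, 1118, 4, 263, true, false, -260, [8, 16, 7, 6, 2, 1, 17]⟩,
⟨4, 263, 15, 986, true, false, -260, [7, 6, 2, 17, 1, 16, 8]⟩,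
⟨15, 986, 7, 460, true, false, -260, [7, 6, 17, 2, 16, 1, 8]⟩,
⟨7, 460, 3, 197, true, false, -260, [6, 17, 16, 2, 8, 1, 7]⟩,
⟨3, 197, 17, 1116, true, false, -260, [17, 16, 8, 2, 7, 1, 6]⟩,
⟨17, 1116, 11, 722, true, false, -260, [16, 8, 2, 7, 1, 6, 17]⟩,
⟨11, 722, 8, 525, true, false, -260, [16, 8, 2, 7, 1, 17, 6]⟩,
⟨8, 525, 5, 328, true, false, -260, [8, 2, 7, 17, 1, 6, 16]⟩,
⟨5, 328, 7, 459, true, false, -262, [8, 17, 7, 2, 16, 6, 1]⟩,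
⟨7, 459, 9, 590, true, false, -262, [8, 17, 7, 16, 2, 6, 1]⟩,
⟨9, 590, 17, 1114, true, false, -260, [17, 8, 16, 7, 2, 6, 1]⟩,
⟨17, 1114, 2, 131, true, false, -260, [8, 16, 7, 2, 6, 1, 17]⟩,
⟨2, 131, 15, 982, true, false, -260, [7, 6, 2, 17, 1, 16, 8]⟩,
⟨15, 982, 11, 720, true, false, -260, [7, 6, 17, 2, 16, 1, 8]⟩,
⟨11, 720, 7, 458, true, false, -260, [7, 17, 6, 2, 16, 1, 8]⟩,
⟨7, 458, 17, 1112, true, false, -260, [17, 6, 16, 2, 8, 1, 7]⟩,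
⟨17, 1112, 5, 327, true, false, -260, [6, 16, 2, 8, 1, 7, 17]⟩,
⟨5, 327, 8, 523, true, false, -260, [16, 6, 2, 8, 1, 17, 7]⟩,
⟨8, 523, 3, 196, true, false, -260, [6, 2, 8, 17, 1, 7, 16]⟩,
⟨3, 196, 17, 1110, true, false, -258, [17, 8, 2, 16, 7, 1, 6]⟩,
⟨17, 1110, 7, 457, true, false, -258, [8, 2, 16, 7, 1, 6, 17]⟩,
⟨7, 457, 11, 718, true, false, -258, [8, 16, 2, 7, 1, 6, 17]⟩,
⟨11, 718, 4, 261, true, false, -258, [8, 16, 2, 7, 1, 17, 6]⟩,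
⟨4, 261, 5, 326, true, false, -258, [2, 7, 17, 1, 6, 16, 8]⟩,
⟨5, 326, 17, 1108, true, false, -260, [17, 7, 2, 16, 6, 1, 8]⟩,
⟨17, 1108, 7, 456, true, false, -260, [7, 2, 16, 6, 1, 8, 17]⟩,
⟨7, 456, 8, 521, true, false, -260, [16, 2, 6, 8, 1, 17, 7]⟩,
⟨8, 521, 9, 586, true, false, -260, [2, 6, 8, 17, 1, 7, 16]⟩,
⟨9, 586, 11, 716, true, false, -258, [2, 6, 17, 8, 1, 16, 7]⟩,
⟨11, 716, 15, 976, true, false, -258, [2, 17, 6, 8, 1, 16, 7]⟩,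
⟨15, 976, 17, 1106, true, false, -258, [17, 2, 6, 8, 16, 1, 7]⟩,
⟨17, 1106, 1, 65, true, false, -258, [2, 6, 8, 16, 1, 7, 17]⟩]

def cellsP3 : List Cell := [
⟨1, 65, 17, 1104, true, false, -258, [17, 7, 1, 16, 8, 6, 2]⟩,
⟨17, 1104, 15, 974, true, false, -258, [7, 1, 16, 8, 6, 2, 17]⟩,
⟨15, 974, 11, 714, true, false, -258, [7, 16, 1, 8, 6, 17, 2]⟩,
⟨11, 714, 9, 584, true, false, -258, [7, 16, 1, 8, 17, 6, 2]⟩,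
⟨9, 584, 8, 519, true, false, -256, [16, 7, 1, 17, 8, 6, 2]⟩,
⟨8, 519, 7, 454, true, false, -256, [7, 17, 1, 8, 6, 2, 16]⟩,
⟨7, 454, 17, 1102, true, false, -256, [17, 8, 1, 6, 16, 2, 7]⟩,
⟨17, 1102, 5, 324, true, false, -256, [8, 1, 6, 16, 2, 7, 17]⟩,
⟨5, 324, 4, 259, true, false, -258, [8, 16, 6, 1, 17, 7, 2]⟩,
⟨4, 259, 11, 712, true, false, -258, [6, 17, 1, 7, 2, 16, 8]⟩,
⟨11, 712, 7, 453, true, false, -258, [17, 6, 1, 7, 2, 16, 8]⟩,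
⟨7, 453, 17, 1100, true, false, -258, [17, 6, 1, 7, 16, 2, 8]⟩,
⟨17, 1100, 3, 194, true, false, -258, [6, 1, 7, 16, 2, 8, 17]⟩,
⟨3, 194, 8, 517, true, false, -256, [16, 7, 1, 17, 8, 2, 6]⟩,
⟨8, 517, 5, 323, true, false, -256, [7, 17, 1, 8, 2, 6, 16]⟩,
⟨5, 323, 17, 1098, true, false, -256, [17, 7, 1, 8, 2, 16, 6]⟩,
⟨17, 1098, 7, 452, true, false, -256, [7, 1, 8, 2, 16, 6, 17]⟩,
⟨7, 452, 11, 710, true, false, -256, [8, 1, 16, 2, 6, 17, 7]⟩,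
⟨11, 710, 15, 968, true, false, -256, [8, 1, 16, 2, 17, 6, 7]⟩,
⟨15, 968, 2, 129, true, false, -256, [8, 16, 1, 17, 2, 6, 7]⟩,
⟨2, 129, 17, 1096, true, false, -256, [17, 1, 6, 2, 7, 16, 8]⟩,
⟨17, 1096, 9, 580, true, false, -256, [1, 6, 2, 7, 16, 8, 17]⟩,
⟨9, 580, 7, 451, true, false, -254, [1, 6, 2, 16, 7, 17, 8]⟩,
⟨7, 451, 5, 322, true, false, -254, [1, 6, 16, 2, 7, 17, 8]⟩,
⟨5, 322, 8, 515, true, false, -256, [16, 6, 1, 17, 7, 2, 8]⟩,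
⟨8, 515, 11, 708, true, false, -256, [6, 17, 1, 7, 2, 8, 16]⟩,
⟨11, 708, 17, 1094, true, false, -256, [17, 6, 1, 7, 2, 8, 16]⟩,
⟨17, 1094, 3, 193, true, false, -256, [6, 1, 7, 2, 8, 16, 17]⟩,
⟨3, 193, 7, 450, true, false, -256, [7, 1, 8, 2, 16, 17, 6]⟩,
⟨7, 450, 15, 964, true, false, -256, [8, 1, 16, 2, 17, 6, 7]⟩,
⟨15, 964, 4, 257, true, false, -256, [8, 16, 1, 17, 2, 6, 7]⟩,
⟨4, 257, 17, 1092, true, false, -256, [17, 1, 2, 6, 7, 16, 8]⟩,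
⟨17, 1092, 9, 578, true, false, -256, [1, 2, 6, 7, 16, 8, 17]⟩,
⟨9, 578, 5, 321, true, false, -254, [1, 2, 6, 16, 7, 17, 8]⟩,
⟨5, 321, 11, 706, true, false, -254, [1, 2, 16, 6, 17, 7, 8]⟩,
⟨11, 706, 7, 449, true, false, -254, [1, 2, 16, 17, 6, 7, 8]⟩,
⟨7, 449, 15, 962, true, false, -254, [1, 16, 2, 17, 6, 7, 8]⟩,
⟨15, 962, 8, 513, true, false, -254, [16, 1, 17, 2, 6, 7, 8]⟩,
⟨8, 513, 17, 1090, true, false, -254, [17, 1, 2, 6, 7, 8, 16]⟩,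
⟨17, 1090, 1, 64, true, false, -254, [1, 2, 6, 7, 8, 16, 17]⟩,
⟨1, 64, 17, 1086, true, false, -254, [17, 16, 8, 7, 6, 2, 1]⟩,
⟨17, 1086, 8, 511, true, false, -254, [16, 8, 7, 6, 2, 1, 17]⟩,
⟨8, 511, 15, 958, true, false, -254, [8, 7, 6, 2, 17, 1, 16]⟩,
⟨15, 958, 7, 447, true, false, -254, [8, 7, 6, 17, 2, 16, 1]⟩,
⟨7, 447, 11, 702, true, false, -254, [8, 7, 6, 17, 16, 2, 1]⟩,
⟨11, 702, 5, 319, true, false, -254, [8, 7, 17, 6, 16, 2, 1]⟩,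
⟨5, 319, 9, 574, true, false, -254, [8, 17, 7, 16, 6, 2, 1]⟩,
⟨9, 574, 17, 1084, true, false, -252, [17, 8, 16, 7, 6, 2, 1]⟩,
⟨17, 1084, 4, 255, true, false, -252, [8, 16, 7, 6, 2, 1, 17]⟩,
⟨4, 255, 15, 956, true, false, -252, [7, 6, 2, 17, 1, 16, 8]⟩,
⟨15, 956, 7, 446, true, false, -252, [7, 6, 17, 2, 16, 1, 8]⟩,
⟨7, 446, 3, 191, true, false, -252, [6, 17, 16, 2, 8, 1, 7]⟩,
⟨3, 191, 17, 1082, true, false, -252, [17, 16, 8, 2, 7, 1, 6]⟩,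
⟨17, 1082, 11, 700, true, false, -252, [16, 8, 2, 7, 1, 6, 17]⟩,
⟨11, 700, 8, 509, true, false, -252, [16, 8, 2, 7, 1, 17, 6]⟩,
⟨8, 509, 5, 318, true, false, -252, [8, 2, 7, 17, 1, 6, 16]⟩,
⟨5, 318, 7, 445, true, false, -254, [8, 17, 7, 2, 16, 6, 1]⟩,
⟨7, 445, 9, 572, true, false, -254, [8, 17, 7, 16, 2, 6, 1]⟩,
⟨9, 572, 17, 1080, true, false, -252, [17, 8, 16, 7, 2, 6, 1]⟩,
⟨17, 1080, 2, 127, true, false, -252, [8, 16, 7, 2, 6, 1, 17]⟩,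
⟨2, 127, 15, 952, true, false, -252, [7, 6, 2, 17, 1, 16, 8]⟩,
⟨15, 952, 11, 698, true, false, -252, [7, 6, 17, 2, 16, 1, 8]⟩,
⟨11, 698, 7, 444, true, false, -252, [7, 17, 6, 2, 16, 1, 8]⟩,
⟨7, 444, 17, 1078, true, false, -252, [17, 6, 16, 2, 8, 1, 7]⟩,
⟨17, 1078, 5, 317, true, false, -252, [6, 16, 2, 8, 1, 7, 17]⟩,
⟨5, 317, 8, 507, true, false, -252, [16, 6, 2, 8, 1, 17, 7]⟩,
⟨8, 507, 3, 190, true, false, -252, [6, 2, 8, 17, 1, 7, 16]⟩,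
⟨3, 190, 17, 1076, true, false, -250, [17, 8, 2, 16, 7, 1, 6]⟩,
⟨17, 1076, 7, 443, true, false, -250, [8, 2, 16, 7, 1, 6, 17]⟩,
⟨7, 443, 11, 696, true, false, -250, [8, 16, 2, 7, 1, 6, 17]⟩,
⟨11, 696, 4, 253, true, false, -250, [8, 16, 2, 7, 1, 17, 6]⟩,
⟨4, 253, 5, 316, true, false, -250, [2, 7, 17, 1, 6, 16, 8]⟩,
⟨5, 316, 17, 1074, true, false, -252, [17, 7, 2, 16, 6, 1, 8]⟩,
⟨17, 1074, 7, 442, true, false, -252, [7, 2, 16, 6, 1, 8, 17]⟩,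
⟨7, 442, 8, 505, true, false, -252, [16, 2, 6, 8, 1, 17, 7]⟩,
⟨8, 505, 9, 568, true, false, -252, [2, 6, 8, 17, 1, 7, 16]⟩,
⟨9, 568, 11, 694, true, false, -250, [2, 6, 17, 8, 1, 16, 7]⟩,
⟨11, 694, 15, 946, true, false, -250, [2, 17, 6, 8, 1, 16, 7]⟩,
⟨15, 946, 17, 1072, true, false, -250, [17, 2, 6, 8, 16, 1, 7]⟩,
⟨17, 1072, 1, 63, true, false, -250, [2, 6, 8, 16, 1, 7, 17]⟩,
⟨1, 63, 17, 1070, true, false, -250, [17, 7, 1, 16, 8, 6, 2]⟩,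
⟨17, 1070, 15, 944, true, false, -250, [7, 1, 16, 8, 6, 2, 17]⟩,
⟨15, 944, 11, 692, true, false, -250, [7, 16, 1, 8, 6, 17, 2]⟩,
⟨11, 692, 9, 566, true, false, -250, [7, 16, 1, 8, 17, 6, 2]⟩,
⟨9, 566, 8, 503, true, false, -248, [16, 7, 1, 17, 8, 6, 2]⟩,
⟨8, 503, 7, 440, true, false, -248, [7, 17, 1, 8, 6, 2, 16]⟩,
⟨7, 440, 17, 1068, true, false, -248, [17, 8, 1, 6, 16, 2, 7]⟩,
⟨17, 1068, 5, 314, true, false, -248, [8, 1, 6, 16, 2, 7, 17]⟩,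
⟨5, 314, 4, 251, true, false, -250, [8, 16, 6, 1, 17, 7, 2]⟩,
⟨4, 251, 11, 690, true, false, -250, [6, 17, 1, 7, 2, 16, 8]⟩,
⟨11, 690, 7, 439, true, false, -250, [17, 6, 1, 7, 2, 16, 8]⟩,
⟨7, 439, 17, 1066, true, false, -250, [17, 6, 1, 7, 16, 2, 8]⟩,
⟨17, 1066, 3, 188, true, false, -250, [6, 1, 7, 16, 2, 8, 17]⟩,
⟨3, 188, 8, 501, true, false, -248, [16, 7, 1, 17, 8, 2, 6]⟩,
⟨8, 501, 5, 313, true, false, -248, [7, 17, 1, 8, 2, 6, 16]⟩,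
⟨5, 313, 17, 1064, true, false, -248, [17, 7, 1, 8, 2, 16, 6]⟩,
⟨17, 1064, 7, 438, true, false, -248, [7, 1, 8, 2, 16, 6, 17]⟩,
⟨7, 438, 11, 688, true, false, -248, [8, 1, 16, 2, 6, 17, 7]⟩,
⟨11, 688, 15, 938, true, false, -248, [8, 1, 16, 2, 17, 6, 7]⟩,
⟨15, 938, 2, 125, true, false, -248, [8, 16, 1, 17, 2, 6, 7]⟩,
⟨2, 125, 17, 1062, true, false, -248, [17, 1, 6, 2, 7, 16, 8]⟩,
⟨17, 1062, 9, 562, true, false, -248, [1, 6, 2, 7, 16, 8, 17]⟩,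
⟨9, 562, 7, 437, true, false, -246, [1, 6, 2, 16, 7, 17, 8]⟩,
⟨7, 437, 5, 312, true, false, -246, [1, 6, 16, 2, 7, 17, 8]⟩,
⟨5, 312, 8, 499, true, false, -248, [16, 6, 1, 17, 7, 2, 8]⟩,
⟨8, 499, 11, 686, true, false, -248, [6, 17, 1, 7, 2, 8, 16]⟩,
⟨11, 686, 17, 1060, true, false, -248, [17, 6, 1, 7, 2, 8, 16]⟩,
⟨17, 1060, 3, 187, true, false, -248, [6, 1, 7, 2, 8, 16, 17]⟩,
⟨3, 187, 7, 436, true, false, -248, [7, 1, 8, 2, 16, 17, 6]⟩,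
⟨7, 436, 15, 934, true, false, -248, [8, 1, 16, 2, 17, 6, 7]⟩,
⟨15, 934, 4, 249, true, false, -248, [8, 16, 1, 17, 2, 6, 7]⟩,
⟨4, 249, 17, 1058, true, false, -248, [17, 1, 2, 6, 7, 16, 8]⟩,
⟨17, 1058, 9, 560, true, false, -248, [1, 2, 6, 7, 16, 8, 17]⟩,
⟨9, 560, 5, 311, true, false, -246, [1, 2, 6, 16, 7, 17, 8]⟩,
⟨5, 311, 11, 684, true, false, -246, [1, 2, 16, 6, 17, 7, 8]⟩,
⟨11, 684, 7, 435, true, false, -246, [1, 2, 16, 17, 6, 7, 8]⟩,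
⟨7, 435, 15, 932, true, false, -246, [1, 16, 2, 17, 6, 7, 8]⟩,
⟨15, 932, 8, 497, true, false, -246, [16, 1, 17, 2, 6, 7, 8]⟩,
⟨8, 497, 17, 1056, true, false, -246, [17, 1, 2, 6, 7, 8, 16]⟩,
⟨17, 1056, 1, 62, true, false, -246, [1, 2, 6, 7, 8, 16, 17]⟩,
⟨1, 62, 17, 1052, true, false, -246, [17, 16, 8, 7, 6, 2, 1]⟩,
⟨17, 1052, 8, 495, true, false, -246, [16, 8, 7, 6, 2, 1, 17]⟩,
⟨8, 495, 15, 928, true, false, -246, [8, 7, 6, 2, 17, 1, 16]⟩,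
⟨15, 928, 7, 433, true, false, -246, [8, 7, 6, 17, 2, 16, 1]⟩,
⟨7, 433, 11, 680, true, false, -246, [8, 7, 6, 17, 16, 2, 1]⟩,
⟨11, 680, 5, 309, true, false, -246, [8, 7, 17, 6, 16, 2, 1]⟩,
⟨5, 309, 9, 556, true, false, -246, [8, 17, 7, 16, 6, 2, 1]⟩,
⟨9, 556, 17, 1050, true, false, -244, [17, 8, 16, 7, 6, 2, 1]⟩,
⟨17, 1050, 4, 247, true, false, -244, [8, 16, 7, 6, 2, 1, 17]⟩,
⟨4, 247, 15, 926, true, false, -244, [7, 6, 2, 17, 1, 16, 8]⟩,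
⟨15, 926, 7, 432, true, false, -244, [7, 6, 17, 2, 16, 1, 8]⟩,
⟨7, 432, 3, 185, true, false, -244, [6, 17, 16, 2, 8, 1, 7]⟩,
⟨3, 185, 17, 1048, true, false, -244, [17, 16, 8, 2, 7, 1, 6]⟩,
⟨17, 1048, 11, 678, true, false, -244, [16, 8, 2, 7, 1, 6, 17]⟩,
⟨11, 678, 8, 493, true, false, -244, [16, 8, 2, 7, 1, 17, 6]⟩,
⟨8, 493, 5, 308, true, false, -244, [8, 2, 7, 17, 1, 6, 16]⟩,
⟨5, 308, 7, 431, true, false, -246, [8, 17, 7, 2, 16, 6, 1]⟩,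
⟨7, 431, 9, 554, true, false, -246, [8, 17, 7, 16, 2, 6, 1]⟩,
⟨9, 554, 17, 1046, true, false, -244, [17, 8, 16, 7, 2, 6, 1]⟩,
⟨17, 1046, 2, 123, true, false, -244, [8, 16, 7, 2, 6, 1, 17]⟩,
⟨2, 123, 15, 922, true, false, -244, [7, 6, 2, 17, 1, 16, 8]⟩,
⟨15, 922, 11, 676, true, false, -244, [7, 6, 17, 2, 16, 1, 8]⟩,
⟨11, 676, 7, 430, true, false, -244, [7, 17, 6, 2, 16, 1, 8]⟩,
⟨7, 430, 17, 1044, true, false, -244, [17, 6, 16, 2, 8, 1, 7]⟩,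
⟨17, 1044, 5, 307, true, false, -244, [6, 16, 2, 8, 1, 7, 17]⟩,
⟨5, 307, 8, 491, true, false, -244, [16, 6, 2, 8, 1, 17, 7]⟩,
⟨8, 491, 3, 184, true, false, -244, [6, 2, 8, 17, 1, 7, 16]⟩,
⟨3, 184, 17, 1042, true, false, -242, [17, 8, 2, 16, 7, 1, 6]⟩,
⟨17, 1042, 7, 429, true, false, -242, [8, 2, 16, 7, 1, 6, 17]⟩,
⟨7, 429, 11, 674, true, false, -242, [8, 16, 2, 7, 1, 6, 17]⟩,
⟨11, 674, 4, 245, true, false, -242, [8, 16, 2, 7, 1, 17, 6]⟩,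
⟨4, 245, 5, 306, true, false, -242, [2, 7, 17, 1, 6, 16, 8]⟩,
⟨5, 306, 17, 1040, true, false, -244, [17, 7, 2, 16, 6, 1, 8]⟩,
⟨17, 1040, 7, 428, true, false, -244, [7, 2, 16, 6, 1, 8, 17]⟩,
⟨7, 428, 8, 489, true, false, -244, [16, 2, 6, 8, 1, 17, 7]⟩,
⟨8, 489, 9, 550, true, false, -244, [2, 6, 8, 17, 1, 7, 16]⟩,
⟨9, 550, 11, 672, true, false, -242, [2, 6, 17, 8, 1, 16, 7]⟩,
⟨11, 672, 15, 916, true, false, -242, [2, 17, 6, 8, 1, 16, 7]⟩,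
⟨15, 916, 17, 1038, true, false, -242, [17, 2, 6, 8, 16, 1, 7]⟩,
⟨17, 1038, 1, 61, true, false, -242, [2, 6, 8, 16, 1, 7, 17]⟩,
⟨1, 61, 17, 1036, true, false, -242, [17, 7, 1, 16, 8, 6, 2]⟩,
⟨17, 1036, 15, 914, true, false, -242, [7, 1, 16, 8, 6, 2, 17]⟩,
⟨15, 914, 11, 670, true, false, -242, [7, 16, 1, 8, 6, 17, 2]⟩,
⟨11, 670, 9, 548, true, false, -242, [7, 16, 1, 8, 17, 6, 2]⟩,
⟨9, 548, 8, 487, true, false, -240, [16, 7, 1, 17, 8, 6, 2]⟩,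
⟨8, 487, 7, 426, true, false, -240, [7, 17, 1, 8, 6, 2, 16]⟩,
⟨7, 426, 17, 1034, true, false, -240, [17, 8, 1, 6, 16, 2, 7]⟩,
⟨17, 1034, 5, 304, true, false, -240, [8, 1, 6, 16, 2, 7, 17]⟩,
⟨5, 304, 4, 243, true, false, -242, [8, 16, 6, 1, 17, 7, 2]⟩,
⟨4, 243, 11, 668, true, false, -242, [6, 17, 1, 7, 2, 16, 8]⟩,
⟨11, 668, 7, 425, true, false, -242, [17, 6, 1, 7, 2, 16, 8]⟩,
⟨7, 425, 17, 1032, true, false, -242, [17, 6, 1, 7, 16, 2, 8]⟩,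
⟨17, 1032, 3, 182, true, false, -242, [6, 1, 7, 16, 2, 8, 17]⟩,
⟨3, 182, 8, 485, true, false, -240, [16, 7, 1, 17, 8, 2, 6]⟩,
⟨8, 485, 5, 303, true, false, -240, [7, 17, 1, 8, 2, 6, 16]⟩,
⟨5, 303, 17, 1030, true, false, -240, [17, 7, 1, 8, 2, 16, 6]⟩,
⟨17, 1030, 7, 424, true, false, -240, [7, 1, 8, 2, 16, 6, 17]⟩,
⟨7, 424, 11, 666, true, false, -240, [8, 1, 16, 2, 6, 17, 7]⟩,
⟨11, 666, 15, 908, true, false, -240, [8, 1, 16, 2, 17, 6, 7]⟩,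
⟨15, 908, 2, 121, true, false, -240, [8, 16, 1, 17, 2, 6, 7]⟩,
⟨2, 121, 17, 1028, true, false, -240, [17, 1, 6, 2, 7, 16, 8]⟩,
⟨17, 1028, 9, 544, true, false, -240, [1, 6, 2, 7, 16, 8, 17]⟩,
⟨9, 544, 7, 423, true, false, -238, [1, 6, 2, 16, 7, 17, 8]⟩,
⟨7, 423, 5, 302, true, false, -238, [1, 6, 16, 2, 7, 17, 8]⟩,
⟨5, 302, 8, 483, true, false, -240, [16, 6, 1, 17, 7, 2, 8]⟩,
⟨8, 483, 11, 664, true, false, -240, [6, 17, 1, 7, 2, 8, 16]⟩,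
⟨11, 664, 17, 1026, true, false, -240, [17, 6, 1, 7, 2, 8, 16]⟩,
⟨17, 1026, 3, 181, true, false, -240, [6, 1, 7, 2, 8, 16, 17]⟩,
⟨3, 181, 7, 422, true, false, -240, [7, 1, 8, 2, 16, 17, 6]⟩,
⟨7, 422, 15, 904, true, false, -240, [8, 1, 16, 2, 17, 6, 7]⟩,
⟨15, 904, 4, 241, true, false, -240, [8, 16, 1, 17, 2, 6, 7]⟩,
⟨4, 241, 17, 1024, true, false, -240, [17, 1, 2, 6, 7, 16, 8]⟩,
⟨17, 1024, 9, 542, true, false, -240, [1, 2, 6, 7, 16, 8, 17]⟩,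
⟨9, 542, 5, 301, true, false, -238, [1, 2, 6, 16, 7, 17, 8]⟩,
⟨5, 301, 11, 662, true, false, -238, [1, 2, 16, 6, 17, 7, 8]⟩,
⟨11, 662, 7, 421, true, false, -238, [1, 2, 16, 17, 6, 7, 8]⟩,
⟨7, 421, 15, 902, true, false, -238, [1, 16, 2, 17, 6, 7, 8]⟩,
⟨15, 902, 8, 481, true, false, -238, [16, 1, 17, 2, 6, 7, 8]⟩,
⟨8, 481, 17, 1022, true, false, -238, [17, 1, 2, 6, 7, 8, 16]⟩,
⟨17, 1022, 1, 60, true, false, -238, [1, 2, 6, 7, 8, 16, 17]⟩]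

def cellsP4 : List Cell := [
⟨1, 60, 17, 1018, true, false, -238, [17, 16, 8, 7, 6, 2, 1]⟩,
⟨17, 1018, 8, 479, true, false, -238, [16, 8, 7, 6, 2, 1, 17]⟩,
⟨8, 479, 15, 898, true, false, -238, [8, 7, 6, 2, 17, 1, 16]⟩,
⟨15, 898, 7, 419, true, false, -238, [8, 7, 6, 17, 2, 16, 1]⟩,
⟨7, 419, 11, 658, true, false, -238, [8, 7, 6, 17, 16, 2, 1]⟩,
⟨11, 658, 5, 299, true, false, -238, [8, 7, 17, 6, 16, 2, 1]⟩,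
⟨5, 299, 9, 538, true, false, -238, [8, 17, 7, 16, 6, 2, 1]⟩,
⟨9, 538, 17, 1016, true, false, -236, [17, 8, 16, 7, 6, 2, 1]⟩,
⟨17, 1016, 4, 239, true, false, -236, [8, 16, 7, 6, 2, 1, 17]⟩,
⟨4, 239, 15, 896, true, false, -236, [7, 6, 2, 17, 1, 16, 8]⟩,
⟨15, 896, 7, 418, true, false, -236, [7, 6, 17, 2, 16, 1, 8]⟩,
⟨7, 418, 3, 179, true, false, -236, [6, 17, 16, 2, 8, 1, 7]⟩,
⟨3, 179, 17, 1014, true, false, -236, [17, 16, 8, 2, 7, 1, 6]⟩,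
⟨17, 1014, 11, 656, true, false, -236, [16, 8, 2, 7, 1, 6, 17]⟩,
⟨11, 656, 8, 477, true, false, -236, [16, 8, 2, 7, 1, 17, 6]⟩,
⟨8, 477, 5, 298, true, false, -236, [8, 2, 7, 17, 1, 6, 16]⟩,
⟨5, 298, 7, 417, true, false, -238, [8, 17, 7, 2, 16, 6, 1]⟩,
⟨7, 417, 9, 536, true, false, -238, [8, 17, 7, 16, 2, 6, 1]⟩,
⟨9, 536, 17, 1012, true, false, -236, [17, 8, 16, 7, 2, 6, 1]⟩,
⟨17, 1012, 2, 119, true, false, -236, [8, 16, 7, 2, 6, 1, 17]⟩,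
⟨2, 119, 15, 892, true, false, -236, [7, 6, 2, 17, 1, 16, 8]⟩,
⟨15, 892, 11, 654, true, false, -236, [7, 6, 17, 2, 16, 1, 8]⟩,
⟨11, 654, 7, 416, true, false, -236, [7, 17, 6, 2, 16, 1, 8]⟩,
⟨7, 416, 17, 1010, true, false, -236, [17, 6, 16, 2, 8, 1, 7]⟩,
⟨17, 1010, 5, 297, true, false, -236, [6, 16, 2, 8, 1, 7, 17]⟩,
⟨5, 297, 8, 475, true, false, -236, [16, 6, 2, 8, 1, 17, 7]⟩,
⟨8, 475, 3, 178, true, false, -236, [6, 2, 8, 17, 1, 7, 16]⟩,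
⟨3, 178, 17, 1008, true, false, -234, [17, 8, 2, 16, 7, 1, 6]⟩,
⟨17, 1008, 7, 415, true, false, -234, [8, 2, 16, 7, 1, 6, 17]⟩,
⟨7, 415, 11, 652, true, false, -234, [8, 16, 2, 7, 1, 6, 17]⟩,
⟨11, 652, 4, 237, true, false, -234, [8, 16, 2, 7, 1, 17, 6]⟩,
⟨4, 237, 5, 296, true, false, -234, [2, 7, 17, 1, 6, 16, 8]⟩,
⟨5, 296, 17, 1006, true, false, -236, [17, 7, 2, 16, 6, 1, 8]⟩,
⟨17, 1006, 7, 414, true, false, -236, [7, 2, 16, 6, 1, 8, 17]⟩,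
⟨7, 414, 8, 473, true, false, -236, [16, 2, 6, 8, 1, 17, 7]⟩,
⟨8, 473, 9, 532, true, false, -236, [2, 6, 8, 17, 1, 7, 16]⟩,
⟨9, 532, 11, 650, true, false, -234, [2, 6, 17, 8, 1, 16, 7]⟩,
⟨11, 650, 15, 886, true, false, -234, [2, 17, 6, 8, 1, 16, 7]⟩,
⟨15, 886, 17, 1004, true, false, -234, [17, 2, 6, 8, 16, 1, 7]⟩,
⟨17, 1004, 1, 59, true, false, -234, [2, 6, 8, 16, 1, 7, 17]⟩,
⟨1, 59, 17, 1002, true, false, -234, [17, 7, 1, 16, 8, 6, 2]⟩,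
⟨17, 1002, 15, 884, true, false, -234, [7, 1, 16, 8, 6, 2, 17]⟩,
⟨15, 884, 11, 648, true, false, -234, [7, 16, 1, 8, 6, 17, 2]⟩,
⟨11, 648, 9, 530, true, false, -234, [7, 16, 1, 8, 17, 6, 2]⟩,
⟨9, 530, 8, 471, true, false, -232, [16, 7, 1, 17, 8, 6, 2]⟩,
⟨8, 471, 7, 412, true, false, -232, [7, 17, 1, 8, 6, 2, 16]⟩,
⟨7, 412, 17, 1000, true, false, -232, [17, 8, 1, 6, 16, 2, 7]⟩,
⟨17, 1000, 5, 294, true, false, -232, [8, 1, 6, 16, 2, 7, 17]⟩,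
⟨5, 294, 4, 235, true, false, -234, [8, 16, 6, 1, 17, 7, 2]⟩,
⟨4, 235, 11, 646, true, false, -234, [6, 17, 1, 7, 2, 16, 8]⟩,
⟨11, 646, 7, 411, true, false, -234, [17, 6, 1, 7, 2, 16, 8]⟩,
⟨7, 411, 17, 998, true, false, -234, [17, 6, 1, 7, 16, 2, 8]⟩,
⟨17, 998, 3, 176, true, false, -234, [6, 1, 7, 16, 2, 8, 17]⟩,
⟨3, 176, 8, 469, true, false, -232, [16, 7, 1, 17, 8, 2, 6]⟩,
⟨8, 469, 5, 293, true, false, -232, [7, 17, 1, 8, 2, 6, 16]⟩,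
⟨5, 293, 17, 996, true, false, -232, [17, 7, 1, 8, 2, 16, 6]⟩,
⟨17, 996, 7, 410, true, false, -232, [7, 1, 8, 2, 16, 6, 17]⟩,
⟨7, 410, 11, 644, true, false, -232, [8, 1, 16, 2, 6, 17, 7]⟩,
⟨11, 644, 15, 878, true, false, -232, [8, 1, 16, 2, 17, 6, 7]⟩,
⟨15, 878, 2, 117, true, false, -232, [8, 16, 1, 17, 2, 6, 7]⟩,
⟨2, 117, 17, 994, true, false, -232, [17, 1, 6, 2, 7, 16, 8]⟩,
⟨17, 994, 9, 526, true, false, -232, [1, 6, 2, 7, 16, 8, 17]⟩,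
⟨9, 526, 7, 409, true, false, -230, [1, 6, 2, 16, 7, 17, 8]⟩,
⟨7, 409, 5, 292, true, false, -230, [1, 6, 16, 2, 7, 17, 8]⟩,
⟨5, 292, 8, 467, true, false, -232, [16, 6, 1, 17, 7, 2, 8]⟩,
⟨8, 467, 11, 642, true, false, -232, [6, 17, 1, 7, 2, 8, 16]⟩,
⟨11, 642, 17, 992, true, false, -232, [17, 6, 1, 7, 2, 8, 16]⟩,
⟨17, 992, 3, 175, true, false, -232, [6, 1, 7, 2, 8, 16, 17]⟩,
⟨3, 175, 7, 408, true, false, -232, [7, 1, 8, 2, 16, 17, 6]⟩,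
⟨7, 408, 15, 874, true, false, -232, [8, 1, 16, 2, 17, 6, 7]⟩,
⟨15, 874, 4, 233, true, false, -232, [8, 16, 1, 17, 2, 6, 7]⟩,
⟨4, 233, 17, 990, true, false, -232, [17, 1, 2, 6, 7, 16, 8]⟩,
⟨17, 990, 9, 524, true, false, -232, [1, 2, 6, 7, 16, 8, 17]⟩,
⟨9, 524, 5, 291, true, false, -230, [1, 2, 6, 16, 7, 17, 8]⟩,
⟨5, 291, 11, 640, true, false, -230, [1, 2, 16, 6, 17, 7, 8]⟩,
⟨11, 640, 7, 407, true, false, -230, [1, 2, 16, 17, 6, 7, 8]⟩,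
⟨7, 407, 15, 872, true, false, -230, [1, 16, 2, 17, 6, 7, 8]⟩,
⟨15, 872, 8, 465, true, false, -230, [16, 1, 17, 2, 6, 7, 8]⟩,
⟨8, 465, 17, 988, true, false, -230, [17, 1, 2, 6, 7, 8, 16]⟩,
⟨17, 988, 1, 58, true, false, -230, [1, 2, 6, 7, 8, 16, 17]⟩,
⟨1, 58, 17, 984, true, false, -230, [17, 16, 8, 7, 6, 2, 1]⟩,
⟨17, 984, 8, 463, true, false, -230, [16, 8, 7, 6, 2, 1, 17]⟩,
⟨8, 463, 15, 868, true, false, -230, [8, 7, 6, 2, 17, 1, 16]⟩,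
⟨15, 868, 7, 405, true, false, -230, [8, 7, 6, 17, 2, 16, 1]⟩,
⟨7, 405, 11, 636, true, false, -230, [8, 7, 6, 17, 16, 2, 1]⟩,
⟨11, 636, 5, 289, true, false, -230, [8, 7, 17, 6, 16, 2, 1]⟩,
⟨5, 289, 9, 520, true, false, -230, [8, 17, 7, 16, 6, 2, 1]⟩,
⟨9, 520, 17, 982, true, false, -228, [17, 8, 16, 7, 6, 2, 1]⟩,
⟨17, 982, 4, 231, true, false, -228, [8, 16, 7, 6, 2, 1, 17]⟩,
⟨4, 231, 15, 866, true, false, -228, [7, 6, 2, 17, 1, 16, 8]⟩,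
⟨15, 866, 7, 404, true, false, -228, [7, 6, 17, 2, 16, 1, 8]⟩,
⟨7, 404, 3, 173, true, false, -228, [6, 17, 16, 2, 8, 1, 7]⟩,
⟨3, 173, 17, 980, true, false, -228, [17, 16, 8, 2, 7, 1, 6]⟩,
⟨17, 980, 11, 634, true, false, -228, [16, 8, 2, 7, 1, 6, 17]⟩,
⟨11, 634, 8, 461, true, false, -228, [16, 8, 2, 7, 1, 17, 6]⟩,
⟨8, 461, 5, 288, true, false, -228, [8, 2, 7, 17, 1, 6, 16]⟩,
⟨5, 288, 7, 403, true, false, -230, [8, 17, 7, 2, 16, 6, 1]⟩,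
⟨7, 403, 9, 518, true, false, -230, [8, 17, 7, 16, 2, 6, 1]⟩,
⟨9, 518, 17, 978, true, false, -228, [17, 8, 16, 7, 2, 6, 1]⟩,
⟨17, 978, 2, 115, true, false, -228, [8, 16, 7, 2, 6, 1, 17]⟩,
⟨2, 115, 15, 862, true, false, -228, [7, 6, 2, 17, 1, 16, 8]⟩,
⟨15, 862, 11, 632, true, false, -228, [7, 6, 17, 2, 16, 1, 8]⟩,
⟨11, 632, 7, 402, true, false, -228, [7, 17, 6, 2, 16, 1, 8]⟩,
⟨7, 402, 17, 976, true, false, -228, [17, 6, 16, 2, 8, 1, 7]⟩,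
⟨17, 976, 5, 287, true, false, -228, [6, 16, 2, 8, 1, 7, 17]⟩,
⟨5, 287, 8, 459, true, false, -228, [16, 6, 2, 8, 1, 17, 7]⟩,
⟨8, 459, 3, 172, true, false, -228, [6, 2, 8, 17, 1, 7, 16]⟩,
⟨3, 172, 17, 974, true, false, -226, [17, 8, 2, 16, 7, 1, 6]⟩,
⟨17, 974, 7, 401, true, false, -226, [8, 2, 16, 7, 1, 6, 17]⟩,
⟨7, 401, 11, 630, true, false, -226, [8, 16, 2, 7, 1, 6, 17]⟩,
⟨11, 630, 4, 229, true, false, -226, [8, 16, 2, 7, 1, 17, 6]⟩,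
⟨4, 229, 5, 286, true, false, -226, [2, 7, 17, 1, 6, 16, 8]⟩,
⟨5, 286, 17, 972, true, false, -228, [17, 7, 2, 16, 6, 1, 8]⟩,
⟨17, 972, 7, 400, true, false, -228, [7, 2, 16, 6, 1, 8, 17]⟩,
⟨7, 400, 8, 457, true, false, -228, [16, 2, 6, 8, 1, 17, 7]⟩,
⟨8, 457, 9, 514, true, false, -228, [2, 6, 8, 17, 1, 7, 16]⟩,
⟨9, 514, 11, 628, true, false, -226, [2, 6, 17, 8, 1, 16, 7]⟩,
⟨11, 628, 15, 856, true, false, -226, [2, 17, 6, 8, 1, 16, 7]⟩,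
⟨15, 856, 17, 970, true, false, -226, [17, 2, 6, 8, 16, 1, 7]⟩,
⟨17, 970, 1, 57, true, false, -226, [2, 6, 8, 16, 1, 7, 17]⟩,
⟨1, 57, 17, 968, true, false, -226, [17, 7, 1, 16, 8, 6, 2]⟩,
⟨17, 968, 15, 854, true, false, -226, [7, 1, 16, 8, 6, 2, 17]⟩,
⟨15, 854, 11, 626, true, false, -226, [7, 16, 1, 8, 6, 17, 2]⟩,
⟨11, 626, 9, 512, true, false, -226, [7, 16, 1, 8, 17, 6, 2]⟩,
⟨9, 512, 8, 455, true, false, -224, [16, 7, 1, 17, 8, 6, 2]⟩,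
⟨8, 455, 7, 398, true, false, -224, [7, 17, 1, 8, 6, 2, 16]⟩,
⟨7, 398, 17, 966, true, false, -224, [17, 8, 1, 6, 16, 2, 7]⟩,
⟨17, 966, 5, 284, true, false, -224, [8, 1, 6, 16, 2, 7, 17]⟩,
⟨5, 284, 4, 227, true, false, -226, [8, 16, 6, 1, 17, 7, 2]⟩,
⟨4, 227, 11, 624, true, false, -226, [6, 17, 1, 7, 2, 16, 8]⟩,
⟨11, 624, 7, 397, true, false, -226, [17, 6, 1, 7, 2, 16, 8]⟩,
⟨7, 397, 17, 964, true, false, -226, [17, 6, 1, 7, 16, 2, 8]⟩,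
⟨17, 964, 3, 170, true, false, -226, [6, 1, 7, 16, 2, 8, 17]⟩,
⟨3, 170, 8, 453, true, false, -224, [16, 7, 1, 17, 8, 2, 6]⟩,
⟨8, 453, 5, 283, true, false, -224, [7, 17, 1, 8, 2, 6, 16]⟩,
⟨5, 283, 17, 962, true, false, -224, [17, 7, 1, 8, 2, 16, 6]⟩,
⟨17, 962, 7, 396, true, false, -224, [7, 1, 8, 2, 16, 6, 17]⟩,
⟨7, 396, 11, 622, true, false, -224, [8, 1, 16, 2, 6, 17, 7]⟩,
⟨11, 622, 15, 848, true, false, -224, [8, 1, 16, 2, 17, 6, 7]⟩,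
⟨15, 848, 2, 113, true, false, -224, [8, 16, 1, 17, 2, 6, 7]⟩,
⟨2, 113, 17, 960, true, false, -224, [17, 1, 6, 2, 7, 16, 8]⟩,
⟨17, 960, 9, 508, true, false, -224, [1, 6, 2, 7, 16, 8, 17]⟩,
⟨9, 508, 7, 395, true, false, -222, [1, 6, 2, 16, 7, 17, 8]⟩,
⟨7, 395, 5, 282, true, false, -222, [1, 6, 16, 2, 7, 17, 8]⟩,
⟨5, 282, 8, 451, true, false, -224, [16, 6, 1, 17, 7, 2, 8]⟩,
⟨8, 451, 11, 620, true, false, -224, [6, 17, 1, 7, 2, 8, 16]⟩,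
⟨11, 620, 17, 958, true, false, -224, [17, 6, 1, 7, 2, 8, 16]⟩,
⟨17, 958, 3, 169, true, false, -224, [6, 1, 7, 2, 8, 16, 17]⟩,
⟨3, 169, 7, 394, true, false, -224, [7, 1, 8, 2, 16, 17, 6]⟩,
⟨7, 394, 15, 844, true, false, -224, [8, 1, 16, 2, 17, 6, 7]⟩,
⟨15, 844, 4, 225, true, false, -224, [8, 16, 1, 17, 2, 6, 7]⟩,
⟨4, 225, 17, 956, true, false, -224, [17, 1, 2, 6, 7, 16, 8]⟩,
⟨17, 956, 9, 506, true, false, -224, [1, 2, 6, 7, 16, 8, 17]⟩,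
⟨9, 506, 5, 281, true, false, -222, [1, 2, 6, 16, 7, 17, 8]⟩,
⟨5, 281, 11, 618, true, false, -222, [1, 2, 16, 6, 17, 7, 8]⟩,
⟨11, 618, 7, 393, true, false, -222, [1, 2, 16, 17, 6, 7, 8]⟩,
⟨7, 393, 15, 842, true, false, -222, [1, 16, 2, 17, 6, 7, 8]⟩,
⟨15, 842, 8, 449, true, false, -222, [16, 1, 17, 2, 6, 7, 8]⟩,
⟨8, 449, 17, 954, true, false, -222, [17, 1, 2, 6, 7, 8, 16]⟩,
⟨17, 954, 1, 56, true, false, -222, [1, 2, 6, 7, 8, 16, 17]⟩,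
⟨1, 56, 17, 950, true, false, -222, [17, 16, 8, 7, 6, 2, 1]⟩,
⟨17, 950, 8, 447, true, false, -222, [16, 8, 7, 6, 2, 1, 17]⟩,
⟨8, 447, 15, 838, true, false, -222, [8, 7, 6, 2, 17, 1, 16]⟩,
⟨15, 838, 7, 391, true, false, -222, [8, 7, 6, 17, 2, 16, 1]⟩,
⟨7, 391, 11, 614, true, false, -222, [8, 7, 6, 17, 16, 2, 1]⟩,
⟨11, 614, 5, 279, true, false, -222, [8, 7, 17, 6, 16, 2, 1]⟩,
⟨5, 279, 9, 502, true, false, -222, [8, 17, 7, 16, 6, 2, 1]⟩,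
⟨9, 502, 17, 948, true, false, -220, [17, 8, 16, 7, 6, 2, 1]⟩,
⟨17, 948, 4, 223, true, false, -220, [8, 16, 7, 6, 2, 1, 17]⟩,
⟨4, 223, 15, 836, true, false, -220, [7, 6, 2, 17, 1, 16, 8]⟩,
⟨15, 836, 7, 390, true, false, -220, [7, 6, 17, 2, 16, 1, 8]⟩,
⟨7, 390, 3, 167, true, false, -220, [6, 17, 16, 2, 8, 1, 7]⟩,
⟨3, 167, 17, 946, true, false, -220, [17, 16, 8, 2, 7, 1, 6]⟩,
⟨17, 946, 11, 612, true, false, -220, [16, 8, 2, 7, 1, 6, 17]⟩,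
⟨11, 612, 8, 445, true, false, -220, [16, 8, 2, 7, 1, 17, 6]⟩,
⟨8, 445, 5, 278, true, false, -220, [8, 2, 7, 17, 1, 6, 16]⟩,
⟨5, 278, 7, 389, true, false, -222, [8, 17, 7, 2, 16, 6, 1]⟩,
⟨7, 389, 9, 500, true, false, -222, [8, 17, 7, 16, 2, 6, 1]⟩,
⟨9, 500, 17, 944, true, false, -220, [17, 8, 16, 7, 2, 6, 1]⟩,
⟨17, 944, 2, 111, true, false, -220, [8, 16, 7, 2, 6, 1, 17]⟩,
⟨2, 111, 15, 832, true, false, -220, [7, 6, 2, 17, 1, 16, 8]⟩,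
⟨15, 832, 11, 610, true, false, -220, [7, 6, 17, 2, 16, 1, 8]⟩,
⟨11, 610, 7, 388, true, false, -220, [7, 17, 6, 2, 16, 1, 8]⟩,
⟨7, 388, 17, 942, true, false, -220, [17, 6, 16, 2, 8, 1, 7]⟩,
⟨17, 942, 5, 277, true, false, -220, [6, 16, 2, 8, 1, 7, 17]⟩,
⟨5, 277, 8, 443, true, false, -220, [16, 6, 2, 8, 1, 17, 7]⟩,
⟨8, 443, 3, 166, true, false, -220, [6, 2, 8, 17, 1, 7, 16]⟩,
⟨3, 166, 17, 940, true, false, -218, [17, 8, 2, 16, 7, 1, 6]⟩,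
⟨17, 940, 7, 387, true, false, -218, [8, 2, 16, 7, 1, 6, 17]⟩,
⟨7, 387, 11, 608, true, false, -218, [8, 16, 2, 7, 1, 6, 17]⟩,
⟨11, 608, 4, 221, true, false, -218, [8, 16, 2, 7, 1, 17, 6]⟩,
⟨4, 221, 5, 276, true, false, -218, [2, 7, 17, 1, 6, 16, 8]⟩,
⟨5, 276, 17, 938, true, false, -220, [17, 7, 2, 16, 6, 1, 8]⟩,
⟨17, 938, 7, 386, true, false, -220, [7, 2, 16, 6, 1, 8, 17]⟩,
⟨7, 386, 8, 441, true, false, -220, [16, 2, 6, 8, 1, 17, 7]⟩,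
⟨8, 441, 9, 496, true, false, -220, [2, 6, 8, 17, 1, 7, 16]⟩,
⟨9, 496, 11, 606, true, false, -218, [2, 6, 17, 8, 1, 16, 7]⟩,
⟨11, 606, 15, 826, true, false, -218, [2, 17, 6, 8, 1, 16, 7]⟩,
⟨15, 826, 17, 936, true, false, -218, [17, 2, 6, 8, 16, 1, 7]⟩,
⟨17, 936, 1, 55, true, false, -218, [2, 6, 8, 16, 1, 7, 17]⟩]

def cellsP5 : List Cell := [
⟨1, 55, 17, 934, true, false, -218, [17, 7, 1, 16, 8, 6, 2]⟩,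
⟨17, 934, 15, 824, true, false, -218, [7, 1, 16, 8, 6, 2, 17]⟩,
⟨15, 824, 11, 604, true, false, -218, [7, 16, 1, 8, 6, 17, 2]⟩,
⟨11, 604, 9, 494, true, false, -218, [7, 16, 1, 8, 17, 6, 2]⟩,
⟨9, 494, 8, 439, true, false, -216, [16, 7, 1, 17, 8, 6, 2]⟩,
⟨8, 439, 7, 384, true, false, -216, [7, 17, 1, 8, 6, 2, 16]⟩,
⟨7, 384, 17, 932, true, false, -216, [17, 8, 1, 6, 16, 2, 7]⟩,
⟨17, 932, 5, 274, true, false, -216, [8, 1, 6, 16, 2, 7, 17]⟩,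
⟨5, 274, 4, 219, true, false, -218, [8, 16, 6, 1, 17, 7, 2]⟩,
⟨4, 219, 11, 602, true, false, -218, [6, 17, 1, 7, 2, 16, 8]⟩,
⟨11, 602, 7, 383, true, false, -218, [17, 6, 1, 7, 2, 16, 8]⟩,
⟨7, 383, 17, 930, true, false, -218, [17, 6, 1, 7, 16, 2, 8]⟩,
⟨17, 930, 3, 164, true, false, -218, [6, 1, 7, 16, 2, 8, 17]⟩,
⟨3, 164, 8, 437, true, false, -216, [16, 7, 1, 17, 8, 2, 6]⟩,
⟨8, 437, 5, 273, true, false, -216, [7, 17, 1, 8, 2, 6, 16]⟩,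
⟨5, 273, 17, 928, true, false, -216, [17, 7, 1, 8, 2, 16, 6]⟩,
⟨17, 928, 7, 382, true, false, -216, [7, 1, 8, 2, 16, 6, 17]⟩,
⟨7, 382, 11, 600, true, false, -216, [8, 1, 16, 2, 6, 17, 7]⟩,
⟨11, 600, 15, 818, true, false, -216, [8, 1, 16, 2, 17, 6, 7]⟩,
⟨15, 818, 2, 109, true, false, -216, [8, 16, 1, 17, 2, 6, 7]⟩,
⟨2, 109, 17, 926, true, false, -216, [17, 1, 6, 2, 7, 16, 8]⟩,
⟨17, 926, 9, 490, true, false, -216, [1, 6, 2, 7, 16, 8, 17]⟩,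
⟨9, 490, 7, 381, true, false, -214, [1, 6, 2, 16, 7, 17, 8]⟩,
⟨7, 381, 5, 272, true, false, -214, [1, 6, 16, 2, 7, 17, 8]⟩,
⟨5, 272, 8, 435, true, false, -216, [16, 6, 1, 17, 7, 2, 8]⟩,
⟨8, 435, 11, 598, true, false, -216, [6, 17, 1, 7, 2, 8, 16]⟩,
⟨11, 598, 17, 924, true, false, -216, [17, 6, 1, 7, 2, 8, 16]⟩,
⟨17, 924, 3, 163, true, false, -216, [6, 1, 7, 2, 8, 16, 17]⟩,
⟨3, 163, 7, 380, true, false, -216, [7, 1, 8, 2, 16, 17, 6]⟩,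
⟨7, 380, 15, 814, true, false, -216, [8, 1, 16, 2, 17, 6, 7]⟩,
⟨15, 814, 4, 217, true, false, -216, [8, 16, 1, 17, 2, 6, 7]⟩,
⟨4, 217, 17, 922, true, false, -216, [17, 1, 2, 6, 7, 16, 8]⟩,
⟨17, 922, 9, 488, true, false, -216, [1, 2, 6, 7, 16, 8, 17]⟩,
⟨9, 488, 5, 271, true, false, -214, [1, 2, 6, 16, 7, 17, 8]⟩,
⟨5, 271, 11, 596, true, false, -214, [1, 2, 16, 6, 17, 7, 8]⟩,
⟨11, 596, 7, 379, true, false, -214, [1, 2, 16, 17, 6, 7, 8]⟩,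
⟨7, 379, 15, 812, true, false, -214, [1, 16, 2, 17, 6, 7, 8]⟩,
⟨15, 812, 8, 433, true, false, -214, [16, 1, 17, 2, 6, 7, 8]⟩,
⟨8, 433, 17, 920, true, false, -214, [17, 1, 2, 6, 7, 8, 16]⟩,
⟨17, 920, 1, 54, true, false, -214, [1, 2, 6, 7, 8, 16, 17]⟩,
⟨1, 54, 17, 916, true, false, -214, [17, 16, 8, 7, 6, 2, 1]⟩,
⟨17, 916, 8, 431, true, false, -214, [16, 8, 7, 6, 2, 1, 17]⟩,
⟨8, 431, 15, 808, true, false, -214, [8, 7, 6, 2, 17, 1, 16]⟩,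
⟨15, 808, 7, 377, true, false, -214, [8, 7, 6, 17, 2, 16, 1]⟩,
⟨7, 377, 11, 592, true, false, -214, [8, 7, 6, 17, 16, 2, 1]⟩,
⟨11, 592, 5, 269, true, false, -214, [8, 7, 17, 6, 16, 2, 1]⟩,
⟨5, 269, 9, 484, true, false, -214, [8, 17, 7, 16, 6, 2, 1]⟩,
⟨9, 484, 17, 914, true, false, -212, [17, 8, 16, 7, 6, 2, 1]⟩,
⟨17, 914, 4, 215, true, false, -212, [8, 16, 7, 6, 2, 1, 17]⟩,
⟨4, 215, 15, 806, true, false, -212, [7, 6, 2, 17, 1, 16, 8]⟩,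
⟨15, 806, 7, 376, true, false, -212, [7, 6, 17, 2, 16, 1, 8]⟩,
⟨7, 376, 3, 161, true, false, -212, [6, 17, 16, 2, 8, 1, 7]⟩,
⟨3, 161, 17, 912, true, false, -212, [17, 16, 8, 2, 7, 1, 6]⟩,
⟨17, 912, 11, 590, true, false, -212, [16, 8, 2, 7, 1, 6, 17]⟩,
⟨11, 590, 8, 429, true, false, -212, [16, 8, 2, 7, 1, 17, 6]⟩,
⟨8, 429, 5, 268, true, false, -212, [8, 2, 7, 17, 1, 6, 16]⟩,
⟨5, 268, 7, 375, true, false, -214, [8, 17, 7, 2, 16, 6, 1]⟩,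
⟨7, 375, 9, 482, true, false, -214, [8, 17, 7, 16, 2, 6, 1]⟩,
⟨9, 482, 17, 910, true, false, -212, [17, 8, 16, 7, 2, 6, 1]⟩,
⟨17, 910, 2, 107, true, false, -212, [8, 16, 7, 2, 6, 1, 17]⟩,
⟨2, 107, 15, 802, true, false, -212, [7, 6, 2, 17, 1, 16, 8]⟩,
⟨15, 802, 11, 588, true, false, -212, [7, 6, 17, 2, 16, 1, 8]⟩,
⟨11, 588, 7, 374, true, false, -212, [7, 17, 6, 2, 16, 1, 8]⟩,
⟨7, 374, 17, 908, true, false, -212, [17, 6, 16, 2, 8, 1, 7]⟩,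
⟨17, 908, 5, 267, true, false, -212, [6, 16, 2, 8, 1, 7, 17]⟩,
⟨5, 267, 8, 427, true, false, -212, [16, 6, 2, 8, 1, 17, 7]⟩,
⟨8, 427, 3, 160, true, false, -212, [6, 2, 8, 17, 1, 7, 16]⟩,
⟨3, 160, 17, 906, true, false, -210, [17, 8, 2, 16, 7, 1, 6]⟩,
⟨17, 906, 7, 373, true, false, -210, [8, 2, 16, 7, 1, 6, 17]⟩,
⟨7, 373, 11, 586, true, false, -210, [8, 16, 2, 7, 1, 6, 17]⟩,
⟨11, 586, 4, 213, true, false, -210, [8, 16, 2, 7, 1, 17, 6]⟩,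
⟨4, 213, 5, 266, true, false, -210, [2, 7, 17, 1, 6, 16, 8]⟩,
⟨5, 266, 17, 904, true, false, -212, [17, 7, 2, 16, 6, 1, 8]⟩,
⟨17, 904, 7, 372, true, false, -212, [7, 2, 16, 6, 1, 8, 17]⟩,
⟨7, 372, 8, 425, true, false, -212, [16, 2, 6, 8, 1, 17, 7]⟩,
⟨8, 425, 9, 478, true, false, -212, [2, 6, 8, 17, 1, 7, 16]⟩,
⟨9, 478, 11, 584, true, false, -210, [2, 6, 17, 8, 1, 16, 7]⟩,
⟨11, 584, 15, 796, true, false, -210, [2, 17, 6, 8, 1, 16, 7]⟩,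
⟨15, 796, 17, 902, true, false, -210, [17, 2, 6, 8, 16, 1, 7]⟩,
⟨17, 902, 1, 53, true, false, -210, [2, 6, 8, 16, 1, 7, 17]⟩,
⟨1, 53, 17, 900, true, false, -210, [17, 7, 1, 16, 8, 6, 2]⟩,
⟨17, 900, 15, 794, true, false, -210, [7, 1, 16, 8, 6, 2, 17]⟩,
⟨15, 794, 11, 582, true, false, -210, [7, 16, 1, 8, 6, 17, 2]⟩,
⟨11, 582, 9, 476, true, false, -210, [7, 16, 1, 8, 17, 6, 2]⟩,
⟨9, 476, 8, 423, true, false, -208, [16, 7, 1, 17, 8, 6, 2]⟩,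
⟨8, 423, 7, 370, true, false, -208, [7, 17, 1, 8, 6, 2, 16]⟩,
⟨7, 370, 17, 898, true, false, -208, [17, 8, 1, 6, 16, 2, 7]⟩,
⟨17, 898, 5, 264, true, false, -208, [8, 1, 6, 16, 2, 7, 17]⟩,
⟨5, 264, 4, 211, true, false, -210, [8, 16, 6, 1, 17, 7, 2]⟩,
⟨4, 211, 11, 580, true, false, -210, [6, 17, 1, 7, 2, 16, 8]⟩,
⟨11, 580, 7, 369, true, false, -210, [17, 6, 1, 7, 2, 16, 8]⟩,
⟨7, 369, 17, 896, true, false, -210, [17, 6, 1, 7, 16, 2, 8]⟩,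
⟨17, 896, 3, 158, true, false, -210, [6, 1, 7, 16, 2, 8, 17]⟩,
⟨3, 158, 8, 421, true, false, -208, [16, 7, 1, 17, 8, 2, 6]⟩,
⟨8, 421, 5, 263, true, false, -208, [7, 17, 1, 8, 2, 6, 16]⟩,
⟨5, 263, 17, 894, true, false, -208, [17, 7, 1, 8, 2, 16, 6]⟩,
⟨17, 894, 7, 368, true, false, -208, [7, 1, 8, 2, 16, 6, 17]⟩,
⟨7, 368, 11, 578, true, false, -208, [8, 1, 16, 2, 6, 17, 7]⟩,
⟨11, 578, 15, 788, true, false, -208, [8, 1, 16, 2, 17, 6, 7]⟩,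
⟨15, 788, 2, 105, true, false, -208, [8, 16, 1, 17, 2, 6, 7]⟩,
⟨2, 105, 17, 892, true, false, -208, [17, 1, 6, 2, 7, 16, 8]⟩,
⟨17, 892, 9, 472, true, false, -208, [1, 6, 2, 7, 16, 8, 17]⟩,
⟨9, 472, 7, 367, true, false, -206, [1, 6, 2, 16, 7, 17, 8]⟩,
⟨7, 367, 5, 262, true, false, -206, [1, 6, 16, 2, 7, 17, 8]⟩,
⟨5, 262, 8, 419, true, false, -208, [16, 6, 1, 17, 7, 2, 8]⟩,
⟨8, 419, 11, 576, true, false, -208, [6, 17, 1, 7, 2, 8, 16]⟩,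
⟨11, 576, 17, 890, true, false, -208, [17, 6, 1, 7, 2, 8, 16]⟩,
⟨17, 890, 3, 157, true, false, -208, [6, 1, 7, 2, 8, 16, 17]⟩,
⟨3, 157, 7, 366, true, false, -208, [7, 1, 8, 2, 16, 17, 6]⟩,
⟨7, 366, 15, 784, true, false, -208, [8, 1, 16, 2, 17, 6, 7]⟩,
⟨15, 784, 4, 209, true, false, -208, [8, 16, 1, 17, 2, 6, 7]⟩,
⟨4, 209, 17, 888, true, false, -208, [17, 1, 2, 6, 7, 16, 8]⟩,
⟨17, 888, 9, 470, true, false, -208, [1, 2, 6, 7, 16, 8, 17]⟩,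
⟨9, 470, 5, 261, true, false, -206, [1, 2, 6, 16, 7, 17, 8]⟩,
⟨5, 261, 11, 574, true, false, -206, [1, 2, 16, 6, 17, 7, 8]⟩,
⟨11, 574, 7, 365, true, false, -206, [1, 2, 16, 17, 6, 7, 8]⟩,
⟨7, 365, 15, 782, true, false, -206, [1, 16, 2, 17, 6, 7, 8]⟩,
⟨15, 782, 8, 417, true, false, -206, [16, 1, 17, 2, 6, 7, 8]⟩,
⟨8, 417, 17, 886, true, false, -206, [17, 1, 2, 6, 7, 8, 16]⟩,
⟨17, 886, 1, 52, true, false, -206, [1, 2, 6, 7, 8, 16, 17]⟩,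
⟨1, 52, 17, 882, true, false, -206, [17, 16, 8, 7, 6, 2, 1]⟩,
⟨17, 882, 8, 415, true, false, -206, [16, 8, 7, 6, 2, 1, 17]⟩,
⟨8, 415, 15, 778, true, false, -206, [8, 7, 6, 2, 17, 1, 16]⟩,
⟨15, 778, 7, 363, true, false, -206, [8, 7, 6, 17, 2, 16, 1]⟩,
⟨7, 363, 11, 570, true, false, -206, [8, 7, 6, 17, 16, 2, 1]⟩,
⟨11, 570, 5, 259, true, false, -206, [8, 7, 17, 6, 16, 2, 1]⟩,
⟨5, 259, 9, 466, true, false, -206, [8, 17, 7, 16, 6, 2, 1]⟩,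
⟨9, 466, 17, 880, true, false, -204, [17, 8, 16, 7, 6, 2, 1]⟩,
⟨17, 880, 4, 207, true, false, -204, [8, 16, 7, 6, 2, 1, 17]⟩,
⟨4, 207, 15, 776, true, false, -204, [7, 6, 2, 17, 1, 16, 8]⟩,
⟨15, 776, 7, 362, true, false, -204, [7, 6, 17, 2, 16, 1, 8]⟩,
⟨7, 362, 3, 155, true, false, -204, [6, 17, 16, 2, 8, 1, 7]⟩,
⟨3, 155, 17, 878, true, false, -204, [17, 16, 8, 2, 7, 1, 6]⟩,
⟨17, 878, 11, 568, true, false, -204, [16, 8, 2, 7, 1, 6, 17]⟩,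
⟨11, 568, 8, 413, true, false, -204, [16, 8, 2, 7, 1, 17, 6]⟩,
⟨8, 413, 5, 258, true, false, -204, [8, 2, 7, 17, 1, 6, 16]⟩,
⟨5, 258, 7, 361, true, false, -206, [8, 17, 7, 2, 16, 6, 1]⟩,
⟨7, 361, 9, 464, true, false, -206, [8, 17, 7, 16, 2, 6, 1]⟩,
⟨9, 464, 17, 876, true, false, -204, [17, 8, 16, 7, 2, 6, 1]⟩,
⟨17, 876, 2, 103, true, false, -204, [8, 16, 7, 2, 6, 1, 17]⟩,
⟨2, 103, 15, 772, true, false, -204, [7, 6, 2, 17, 1, 16, 8]⟩,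
⟨15, 772, 11, 566, true, false, -204, [7, 6, 17, 2, 16, 1, 8]⟩,
⟨11, 566, 7, 360, true, false, -204, [7, 17, 6, 2, 16, 1, 8]⟩,
⟨7, 360, 17, 874, true, false, -204, [17, 6, 16, 2, 8, 1, 7]⟩,
⟨17, 874, 5, 257, true, false, -204, [6, 16, 2, 8, 1, 7, 17]⟩,
⟨5, 257, 8, 411, true, false, -204, [16, 6, 2, 8, 1, 17, 7]⟩,
⟨8, 411, 3, 154, true, false, -204, [6, 2, 8, 17, 1, 7, 16]⟩,
⟨3, 154, 17, 872, true, false, -202, [17, 8, 2, 16, 7, 1, 6]⟩,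
⟨17, 872, 7, 359, true, false, -202, [8, 2, 16, 7, 1, 6, 17]⟩,
⟨7, 359, 11, 564, true, false, -202, [8, 16, 2, 7, 1, 6, 17]⟩,
⟨11, 564, 4, 205, true, false, -202, [8, 16, 2, 7, 1, 17, 6]⟩,
⟨4, 205, 5, 256, true, false, -202, [2, 7, 17, 1, 6, 16, 8]⟩,
⟨5, 256, 17, 870, true, false, -204, [17, 7, 2, 16, 6, 1, 8]⟩,
⟨17, 870, 7, 358, true, false, -204, [7, 2, 16, 6, 1, 8, 17]⟩,
⟨7, 358, 8, 409, true, false, -204, [16, 2, 6, 8, 1, 17, 7]⟩,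
⟨8, 409, 9, 460, true, false, -204, [2, 6, 8, 17, 1, 7, 16]⟩,
⟨9, 460, 11, 562, true, false, -202, [2, 6, 17, 8, 1, 16, 7]⟩,
⟨11, 562, 15, 766, true, false, -202, [2, 17, 6, 8, 1, 16, 7]⟩,
⟨15, 766, 17, 868, true, false, -202, [17, 2, 6, 8, 16, 1, 7]⟩,
⟨17, 868, 1, 51, true, false, -202, [2, 6, 8, 16, 1, 7, 17]⟩,
⟨1, 51, 17, 866, true, false, -202, [17, 7, 1, 16, 8, 6, 2]⟩,
⟨17, 866, 15, 764, true, false, -202, [7, 1, 16, 8, 6, 2, 17]⟩,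
⟨15, 764, 11, 560, true, false, -202, [7, 16, 1, 8, 6, 17, 2]⟩,
⟨11, 560, 9, 458, true, false, -202, [7, 16, 1, 8, 17, 6, 2]⟩,
⟨9, 458, 8, 407, true, false, -200, [16, 7, 1, 17, 8, 6, 2]⟩,
⟨8, 407, 7, 356, true, false, -200, [7, 17, 1, 8, 6, 2, 16]⟩,
⟨7, 356, 17, 864, true, false, -200, [17, 8, 1, 6, 16, 2, 7]⟩,
⟨17, 864, 5, 254, true, false, -200, [8, 1, 6, 16, 2, 7, 17]⟩,
⟨5, 254, 4, 203, true, false, -202, [8, 16, 6, 1, 17, 7, 2]⟩,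
⟨4, 203, 11, 558, true, false, -202, [6, 17, 1, 7, 2, 16, 8]⟩,
⟨11, 558, 7, 355, true, false, -202, [17, 6, 1, 7, 2, 16, 8]⟩,
⟨7, 355, 17, 862, true, false, -202, [17, 6, 1, 7, 16, 2, 8]⟩,
⟨17, 862, 3, 152, true, false, -202, [6, 1, 7, 16, 2, 8, 17]⟩,
⟨3, 152, 8, 405, true, false, -200, [16, 7, 1, 17, 8, 2, 6]⟩,
⟨8, 405, 5, 253, true, false, -200, [7, 17, 1, 8, 2, 6, 16]⟩,
⟨5, 253, 17, 860, true, false, -200, [17, 7, 1, 8, 2, 16, 6]⟩,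
⟨17, 860, 7, 354, true, false, -200, [7, 1, 8, 2, 16, 6, 17]⟩,
⟨7, 354, 11, 556, true, false, -200, [8, 1, 16, 2, 6, 17, 7]⟩,
⟨11, 556, 15, 758, true, false, -200, [8, 1, 16, 2, 17, 6, 7]⟩,
⟨15, 758, 2, 101, true, false, -200, [8, 16, 1, 17, 2, 6, 7]⟩,
⟨2, 101, 17, 858, true, false, -200, [17, 1, 6, 2, 7, 16, 8]⟩,
⟨17, 858, 9, 454, true, false, -200, [1, 6, 2, 7, 16, 8, 17]⟩,
⟨9, 454, 7, 353, true, false, -198, [1, 6, 2, 16, 7, 17, 8]⟩,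
⟨7, 353, 5, 252, true, false, -198, [1, 6, 16, 2, 7, 17, 8]⟩,
⟨5, 252, 8, 403, true, false, -200, [16, 6, 1, 17, 7, 2, 8]⟩,
⟨8, 403, 11, 554, true, false, -200, [6, 17, 1, 7, 2, 8, 16]⟩,
⟨11, 554, 17, 856, true, false, -200, [17, 6, 1, 7, 2, 8, 16]⟩,
⟨17, 856, 3, 151, true, false, -200, [6, 1, 7, 2, 8, 16, 17]⟩,
⟨3, 151, 7, 352, true, false, -200, [7, 1, 8, 2, 16, 17, 6]⟩,
⟨7, 352, 15, 754, true, false, -200, [8, 1, 16, 2, 17, 6, 7]⟩,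
⟨15, 754, 4, 201, true, false, -200, [8, 16, 1, 17, 2, 6, 7]⟩,
⟨4, 201, 17, 854, true, false, -200, [17, 1, 2, 6, 7, 16, 8]⟩,
⟨17, 854, 9, 452, true, false, -200, [1, 2, 6, 7, 16, 8, 17]⟩,
⟨9, 452, 5, 251, true, false, -198, [1, 2, 6, 16, 7, 17, 8]⟩,
⟨5, 251, 11, 552, true, false, -198, [1, 2, 16, 6, 17, 7, 8]⟩,
⟨11, 552, 7, 351, true, false, -198, [1, 2, 16, 17, 6, 7, 8]⟩,
⟨7, 351, 15, 752, true, false, -198, [1, 16, 2, 17, 6, 7, 8]⟩,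
⟨15, 752, 8, 401, true, false, -198, [16, 1, 17, 2, 6, 7, 8]⟩,
⟨8, 401, 17, 852, true, false, -198, [17, 1, 2, 6, 7, 8, 16]⟩,
⟨17, 852, 1, 50, true, false, -198, [1, 2, 6, 7, 8, 16, 17]⟩]

def cellsP6 : List Cell := [
⟨1, 50, 17, 848, true, false, -198, [17, 16, 8, 7, 6, 2, 1]⟩,
⟨17, 848, 8, 399, true, false, -198, [16, 8, 7, 6, 2, 1, 17]⟩,
⟨8, 399, 15, 748, true, false, -198, [8, 7, 6, 2, 17, 1, 16]⟩,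
⟨15, 748, 7, 349, true, false, -198, [8, 7, 6, 17, 2, 16, 1]⟩,
⟨7, 349, 11, 548, true, false, -198, [8, 7, 6, 17, 16, 2, 1]⟩,
⟨11, 548, 5, 249, true, false, -198, [8, 7, 17, 6, 16, 2, 1]⟩,
⟨5, 249, 9, 448, true, false, -198, [8, 17, 7, 16, 6, 2, 1]⟩,
⟨9, 448, 17, 846, true, false, -196, [17, 8, 16, 7, 6, 2, 1]⟩,
⟨17, 846, 4, 199, true, false, -196, [8, 16, 7, 6, 2, 1, 17]⟩,
⟨4, 199, 15, 746, true, false, -196, [7, 6, 2, 17, 1, 16, 8]⟩,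
⟨15, 746, 7, 348, true, false, -196, [7, 6, 17, 2, 16, 1, 8]⟩,
⟨7, 348, 3, 149, true, false, -196, [6, 17, 16, 2, 8, 1, 7]⟩,
⟨3, 149, 17, 844, true, false, -196, [17, 16, 8, 2, 7, 1, 6]⟩,
⟨17, 844, 11, 546, true, false, -196, [16, 8, 2, 7, 1, 6, 17]⟩,
⟨11, 546, 8, 397, true, false, -196, [16, 8, 2, 7, 1, 17, 6]⟩,
⟨8, 397, 5, 248, true, false, -196, [8, 2, 7, 17, 1, 6, 16]⟩,
⟨5, 248, 7, 347, true, false, -198, [8, 17, 7, 2, 16, 6, 1]⟩,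
⟨7, 347, 9, 446, true, false, -198, [8, 17, 7, 16, 2, 6, 1]⟩,
⟨9, 446, 17, 842, true, false, -196, [17, 8, 16, 7, 2, 6, 1]⟩,
⟨17, 842, 2, 99, true, false, -196, [8, 16, 7, 2, 6, 1, 17]⟩,
⟨2, 99, 15, 742, true, false, -196, [7, 6, 2, 17, 1, 16, 8]⟩,
⟨15, 742, 11, 544, true, false, -196, [7, 6, 17, 2, 16, 1, 8]⟩,
⟨11, 544, 7, 346, true, false, -196, [7, 17, 6, 2, 16, 1, 8]⟩,
⟨7, 346, 17, 840, true, false, -196, [17, 6, 16, 2, 8, 1, 7]⟩,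
⟨17, 840, 5, 247, true, false, -196, [6, 16, 2, 8, 1, 7, 17]⟩,
⟨5, 247, 8, 395, true, false, -196, [16, 6, 2, 8, 1, 17, 7]⟩,
⟨8, 395, 3, 148, true, false, -196, [6, 2, 8, 17, 1, 7, 16]⟩,
⟨3, 148, 17, 838, true, false, -194, [17, 8, 2, 16, 7, 1, 6]⟩,
⟨17, 838, 7, 345, true, false, -194, [8, 2, 16, 7, 1, 6, 17]⟩,
⟨7, 345, 11, 542, true, false, -194, [8, 16, 2, 7, 1, 6, 17]⟩,
⟨11, 542, 4, 197, true, false, -194, [8, 16, 2, 7, 1, 17, 6]⟩,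
⟨4, 197, 5, 246, true, false, -194, [2, 7, 17, 1, 6, 16, 8]⟩,
⟨5, 246, 17, 836, true, false, -196, [17, 7, 2, 16, 6, 1, 8]⟩,
⟨17, 836, 7, 344, true, false, -196, [7, 2, 16, 6, 1, 8, 17]⟩,
⟨7, 344, 8, 393, true, false, -196, [16, 2, 6, 8, 1, 17, 7]⟩,
⟨8, 393, 9, 442, true, false, -196, [2, 6, 8, 17, 1, 7, 16]⟩,
⟨9, 442, 11, 540, true, false, -194, [2, 6, 17, 8, 1, 16, 7]⟩,
⟨11, 540, 15, 736, true, false, -194, [2, 17, 6, 8, 1, 16, 7]⟩,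
⟨15, 736, 17, 834, true, false, -194, [17, 2, 6, 8, 16, 1, 7]⟩,
⟨17, 834, 1, 49, true, false, -194, [2, 6, 8, 16, 1, 7, 17]⟩,
⟨1, 49, 17, 832, true, false, -194, [17, 7, 1, 16, 8, 6, 2]⟩,
⟨17, 832, 15, 734, true, false, -194, [7, 1, 16, 8, 6, 2, 17]⟩,
⟨15, 734, 11, 538, true, false, -194, [7, 16, 1, 8, 6, 17, 2]⟩,
⟨11, 538, 9, 440, true, false, -194, [7, 16, 1, 8, 17, 6, 2]⟩,
⟨9, 440, 8, 391, true, false, -192, [16, 7, 1, 17, 8, 6, 2]⟩,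
⟨8, 391, 7, 342, true, false, -192, [7, 17, 1, 8, 6, 2, 16]⟩,
⟨7, 342, 17, 830, true, false, -192, [17, 8, 1, 6, 16, 2, 7]⟩,
⟨17, 830, 5, 244, true, false, -192, [8, 1, 6, 16, 2, 7, 17]⟩,
⟨5, 244, 4, 195, true, false, -194, [8, 16, 6, 1, 17, 7, 2]⟩,
⟨4, 195, 11, 536, true, false, -194, [6, 17, 1, 7, 2, 16, 8]⟩,
⟨11, 536, 7, 341, true, false, -194, [17, 6, 1, 7, 2, 16, 8]⟩,
⟨7, 341, 17, 828, true, false, -194, [17, 6, 1, 7, 16, 2, 8]⟩,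
⟨17, 828, 3, 146, true, false, -194, [6, 1, 7, 16, 2, 8, 17]⟩,
⟨3, 146, 8, 389, true, false, -192, [16, 7, 1, 17, 8, 2, 6]⟩,
⟨8, 389, 5, 243, true, false, -192, [7, 17, 1, 8, 2, 6, 16]⟩,
⟨5, 243, 17, 826, true, false, -192, [17, 7, 1, 8, 2, 16, 6]⟩,
⟨17, 826, 7, 340, true, false, -192, [7, 1, 8, 2, 16, 6, 17]⟩,
⟨7, 340, 11, 534, true, false, -192, [8, 1, 16, 2, 6, 17, 7]⟩,
⟨11, 534, 15, 728, true, false, -192, [8, 1, 16, 2, 17, 6, 7]⟩,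
⟨15, 728, 2, 97, true, false, -192, [8, 16, 1, 17, 2, 6, 7]⟩,
⟨2, 97, 17, 824, true, false, -192, [17, 1, 6, 2, 7, 16, 8]⟩,
⟨17, 824, 9, 436, true, false, -192, [1, 6, 2, 7, 16, 8, 17]⟩,
⟨9, 436, 7, 339, true, false, -190, [1, 6, 2, 16, 7, 17, 8]⟩,
⟨7, 339, 5, 242, true, false, -190, [1, 6, 16, 2, 7, 17, 8]⟩,
⟨5, 242, 8, 387, true, false, -192, [16, 6, 1, 17, 7, 2, 8]⟩,
⟨8, 387, 11, 532, true, false, -192, [6, 17, 1, 7, 2, 8, 16]⟩,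
⟨11, 532, 17, 822, true, false, -192, [17, 6, 1, 7, 2, 8, 16]⟩,
⟨17, 822, 3, 145, true, false, -192, [6, 1, 7, 2, 8, 16, 17]⟩,
⟨3, 145, 7, 338, true, false, -192, [7, 1, 8, 2, 16, 17, 6]⟩,
⟨7, 338, 15, 724, true, false, -192, [8, 1, 16, 2, 17, 6, 7]⟩,
⟨15, 724, 4, 193, true, false, -192, [8, 16, 1, 17, 2, 6, 7]⟩,
⟨4, 193, 17, 820, true, false, -192, [17, 1, 2, 6, 7, 16, 8]⟩,
⟨17, 820, 9, 434, true, false, -192, [1, 2, 6, 7, 16, 8, 17]⟩,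
⟨9, 434, 5, 241, true, false, -190, [1, 2, 6, 16, 7, 17, 8]⟩,
⟨5, 241, 11, 530, true, false, -190, [1, 2, 16, 6, 17, 7, 8]⟩,
⟨11, 530, 7, 337, true, false, -190, [1, 2, 16, 17, 6, 7, 8]⟩,
⟨7, 337, 15, 722, true, false, -190, [1, 16, 2, 17, 6, 7, 8]⟩,
⟨15, 722, 8, 385, true, false, -190, [16, 1, 17, 2, 6, 7, 8]⟩,
⟨8, 385, 17, 818, true, false, -190, [17, 1, 2, 6, 7, 8, 16]⟩,
⟨17, 818, 1, 48, true, false, -190, [1, 2, 6, 7, 8, 16, 17]⟩,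
⟨1, 48, 17, 814, true, false, -190, [17, 16, 8, 7, 6, 2, 1]⟩,
⟨17, 814, 8, 383, true, false, -190, [16, 8, 7, 6, 2, 1, 17]⟩,
⟨8, 383, 15, 718, true, false, -190, [8, 7, 6, 2, 17, 1, 16]⟩,
⟨15, 718, 7, 335, true, false, -190, [8, 7, 6, 17, 2, 16, 1]⟩,
⟨7, 335, 11, 526, true, false, -190, [8, 7, 6, 17, 16, 2, 1]⟩,
⟨11, 526, 5, 239, true, false, -190, [8, 7, 17, 6, 16, 2, 1]⟩,
⟨5, 239, 9, 430, true, false, -190, [8, 17, 7, 16, 6, 2, 1]⟩,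
⟨9, 430, 17, 812, true, false, -188, [17, 8, 16, 7, 6, 2, 1]⟩,
⟨17, 812, 4, 191, true, false, -188, [8, 16, 7, 6, 2, 1, 17]⟩,
⟨4, 191, 15, 716, true, false, -188, [7, 6, 2, 17, 1, 16, 8]⟩,
⟨15, 716, 7, 334, true, false, -188, [7, 6, 17, 2, 16, 1, 8]⟩,
⟨7, 334, 3, 143, true, false, -188, [6, 17, 16, 2, 8, 1, 7]⟩,
⟨3, 143, 17, 810, true, false, -188, [17, 16, 8, 2, 7, 1, 6]⟩,
⟨17, 810, 11, 524, true, false, -188, [16, 8, 2, 7, 1, 6, 17]⟩,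
⟨11, 524, 8, 381, true, false, -188, [16, 8, 2, 7, 1, 17, 6]⟩,
⟨8, 381, 5, 238, true, false, -188, [8, 2, 7, 17, 1, 6, 16]⟩,
⟨5, 238, 7, 333, true, false, -190, [8, 17, 7, 2, 16, 6, 1]⟩,
⟨7, 333, 9, 428, true, false, -190, [8, 17, 7, 16, 2, 6, 1]⟩,
⟨9, 428, 17, 808, true, false, -188, [17, 8, 16, 7, 2, 6, 1]⟩,
⟨17, 808, 2, 95, true, false, -188, [8, 16, 7, 2, 6, 1, 17]⟩,
⟨2, 95, 15, 712, true, false, -188, [7, 6, 2, 17, 1, 16, 8]⟩,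
⟨15, 712, 11, 522, true, false, -188, [7, 6, 17, 2, 16, 1, 8]⟩,
⟨11, 522, 7, 332, true, false, -188, [7, 17, 6, 2, 16, 1, 8]⟩,
⟨7, 332, 17, 806, true, false, -188, [17, 6, 16, 2, 8, 1, 7]⟩,
⟨17, 806, 5, 237, true, false, -188, [6, 16, 2, 8, 1, 7, 17]⟩,
⟨5, 237, 8, 379, true, false, -188, [16, 6, 2, 8, 1, 17, 7]⟩,
⟨8, 379, 3, 142, true, false, -188, [6, 2, 8, 17, 1, 7, 16]⟩,
⟨3, 142, 17, 804, true, false, -186, [17, 8, 2, 16, 7, 1, 6]⟩,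
⟨17, 804, 7, 331, true, false, -186, [8, 2, 16, 7, 1, 6, 17]⟩,
⟨7, 331, 11, 520, true, false, -186, [8, 16, 2, 7, 1, 6, 17]⟩,
⟨11, 520, 4, 189, true, false, -186, [8, 16, 2, 7, 1, 17, 6]⟩,
⟨4, 189, 5, 236, true, false, -186, [2, 7, 17, 1, 6, 16, 8]⟩,
⟨5, 236, 17, 802, true, false, -188, [17, 7, 2, 16, 6, 1, 8]⟩,
⟨17, 802, 7, 330, true, false, -188, [7, 2, 16, 6, 1, 8, 17]⟩,
⟨7, 330, 8, 377, true, false, -188, [16, 2, 6, 8, 1, 17, 7]⟩,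
⟨8, 377, 9, 424, true, false, -188, [2, 6, 8, 17, 1, 7, 16]⟩,
⟨9, 424, 11, 518, true, false, -186, [2, 6, 17, 8, 1, 16, 7]⟩,
⟨11, 518, 15, 706, true, false, -186, [2, 17, 6, 8, 1, 16, 7]⟩,
⟨15, 706, 17, 800, true, false, -186, [17, 2, 6, 8, 16, 1, 7]⟩,
⟨17, 800, 1, 47, true, false, -186, [2, 6, 8, 16, 1, 7, 17]⟩,
⟨1, 47, 17, 798, true, false, -186, [17, 7, 1, 16, 8, 6, 2]⟩,
⟨17, 798, 15, 704, true, false, -186, [7, 1, 16, 8, 6, 2, 17]⟩,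
⟨15, 704, 11, 516, true, false, -186, [7, 16, 1, 8, 6, 17, 2]⟩,
⟨11, 516, 9, 422, true, false, -186, [7, 16, 1, 8, 17, 6, 2]⟩,
⟨9, 422, 8, 375, true, false, -184, [16, 7, 1, 17, 8, 6, 2]⟩,
⟨8, 375, 7, 328, true, false, -184, [7, 17, 1, 8, 6, 2, 16]⟩,
⟨7, 328, 17, 796, true, false, -184, [17, 8, 1, 6, 16, 2, 7]⟩,
⟨17, 796, 5, 234, true, false, -184, [8, 1, 6, 16, 2, 7, 17]⟩,
⟨5, 234, 4, 187, true, false, -186, [8, 16, 6, 1, 17, 7, 2]⟩,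
⟨4, 187, 11, 514, true, false, -186, [6, 17, 1, 7, 2, 16, 8]⟩,
⟨11, 514, 7, 327, true, false, -186, [17, 6, 1, 7, 2, 16, 8]⟩,
⟨7, 327, 17, 794, true, false, -186, [17, 6, 1, 7, 16, 2, 8]⟩,
⟨17, 794, 3, 140, true, false, -186, [6, 1, 7, 16, 2, 8, 17]⟩,
⟨3, 140, 8, 373, true, false, -184, [16, 7, 1, 17, 8, 2, 6]⟩,
⟨8, 373, 5, 233, true, false, -184, [7, 17, 1, 8, 2, 6, 16]⟩,
⟨5, 233, 17, 792, true, false, -184, [17, 7, 1, 8, 2, 16, 6]⟩,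
⟨17, 792, 7, 326, true, false, -184, [7, 1, 8, 2, 16, 6, 17]⟩,
⟨7, 326, 11, 512, true, false, -184, [8, 1, 16, 2, 6, 17, 7]⟩,
⟨11, 512, 15, 698, true, false, -184, [8, 1, 16, 2, 17, 6, 7]⟩,
⟨15, 698, 2, 93, true, false, -184, [8, 16, 1, 17, 2, 6, 7]⟩,
⟨2, 93, 17, 790, true, false, -184, [17, 1, 6, 2, 7, 16, 8]⟩,
⟨17, 790, 9, 418, true, false, -184, [1, 6, 2, 7, 16, 8, 17]⟩,
⟨9, 418, 7, 325, true, false, -182, [1, 6, 2, 16, 7, 17, 8]⟩,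
⟨7, 325, 5, 232, true, false, -182, [1, 6, 16, 2, 7, 17, 8]⟩,
⟨5, 232, 8, 371, true, false, -184, [16, 6, 1, 17, 7, 2, 8]⟩,
⟨8, 371, 11, 510, true, false, -184, [6, 17, 1, 7, 2, 8, 16]⟩,
⟨11, 510, 17, 788, true, false, -184, [17, 6, 1, 7, 2, 8, 16]⟩,
⟨17, 788, 3, 139, true, false, -184, [6, 1, 7, 2, 8, 16, 17]⟩,
⟨3, 139, 7, 324, true, false, -184, [7, 1, 8, 2, 16, 17, 6]⟩,
⟨7, 324, 15, 694, true, false, -184, [8, 1, 16, 2, 17, 6, 7]⟩,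
⟨15, 694, 4, 185, true, false, -184, [8, 16, 1, 17, 2, 6, 7]⟩,
⟨4, 185, 17, 786, true, false, -184, [17, 1, 2, 6, 7, 16, 8]⟩,
⟨17, 786, 9, 416, true, false, -184, [1, 2, 6, 7, 16, 8, 17]⟩,
⟨9, 416, 5, 231, true, false, -182, [1, 2, 6, 16, 7, 17, 8]⟩,
⟨5, 231, 11, 508, true, false, -182, [1, 2, 16, 6, 17, 7, 8]⟩,
⟨11, 508, 7, 323, true, false, -182, [1, 2, 16, 17, 6, 7, 8]⟩,
⟨7, 323, 15, 692, true, false, -182, [1, 16, 2, 17, 6, 7, 8]⟩,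
⟨15, 692, 8, 369, true, false, -182, [16, 1, 17, 2, 6, 7, 8]⟩,
⟨8, 369, 17, 784, true, false, -182, [17, 1, 2, 6, 7, 8, 16]⟩,
⟨17, 784, 1, 46, true, false, -182, [1, 2, 6, 7, 8, 16, 17]⟩,
⟨1, 46, 17, 780, true, false, -182, [17, 16, 8, 7, 6, 2, 1]⟩,
⟨17, 780, 8, 367, true, false, -182, [16, 8, 7, 6, 2, 1, 17]⟩,
⟨8, 367, 15, 688, true, false, -182, [8, 7, 6, 2, 17, 1, 16]⟩,
⟨15, 688, 7, 321, true, false, -182, [8, 7, 6, 17, 2, 16, 1]⟩,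
⟨7, 321, 11, 504, true, false, -182, [8, 7, 6, 17, 16, 2, 1]⟩,
⟨11, 504, 5, 229, true, false, -182, [8, 7, 17, 6, 16, 2, 1]⟩,
⟨5, 229, 9, 412, true, false, -182, [8, 17, 7, 16, 6, 2, 1]⟩,
⟨9, 412, 17, 778, true, false, -180, [17, 8, 16, 7, 6, 2, 1]⟩,
⟨17, 778, 4, 183, true, false, -180, [8, 16, 7, 6, 2, 1, 17]⟩,
⟨4, 183, 15, 686, true, false, -180, [7, 6, 2, 17, 1, 16, 8]⟩,
⟨15, 686, 7, 320, true, false, -180, [7, 6, 17, 2, 16, 1, 8]⟩,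
⟨7, 320, 3, 137, true, false, -180, [6, 17, 16, 2, 8, 1, 7]⟩,
⟨3, 137, 17, 776, true, false, -180, [17, 16, 8, 2, 7, 1, 6]⟩,
⟨17, 776, 11, 502, true, false, -180, [16, 8, 2, 7, 1, 6, 17]⟩,
⟨11, 502, 8, 365, true, false, -180, [16, 8, 2, 7, 1, 17, 6]⟩,
⟨8, 365, 5, 228, true, false, -180, [8, 2, 7, 17, 1, 6, 16]⟩,
⟨5, 228, 7, 319, true, false, -182, [8, 17, 7, 2, 16, 6, 1]⟩,
⟨7, 319, 9, 410, true, false, -182, [8, 17, 7, 16, 2, 6, 1]⟩,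
⟨9, 410, 17, 774, true, false, -180, [17, 8, 16, 7, 2, 6, 1]⟩,
⟨17, 774, 2, 91, true, false, -180, [8, 16, 7, 2, 6, 1, 17]⟩,
⟨2, 91, 15, 682, true, false, -180, [7, 6, 2, 17, 1, 16, 8]⟩,
⟨15, 682, 11, 500, true, false, -180, [7, 6, 17, 2, 16, 1, 8]⟩,
⟨11, 500, 7, 318, true, false, -180, [7, 17, 6, 2, 16, 1, 8]⟩,
⟨7, 318, 17, 772, true, false, -180, [17, 6, 16, 2, 8, 1, 7]⟩,
⟨17, 772, 5, 227, true, false, -180, [6, 16, 2, 8, 1, 7, 17]⟩,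
⟨5, 227, 8, 363, true, false, -180, [16, 6, 2, 8, 1, 17, 7]⟩,
⟨8, 363, 3, 136, true, false, -180, [6, 2, 8, 17, 1, 7, 16]⟩,
⟨3, 136, 17, 770, true, false, -178, [17, 8, 2, 16, 7, 1, 6]⟩,
⟨17, 770, 7, 317, true, false, -178, [8, 2, 16, 7, 1, 6, 17]⟩,
⟨7, 317, 11, 498, true, false, -178, [8, 16, 2, 7, 1, 6, 17]⟩,
⟨11, 498, 4, 181, true, false, -178, [8, 16, 2, 7, 1, 17, 6]⟩,
⟨4, 181, 5, 226, true, false, -178, [2, 7, 17, 1, 6, 16, 8]⟩,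
⟨5, 226, 17, 768, true, false, -180, [17, 7, 2, 16, 6, 1, 8]⟩,
⟨17, 768, 7, 316, true, false, -180, [7, 2, 16, 6, 1, 8, 17]⟩,
⟨7, 316, 8, 361, true, false, -180, [16, 2, 6, 8, 1, 17, 7]⟩,
⟨8, 361, 9, 406, true, false, -180, [2, 6, 8, 17, 1, 7, 16]⟩,
⟨9, 406, 11, 496, true, false, -178, [2, 6, 17, 8, 1, 16, 7]⟩,
⟨11, 496, 15, 676, true, false, -178, [2, 17, 6, 8, 1, 16, 7]⟩,
⟨15, 676, 17, 766, true, false, -178, [17, 2, 6, 8, 16, 1, 7]⟩,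
⟨17, 766, 1, 45, true, false, -178, [2, 6, 8, 16, 1, 7, 17]⟩]

def cellsP7 : List Cell := [
⟨1, 45, 17, 764, true, false, -178, [17, 7, 1, 16, 8, 6, 2]⟩,
⟨17, 764, 15, 674, true, false, -178, [7, 1, 16, 8, 6, 2, 17]⟩,
⟨15, 674, 11, 494, true, false, -178, [7, 16, 1, 8, 6, 17, 2]⟩,
⟨11, 494, 9, 404, true, false, -178, [7, 16, 1, 8, 17, 6, 2]⟩,
⟨9, 404, 8, 359, true, false, -176, [16, 7, 1, 17, 8, 6, 2]⟩,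
⟨8, 359, 7, 314, true, false, -176, [7, 17, 1, 8, 6, 2, 16]⟩,
⟨7, 314, 17, 762, true, false, -176, [17, 8, 1, 6, 16, 2, 7]⟩,
⟨17, 762, 5, 224, true, false, -176, [8, 1, 6, 16, 2, 7, 17]⟩,
⟨5, 224, 4, 179, true, false, -178, [8, 16, 6, 1, 17, 7, 2]⟩,
⟨4, 179, 11, 492, true, false, -178, [6, 17, 1, 7, 2, 16, 8]⟩,
⟨11, 492, 7, 313, true, false, -178, [17, 6, 1, 7, 2, 16, 8]⟩,
⟨7, 313, 17, 760, true, false, -178, [17, 6, 1, 7, 16, 2, 8]⟩,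
⟨17, 760, 3, 134, true, false, -178, [6, 1, 7, 16, 2, 8, 17]⟩,
⟨3, 134, 8, 357, true, false, -176, [16, 7, 1, 17, 8, 2, 6]⟩,
⟨8, 357, 5, 223, true, false, -176, [7, 17, 1, 8, 2, 6, 16]⟩,
⟨5, 223, 17, 758, true, false, -176, [17, 7, 1, 8, 2, 16, 6]⟩,
⟨17, 758, 7, 312, true, false, -176, [7, 1, 8, 2, 16, 6, 17]⟩,
⟨7, 312, 11, 490, true, false, -176, [8, 1, 16, 2, 6, 17, 7]⟩,
⟨11, 490, 15, 668, true, false, -176, [8, 1, 16, 2, 17, 6, 7]⟩,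
⟨15, 668, 2, 89, true, false, -176, [8, 16, 1, 17, 2, 6, 7]⟩,
⟨2, 89, 17, 756, true, false, -176, [17, 1, 6, 2, 7, 16, 8]⟩,
⟨17, 756, 9, 400, true, false, -176, [1, 6, 2, 7, 16, 8, 17]⟩,
⟨9, 400, 7, 311, true, false, -174, [1, 6, 2, 16, 7, 17, 8]⟩,
⟨7, 311, 5, 222, true, false, -174, [1, 6, 16, 2, 7, 17, 8]⟩,
⟨5, 222, 8, 355, true, false, -176, [16, 6, 1, 17, 7, 2, 8]⟩,
⟨8, 355, 11, 488, true, false, -176, [6, 17, 1, 7, 2, 8, 16]⟩,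
⟨11, 488, 17, 754, true, false, -176, [17, 6, 1, 7, 2, 8, 16]⟩,
⟨17, 754, 3, 133, true, false, -176, [6, 1, 7, 2, 8, 16, 17]⟩,
⟨3, 133, 7, 310, true, false, -176, [7, 1, 8, 2, 16, 17, 6]⟩,
⟨7, 310, 15, 664, true, false, -176, [8, 1, 16, 2, 17, 6, 7]⟩,
⟨15, 664, 4, 177, true, false, -176, [8, 16, 1, 17, 2, 6, 7]⟩,
⟨4, 177, 17, 752, true, false, -176, [17, 1, 2, 6, 7, 16, 8]⟩,
⟨17, 752, 9, 398, true, false, -176, [1, 2, 6, 7, 16, 8, 17]⟩,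
⟨9, 398, 5, 221, true, false, -174, [1, 2, 6, 16, 7, 17, 8]⟩,
⟨5, 221, 11, 486, true, false, -174, [1, 2, 16, 6, 17, 7, 8]⟩,
⟨11, 486, 7, 309, true, false, -174, [1, 2, 16, 17, 6, 7, 8]⟩,
⟨7, 309, 15, 662, true, false, -174, [1, 16, 2, 17, 6, 7, 8]⟩,
⟨15, 662, 8, 353, true, false, -174, [16, 1, 17, 2, 6, 7, 8]⟩,
⟨8, 353, 17, 750, true, false, -174, [17, 1, 2, 6, 7, 8, 16]⟩,
⟨17, 750, 1, 44, true, false, -174, [1, 2, 6, 7, 8, 16, 17]⟩,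
⟨1, 44, 17, 746, true, false, -174, [17, 16, 8, 7, 6, 2, 1]⟩,
⟨17, 746, 8, 351, true, false, -174, [16, 8, 7, 6, 2, 1, 17]⟩,
⟨8, 351, 15, 658, true, false, -174, [8, 7, 6, 2, 17, 1, 16]⟩,
⟨15, 658, 7, 307, true, false, -174, [8, 7, 6, 17, 2, 16, 1]⟩,
⟨7, 307, 11, 482, true, false, -174, [8, 7, 6, 17, 16, 2, 1]⟩,
⟨11, 482, 5, 219, true, false, -174, [8, 7, 17, 6, 16, 2, 1]⟩,
⟨5, 219, 9, 394, true, false, -174, [8, 17, 7, 16, 6, 2, 1]⟩,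
⟨9, 394, 17, 744, true, false, -172, [17, 8, 16, 7, 6, 2, 1]⟩,
⟨17, 744, 4, 175, true, false, -172, [8, 16, 7, 6, 2, 1, 17]⟩,
⟨4, 175, 15, 656, true, false, -172, [7, 6, 2, 17, 1, 16, 8]⟩,
⟨15, 656, 7, 306, true, false, -172, [7, 6, 17, 2, 16, 1, 8]⟩,
⟨7, 306, 3, 131, true, false, -172, [6, 17, 16, 2, 8, 1, 7]⟩,
⟨3, 131, 17, 742, true, false, -172, [17, 16, 8, 2, 7, 1, 6]⟩,
⟨17, 742, 11, 480, true, false, -172, [16, 8, 2, 7, 1, 6, 17]⟩,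
⟨11, 480, 8, 349, true, false, -172, [16, 8, 2, 7, 1, 17, 6]⟩,
⟨8, 349, 5, 218, true, false, -172, [8, 2, 7, 17, 1, 6, 16]⟩,
⟨5, 218, 7, 305, true, false, -174, [8, 17, 7, 2, 16, 6, 1]⟩,
⟨7, 305, 9, 392, true, false, -174, [8, 17, 7, 16, 2, 6, 1]⟩,
⟨9, 392, 17, 740, true, false, -172, [17, 8, 16, 7, 2, 6, 1]⟩,
⟨17, 740, 2, 87, true, false, -172, [8, 16, 7, 2, 6, 1, 17]⟩,
⟨2, 87, 15, 652, true, false, -172, [7, 6, 2, 17, 1, 16, 8]⟩,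
⟨15, 652, 11, 478, true, false, -172, [7, 6, 17, 2, 16, 1, 8]⟩,
⟨11, 478, 7, 304, true, false, -172, [7, 17, 6, 2, 16, 1, 8]⟩,
⟨7, 304, 17, 738, true, false, -172, [17, 6, 16, 2, 8, 1, 7]⟩,
⟨17, 738, 5, 217, true, false, -172, [6, 16, 2, 8, 1, 7, 17]⟩,
⟨5, 217, 8, 347, true, false, -172, [16, 6, 2, 8, 1, 17, 7]⟩,
⟨8, 347, 3, 130, true, false, -172, [6, 2, 8, 17, 1, 7, 16]⟩,
⟨3, 130, 17, 736, true, false, -170, [17, 8, 2, 16, 7, 1, 6]⟩,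
⟨17, 736, 7, 303, true, false, -170, [8, 2, 16, 7, 1, 6, 17]⟩,
⟨7, 303, 11, 476, true, false, -170, [8, 16, 2, 7, 1, 6, 17]⟩,
⟨11, 476, 4, 173, true, false, -170, [8, 16, 2, 7, 1, 17, 6]⟩,
⟨4, 173, 5, 216, true, false, -170, [2, 7, 17, 1, 6, 16, 8]⟩,
⟨5, 216, 17, 734, true, false, -172, [17, 7, 2, 16, 6, 1, 8]⟩,
⟨17, 734, 7, 302, true, false, -172, [7, 2, 16, 6, 1, 8, 17]⟩,
⟨7, 302, 8, 345, true, false, -172, [16, 2, 6, 8, 1, 17, 7]⟩,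
⟨8, 345, 9, 388, true, false, -172, [2, 6, 8, 17, 1, 7, 16]⟩,
⟨9, 388, 11, 474, true, false, -170, [2, 6, 17, 8, 1, 16, 7]⟩,
⟨11, 474, 15, 646, true, false, -170, [2, 17, 6, 8, 1, 16, 7]⟩,
⟨15, 646, 17, 732, true, false, -170, [17, 2, 6, 8, 16, 1, 7]⟩,
⟨17, 732, 1, 43, true, false, -170, [2, 6, 8, 16, 1, 7, 17]⟩,
⟨1, 43, 17, 730, true, false, -170, [17, 7, 1, 16, 8, 6, 2]⟩,
⟨17, 730, 15, 644, true, false, -170, [7, 1, 16, 8, 6, 2, 17]⟩,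
⟨15, 644, 11, 472, true, false, -170, [7, 16, 1, 8, 6, 17, 2]⟩,
⟨11, 472, 9, 386, true, false, -170, [7, 16, 1, 8, 17, 6, 2]⟩,
⟨9, 386, 8, 343, true, false, -168, [16, 7, 1, 17, 8, 6, 2]⟩,
⟨8, 343, 7, 300, true, false, -168, [7, 17, 1, 8, 6, 2, 16]⟩,
⟨7, 300, 17, 728, true, false, -168, [17, 8, 1, 6, 16, 2, 7]⟩,
⟨17, 728, 5, 214, true, false, -168, [8, 1, 6, 16, 2, 7, 17]⟩,
⟨5, 214, 4, 171, true, false, -170, [8, 16, 6, 1, 17, 7, 2]⟩,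
⟨4, 171, 11, 470, true, false, -170, [6, 17, 1, 7, 2, 16, 8]⟩,
⟨11, 470, 7, 299, true, false, -170, [17, 6, 1, 7, 2, 16, 8]⟩,
⟨7, 299, 17, 726, true, false, -170, [17, 6, 1, 7, 16, 2, 8]⟩,
⟨17, 726, 3, 128, true, false, -170, [6, 1, 7, 16, 2, 8, 17]⟩,
⟨3, 128, 8, 341, true, false, -168, [16, 7, 1, 17, 8, 2, 6]⟩,
⟨8, 341, 5, 213, true, false, -168, [7, 17, 1, 8, 2, 6, 16]⟩,
⟨5, 213, 17, 724, true, false, -168, [17, 7, 1, 8, 2, 16, 6]⟩,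
⟨17, 724, 7, 298, true, false, -168, [7, 1, 8, 2, 16, 6, 17]⟩,
⟨7, 298, 11, 468, true, false, -168, [8, 1, 16, 2, 6, 17, 7]⟩,
⟨11, 468, 15, 638, true, false, -168, [8, 1, 16, 2, 17, 6, 7]⟩,
⟨15, 638, 2, 85, true, false, -168, [8, 16, 1, 17, 2, 6, 7]⟩,
⟨2, 85, 17, 722, true, false, -168, [17, 1, 6, 2, 7, 16, 8]⟩,
⟨17, 722, 9, 382, true, false, -168, [1, 6, 2, 7, 16, 8, 17]⟩,
⟨9, 382, 7, 297, true, false, -166, [1, 6, 2, 16, 7, 17, 8]⟩,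
⟨7, 297, 5, 212, true, false, -166, [1, 6, 16, 2, 7, 17, 8]⟩,
⟨5, 212, 8, 339, true, false, -168, [16, 6, 1, 17, 7, 2, 8]⟩,
⟨8, 339, 11, 466, true, false, -168, [6, 17, 1, 7, 2, 8, 16]⟩,
⟨11, 466, 17, 720, true, false, -168, [17, 6, 1, 7, 2, 8, 16]⟩,
⟨17, 720, 3, 127, true, false, -168, [6, 1, 7, 2, 8, 16, 17]⟩,
⟨3, 127, 7, 296, true, false, -168, [7, 1, 8, 2, 16, 17, 6]⟩,
⟨7, 296, 15, 634, true, false, -168, [8, 1, 16, 2, 17, 6, 7]⟩,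
⟨15, 634, 4, 169, true, false, -168, [8, 16, 1, 17, 2, 6, 7]⟩,
⟨4, 169, 17, 718, true, false, -168, [17, 1, 2, 6, 7, 16, 8]⟩,
⟨17, 718, 9, 380, true, false, -168, [1, 2, 6, 7, 16, 8, 17]⟩,
⟨9, 380, 5, 211, true, false, -166, [1, 2, 6, 16, 7, 17, 8]⟩,
⟨5, 211, 11, 464, true, false, -166, [1, 2, 16, 6, 17, 7, 8]⟩,
⟨11, 464, 7, 295, true, false, -166, [1, 2, 16, 17, 6, 7, 8]⟩,
⟨7, 295, 15, 632, true, false, -166, [1, 16, 2, 17, 6, 7, 8]⟩,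
⟨15, 632, 8, 337, true, false, -166, [16, 1, 17, 2, 6, 7, 8]⟩,
⟨8, 337, 17, 716, true, false, -166, [17, 1, 2, 6, 7, 8, 16]⟩,
⟨17, 716, 1, 42, true, false, -166, [1, 2, 6, 7, 8, 16, 17]⟩,
⟨1, 42, 17, 712, true, false, -166, [17, 16, 8, 7, 6, 2, 1]⟩,
⟨17, 712, 8, 335, true, false, -166, [16, 8, 7, 6, 2, 1, 17]⟩,
⟨8, 335, 15, 628, true, false, -166, [8, 7, 6, 2, 17, 1, 16]⟩,
⟨15, 628, 7, 293, true, false, -166, [8, 7, 6, 17, 2, 16, 1]⟩,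
⟨7, 293, 11, 460, true, false, -166, [8, 7, 6, 17, 16, 2, 1]⟩,
⟨11, 460, 5, 209, true, false, -166, [8, 7, 17, 6, 16, 2, 1]⟩,
⟨5, 209, 9, 376, true, false, -166, [8, 17, 7, 16, 6, 2, 1]⟩,
⟨9, 376, 17, 710, true, false, -164, [17, 8, 16, 7, 6, 2, 1]⟩,
⟨17, 710, 4, 167, true, false, -164, [8, 16, 7, 6, 2, 1, 17]⟩,
⟨4, 167, 15, 626, true, false, -164, [7, 6, 2, 17, 1, 16, 8]⟩,
⟨15, 626, 7, 292, true, false, -164, [7, 6, 17, 2, 16, 1, 8]⟩,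
⟨7, 292, 3, 125, true, false, -164, [6, 17, 16, 2, 8, 1, 7]⟩,
⟨3, 125, 17, 708, true, false, -164, [17, 16, 8, 2, 7, 1, 6]⟩,
⟨17, 708, 11, 458, true, false, -164, [16, 8, 2, 7, 1, 6, 17]⟩,
⟨11, 458, 8, 333, true, false, -164, [16, 8, 2, 7, 1, 17, 6]⟩,
⟨8, 333, 5, 208, true, false, -164, [8, 2, 7, 17, 1, 6, 16]⟩,
⟨5, 208, 7, 291, true, false, -166, [8, 17, 7, 2, 16, 6, 1]⟩,
⟨7, 291, 9, 374, true, false, -166, [8, 17, 7, 16, 2, 6, 1]⟩,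
⟨9, 374, 17, 706, true, false, -164, [17, 8, 16, 7, 2, 6, 1]⟩,
⟨17, 706, 2, 83, true, false, -164, [8, 16, 7, 2, 6, 1, 17]⟩,
⟨2, 83, 15, 622, true, false, -164, [7, 6, 2, 17, 1, 16, 8]⟩,
⟨15, 622, 11, 456, true, false, -164, [7, 6, 17, 2, 16, 1, 8]⟩,
⟨11, 456, 7, 290, true, false, -164, [7, 17, 6, 2, 16, 1, 8]⟩,
⟨7, 290, 17, 704, true, false, -164, [17, 6, 16, 2, 8, 1, 7]⟩,
⟨17, 704, 5, 207, true, false, -164, [6, 16, 2, 8, 1, 7, 17]⟩,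
⟨5, 207, 8, 331, true, false, -164, [16, 6, 2, 8, 1, 17, 7]⟩,
⟨8, 331, 3, 124, true, false, -164, [6, 2, 8, 17, 1, 7, 16]⟩,
⟨3, 124, 17, 702, true, false, -162, [17, 8, 2, 16, 7, 1, 6]⟩,
⟨17, 702, 7, 289, true, false, -162, [8, 2, 16, 7, 1, 6, 17]⟩,
⟨7, 289, 11, 454, true, false, -162, [8, 16, 2, 7, 1, 6, 17]⟩,
⟨11, 454, 4, 165, true, false, -162, [8, 16, 2, 7, 1, 17, 6]⟩,
⟨4, 165, 5, 206, true, false, -162, [2, 7, 17, 1, 6, 16, 8]⟩,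
⟨5, 206, 17, 700, true, false, -164, [17, 7, 2, 16, 6, 1, 8]⟩,
⟨17, 700, 7, 288, true, false, -164, [7, 2, 16, 6, 1, 8, 17]⟩,
⟨7, 288, 8, 329, true, false, -164, [16, 2, 6, 8, 1, 17, 7]⟩,
⟨8, 329, 9, 370, true, false, -164, [2, 6, 8, 17, 1, 7, 16]⟩,
⟨9, 370, 11, 452, true, false, -162, [2, 6, 17, 8, 1, 16, 7]⟩,
⟨11, 452, 15, 616, true, false, -162, [2, 17, 6, 8, 1, 16, 7]⟩,
⟨15, 616, 17, 698, true, false, -162, [17, 2, 6, 8, 16, 1, 7]⟩,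
⟨17, 698, 1, 41, true, false, -162, [2, 6, 8, 16, 1, 7, 17]⟩,
⟨1, 41, 17, 696, true, false, -162, [17, 7, 1, 16, 8, 6, 2]⟩,
⟨17, 696, 15, 614, true, false, -162, [7, 1, 16, 8, 6, 2, 17]⟩,
⟨15, 614, 11, 450, true, false, -162, [7, 16, 1, 8, 6, 17, 2]⟩,
⟨11, 450, 9, 368, true, false, -162, [7, 16, 1, 8, 17, 6, 2]⟩,
⟨9, 368, 8, 327, true, false, -160, [16, 7, 1, 17, 8, 6, 2]⟩,
⟨8, 327, 7, 286, true, false, -160, [7, 17, 1, 8, 6, 2, 16]⟩,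
⟨7, 286, 17, 694, true, false, -160, [17, 8, 1, 6, 16, 2, 7]⟩,
⟨17, 694, 5, 204, true, false, -160, [8, 1, 6, 16, 2, 7, 17]⟩,
⟨5, 204, 4, 163, true, false, -162, [8, 16, 6, 1, 17, 7, 2]⟩,
⟨4, 163, 11, 448, true, false, -162, [6, 17, 1, 7, 2, 16, 8]⟩,
⟨11, 448, 7, 285, true, false, -162, [17, 6, 1, 7, 2, 16, 8]⟩,
⟨7, 285, 17, 692, true, false, -162, [17, 6, 1, 7, 16, 2, 8]⟩,
⟨17, 692, 3, 122, true, false, -162, [6, 1, 7, 16, 2, 8, 17]⟩,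
⟨3, 122, 8, 325, true, false, -160, [16, 7, 1, 17, 8, 2, 6]⟩,
⟨8, 325, 5, 203, true, false, -160, [7, 17, 1, 8, 2, 6, 16]⟩,
⟨5, 203, 17, 690, true, false, -160, [17, 7, 1, 8, 2, 16, 6]⟩,
⟨17, 690, 7, 284, true, false, -160, [7, 1, 8, 2, 16, 6, 17]⟩,
⟨7, 284, 11, 446, true, false, -160, [8, 1, 16, 2, 6, 17, 7]⟩,
⟨11, 446, 15, 608, true, false, -160, [8, 1, 16, 2, 17, 6, 7]⟩,
⟨15, 608, 2, 81, true, false, -160, [8, 16, 1, 17, 2, 6, 7]⟩,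
⟨2, 81, 17, 688, true, false, -160, [17, 1, 6, 2, 7, 16, 8]⟩,
⟨17, 688, 9, 364, true, false, -160, [1, 6, 2, 7, 16, 8, 17]⟩,
⟨9, 364, 7, 283, true, false, -158, [1, 6, 2, 16, 7, 17, 8]⟩,
⟨7, 283, 5, 202, true, false, -158, [1, 6, 16, 2, 7, 17, 8]⟩,
⟨5, 202, 8, 323, true, false, -160, [16, 6, 1, 17, 7, 2, 8]⟩,
⟨8, 323, 11, 444, true, false, -160, [6, 17, 1, 7, 2, 8, 16]⟩,
⟨11, 444, 17, 686, true, false, -160, [17, 6, 1, 7, 2, 8, 16]⟩,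
⟨17, 686, 3, 121, true, false, -160, [6, 1, 7, 2, 8, 16, 17]⟩,
⟨3, 121, 7, 282, true, false, -160, [7, 1, 8, 2, 16, 17, 6]⟩,
⟨7, 282, 15, 604, true, false, -160, [8, 1, 16, 2, 17, 6, 7]⟩,
⟨15, 604, 4, 161, true, false, -160, [8, 16, 1, 17, 2, 6, 7]⟩,
⟨4, 161, 17, 684, true, false, -160, [17, 1, 2, 6, 7, 16, 8]⟩,
⟨17, 684, 9, 362, true, false, -160, [1, 2, 6, 7, 16, 8, 17]⟩,
⟨9, 362, 5, 201, true, false, -158, [1, 2, 6, 16, 7, 17, 8]⟩,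
⟨5, 201, 11, 442, true, false, -158, [1, 2, 16, 6, 17, 7, 8]⟩,
⟨11, 442, 7, 281, true, false, -158, [1, 2, 16, 17, 6, 7, 8]⟩,
⟨7, 281, 15, 602, true, false, -158, [1, 16, 2, 17, 6, 7, 8]⟩,
⟨15, 602, 8, 321, true, false, -158, [16, 1, 17, 2, 6, 7, 8]⟩,
⟨8, 321, 17, 682, true, false, -158, [17, 1, 2, 6, 7, 8, 16]⟩,
⟨17, 682, 1, 40, true, false, -158, [1, 2, 6, 7, 8, 16, 17]⟩]

def cellsP8 : List Cell := [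
⟨1, 40, 17, 678, true, false, -158, [17, 16, 8, 7, 6, 2, 1]⟩,
⟨17, 678, 8, 319, true, false, -158, [16, 8, 7, 6, 2, 1, 17]⟩,
⟨8, 319, 15, 598, true, false, -158, [8, 7, 6, 2, 17, 1, 16]⟩,
⟨15, 598, 7, 279, true, false, -158, [8, 7, 6, 17, 2, 16, 1]⟩,
⟨7, 279, 11, 438, true, false, -158, [8, 7, 6, 17, 16, 2, 1]⟩,
⟨11, 438, 5, 199, true, false, -158, [8, 7, 17, 6, 16, 2, 1]⟩,
⟨5, 199, 9, 358, true, false, -158, [8, 17, 7, 16, 6, 2, 1]⟩,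
⟨9, 358, 17, 676, true, false, -156, [17, 8, 16, 7, 6, 2, 1]⟩,
⟨17, 676, 4, 159, true, false, -156, [8, 16, 7, 6, 2, 1, 17]⟩,
⟨4, 159, 15, 596, true, false, -156, [7, 6, 2, 17, 1, 16, 8]⟩,
⟨15, 596, 7, 278, true, false, -156, [7, 6, 17, 2, 16, 1, 8]⟩,
⟨7, 278, 3, 119, true, false, -156, [6, 17, 16, 2, 8, 1, 7]⟩,
⟨3, 119, 17, 674, true, false, -156, [17, 16, 8, 2, 7, 1, 6]⟩,
⟨17, 674, 11, 436, true, false, -156, [16, 8, 2, 7, 1, 6, 17]⟩,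
⟨11, 436, 8, 317, true, false, -156, [16, 8, 2, 7, 1, 17, 6]⟩,
⟨8, 317, 5, 198, true, false, -156, [8, 2, 7, 17, 1, 6, 16]⟩,
⟨5, 198, 7, 277, true, false, -158, [8, 17, 7, 2, 16, 6, 1]⟩,
⟨7, 277, 9, 356, true, false, -158, [8, 17, 7, 16, 2, 6, 1]⟩,
⟨9, 356, 17, 672, true, false, -156, [17, 8, 16, 7, 2, 6, 1]⟩,
⟨17, 672, 2, 79, true, false, -156, [8, 16, 7, 2, 6, 1, 17]⟩,
⟨2, 79, 15, 592, true, false, -156, [7, 6, 2, 17, 1, 16, 8]⟩,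
⟨15, 592, 11, 434, true, false, -156, [7, 6, 17, 2, 16, 1, 8]⟩,
⟨11, 434, 7, 276, true, false, -156, [7, 17, 6, 2, 16, 1, 8]⟩,
⟨7, 276, 17, 670, true, false, -156, [17, 6, 16, 2, 8, 1, 7]⟩,
⟨17, 670, 5, 197, true, false, -156, [6, 16, 2, 8, 1, 7, 17]⟩,
⟨5, 197, 8, 315, true, false, -156, [16, 6, 2, 8, 1, 17, 7]⟩,
⟨8, 315, 3, 118, true, false, -156, [6, 2, 8, 17, 1, 7, 16]⟩,
⟨3, 118, 17, 668, true, false, -154, [17, 8, 2, 16, 7, 1, 6]⟩,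
⟨17, 668, 7, 275, true, false, -154, [8, 2, 16, 7, 1, 6, 17]⟩,
⟨7, 275, 11, 432, true, false, -154, [8, 16, 2, 7, 1, 6, 17]⟩,
⟨11, 432, 4, 157, true, false, -154, [8, 16, 2, 7, 1, 17, 6]⟩,
⟨4, 157, 5, 196, true, false, -154, [2, 7, 17, 1, 6, 16, 8]⟩,
⟨5, 196, 17, 666, true, false, -156, [17, 7, 2, 16, 6, 1, 8]⟩,
⟨17, 666, 7, 274, true, false, -156, [7, 2, 16, 6, 1, 8, 17]⟩,
⟨7, 274, 8, 313, true, false, -156, [16, 2, 6, 8, 1, 17, 7]⟩,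
⟨8, 313, 9, 352, true, false, -156, [2, 6, 8, 17, 1, 7, 16]⟩,
⟨9, 352, 11, 430, true, false, -154, [2, 6, 17, 8, 1, 16, 7]⟩,
⟨11, 430, 15, 586, true, false, -154, [2, 17, 6, 8, 1, 16, 7]⟩,
⟨15, 586, 17, 664, true, false, -154, [17, 2, 6, 8, 16, 1, 7]⟩,
⟨17, 664, 1, 39, true, false, -154, [2, 6, 8, 16, 1, 7, 17]⟩,
⟨1, 39, 17, 662, true, false, -154, [17, 7, 1, 16, 8, 6, 2]⟩,
⟨17, 662, 15, 584, true, false, -154, [7, 1, 16, 8, 6, 2, 17]⟩,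
⟨15, 584, 11, 428, true, false, -154, [7, 16, 1, 8, 6, 17, 2]⟩,
⟨11, 428, 9, 350, true, false, -154, [7, 16, 1, 8, 17, 6, 2]⟩,
⟨9, 350, 8, 311, true, false, -152, [16, 7, 1, 17, 8, 6, 2]⟩,
⟨8, 311, 7, 272, true, false, -152, [7, 17, 1, 8, 6, 2, 16]⟩,
⟨7, 272, 17, 660, true, false, -152, [17, 8, 1, 6, 16, 2, 7]⟩,
⟨17, 660, 5, 194, true, false, -152, [8, 1, 6, 16, 2, 7, 17]⟩,
⟨5, 194, 4, 155, true, false, -154, [8, 16, 6, 1, 17, 7, 2]⟩,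
⟨4, 155, 11, 426, true, false, -154, [6, 17, 1, 7, 2, 16, 8]⟩,
⟨11, 426, 7, 271, true, false, -154, [17, 6, 1, 7, 2, 16, 8]⟩,
⟨7, 271, 17, 658, true, false, -154, [17, 6, 1, 7, 16, 2, 8]⟩,
⟨17, 658, 3, 116, true, false, -154, [6, 1, 7, 16, 2, 8, 17]⟩,
⟨3, 116, 8, 309, true, false, -152, [16, 7, 1, 17, 8, 2, 6]⟩,
⟨8, 309, 5, 193, true, false, -152, [7, 17, 1, 8, 2, 6, 16]⟩,
⟨5, 193, 17, 656, true, false, -152, [17, 7, 1, 8, 2, 16, 6]⟩,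
⟨17, 656, 7, 270, true, false, -152, [7, 1, 8, 2, 16, 6, 17]⟩,
⟨7, 270, 11, 424, true, false, -152, [8, 1, 16, 2, 6, 17, 7]⟩,
⟨11, 424, 15, 578, true, false, -152, [8, 1, 16, 2, 17, 6, 7]⟩,
⟨15, 578, 2, 77, true, false, -152, [8, 16, 1, 17, 2, 6, 7]⟩,
⟨2, 77, 17, 654, true, false, -152, [17, 1, 6, 2, 7, 16, 8]⟩,
⟨17, 654, 9, 346, true, false, -152, [1, 6, 2, 7, 16, 8, 17]⟩,
⟨9, 346, 7, 269, true, false, -150, [1, 6, 2, 16, 7, 17, 8]⟩,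
⟨7, 269, 5, 192, true, false, -150, [1, 6, 16, 2, 7, 17, 8]⟩,
⟨5, 192, 8, 307, true, false, -152, [16, 6, 1, 17, 7, 2, 8]⟩,
⟨8, 307, 11, 422, true, false, -152, [6, 17, 1, 7, 2, 8, 16]⟩,
⟨11, 422, 17, 652, true, false, -152, [17, 6, 1, 7, 2, 8, 16]⟩,
⟨17, 652, 3, 115, true, false, -152, [6, 1, 7, 2, 8, 16, 17]⟩,
⟨3, 115, 7, 268, true, false, -152, [7, 1, 8, 2, 16, 17, 6]⟩,
⟨7, 268, 15, 574, true, false, -152, [8, 1, 16, 2, 17, 6, 7]⟩,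
⟨15, 574, 4, 153, true, false, -152, [8, 16, 1, 17, 2, 6, 7]⟩,
⟨4, 153, 17, 650, true, false, -152, [17, 1, 2, 6, 7, 16, 8]⟩,
⟨17, 650, 9, 344, true, false, -152, [1, 2, 6, 7, 16, 8, 17]⟩,
⟨9, 344, 5, 191, true, false, -150, [1, 2, 6, 16, 7, 17, 8]⟩,
⟨5, 191, 11, 420, true, false, -150, [1, 2, 16, 6, 17, 7, 8]⟩,
⟨11, 420, 7, 267, true, false, -150, [1, 2, 16, 17, 6, 7, 8]⟩,
⟨7, 267, 15, 572, true, false, -150, [1, 16, 2, 17, 6, 7, 8]⟩,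
⟨15, 572, 8, 305, true, false, -150, [16, 1, 17, 2, 6, 7, 8]⟩,
⟨8, 305, 17, 648, true, false, -150, [17, 1, 2, 6, 7, 8, 16]⟩,
⟨17, 648, 1, 38, true, false, -150, [1, 2, 6, 7, 8, 16, 17]⟩,
⟨1, 38, 17, 644, true, false, -150, [17, 16, 8, 7, 6, 2, 1]⟩,
⟨17, 644, 8, 303, true, false, -150, [16, 8, 7, 6, 2, 1, 17]⟩,
⟨8, 303, 15, 568, true, false, -150, [8, 7, 6, 2, 17, 1, 16]⟩,
⟨15, 568, 7, 265, true, false, -150, [8, 7, 6, 17, 2, 16, 1]⟩,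
⟨7, 265, 11, 416, true, false, -150, [8, 7, 6, 17, 16, 2, 1]⟩,
⟨11, 416, 5, 189, true, false, -150, [8, 7, 17, 6, 16, 2, 1]⟩,
⟨5, 189, 9, 340, true, false, -150, [8, 17, 7, 16, 6, 2, 1]⟩,
⟨9, 340, 17, 642, true, false, -148, [17, 8, 16, 7, 6, 2, 1]⟩,
⟨17, 642, 4, 151, true, false, -148, [8, 16, 7, 6, 2, 1, 17]⟩,
⟨4, 151, 15, 566, true, false, -148, [7, 6, 2, 17, 1, 16, 8]⟩,
⟨15, 566, 7, 264, true, false, -148, [7, 6, 17, 2, 16, 1, 8]⟩,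
⟨7, 264, 3, 113, true, false, -148, [6, 17, 16, 2, 8, 1, 7]⟩,
⟨3, 113, 17, 640, true, false, -148, [17, 16, 8, 2, 7, 1, 6]⟩,
⟨17, 640, 11, 414, true, false, -148, [16, 8, 2, 7, 1, 6, 17]⟩,
⟨11, 414, 8, 301, true, false, -148, [16, 8, 2, 7, 1, 17, 6]⟩,
⟨8, 301, 5, 188, true, false, -148, [8, 2, 7, 17, 1, 6, 16]⟩,
⟨5, 188, 7, 263, true, false, -150, [8, 17, 7, 2, 16, 6, 1]⟩,
⟨7, 263, 9, 338, true, false, -150, [8, 17, 7, 16, 2, 6, 1]⟩,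
⟨9, 338, 17, 638, true, false, -148, [17, 8, 16, 7, 2, 6, 1]⟩,
⟨17, 638, 2, 75, true, false, -148, [8, 16, 7, 2, 6, 1, 17]⟩,
⟨2, 75, 15, 562, true, false, -148, [7, 6, 2, 17, 1, 16, 8]⟩,
⟨15, 562, 11, 412, true, false, -148, [7, 6, 17, 2, 16, 1, 8]⟩,
⟨11, 412, 7, 262, true, false, -148, [7, 17, 6, 2, 16, 1, 8]⟩,
⟨7, 262, 17, 636, true, false, -148, [17, 6, 16, 2, 8, 1, 7]⟩,
⟨17, 636, 5, 187, true, false, -148, [6, 16, 2, 8, 1, 7, 17]⟩,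
⟨5, 187, 8, 299, true, false, -148, [16, 6, 2, 8, 1, 17, 7]⟩,
⟨8, 299, 3, 112, true, false, -148, [6, 2, 8, 17, 1, 7, 16]⟩,
⟨3, 112, 17, 634, true, false, -146, [17, 8, 2, 16, 7, 1, 6]⟩,
⟨17, 634, 7, 261, true, false, -146, [8, 2, 16, 7, 1, 6, 17]⟩,
⟨7, 261, 11, 410, true, false, -146, [8, 16, 2, 7, 1, 6, 17]⟩,
⟨11, 410, 4, 149, true, false, -146, [8, 16, 2, 7, 1, 17, 6]⟩,
⟨4, 149, 5, 186, true, false, -146, [2, 7, 17, 1, 6, 16, 8]⟩,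
⟨5, 186, 17, 632, true, false, -148, [17, 7, 2, 16, 6, 1, 8]⟩,
⟨17, 632, 7, 260, true, false, -148, [7, 2, 16, 6, 1, 8, 17]⟩,
⟨7, 260, 8, 297, true, false, -148, [16, 2, 6, 8, 1, 17, 7]⟩,
⟨8, 297, 9, 334, true, false, -148, [2, 6, 8, 17, 1, 7, 16]⟩,
⟨9, 334, 11, 408, true, false, -146, [2, 6, 17, 8, 1, 16, 7]⟩,
⟨11, 408, 15, 556, true, false, -146, [2, 17, 6, 8, 1, 16, 7]⟩,
⟨15, 556, 17, 630, true, false, -146, [17, 2, 6, 8, 16, 1, 7]⟩,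
⟨17, 630, 1, 37, true, false, -146, [2, 6, 8, 16, 1, 7, 17]⟩,
⟨1, 37, 17, 628, true, false, -146, [17, 7, 1, 16, 8, 6, 2]⟩,
⟨17, 628, 15, 554, true, false, -146, [7, 1, 16, 8, 6, 2, 17]⟩,
⟨15, 554, 11, 406, true, false, -146, [7, 16, 1, 8, 6, 17, 2]⟩,
⟨11, 406, 9, 332, true, false, -146, [7, 16, 1, 8, 17, 6, 2]⟩,
⟨9, 332, 8, 295, true, false, -144, [16, 7, 1, 17, 8, 6, 2]⟩,
⟨8, 295, 7, 258, true, false, -144, [7, 17, 1, 8, 6, 2, 16]⟩,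
⟨7, 258, 17, 626, true, false, -144, [17, 8, 1, 6, 16, 2, 7]⟩,
⟨17, 626, 5, 184, true, false, -144, [8, 1, 6, 16, 2, 7, 17]⟩,
⟨5, 184, 4, 147, true, false, -146, [8, 16, 6, 1, 17, 7, 2]⟩,
⟨4, 147, 11, 404, true, false, -146, [6, 17, 1, 7, 2, 16, 8]⟩,
⟨11, 404, 7, 257, true, false, -146, [17, 6, 1, 7, 2, 16, 8]⟩,
⟨7, 257, 17, 624, true, false, -146, [17, 6, 1, 7, 16, 2, 8]⟩,
⟨17, 624, 3, 110, true, false, -146, [6, 1, 7, 16, 2, 8, 17]⟩,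
⟨3, 110, 8, 293, true, false, -144, [16, 7, 1, 17, 8, 2, 6]⟩,
⟨8, 293, 5, 183, true, false, -144, [7, 17, 1, 8, 2, 6, 16]⟩,
⟨5, 183, 17, 622, true, false, -144, [17, 7, 1, 8, 2, 16, 6]⟩,
⟨17, 622, 7, 256, true, false, -144, [7, 1, 8, 2, 16, 6, 17]⟩,
⟨7, 256, 11, 402, true, false, -144, [8, 1, 16, 2, 6, 17, 7]⟩,
⟨11, 402, 15, 548, true, false, -144, [8, 1, 16, 2, 17, 6, 7]⟩,
⟨15, 548, 2, 73, true, false, -144, [8, 16, 1, 17, 2, 6, 7]⟩,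
⟨2, 73, 17, 620, true, false, -144, [17, 1, 6, 2, 7, 16, 8]⟩,
⟨17, 620, 9, 328, true, false, -144, [1, 6, 2, 7, 16, 8, 17]⟩,
⟨9, 328, 7, 255, true, false, -142, [1, 6, 2, 16, 7, 17, 8]⟩,
⟨7, 255, 5, 182, true, false, -142, [1, 6, 16, 2, 7, 17, 8]⟩,
⟨5, 182, 8, 291, true, false, -144, [16, 6, 1, 17, 7, 2, 8]⟩,
⟨8, 291, 11, 400, true, false, -144, [6, 17, 1, 7, 2, 8, 16]⟩,
⟨11, 400, 17, 618, true, false, -144, [17, 6, 1, 7, 2, 8, 16]⟩,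
⟨17, 618, 3, 109, true, false, -144, [6, 1, 7, 2, 8, 16, 17]⟩,
⟨3, 109, 7, 254, true, false, -144, [7, 1, 8, 2, 16, 17, 6]⟩,
⟨7, 254, 15, 544, true, false, -144, [8, 1, 16, 2, 17, 6, 7]⟩,
⟨15, 544, 4, 145, true, false, -144, [8, 16, 1, 17, 2, 6, 7]⟩,
⟨4, 145, 17, 616, true, false, -144, [17, 1, 2, 6, 7, 16, 8]⟩,
⟨17, 616, 9, 326, true, false, -144, [1, 2, 6, 7, 16, 8, 17]⟩,
⟨9, 326, 5, 181, true, false, -142, [1, 2, 6, 16, 7, 17, 8]⟩,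
⟨5, 181, 11, 398, true, false, -142, [1, 2, 16, 6, 17, 7, 8]⟩,
⟨11, 398, 7, 253, true, false, -142, [1, 2, 16, 17, 6, 7, 8]⟩,
⟨7, 253, 15, 542, true, false, -142, [1, 16, 2, 17, 6, 7, 8]⟩,
⟨15, 542, 8, 289, true, false, -142, [16, 1, 17, 2, 6, 7, 8]⟩,
⟨8, 289, 17, 614, true, false, -142, [17, 1, 2, 6, 7, 8, 16]⟩,
⟨17, 614, 1, 36, true, false, -142, [1, 2, 6, 7, 8, 16, 17]⟩,
⟨1, 36, 17, 610, true, false, -142, [17, 16, 8, 7, 6, 2, 1]⟩,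
⟨17, 610, 8, 287, true, false, -142, [16, 8, 7, 6, 2, 1, 17]⟩,
⟨8, 287, 15, 538, true, false, -142, [8, 7, 6, 2, 17, 1, 16]⟩,
⟨15, 538, 7, 251, true, false, -142, [8, 7, 6, 17, 2, 16, 1]⟩,
⟨7, 251, 11, 394, true, false, -142, [8, 7, 6, 17, 16, 2, 1]⟩,
⟨11, 394, 5, 179, true, false, -142, [8, 7, 17, 6, 16, 2, 1]⟩,
⟨5, 179, 9, 322, true, false, -142, [8, 17, 7, 16, 6, 2, 1]⟩,
⟨9, 322, 17, 608, true, false, -140, [17, 8, 16, 7, 6, 2, 1]⟩,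
⟨17, 608, 4, 143, true, false, -140, [8, 16, 7, 6, 2, 1, 17]⟩,
⟨4, 143, 15, 536, true, false, -140, [7, 6, 2, 17, 1, 16, 8]⟩,
⟨15, 536, 7, 250, true, false, -140, [7, 6, 17, 2, 16, 1, 8]⟩,
⟨7, 250, 3, 107, true, false, -140, [6, 17, 16, 2, 8, 1, 7]⟩,
⟨3, 107, 17, 606, true, false, -140, [17, 16, 8, 2, 7, 1, 6]⟩,
⟨17, 606, 11, 392, true, false, -140, [16, 8, 2, 7, 1, 6, 17]⟩,
⟨11, 392, 8, 285, true, false, -140, [16, 8, 2, 7, 1, 17, 6]⟩,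
⟨8, 285, 5, 178, true, false, -140, [8, 2, 7, 17, 1, 6, 16]⟩,
⟨5, 178, 7, 249, true, false, -142, [8, 17, 7, 2, 16, 6, 1]⟩,
⟨7, 249, 9, 320, true, false, -142, [8, 17, 7, 16, 2, 6, 1]⟩,
⟨9, 320, 17, 604, true, false, -140, [17, 8, 16, 7, 2, 6, 1]⟩,
⟨17, 604, 2, 71, true, false, -140, [8, 16, 7, 2, 6, 1, 17]⟩,
⟨2, 71, 15, 532, true, false, -140, [7, 6, 2, 17, 1, 16, 8]⟩,
⟨15, 532, 11, 390, true, false, -140, [7, 6, 17, 2, 16, 1, 8]⟩,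
⟨11, 390, 7, 248, true, false, -140, [7, 17, 6, 2, 16, 1, 8]⟩,
⟨7, 248, 17, 602, true, false, -140, [17, 6, 16, 2, 8, 1, 7]⟩,
⟨17, 602, 5, 177, true, false, -140, [6, 16, 2, 8, 1, 7, 17]⟩,
⟨5, 177, 8, 283, true, false, -140, [16, 6, 2, 8, 1, 17, 7]⟩,
⟨8, 283, 3, 106, true, false, -140, [6, 2, 8, 17, 1, 7, 16]⟩,
⟨3, 106, 17, 600, true, false, -138, [17, 8, 2, 16, 7, 1, 6]⟩,
⟨17, 600, 7, 247, true, false, -138, [8, 2, 16, 7, 1, 6, 17]⟩,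
⟨7, 247, 11, 388, true, false, -138, [8, 16, 2, 7, 1, 6, 17]⟩,
⟨11, 388, 4, 141, true, false, -138, [8, 16, 2, 7, 1, 17, 6]⟩,
⟨4, 141, 5, 176, true, false, -138, [2, 7, 17, 1, 6, 16, 8]⟩,
⟨5, 176, 17, 598, true, false, -140, [17, 7, 2, 16, 6, 1, 8]⟩,
⟨17, 598, 7, 246, true, false, -140, [7, 2, 16, 6, 1, 8, 17]⟩,
⟨7, 246, 8, 281, true, false, -140, [16, 2, 6, 8, 1, 17, 7]⟩,
⟨8, 281, 9, 316, true, false, -140, [2, 6, 8, 17, 1, 7, 16]⟩,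
⟨9, 316, 11, 386, true, false, -138, [2, 6, 17, 8, 1, 16, 7]⟩,
⟨11, 386, 15, 526, true, false, -138, [2, 17, 6, 8, 1, 16, 7]⟩,
⟨15, 526, 17, 596, true, false, -138, [17, 2, 6, 8, 16, 1, 7]⟩,
⟨17, 596, 1, 35, true, false, -138, [2, 6, 8, 16, 1, 7, 17]⟩]

def cellsP9 : List Cell := [
⟨1, 35, 17, 594, true, false, -138, [17, 7, 1, 16, 8, 6, 2]⟩,
⟨17, 594, 15, 524, true, false, -138, [7, 1, 16, 8, 6, 2, 17]⟩,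
⟨15, 524, 11, 384, true, false, -138, [7, 16, 1, 8, 6, 17, 2]⟩,
⟨11, 384, 9, 314, true, false, -138, [7, 16, 1, 8, 17, 6, 2]⟩,
⟨9, 314, 8, 279, true, false, -136, [16, 7, 1, 17, 8, 6, 2]⟩,
⟨8, 279, 7, 244, true, false, -136, [7, 17, 1, 8, 6, 2, 16]⟩,
⟨7, 244, 17, 592, true, false, -136, [17, 8, 1, 6, 16, 2, 7]⟩,
⟨17, 592, 5, 174, true, false, -136, [8, 1, 6, 16, 2, 7, 17]⟩,
⟨5, 174, 4, 139, true, false, -138, [8, 16, 6, 1, 17, 7, 2]⟩,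
⟨4, 139, 11, 382, true, false, -138, [6, 17, 1, 7, 2, 16, 8]⟩,
⟨11, 382, 7, 243, true, false, -138, [17, 6, 1, 7, 2, 16, 8]⟩,
⟨7, 243, 17, 590, true, false, -138, [17, 6, 1, 7, 16, 2, 8]⟩,
⟨17, 590, 3, 104, true, false, -138, [6, 1, 7, 16, 2, 8, 17]⟩,
⟨3, 104, 8, 277, true, false, -136, [16, 7, 1, 17, 8, 2, 6]⟩,
⟨8, 277, 5, 173, true, false, -136, [7, 17, 1, 8, 2, 6, 16]⟩,
⟨5, 173, 17, 588, true, false, -136, [17, 7, 1, 8, 2, 16, 6]⟩,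
⟨17, 588, 7, 242, true, false, -136, [7, 1, 8, 2, 16, 6, 17]⟩,
⟨7, 242, 11, 380, true, false, -136, [8, 1, 16, 2, 6, 17, 7]⟩,
⟨11, 380, 15, 518, true, false, -136, [8, 1, 16, 2, 17, 6, 7]⟩,
⟨15, 518, 2, 69, true, false, -136, [8, 16, 1, 17, 2, 6, 7]⟩,
⟨2, 69, 17, 586, true, false, -136, [17, 1, 6, 2, 7, 16, 8]⟩,
⟨17, 586, 9, 310, true, false, -136, [1, 6, 2, 7, 16, 8, 17]⟩,
⟨9, 310, 7, 241, true, false, -134, [1, 6, 2, 16, 7, 17, 8]⟩,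
⟨7, 241, 5, 172, true, false, -134, [1, 6, 16, 2, 7, 17, 8]⟩,
⟨5, 172, 8, 275, true, false, -136, [16, 6, 1, 17, 7, 2, 8]⟩,
⟨8, 275, 11, 378, true, false, -136, [6, 17, 1, 7, 2, 8, 16]⟩,
⟨11, 378, 17, 584, true, false, -136, [17, 6, 1, 7, 2, 8, 16]⟩,
⟨17, 584, 3, 103, true, false, -136, [6, 1, 7, 2, 8, 16, 17]⟩,
⟨3, 103, 7, 240, true, false, -136, [7, 1, 8, 2, 16, 17, 6]⟩,
⟨7, 240, 15, 514, true, false, -136, [8, 1, 16, 2, 17, 6, 7]⟩,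
⟨15, 514, 4, 137, true, false, -136, [8, 16, 1, 17, 2, 6, 7]⟩,
⟨4, 137, 17, 582, true, false, -136, [17, 1, 2, 6, 7, 16, 8]⟩,
⟨17, 582, 9, 308, true, false, -136, [1, 2, 6, 7, 16, 8, 17]⟩,
⟨9, 308, 5, 171, true, false, -134, [1, 2, 6, 16, 7, 17, 8]⟩,
⟨5, 171, 11, 376, true, false, -134, [1, 2, 16, 6, 17, 7, 8]⟩,
⟨11, 376, 7, 239, true, false, -134, [1, 2, 16, 17, 6, 7, 8]⟩,
⟨7, 239, 15, 512, true, false, -134, [1, 16, 2, 17, 6, 7, 8]⟩,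
⟨15, 512, 8, 273, true, false, -134, [16, 1, 17, 2, 6, 7, 8]⟩,
⟨8, 273, 17, 580, true, false, -134, [17, 1, 2, 6, 7, 8, 16]⟩,
⟨17, 580, 1, 34, true, false, -134, [1, 2, 6, 7, 8, 16, 17]⟩,
⟨1, 34, 17, 576, true, false, -134, [17, 16, 8, 7, 6, 2, 1]⟩,
⟨17, 576, 8, 271, true, false, -134, [16, 8, 7, 6, 2, 1, 17]⟩,
⟨8, 271, 15, 508, true, false, -134, [8, 7, 6, 2, 17, 1, 16]⟩,
⟨15, 508, 7, 237, true, false, -134, [8, 7, 6, 17, 2, 16, 1]⟩,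
⟨7, 237, 11, 372, true, false, -134, [8, 7, 6, 17, 16, 2, 1]⟩,
⟨11, 372, 5, 169, true, false, -134, [8, 7, 17, 6, 16, 2, 1]⟩,
⟨5, 169, 9, 304, true, false, -134, [8, 17, 7, 16, 6, 2, 1]⟩,
⟨9, 304, 17, 574, true, false, -132, [17, 8, 16, 7, 6, 2, 1]⟩,
⟨17, 574, 4, 135, true, false, -132, [8, 16, 7, 6, 2, 1, 17]⟩,
⟨4, 135, 15, 506, true, false, -132, [7, 6, 2, 17, 1, 16, 8]⟩,
⟨15, 506, 7, 236, true, false, -132, [7, 6, 17, 2, 16, 1, 8]⟩,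
⟨7, 236, 3, 101, true, false, -132, [6, 17, 16, 2, 8, 1, 7]⟩,
⟨3, 101, 17, 572, true, false, -132, [17, 16, 8, 2, 7, 1, 6]⟩,
⟨17, 572, 11, 370, true, false, -132, [16, 8, 2, 7, 1, 6, 17]⟩,
⟨11, 370, 8, 269, true, false, -132, [16, 8, 2, 7, 1, 17, 6]⟩,
⟨8, 269, 5, 168, true, false, -132, [8, 2, 7, 17, 1, 6, 16]⟩,
⟨5, 168, 7, 235, true, false, -134, [8, 17, 7, 2, 16, 6, 1]⟩,
⟨7, 235, 9, 302, true, false, -134, [8, 17, 7, 16, 2, 6, 1]⟩,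
⟨9, 302, 17, 570, true, false, -132, [17, 8, 16, 7, 2, 6, 1]⟩,
⟨17, 570, 2, 67, true, false, -132, [8, 16, 7, 2, 6, 1, 17]⟩,
⟨2, 67, 15, 502, true, false, -132, [7, 6, 2, 17, 1, 16, 8]⟩,
⟨15, 502, 11, 368, true, false, -132, [7, 6, 17, 2, 16, 1, 8]⟩,
⟨11, 368, 7, 234, true, false, -132, [7, 17, 6, 2, 16, 1, 8]⟩,
⟨7, 234, 17, 568, true, false, -132, [17, 6, 16, 2, 8, 1, 7]⟩,
⟨17, 568, 5, 167, true, false, -132, [6, 16, 2, 8, 1, 7, 17]⟩,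
⟨5, 167, 8, 267, true, false, -132, [16, 6, 2, 8, 1, 17, 7]⟩,
⟨8, 267, 3, 100, true, false, -132, [6, 2, 8, 17, 1, 7, 16]⟩,
⟨3, 100, 17, 566, true, false, -130, [17, 8, 2, 16, 7, 1, 6]⟩,
⟨17, 566, 7, 233, true, false, -130, [8, 2, 16, 7, 1, 6, 17]⟩,
⟨7, 233, 11, 366, true, false, -130, [8, 16, 2, 7, 1, 6, 17]⟩,
⟨11, 366, 4, 133, true, false, -130, [8, 16, 2, 7, 1, 17, 6]⟩,
⟨4, 133, 5, 166, true, false, -130, [2, 7, 17, 1, 6, 16, 8]⟩,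
⟨5, 166, 17, 564, true, false, -132, [17, 7, 2, 16, 6, 1, 8]⟩,
⟨17, 564, 7, 232, true, false, -132, [7, 2, 16, 6, 1, 8, 17]⟩,
⟨7, 232, 8, 265, true, false, -132, [16, 2, 6, 8, 1, 17, 7]⟩,
⟨8, 265, 9, 298, true, false, -132, [2, 6, 8, 17, 1, 7, 16]⟩,
⟨9, 298, 11, 364, true, false, -130, [2, 6, 17, 8, 1, 16, 7]⟩,
⟨11, 364, 15, 496, true, false, -130, [2, 17, 6, 8, 1, 16, 7]⟩,
⟨15, 496, 17, 562, true, false, -130, [17, 2, 6, 8, 16, 1, 7]⟩,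
⟨17, 562, 1, 33, true, false, -130, [2, 6, 8, 16, 1, 7, 17]⟩,
⟨1, 33, 17, 560, true, false, -130, [17, 7, 1, 16, 8, 6, 2]⟩,
⟨17, 560, 15, 494, true, false, -130, [7, 1, 16, 8, 6, 2, 17]⟩,
⟨15, 494, 11, 362, true, false, -130, [7, 16, 1, 8, 6, 17, 2]⟩,
⟨11, 362, 9, 296, true, false, -130, [7, 16, 1, 8, 17, 6, 2]⟩,
⟨9, 296, 8, 263, true, false, -128, [16, 7, 1, 17, 8, 6, 2]⟩,
⟨8, 263, 7, 230, true, false, -128, [7, 17, 1, 8, 6, 2, 16]⟩,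
⟨7, 230, 17, 558, true, false, -128, [17, 8, 1, 6, 16, 2, 7]⟩,
⟨17, 558, 5, 164, true, false, -128, [8, 1, 6, 16, 2, 7, 17]⟩,
⟨5, 164, 4, 131, true, false, -130, [8, 16, 6, 1, 17, 7, 2]⟩,
⟨4, 131, 11, 360, true, false, -130, [6, 17, 1, 7, 2, 16, 8]⟩,
⟨11, 360, 7, 229, true, false, -130, [17, 6, 1, 7, 2, 16, 8]⟩,
⟨7, 229, 17, 556, true, false, -130, [17, 6, 1, 7, 16, 2, 8]⟩,
⟨17, 556, 3, 98, true, false, -130, [6, 1, 7, 16, 2, 8, 17]⟩,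
⟨3, 98, 8, 261, true, false, -128, [16, 7, 1, 17, 8, 2, 6]⟩,
⟨8, 261, 5, 163, true, false, -128, [7, 17, 1, 8, 2, 6, 16]⟩,
⟨5, 163, 17, 554, true, false, -128, [17, 7, 1, 8, 2, 16, 6]⟩,
⟨17, 554, 7, 228, true, false, -128, [7, 1, 8, 2, 16, 6, 17]⟩,
⟨7, 228, 11, 358, true, false, -128, [8, 1, 16, 2, 6, 17, 7]⟩,
⟨11, 358, 15, 488, true, false, -128, [8, 1, 16, 2, 17, 6, 7]⟩,
⟨15, 488, 2, 65, true, false, -128, [8, 16, 1, 17, 2, 6, 7]⟩,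
⟨2, 65, 17, 552, true, false, -128, [17, 1, 6, 2, 7, 16, 8]⟩,
⟨17, 552, 9, 292, true, false, -128, [1, 6, 2, 7, 16, 8, 17]⟩,
⟨9, 292, 7, 227, true, false, -126, [1, 6, 2, 16, 7, 17, 8]⟩,
⟨7, 227, 5, 162, true, false, -126, [1, 6, 16, 2, 7, 17, 8]⟩,
⟨5, 162, 8, 259, true, false, -128, [16, 6, 1, 17, 7, 2, 8]⟩,
⟨8, 259, 11, 356, true, false, -128, [6, 17, 1, 7, 2, 8, 16]⟩,
⟨11, 356, 17, 550, true, false, -128, [17, 6, 1, 7, 2, 8, 16]⟩,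
⟨17, 550, 3, 97, true, false, -128, [6, 1, 7, 2, 8, 16, 17]⟩,
⟨3, 97, 7, 226, true, false, -128, [7, 1, 8, 2, 16, 17, 6]⟩,
⟨7, 226, 15, 484, true, false, -128, [8, 1, 16, 2, 17, 6, 7]⟩,
⟨15, 484, 4, 129, true, false, -128, [8, 16, 1, 17, 2, 6, 7]⟩,
⟨4, 129, 17, 548, true, false, -128, [17, 1, 2, 6, 7, 16, 8]⟩,
⟨17, 548, 9, 290, true, false, -128, [1, 2, 6, 7, 16, 8, 17]⟩,
⟨9, 290, 5, 161, true, false, -126, [1, 2, 6, 16, 7, 17, 8]⟩,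
⟨5, 161, 11, 354, true, false, -126, [1, 2, 16, 6, 17, 7, 8]⟩,
⟨11, 354, 7, 225, true, false, -126, [1, 2, 16, 17, 6, 7, 8]⟩,
⟨7, 225, 15, 482, true, false, -126, [1, 16, 2, 17, 6, 7, 8]⟩,
⟨15, 482, 8, 257, true, false, -126, [16, 1, 17, 2, 6, 7, 8]⟩,
⟨8, 257, 17, 546, true, false, -126, [17, 1, 2, 6, 7, 8, 16]⟩,
⟨17, 546, 1, 32, true, false, -126, [1, 2, 6, 7, 8, 16, 17]⟩,
⟨1, 32, 17, 542, true, false, -126, [17, 16, 8, 7, 6, 2, 1]⟩,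
⟨17, 542, 8, 255, true, false, -126, [16, 8, 7, 6, 2, 1, 17]⟩,
⟨8, 255, 15, 478, true, false, -126, [8, 7, 6, 2, 17, 1, 16]⟩,
⟨15, 478, 7, 223, true, false, -126, [8, 7, 6, 17, 2, 16, 1]⟩,
⟨7, 223, 11, 350, true, false, -126, [8, 7, 6, 17, 16, 2, 1]⟩,
⟨11, 350, 5, 159, true, false, -126, [8, 7, 17, 6, 16, 2, 1]⟩,
⟨5, 159, 9, 286, true, false, -126, [8, 17, 7, 16, 6, 2, 1]⟩,
⟨9, 286, 17, 540, true, false, -124, [17, 8, 16, 7, 6, 2, 1]⟩,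
⟨17, 540, 4, 127, true, false, -124, [8, 16, 7, 6, 2, 1, 17]⟩,
⟨4, 127, 15, 476, true, false, -124, [7, 6, 2, 17, 1, 16, 8]⟩,
⟨15, 476, 7, 222, true, false, -124, [7, 6, 17, 2, 16, 1, 8]⟩,
⟨7, 222, 3, 95, true, false, -124, [6, 17, 16, 2, 8, 1, 7]⟩,
⟨3, 95, 17, 538, true, false, -124, [17, 16, 8, 2, 7, 1, 6]⟩,
⟨17, 538, 11, 348, true, false, -124, [16, 8, 2, 7, 1, 6, 17]⟩,
⟨11, 348, 8, 253, true, false, -124, [16, 8, 2, 7, 1, 17, 6]⟩,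
⟨8, 253, 5, 158, true, false, -124, [8, 2, 7, 17, 1, 6, 16]⟩,
⟨5, 158, 7, 221, true, false, -126, [8, 17, 7, 2, 16, 6, 1]⟩,
⟨7, 221, 9, 284, true, false, -126, [8, 17, 7, 16, 2, 6, 1]⟩,
⟨9, 284, 17, 536, true, false, -124, [17, 8, 16, 7, 2, 6, 1]⟩,
⟨17, 536, 2, 63, true, false, -124, [8, 16, 7, 2, 6, 1, 17]⟩,
⟨2, 63, 15, 472, true, false, -124, [7, 6, 2, 17, 1, 16, 8]⟩,
⟨15, 472, 11, 346, true, false, -124, [7, 6, 17, 2, 16, 1, 8]⟩,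
⟨11, 346, 7, 220, true, false, -124, [7, 17, 6, 2, 16, 1, 8]⟩,
⟨7, 220, 17, 534, true, false, -124, [17, 6, 16, 2, 8, 1, 7]⟩,
⟨17, 534, 5, 157, true, false, -124, [6, 16, 2, 8, 1, 7, 17]⟩,
⟨5, 157, 8, 251, true, false, -124, [16, 6, 2, 8, 1, 17, 7]⟩,
⟨8, 251, 3, 94, true, false, -124, [6, 2, 8, 17, 1, 7, 16]⟩,
⟨3, 94, 17, 532, true, false, -122, [17, 8, 2, 16, 7, 1, 6]⟩,
⟨17, 532, 7, 219, true, false, -122, [8, 2, 16, 7, 1, 6, 17]⟩,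
⟨7, 219, 11, 344, true, false, -122, [8, 16, 2, 7, 1, 6, 17]⟩,
⟨11, 344, 4, 125, true, false, -122, [8, 16, 2, 7, 1, 17, 6]⟩,
⟨4, 125, 5, 156, true, false, -122, [2, 7, 17, 1, 6, 16, 8]⟩,
⟨5, 156, 17, 530, true, false, -124, [17, 7, 2, 16, 6, 1, 8]⟩,
⟨17, 530, 7, 218, true, false, -124, [7, 2, 16, 6, 1, 8, 17]⟩,
⟨7, 218, 8, 249, true, false, -124, [16, 2, 6, 8, 1, 17, 7]⟩,
⟨8, 249, 9, 280, true, false, -124, [2, 6, 8, 17, 1, 7, 16]⟩,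
⟨9, 280, 11, 342, true, false, -122, [2, 6, 17, 8, 1, 16, 7]⟩,
⟨11, 342, 15, 466, true, false, -122, [2, 17, 6, 8, 1, 16, 7]⟩,
⟨15, 466, 17, 528, true, false, -122, [17, 2, 6, 8, 16, 1, 7]⟩,
⟨17, 528, 1, 31, true, false, -122, [2, 6, 8, 16, 1, 7, 17]⟩,
⟨1, 31, 17, 526, true, false, -122, [17, 7, 1, 16, 8, 6, 2]⟩,
⟨17, 526, 15, 464, true, false, -122, [7, 1, 16, 8, 6, 2, 17]⟩,
⟨15, 464, 11, 340, true, false, -122, [7, 16, 1, 8, 6, 17, 2]⟩,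
⟨11, 340, 9, 278, true, false, -122, [7, 16, 1, 8, 17, 6, 2]⟩,
⟨9, 278, 8, 247, true, false, -120, [16, 7, 1, 17, 8, 6, 2]⟩,
⟨8, 247, 7, 216, true, false, -120, [7, 17, 1, 8, 6, 2, 16]⟩,
⟨7, 216, 17, 524, true, false, -120, [17, 8, 1, 6, 16, 2, 7]⟩,
⟨17, 524, 5, 154, true, false, -120, [8, 1, 6, 16, 2, 7, 17]⟩,
⟨5, 154, 4, 123, true, false, -122, [8, 16, 6, 1, 17, 7, 2]⟩,
⟨4, 123, 11, 338, true, false, -122, [6, 17, 1, 7, 2, 16, 8]⟩,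
⟨11, 338, 7, 215, true, false, -122, [17, 6, 1, 7, 2, 16, 8]⟩,
⟨7, 215, 17, 522, true, false, -122, [17, 6, 1, 7, 16, 2, 8]⟩,
⟨17, 522, 3, 92, true, false, -122, [6, 1, 7, 16, 2, 8, 17]⟩,
⟨3, 92, 8, 245, true, false, -120, [16, 7, 1, 17, 8, 2, 6]⟩,
⟨8, 245, 5, 153, true, false, -120, [7, 17, 1, 8, 2, 6, 16]⟩,
⟨5, 153, 17, 520, true, false, -120, [17, 7, 1, 8, 2, 16, 6]⟩,
⟨17, 520, 7, 214, true, false, -120, [7, 1, 8, 2, 16, 6, 17]⟩,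
⟨7, 214, 11, 336, true, false, -120, [8, 1, 16, 2, 6, 17, 7]⟩,
⟨11, 336, 15, 458, true, false, -120, [8, 1, 16, 2, 17, 6, 7]⟩,
⟨15, 458, 2, 61, true, false, -120, [8, 16, 1, 17, 2, 6, 7]⟩,
⟨2, 61, 17, 518, true, false, -120, [17, 1, 6, 2, 7, 16, 8]⟩,
⟨17, 518, 9, 274, true, false, -120, [1, 6, 2, 7, 16, 8, 17]⟩,
⟨9, 274, 7, 213, true, false, -118, [1, 6, 2, 16, 7, 17, 8]⟩,
⟨7, 213, 5, 152, true, false, -118, [1, 6, 16, 2, 7, 17, 8]⟩,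
⟨5, 152, 8, 243, true, false, -120, [16, 6, 1, 17, 7, 2, 8]⟩,
⟨8, 243, 11, 334, true, false, -120, [6, 17, 1, 7, 2, 8, 16]⟩,
⟨11, 334, 17, 516, true, false, -120, [17, 6, 1, 7, 2, 8, 16]⟩,
⟨17, 516, 3, 91, true, false, -120, [6, 1, 7, 2, 8, 16, 17]⟩,
⟨3, 91, 7, 212, true, false, -120, [7, 1, 8, 2, 16, 17, 6]⟩,
⟨7, 212, 15, 454, true, false, -120, [8, 1, 16, 2, 17, 6, 7]⟩,
⟨15, 454, 4, 121, true, false, -120, [8, 16, 1, 17, 2, 6, 7]⟩,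
⟨4, 121, 17, 514, true, false, -120, [17, 1, 2, 6, 7, 16, 8]⟩,
⟨17, 514, 9, 272, true, false, -120, [1, 2, 6, 7, 16, 8, 17]⟩,
⟨9, 272, 5, 151, true, false, -118, [1, 2, 6, 16, 7, 17, 8]⟩,
⟨5, 151, 11, 332, true, false, -118, [1, 2, 16, 6, 17, 7, 8]⟩,
⟨11, 332, 7, 211, true, false, -118, [1, 2, 16, 17, 6, 7, 8]⟩,
⟨7, 211, 15, 452, true, false, -118, [1, 16, 2, 17, 6, 7, 8]⟩,
⟨15, 452, 8, 241, true, false, -118, [16, 1, 17, 2, 6, 7, 8]⟩,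
⟨8, 241, 17, 512, true, false, -118, [17, 1, 2, 6, 7, 8, 16]⟩,
⟨17, 512, 1, 30, true, false, -118, [1, 2, 6, 7, 8, 16, 17]⟩]

def cellsP10 : List Cell := [
⟨1, 30, 17, 508, true, false, -118, [17, 16, 8, 7, 6, 2, 1]⟩,
⟨17, 508, 8, 239, true, false, -118, [16, 8, 7, 6, 2, 1, 17]⟩,
⟨8, 239, 15, 448, true, false, -118, [8, 7, 6, 2, 17, 1, 16]⟩,
⟨15, 448, 7, 209, true, false, -118, [8, 7, 6, 17, 2, 16, 1]⟩,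
⟨7, 209, 11, 328, true, false, -118, [8, 7, 6, 17, 16, 2, 1]⟩,
⟨11, 328, 5, 149, true, false, -118, [8, 7, 17, 6, 16, 2, 1]⟩,
⟨5, 149, 9, 268, true, false, -118, [8, 17, 7, 16, 6, 2, 1]⟩,
⟨9, 268, 17, 506, true, false, -116, [17, 8, 16, 7, 6, 2, 1]⟩,
⟨17, 506, 4, 119, true, false, -116, [8, 16, 7, 6, 2, 1, 17]⟩,
⟨4, 119, 15, 446, true, false, -116, [7, 6, 2, 17, 1, 16, 8]⟩,
⟨15, 446, 7, 208, true, false, -116, [7, 6, 17, 2, 16, 1, 8]⟩,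
⟨7, 208, 3, 89, true, false, -116, [6, 17, 16, 2, 8, 1, 7]⟩,
⟨3, 89, 17, 504, true, false, -116, [17, 16, 8, 2, 7, 1, 6]⟩,
⟨17, 504, 11, 326, true, false, -116, [16, 8, 2, 7, 1, 6, 17]⟩,
⟨11, 326, 8, 237, true, false, -116, [16, 8, 2, 7, 1, 17, 6]⟩,
⟨8, 237, 5, 148, true, false, -116, [8, 2, 7, 17, 1, 6, 16]⟩,
⟨5, 148, 7, 207, true, false, -118, [8, 17, 7, 2, 16, 6, 1]⟩,
⟨7, 207, 9, 266, true, false, -118, [8, 17, 7, 16, 2, 6, 1]⟩,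
⟨9, 266, 17, 502, true, false, -116, [17, 8, 16, 7, 2, 6, 1]⟩,
⟨17, 502, 2, 59, true, false, -116, [8, 16, 7, 2, 6, 1, 17]⟩,
⟨2, 59, 15, 442, true, false, -116, [7, 6, 2, 17, 1, 16, 8]⟩,
⟨15, 442, 11, 324, true, false, -116, [7, 6, 17, 2, 16, 1, 8]⟩,
⟨11, 324, 7, 206, true, false, -116, [7, 17, 6, 2, 16, 1, 8]⟩,
⟨7, 206, 17, 500, true, false, -116, [17, 6, 16, 2, 8, 1, 7]⟩,
⟨17, 500, 5, 147, true, false, -116, [6, 16, 2, 8, 1, 7, 17]⟩,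
⟨5, 147, 8, 235, true, false, -116, [16, 6, 2, 8, 1, 17, 7]⟩,
⟨8, 235, 3, 88, true, false, -116, [6, 2, 8, 17, 1, 7, 16]⟩,
⟨3, 88, 17, 498, true, false, -114, [17, 8, 2, 16, 7, 1, 6]⟩,
⟨17, 498, 7, 205, true, false, -114, [8, 2, 16, 7, 1, 6, 17]⟩,
⟨7, 205, 11, 322, true, false, -114, [8, 16, 2, 7, 1, 6, 17]⟩,
⟨11, 322, 4, 117, true, false, -114, [8, 16, 2, 7, 1, 17, 6]⟩,
⟨4, 117, 5, 146, true, false, -114, [2, 7, 17, 1, 6, 16, 8]⟩,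
⟨5, 146, 17, 496, true, false, -116, [17, 7, 2, 16, 6, 1, 8]⟩,
⟨17, 496, 7, 204, true, false, -116, [7, 2, 16, 6, 1, 8, 17]⟩,
⟨7, 204, 8, 233, true, false, -116, [16, 2, 6, 8, 1, 17, 7]⟩,
⟨8, 233, 9, 262, true, false, -116, [2, 6, 8, 17, 1, 7, 16]⟩,
⟨9, 262, 11, 320, true, false, -114, [2, 6, 17, 8, 1, 16, 7]⟩,
⟨11, 320, 15, 436, true, false, -114, [2, 17, 6, 8, 1, 16, 7]⟩,
⟨15, 436, 17, 494, true, false, -114, [17, 2, 6, 8, 16, 1, 7]⟩,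
⟨17, 494, 1, 29, true, false, -114, [2, 6, 8, 16, 1, 7, 17]⟩,
⟨1, 29, 17, 492, true, false, -114, [17, 7, 1, 16, 8, 6, 2]⟩,
⟨17, 492, 15, 434, true, false, -114, [7, 1, 16, 8, 6, 2, 17]⟩,
⟨15, 434, 11, 318, true, false, -114, [7, 16, 1, 8, 6, 17, 2]⟩,
⟨11, 318, 9, 260, true, false, -114, [7, 16, 1, 8, 17, 6, 2]⟩,
⟨9, 260, 8, 231, true, false, -112, [16, 7, 1, 17, 8, 6, 2]⟩,
⟨8, 231, 7, 202, true, false, -112, [7, 17, 1, 8, 6, 2, 16]⟩,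
⟨7, 202, 17, 490, true, false, -112, [17, 8, 1, 6, 16, 2, 7]⟩,
⟨17, 490, 5, 144, true, false, -112, [8, 1, 6, 16, 2, 7, 17]⟩,
⟨5, 144, 4, 115, true, false, -114, [8, 16, 6, 1, 17, 7, 2]⟩,
⟨4, 115, 11, 316, true, false, -114, [6, 17, 1, 7, 2, 16, 8]⟩,
⟨11, 316, 7, 201, true, false, -114, [17, 6, 1, 7, 2, 16, 8]⟩,
⟨7, 201, 17, 488, true, false, -114, [17, 6, 1, 7, 16, 2, 8]⟩,
⟨17, 488, 3, 86, true, false, -114, [6, 1, 7, 16, 2, 8, 17]⟩,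
⟨3, 86, 8, 229, true, false, -112, [16, 7, 1, 17, 8, 2, 6]⟩,
⟨8, 229, 5, 143, true, false, -112, [7, 17, 1, 8, 2, 6, 16]⟩,
⟨5, 143, 17, 486, true, false, -112, [17, 7, 1, 8, 2, 16, 6]⟩,
⟨17, 486, 7, 200, true, false, -112, [7, 1, 8, 2, 16, 6, 17]⟩,
⟨7, 200, 11, 314, true, false, -112, [8, 1, 16, 2, 6, 17, 7]⟩,
⟨11, 314, 15, 428, true, false, -112, [8, 1, 16, 2, 17, 6, 7]⟩,
⟨15, 428, 2, 57, true, false, -112, [8, 16, 1, 17, 2, 6, 7]⟩,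
⟨2, 57, 17, 484, true, false, -112, [17, 1, 6, 2, 7, 16, 8]⟩,
⟨17, 484, 9, 256, true, false, -112, [1, 6, 2, 7, 16, 8, 17]⟩,
⟨9, 256, 7, 199, true, false, -110, [1, 6, 2, 16, 7, 17, 8]⟩,
⟨7, 199, 5, 142, true, false, -110, [1, 6, 16, 2, 7, 17, 8]⟩,
⟨5, 142, 8, 227, true, false, -112, [16, 6, 1, 17, 7, 2, 8]⟩,
⟨8, 227, 11, 312, true, false, -112, [6, 17, 1, 7, 2, 8, 16]⟩,
⟨11, 312, 17, 482, true, false, -112, [17, 6, 1, 7, 2, 8, 16]⟩,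
⟨17, 482, 3, 85, true, false, -112, [6, 1, 7, 2, 8, 16, 17]⟩,
⟨3, 85, 7, 198, true, false, -112, [7, 1, 8, 2, 16, 17, 6]⟩,
⟨7, 198, 15, 424, true, false, -112, [8, 1, 16, 2, 17, 6, 7]⟩,
⟨15, 424, 4, 113, true, false, -112, [8, 16, 1, 17, 2, 6, 7]⟩,
⟨4, 113, 17, 480, true, false, -112, [17, 1, 2, 6, 7, 16, 8]⟩,
⟨17, 480, 9, 254, true, false, -112, [1, 2, 6, 7, 16, 8, 17]⟩,
⟨9, 254, 5, 141, true, false, -110, [1, 2, 6, 16, 7, 17, 8]⟩,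
⟨5, 141, 11, 310, true, false, -110, [1, 2, 16, 6, 17, 7, 8]⟩,
⟨11, 310, 7, 197, true, false, -110, [1, 2, 16, 17, 6, 7, 8]⟩,
⟨7, 197, 15, 422, true, false, -110, [1, 16, 2, 17, 6, 7, 8]⟩,
⟨15, 422, 8, 225, true, false, -110, [16, 1, 17, 2, 6, 7, 8]⟩,
⟨8, 225, 17, 478, true, false, -110, [17, 1, 2, 6, 7, 8, 16]⟩,
⟨17, 478, 1, 28, true, false, -110, [1, 2, 6, 7, 8, 16, 17]⟩,
⟨1, 28, 17, 474, true, false, -110, [17, 16, 8, 7, 6, 2, 1]⟩,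
⟨17, 474, 8, 223, true, false, -110, [16, 8, 7, 6, 2, 1, 17]⟩,
⟨8, 223, 15, 418, true, false, -110, [8, 7, 6, 2, 17, 1, 16]⟩,
⟨15, 418, 7, 195, true, false, -110, [8, 7, 6, 17, 2, 16, 1]⟩,
⟨7, 195, 11, 306, true, false, -110, [8, 7, 6, 17, 16, 2, 1]⟩,
⟨11, 306, 5, 139, true, false, -110, [8, 7, 17, 6, 16, 2, 1]⟩,
⟨5, 139, 9, 250, true, false, -110, [8, 17, 7, 16, 6, 2, 1]⟩,
⟨9, 250, 17, 472, true, false, -108, [17, 8, 16, 7, 6, 2, 1]⟩,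
⟨17, 472, 4, 111, true, false, -108, [8, 16, 7, 6, 2, 1, 17]⟩,
⟨4, 111, 15, 416, true, false, -108, [7, 6, 2, 17, 1, 16, 8]⟩,
⟨15, 416, 7, 194, true, false, -108, [7, 6, 17, 2, 16, 1, 8]⟩,
⟨7, 194, 3, 83, true, false, -108, [6, 17, 16, 2, 8, 1, 7]⟩,
⟨3, 83, 17, 470, true, false, -108, [17, 16, 8, 2, 7, 1, 6]⟩,
⟨17, 470, 11, 304, true, false, -108, [16, 8, 2, 7, 1, 6, 17]⟩,
⟨11, 304, 8, 221, true, false, -108, [16, 8, 2, 7, 1, 17, 6]⟩,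
⟨8, 221, 5, 138, true, false, -108, [8, 2, 7, 17, 1, 6, 16]⟩,
⟨5, 138, 7, 193, true, false, -110, [8, 17, 7, 2, 16, 6, 1]⟩,
⟨7, 193, 9, 248, true, false, -110, [8, 17, 7, 16, 2, 6, 1]⟩,
⟨9, 248, 17, 468, true, false, -108, [17, 8, 16, 7, 2, 6, 1]⟩,
⟨17, 468, 2, 55, true, false, -108, [8, 16, 7, 2, 6, 1, 17]⟩,
⟨2, 55, 15, 412, true, false, -108, [7, 6, 2, 17, 1, 16, 8]⟩,
⟨15, 412, 11, 302, true, false, -108, [7, 6, 17, 2, 16, 1, 8]⟩,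
⟨11, 302, 7, 192, true, false, -108, [7, 17, 6, 2, 16, 1, 8]⟩,
⟨7, 192, 17, 466, true, false, -108, [17, 6, 16, 2, 8, 1, 7]⟩,
⟨17, 466, 5, 137, true, false, -108, [6, 16, 2, 8, 1, 7, 17]⟩,
⟨5, 137, 8, 219, true, false, -108, [16, 6, 2, 8, 1, 17, 7]⟩,
⟨8, 219, 3, 82, true, false, -108, [6, 2, 8, 17, 1, 7, 16]⟩,
⟨3, 82, 17, 464, true, false, -106, [17, 8, 2, 16, 7, 1, 6]⟩,
⟨17, 464, 7, 191, true, false, -106, [8, 2, 16, 7, 1, 6, 17]⟩,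
⟨7, 191, 11, 300, true, false, -106, [8, 16, 2, 7, 1, 6, 17]⟩,
⟨11, 300, 4, 109, true, false, -106, [8, 16, 2, 7, 1, 17, 6]⟩,
⟨4, 109, 5, 136, true, false, -106, [2, 7, 17, 1, 6, 16, 8]⟩,
⟨5, 136, 17, 462, true, false, -108, [17, 7, 2, 16, 6, 1, 8]⟩,
⟨17, 462, 7, 190, true, false, -108, [7, 2, 16, 6, 1, 8, 17]⟩,
⟨7, 190, 8, 217, true, false, -108, [16, 2, 6, 8, 1, 17, 7]⟩,
⟨8, 217, 9, 244, true, false, -108, [2, 6, 8, 17, 1, 7, 16]⟩,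
⟨9, 244, 11, 298, true, false, -106, [2, 6, 17, 8, 1, 16, 7]⟩,
⟨11, 298, 15, 406, true, false, -106, [2, 17, 6, 8, 1, 16, 7]⟩,
⟨15, 406, 17, 460, true, false, -106, [17, 2, 6, 8, 16, 1, 7]⟩,
⟨17, 460, 1, 27, true, false, -106, [2, 6, 8, 16, 1, 7, 17]⟩,
⟨1, 27, 17, 458, true, false, -106, [17, 7, 1, 16, 8, 6, 2]⟩,
⟨17, 458, 15, 404, true, false, -106, [7, 1, 16, 8, 6, 2, 17]⟩,
⟨15, 404, 11, 296, true, false, -106, [7, 16, 1, 8, 6, 17, 2]⟩,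
⟨11, 296, 9, 242, true, false, -106, [7, 16, 1, 8, 17, 6, 2]⟩,
⟨9, 242, 8, 215, true, false, -104, [16, 7, 1, 17, 8, 6, 2]⟩,
⟨8, 215, 7, 188, true, false, -104, [7, 17, 1, 8, 6, 2, 16]⟩,
⟨7, 188, 17, 456, true, false, -104, [17, 8, 1, 6, 16, 2, 7]⟩,
⟨17, 456, 5, 134, true, false, -104, [8, 1, 6, 16, 2, 7, 17]⟩,
⟨5, 134, 4, 107, true, false, -106, [8, 16, 6, 1, 17, 7, 2]⟩,
⟨4, 107, 11, 294, true, false, -106, [6, 17, 1, 7, 2, 16, 8]⟩,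
⟨11, 294, 7, 187, true, false, -106, [17, 6, 1, 7, 2, 16, 8]⟩,
⟨7, 187, 17, 454, true, false, -106, [17, 6, 1, 7, 16, 2, 8]⟩,
⟨17, 454, 3, 80, true, false, -106, [6, 1, 7, 16, 2, 8, 17]⟩,
⟨3, 80, 8, 213, true, false, -104, [16, 7, 1, 17, 8, 2, 6]⟩,
⟨8, 213, 5, 133, true, false, -104, [7, 17, 1, 8, 2, 6, 16]⟩,
⟨5, 133, 17, 452, true, false, -104, [17, 7, 1, 8, 2, 16, 6]⟩,
⟨17, 452, 7, 186, true, false, -104, [7, 1, 8, 2, 16, 6, 17]⟩,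
⟨7, 186, 11, 292, true, false, -104, [8, 1, 16, 2, 6, 17, 7]⟩,
⟨11, 292, 15, 398, true, false, -104, [8, 1, 16, 2, 17, 6, 7]⟩,
⟨15, 398, 2, 53, true, false, -104, [8, 16, 1, 17, 2, 6, 7]⟩,
⟨2, 53, 17, 450, true, false, -104, [17, 1, 6, 2, 7, 16, 8]⟩,
⟨17, 450, 9, 238, true, false, -104, [1, 6, 2, 7, 16, 8, 17]⟩,
⟨9, 238, 7, 185, true, false, -102, [1, 6, 2, 16, 7, 17, 8]⟩,
⟨7, 185, 5, 132, true, false, -102, [1, 6, 16, 2, 7, 17, 8]⟩,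
⟨5, 132, 8, 211, true, false, -104, [16, 6, 1, 17, 7, 2, 8]⟩,
⟨8, 211, 11, 290, true, false, -104, [6, 17, 1, 7, 2, 8, 16]⟩,
⟨11, 290, 17, 448, true, false, -104, [17, 6, 1, 7, 2, 8, 16]⟩,
⟨17, 448, 3, 79, true, false, -104, [6, 1, 7, 2, 8, 16, 17]⟩,
⟨3, 79, 7, 184, true, false, -104, [7, 1, 8, 2, 16, 17, 6]⟩,
⟨7, 184, 15, 394, true, false, -104, [8, 1, 16, 2, 17, 6, 7]⟩,
⟨15, 394, 4, 105, true, false, -104, [8, 16, 1, 17, 2, 6, 7]⟩,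
⟨4, 105, 17, 446, true, false, -104, [17, 1, 2, 6, 7, 16, 8]⟩,
⟨17, 446, 9, 236, true, false, -104, [1, 2, 6, 7, 16, 8, 17]⟩,
⟨9, 236, 5, 131, true, false, -102, [1, 2, 6, 16, 7, 17, 8]⟩,
⟨5, 131, 11, 288, true, false, -102, [1, 2, 16, 6, 17, 7, 8]⟩,
⟨11, 288, 7, 183, true, false, -102, [1, 2, 16, 17, 6, 7, 8]⟩,
⟨7, 183, 15, 392, true, false, -102, [1, 16, 2, 17, 6, 7, 8]⟩,
⟨15, 392, 8, 209, true, false, -102, [16, 1, 17, 2, 6, 7, 8]⟩,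
⟨8, 209, 17, 444, true, false, -102, [17, 1, 2, 6, 7, 8, 16]⟩,
⟨17, 444, 1, 26, true, false, -102, [1, 2, 6, 7, 8, 16, 17]⟩,
⟨1, 26, 17, 440, true, false, -102, [17, 16, 8, 7, 6, 2, 1]⟩,
⟨17, 440, 8, 207, true, false, -102, [16, 8, 7, 6, 2, 1, 17]⟩,
⟨8, 207, 15, 388, true, false, -102, [8, 7, 6, 2, 17, 1, 16]⟩,
⟨15, 388, 7, 181, true, false, -102, [8, 7, 6, 17, 2, 16, 1]⟩,
⟨7, 181, 11, 284, true, false, -102, [8, 7, 6, 17, 16, 2, 1]⟩,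
⟨11, 284, 5, 129, true, false, -102, [8, 7, 17, 6, 16, 2, 1]⟩,
⟨5, 129, 9, 232, true, false, -102, [8, 17, 7, 16, 6, 2, 1]⟩,
⟨9, 232, 17, 438, true, false, -100, [17, 8, 16, 7, 6, 2, 1]⟩,
⟨17, 438, 4, 103, true, false, -100, [8, 16, 7, 6, 2, 1, 17]⟩,
⟨4, 103, 15, 386, true, false, -100, [7, 6, 2, 17, 1, 16, 8]⟩,
⟨15, 386, 7, 180, true, false, -100, [7, 6, 17, 2, 16, 1, 8]⟩,
⟨7, 180, 3, 77, true, false, -100, [6, 17, 16, 2, 8, 1, 7]⟩,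
⟨3, 77, 17, 436, true, false, -100, [17, 16, 8, 2, 7, 1, 6]⟩,
⟨17, 436, 11, 282, true, false, -100, [16, 8, 2, 7, 1, 6, 17]⟩,
⟨11, 282, 8, 205, true, false, -100, [16, 8, 2, 7, 1, 17, 6]⟩,
⟨8, 205, 5, 128, true, false, -100, [8, 2, 7, 17, 1, 6, 16]⟩,
⟨5, 128, 7, 179, true, false, -102, [8, 17, 7, 2, 16, 6, 1]⟩,
⟨7, 179, 9, 230, true, false, -102, [8, 17, 7, 16, 2, 6, 1]⟩,
⟨9, 230, 17, 434, true, false, -100, [17, 8, 16, 7, 2, 6, 1]⟩,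
⟨17, 434, 2, 51, true, false, -100, [8, 16, 7, 2, 6, 1, 17]⟩,
⟨2, 51, 15, 382, true, false, -100, [7, 6, 2, 17, 1, 16, 8]⟩,
⟨15, 382, 11, 280, true, false, -100, [7, 6, 17, 2, 16, 1, 8]⟩,
⟨11, 280, 7, 178, true, false, -100, [7, 17, 6, 2, 16, 1, 8]⟩,
⟨7, 178, 17, 432, true, false, -100, [17, 6, 16, 2, 8, 1, 7]⟩,
⟨17, 432, 5, 127, true, false, -100, [6, 16, 2, 8, 1, 7, 17]⟩,
⟨5, 127, 8, 203, true, false, -100, [16, 6, 2, 8, 1, 17, 7]⟩,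
⟨8, 203, 3, 76, true, false, -100, [6, 2, 8, 17, 1, 7, 16]⟩,
⟨3, 76, 17, 430, true, false, -98, [17, 8, 2, 16, 7, 1, 6]⟩,
⟨17, 430, 7, 177, true, false, -98, [8, 2, 16, 7, 1, 6, 17]⟩,
⟨7, 177, 11, 278, true, false, -98, [8, 16, 2, 7, 1, 6, 17]⟩,
⟨11, 278, 4, 101, true, false, -98, [8, 16, 2, 7, 1, 17, 6]⟩,
⟨4, 101, 5, 126, true, false, -98, [2, 7, 17, 1, 6, 16, 8]⟩,
⟨5, 126, 17, 428, true, false, -100, [17, 7, 2, 16, 6, 1, 8]⟩,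
⟨17, 428, 7, 176, true, false, -100, [7, 2, 16, 6, 1, 8, 17]⟩,
⟨7, 176, 8, 201, true, false, -100, [16, 2, 6, 8, 1, 17, 7]⟩,
⟨8, 201, 9, 226, true, false, -100, [2, 6, 8, 17, 1, 7, 16]⟩,
⟨9, 226, 11, 276, true, false, -98, [2, 6, 17, 8, 1, 16, 7]⟩,
⟨11, 276, 15, 376, true, false, -98, [2, 17, 6, 8, 1, 16, 7]⟩,
⟨15, 376, 17, 426, true, false, -98, [17, 2, 6, 8, 16, 1, 7]⟩,
⟨17, 426, 1, 25, true, false, -98, [2, 6, 8, 16, 1, 7, 17]⟩]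

def cellsP11 : List Cell := [
⟨1, 25, 17, 424, true, false, -98, [17, 7, 1, 16, 8, 6, 2]⟩,
⟨17, 424, 15, 374, true, false, -98, [7, 1, 16, 8, 6, 2, 17]⟩,
⟨15, 374, 11, 274, true, false, -98, [7, 16, 1, 8, 6, 17, 2]⟩,
⟨11, 274, 9, 224, true, false, -98, [7, 16, 1, 8, 17, 6, 2]⟩,
⟨9, 224, 8, 199, true, false, -96, [16, 7, 1, 17, 8, 6, 2]⟩,
⟨8, 199, 7, 174, true, false, -96, [7, 17, 1, 8, 6, 2, 16]⟩,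
⟨7, 174, 17, 422, true, false, -96, [17, 8, 1, 6, 16, 2, 7]⟩,
⟨17, 422, 5, 124, true, false, -96, [8, 1, 6, 16, 2, 7, 17]⟩,
⟨5, 124, 4, 99, true, false, -98, [8, 16, 6, 1, 17, 7, 2]⟩,
⟨4, 99, 11, 272, true, false, -98, [6, 17, 1, 7, 2, 16, 8]⟩,
⟨11, 272, 7, 173, true, false, -98, [17, 6, 1, 7, 2, 16, 8]⟩,
⟨7, 173, 17, 420, true, false, -98, [17, 6, 1, 7, 16, 2, 8]⟩,
⟨17, 420, 3, 74, true, false, -98, [6, 1, 7, 16, 2, 8, 17]⟩,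
⟨3, 74, 8, 197, true, false, -96, [16, 7, 1, 17, 8, 2, 6]⟩,
⟨8, 197, 5, 123, true, false, -96, [7, 17, 1, 8, 2, 6, 16]⟩,
⟨5, 123, 17, 418, true, false, -96, [17, 7, 1, 8, 2, 16, 6]⟩,
⟨17, 418, 7, 172, true, false, -96, [7, 1, 8, 2, 16, 6, 17]⟩,
⟨7, 172, 11, 270, true, false, -96, [8, 1, 16, 2, 6, 17, 7]⟩,
⟨11, 270, 15, 368, true, false, -96, [8, 1, 16, 2, 17, 6, 7]⟩,
⟨15, 368, 2, 49, true, false, -96, [8, 16, 1, 17, 2, 6, 7]⟩,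
⟨2, 49, 17, 416, true, false, -96, [17, 1, 6, 2, 7, 16, 8]⟩,
⟨17, 416, 9, 220, true, false, -96, [1, 6, 2, 7, 16, 8, 17]⟩,
⟨9, 220, 7, 171, true, false, -94, [1, 6, 2, 16, 7, 17, 8]⟩,
⟨7, 171, 5, 122, true, false, -94, [1, 6, 16, 2, 7, 17, 8]⟩,
⟨5, 122, 8, 195, true, false, -96, [16, 6, 1, 17, 7, 2, 8]⟩,
⟨8, 195, 11, 268, true, false, -96, [6, 17, 1, 7, 2, 8, 16]⟩,
⟨11, 268, 17, 414, true, false, -96, [17, 6, 1, 7, 2, 8, 16]⟩,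
⟨17, 414, 3, 73, true, false, -96, [6, 1, 7, 2, 8, 16, 17]⟩,
⟨3, 73, 7, 170, true, false, -96, [7, 1, 8, 2, 16, 17, 6]⟩,
⟨7, 170, 15, 364, true, false, -96, [8, 1, 16, 2, 17, 6, 7]⟩,
⟨15, 364, 4, 97, true, false, -96, [8, 16, 1, 17, 2, 6, 7]⟩,
⟨4, 97, 17, 412, true, false, -96, [17, 1, 2, 6, 7, 16, 8]⟩,
⟨17, 412, 9, 218, true, false, -96, [1, 2, 6, 7, 16, 8, 17]⟩,
⟨9, 218, 5, 121, true, false, -94, [1, 2, 6, 16, 7, 17, 8]⟩,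
⟨5, 121, 11, 266, true, false, -94, [1, 2, 16, 6, 17, 7, 8]⟩,
⟨11, 266, 7, 169, true, false, -94, [1, 2, 16, 17, 6, 7, 8]⟩,
⟨7, 169, 15, 362, true, false, -94, [1, 16, 2, 17, 6, 7, 8]⟩,
⟨15, 362, 8, 193, true, false, -94, [16, 1, 17, 2, 6, 7, 8]⟩,
⟨8, 193, 17, 410, true, false, -94, [17, 1, 2, 6, 7, 8, 16]⟩,
⟨17, 410, 1, 24, true, false, -94, [1, 2, 6, 7, 8, 16, 17]⟩,
⟨1, 24, 17, 406, true, false, -94, [17, 16, 8, 7, 6, 2, 1]⟩,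
⟨17, 406, 8, 191, true, false, -94, [16, 8, 7, 6, 2, 1, 17]⟩,
⟨8, 191, 15, 358, true, false, -94, [8, 7, 6, 2, 17, 1, 16]⟩,
⟨15, 358, 7, 167, true, false, -94, [8, 7, 6, 17, 2, 16, 1]⟩,
⟨7, 167, 11, 262, true, false, -94, [8, 7, 6, 17, 16, 2, 1]⟩,
⟨11, 262, 5, 119, true, false, -94, [8, 7, 17, 6, 16, 2, 1]⟩,
⟨5, 119, 9, 214, true, false, -94, [8, 17, 7, 16, 6, 2, 1]⟩,
⟨9, 214, 17, 404, true, false, -92, [17, 8, 16, 7, 6, 2, 1]⟩,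
⟨17, 404, 4, 95, true, false, -92, [8, 16, 7, 6, 2, 1, 17]⟩,
⟨4, 95, 15, 356, true, false, -92, [7, 6, 2, 17, 1, 16, 8]⟩,
⟨15, 356, 7, 166, true, false, -92, [7, 6, 17, 2, 16, 1, 8]⟩,
⟨7, 166, 3, 71, true, false, -92, [6, 17, 16, 2, 8, 1, 7]⟩,
⟨3, 71, 17, 402, true, false, -92, [17, 16, 8, 2, 7, 1, 6]⟩,
⟨17, 402, 11, 260, true, false, -92, [16, 8, 2, 7, 1, 6, 17]⟩,
⟨11, 260, 8, 189, true, false, -92, [16, 8, 2, 7, 1, 17, 6]⟩,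
⟨8, 189, 5, 118, true, false, -92, [8, 2, 7, 17, 1, 6, 16]⟩,
⟨5, 118, 7, 165, true, false, -94, [8, 17, 7, 2, 16, 6, 1]⟩,
⟨7, 165, 9, 212, true, false, -94, [8, 17, 7, 16, 2, 6, 1]⟩,
⟨9, 212, 17, 400, true, false, -92, [17, 8, 16, 7, 2, 6, 1]⟩,
⟨17, 400, 2, 47, true, false, -92, [8, 16, 7, 2, 6, 1, 17]⟩,
⟨2, 47, 15, 352, true, false, -92, [7, 6, 2, 17, 1, 16, 8]⟩,
⟨15, 352, 11, 258, true, false, -92, [7, 6, 17, 2, 16, 1, 8]⟩,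
⟨11, 258, 7, 164, true, false, -92, [7, 17, 6, 2, 16, 1, 8]⟩,
⟨7, 164, 17, 398, true, false, -92, [17, 6, 16, 2, 8, 1, 7]⟩,
⟨17, 398, 5, 117, true, false, -92, [6, 16, 2, 8, 1, 7, 17]⟩,
⟨5, 117, 8, 187, true, false, -92, [16, 6, 2, 8, 1, 17, 7]⟩,
⟨8, 187, 3, 70, true, false, -92, [6, 2, 8, 17, 1, 7, 16]⟩,
⟨3, 70, 17, 396, true, false, -90, [17, 8, 2, 16, 7, 1, 6]⟩,
⟨17, 396, 7, 163, true, false, -90, [8, 2, 16, 7, 1, 6, 17]⟩,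
⟨7, 163, 11, 256, true, false, -90, [8, 16, 2, 7, 1, 6, 17]⟩,
⟨11, 256, 4, 93, true, false, -90, [8, 16, 2, 7, 1, 17, 6]⟩,
⟨4, 93, 5, 116, true, false, -90, [2, 7, 17, 1, 6, 16, 8]⟩,
⟨5, 116, 17, 394, true, false, -92, [17, 7, 2, 16, 6, 1, 8]⟩,
⟨17, 394, 7, 162, true, false, -92, [7, 2, 16, 6, 1, 8, 17]⟩,
⟨7, 162, 8, 185, true, false, -92, [16, 2, 6, 8, 1, 17, 7]⟩,
⟨8, 185, 9, 208, true, false, -92, [2, 6, 8, 17, 1, 7, 16]⟩,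
⟨9, 208, 11, 254, true, false, -90, [2, 6, 17, 8, 1, 16, 7]⟩,
⟨11, 254, 15, 346, true, false, -90, [2, 17, 6, 8, 1, 16, 7]⟩,
⟨15, 346, 17, 392, true, false, -90, [17, 2, 6, 8, 16, 1, 7]⟩,
⟨17, 392, 1, 23, true, false, -90, [2, 6, 8, 16, 1, 7, 17]⟩,
⟨1, 23, 17, 390, true, false, -90, [17, 7, 1, 16, 8, 6, 2]⟩,
⟨17, 390, 15, 344, true, false, -90, [7, 1, 16, 8, 6, 2, 17]⟩,
⟨15, 344, 11, 252, true, false, -90, [7, 16, 1, 8, 6, 17, 2]⟩,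
⟨11, 252, 9, 206, true, false, -90, [7, 16, 1, 8, 17, 6, 2]⟩,
⟨9, 206, 8, 183, true, false, -88, [16, 7, 1, 17, 8, 6, 2]⟩,
⟨8, 183, 7, 160, true, false, -88, [7, 17, 1, 8, 6, 2, 16]⟩,
⟨7, 160, 17, 388, true, false, -88, [17, 8, 1, 6, 16, 2, 7]⟩,
⟨17, 388, 5, 114, true, false, -88, [8, 1, 6, 16, 2, 7, 17]⟩,
⟨5, 114, 4, 91, true, false, -90, [8, 16, 6, 1, 17, 7, 2]⟩,
⟨4, 91, 11, 250, true, false, -90, [6, 17, 1, 7, 2, 16, 8]⟩,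
⟨11, 250, 7, 159, true, false, -90, [17, 6, 1, 7, 2, 16, 8]⟩,
⟨7, 159, 17, 386, true, false, -90, [17, 6, 1, 7, 16, 2, 8]⟩,
⟨17, 386, 3, 68, true, false, -90, [6, 1, 7, 16, 2, 8, 17]⟩,
⟨3, 68, 8, 181, true, false, -88, [16, 7, 1, 17, 8, 2, 6]⟩,
⟨8, 181, 5, 113, true, false, -88, [7, 17, 1, 8, 2, 6, 16]⟩,
⟨5, 113, 17, 384, true, false, -88, [17, 7, 1, 8, 2, 16, 6]⟩,
⟨17, 384, 7, 158, true, false, -88, [7, 1, 8, 2, 16, 6, 17]⟩,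
⟨7, 158, 11, 248, true, false, -88, [8, 1, 16, 2, 6, 17, 7]⟩,
⟨11, 248, 15, 338, true, false, -88, [8, 1, 16, 2, 17, 6, 7]⟩,
⟨15, 338, 2, 45, true, false, -88, [8, 16, 1, 17, 2, 6, 7]⟩,
⟨2, 45, 17, 382, true, false, -88, [17, 1, 6, 2, 7, 16, 8]⟩,
⟨17, 382, 9, 202, true, false, -88, [1, 6, 2, 7, 16, 8, 17]⟩,
⟨9, 202, 7, 157, true, false, -86, [1, 6, 2, 16, 7, 17, 8]⟩,
⟨7, 157, 5, 112, true, false, -86, [1, 6, 16, 2, 7, 17, 8]⟩,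
⟨5, 112, 8, 179, true, false, -88, [16, 6, 1, 17, 7, 2, 8]⟩,
⟨8, 179, 11, 246, true, false, -88, [6, 17, 1, 7, 2, 8, 16]⟩,
⟨11, 246, 17, 380, true, false, -88, [17, 6, 1, 7, 2, 8, 16]⟩,
⟨17, 380, 3, 67, true, false, -88, [6, 1, 7, 2, 8, 16, 17]⟩,
⟨3, 67, 7, 156, true, false, -88, [7, 1, 8, 2, 16, 17, 6]⟩,
⟨7, 156, 15, 334, true, false, -88, [8, 1, 16, 2, 17, 6, 7]⟩,
⟨15, 334, 4, 89, true, false, -88, [8, 16, 1, 17, 2, 6, 7]⟩,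
⟨4, 89, 17, 378, true, false, -88, [17, 1, 2, 6, 7, 16, 8]⟩,
⟨17, 378, 9, 200, true, false, -88, [1, 2, 6, 7, 16, 8, 17]⟩,
⟨9, 200, 5, 111, true, false, -86, [1, 2, 6, 16, 7, 17, 8]⟩,
⟨5, 111, 11, 244, true, false, -86, [1, 2, 16, 6, 17, 7, 8]⟩,
⟨11, 244, 7, 155, true, false, -86, [1, 2, 16, 17, 6, 7, 8]⟩,
⟨7, 155, 15, 332, true, false, -86, [1, 16, 2, 17, 6, 7, 8]⟩,
⟨15, 332, 8, 177, true, false, -86, [16, 1, 17, 2, 6, 7, 8]⟩,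
⟨8, 177, 17, 376, true, false, -86, [17, 1, 2, 6, 7, 8, 16]⟩,
⟨17, 376, 1, 22, true, false, -86, [1, 2, 6, 7, 8, 16, 17]⟩,
⟨1, 22, 17, 372, true, false, -86, [17, 16, 8, 7, 6, 2, 1]⟩,
⟨17, 372, 8, 175, true, false, -86, [16, 8, 7, 6, 2, 1, 17]⟩,
⟨8, 175, 15, 328, true, false, -86, [8, 7, 6, 2, 17, 1, 16]⟩,
⟨15, 328, 7, 153, true, false, -86, [8, 7, 6, 17, 2, 16, 1]⟩,
⟨7, 153, 11, 240, true, false, -86, [8, 7, 6, 17, 16, 2, 1]⟩,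
⟨11, 240, 5, 109, true, false, -86, [8, 7, 17, 6, 16, 2, 1]⟩,
⟨5, 109, 9, 196, true, false, -86, [8, 17, 7, 16, 6, 2, 1]⟩,
⟨9, 196, 17, 370, true, false, -84, [17, 8, 16, 7, 6, 2, 1]⟩,
⟨17, 370, 4, 87, true, false, -84, [8, 16, 7, 6, 2, 1, 17]⟩,
⟨4, 87, 15, 326, true, false, -84, [7, 6, 2, 17, 1, 16, 8]⟩,
⟨15, 326, 7, 152, true, false, -84, [7, 6, 17, 2, 16, 1, 8]⟩,
⟨7, 152, 3, 65, true, false, -84, [6, 17, 16, 2, 8, 1, 7]⟩,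
⟨3, 65, 17, 368, true, false, -84, [17, 16, 8, 2, 7, 1, 6]⟩,
⟨17, 368, 11, 238, true, false, -84, [16, 8, 2, 7, 1, 6, 17]⟩,
⟨11, 238, 8, 173, true, false, -84, [16, 8, 2, 7, 1, 17, 6]⟩,
⟨8, 173, 5, 108, true, false, -84, [8, 2, 7, 17, 1, 6, 16]⟩,
⟨5, 108, 7, 151, true, false, -86, [8, 17, 7, 2, 16, 6, 1]⟩,
⟨7, 151, 9, 194, true, false, -86, [8, 17, 7, 16, 2, 6, 1]⟩,
⟨9, 194, 17, 366, true, false, -84, [17, 8, 16, 7, 2, 6, 1]⟩,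
⟨17, 366, 2, 43, true, false, -84, [8, 16, 7, 2, 6, 1, 17]⟩,
⟨2, 43, 15, 322, true, false, -84, [7, 6, 2, 17, 1, 16, 8]⟩,
⟨15, 322, 11, 236, true, false, -84, [7, 6, 17, 2, 16, 1, 8]⟩,
⟨11, 236, 7, 150, true, false, -84, [7, 17, 6, 2, 16, 1, 8]⟩,
⟨7, 150, 17, 364, true, false, -84, [17, 6, 16, 2, 8, 1, 7]⟩,
⟨17, 364, 5, 107, true, false, -84, [6, 16, 2, 8, 1, 7, 17]⟩,
⟨5, 107, 8, 171, true, false, -84, [16, 6, 2, 8, 1, 17, 7]⟩,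
⟨8, 171, 3, 64, true, false, -84, [6, 2, 8, 17, 1, 7, 16]⟩,
⟨3, 64, 17, 362, true, false, -82, [17, 8, 2, 16, 7, 1, 6]⟩,
⟨17, 362, 7, 149, true, false, -82, [8, 2, 16, 7, 1, 6, 17]⟩,
⟨7, 149, 11, 234, true, false, -82, [8, 16, 2, 7, 1, 6, 17]⟩,
⟨11, 234, 4, 85, true, false, -82, [8, 16, 2, 7, 1, 17, 6]⟩,
⟨4, 85, 5, 106, true, false, -82, [2, 7, 17, 1, 6, 16, 8]⟩,
⟨5, 106, 17, 360, true, false, -84, [17, 7, 2, 16, 6, 1, 8]⟩,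
⟨17, 360, 7, 148, true, false, -84, [7, 2, 16, 6, 1, 8, 17]⟩,
⟨7, 148, 8, 169, true, false, -84, [16, 2, 6, 8, 1, 17, 7]⟩,
⟨8, 169, 9, 190, true, false, -84, [2, 6, 8, 17, 1, 7, 16]⟩,
⟨9, 190, 11, 232, true, false, -82, [2, 6, 17, 8, 1, 16, 7]⟩,
⟨11, 232, 15, 316, true, false, -82, [2, 17, 6, 8, 1, 16, 7]⟩,
⟨15, 316, 17, 358, true, false, -82, [17, 2, 6, 8, 16, 1, 7]⟩,
⟨17, 358, 1, 21, true, false, -82, [2, 6, 8, 16, 1, 7, 17]⟩,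
⟨1, 21, 17, 356, true, false, -82, [17, 7, 1, 16, 8, 6, 2]⟩,
⟨17, 356, 15, 314, true, false, -82, [7, 1, 16, 8, 6, 2, 17]⟩,
⟨15, 314, 11, 230, true, false, -82, [7, 16, 1, 8, 6, 17, 2]⟩,
⟨11, 230, 9, 188, true, false, -82, [7, 16, 1, 8, 17, 6, 2]⟩,
⟨9, 188, 8, 167, true, false, -80, [16, 7, 1, 17, 8, 6, 2]⟩,
⟨8, 167, 7, 146, true, false, -80, [7, 17, 1, 8, 6, 2, 16]⟩,
⟨7, 146, 17, 354, true, false, -80, [17, 8, 1, 6, 16, 2, 7]⟩,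
⟨17, 354, 5, 104, true, false, -80, [8, 1, 6, 16, 2, 7, 17]⟩,
⟨5, 104, 4, 83, true, false, -82, [8, 16, 6, 1, 17, 7, 2]⟩,
⟨4, 83, 11, 228, true, false, -82, [6, 17, 1, 7, 2, 16, 8]⟩,
⟨11, 228, 7, 145, true, false, -82, [17, 6, 1, 7, 2, 16, 8]⟩,
⟨7, 145, 17, 352, true, false, -82, [17, 6, 1, 7, 16, 2, 8]⟩,
⟨17, 352, 3, 62, true, false, -82, [6, 1, 7, 16, 2, 8, 17]⟩,
⟨3, 62, 8, 165, true, false, -80, [16, 7, 1, 17, 8, 2, 6]⟩,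
⟨8, 165, 5, 103, true, false, -80, [7, 17, 1, 8, 2, 6, 16]⟩,
⟨5, 103, 17, 350, true, false, -80, [17, 7, 1, 8, 2, 16, 6]⟩,
⟨17, 350, 7, 144, true, false, -80, [7, 1, 8, 2, 16, 6, 17]⟩,
⟨7, 144, 11, 226, true, false, -80, [8, 1, 16, 2, 6, 17, 7]⟩,
⟨11, 226, 15, 308, true, false, -80, [8, 1, 16, 2, 17, 6, 7]⟩,
⟨15, 308, 2, 41, true, false, -80, [8, 16, 1, 17, 2, 6, 7]⟩,
⟨2, 41, 17, 348, true, false, -80, [17, 1, 6, 2, 7, 16, 8]⟩,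
⟨17, 348, 9, 184, true, false, -80, [1, 6, 2, 7, 16, 8, 17]⟩,
⟨9, 184, 7, 143, true, false, -78, [1, 6, 2, 16, 7, 17, 8]⟩,
⟨7, 143, 5, 102, true, false, -78, [1, 6, 16, 2, 7, 17, 8]⟩,
⟨5, 102, 8, 163, true, false, -80, [16, 6, 1, 17, 7, 2, 8]⟩,
⟨8, 163, 11, 224, true, false, -80, [6, 17, 1, 7, 2, 8, 16]⟩,
⟨11, 224, 17, 346, true, false, -80, [17, 6, 1, 7, 2, 8, 16]⟩,
⟨17, 346, 3, 61, true, false, -80, [6, 1, 7, 2, 8, 16, 17]⟩,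
⟨3, 61, 7, 142, true, false, -80, [7, 1, 8, 2, 16, 17, 6]⟩,
⟨7, 142, 15, 304, true, false, -80, [8, 1, 16, 2, 17, 6, 7]⟩,
⟨15, 304, 4, 81, true, false, -80, [8, 16, 1, 17, 2, 6, 7]⟩,
⟨4, 81, 17, 344, true, false, -80, [17, 1, 2, 6, 7, 16, 8]⟩,
⟨17, 344, 9, 182, true, false, -80, [1, 2, 6, 7, 16, 8, 17]⟩,
⟨9, 182, 5, 101, true, false, -78, [1, 2, 6, 16, 7, 17, 8]⟩,
⟨5, 101, 11, 222, true, false, -78, [1, 2, 16, 6, 17, 7, 8]⟩,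
⟨11, 222, 7, 141, true, false, -78, [1, 2, 16, 17, 6, 7, 8]⟩,
⟨7, 141, 15, 302, true, false, -78, [1, 16, 2, 17, 6, 7, 8]⟩,
⟨15, 302, 8, 161, true, false, -78, [16, 1, 17, 2, 6, 7, 8]⟩,
⟨8, 161, 17, 342, true, false, -78, [17, 1, 2, 6, 7, 8, 16]⟩,
⟨17, 342, 1, 20, true, false, -78, [1, 2, 6, 7, 8, 16, 17]⟩]

def cellsP12 : List Cell := [
⟨1, 20, 17, 338, true, false, -78, [17, 16, 8, 7, 6, 2, 1]⟩,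
⟨17, 338, 8, 159, true, false, -78, [16, 8, 7, 6, 2, 1, 17]⟩,
⟨8, 159, 15, 298, true, false, -78, [8, 7, 6, 2, 17, 1, 16]⟩,
⟨15, 298, 7, 139, true, false, -78, [8, 7, 6, 17, 2, 16, 1]⟩,
⟨7, 139, 11, 218, true, false, -78, [8, 7, 6, 17, 16, 2, 1]⟩,
⟨11, 218, 5, 99, true, false, -78, [8, 7, 17, 6, 16, 2, 1]⟩,
⟨5, 99, 9, 178, true, false, -78, [8, 17, 7, 16, 6, 2, 1]⟩,
⟨9, 178, 17, 336, true, false, -76, [17, 8, 16, 7, 6, 2, 1]⟩,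
⟨17, 336, 4, 79, true, false, -76, [8, 16, 7, 6, 2, 1, 17]⟩,
⟨4, 79, 15, 296, true, false, -76, [7, 6, 2, 17, 1, 16, 8]⟩,
⟨15, 296, 7, 138, true, false, -76, [7, 6, 17, 2, 16, 1, 8]⟩,
⟨7, 138, 3, 59, true, false, -76, [6, 17, 16, 2, 8, 1, 7]⟩,
⟨3, 59, 17, 334, true, false, -76, [17, 16, 8, 2, 7, 1, 6]⟩,
⟨17, 334, 11, 216, true, false, -76, [16, 8, 2, 7, 1, 6, 17]⟩,
⟨11, 216, 8, 157, true, false, -76, [16, 8, 2, 7, 1, 17, 6]⟩,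
⟨8, 157, 5, 98, true, false, -76, [8, 2, 7, 17, 1, 6, 16]⟩,
⟨5, 98, 7, 137, true, false, -78, [8, 17, 7, 2, 16, 6, 1]⟩,
⟨7, 137, 9, 176, true, false, -78, [8, 17, 7, 16, 2, 6, 1]⟩,
⟨9, 176, 17, 332, true, false, -76, [17, 8, 16, 7, 2, 6, 1]⟩,
⟨17, 332, 2, 39, true, false, -76, [8, 16, 7, 2, 6, 1, 17]⟩,
⟨2, 39, 15, 292, true, false, -76, [7, 6, 2, 17, 1, 16, 8]⟩,
⟨15, 292, 11, 214, true, false, -76, [7, 6, 17, 2, 16, 1, 8]⟩,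
⟨11, 214, 7, 136, true, false, -76, [7, 17, 6, 2, 16, 1, 8]⟩,
⟨7, 136, 17, 330, true, false, -76, [17, 6, 16, 2, 8, 1, 7]⟩,
⟨17, 330, 5, 97, true, false, -76, [6, 16, 2, 8, 1, 7, 17]⟩,
⟨5, 97, 8, 155, true, false, -76, [16, 6, 2, 8, 1, 17, 7]⟩,
⟨8, 155, 3, 58, true, false, -76, [6, 2, 8, 17, 1, 7, 16]⟩,
⟨3, 58, 17, 328, true, false, -74, [17, 8, 2, 16, 7, 1, 6]⟩,
⟨17, 328, 7, 135, true, false, -74, [8, 2, 16, 7, 1, 6, 17]⟩,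
⟨7, 135, 11, 212, true, false, -74, [8, 16, 2, 7, 1, 6, 17]⟩,
⟨11, 212, 4, 77, true, false, -74, [8, 16, 2, 7, 1, 17, 6]⟩,
⟨4, 77, 5, 96, true, false, -74, [2, 7, 17, 1, 6, 16, 8]⟩,
⟨5, 96, 17, 326, true, false, -76, [17, 7, 2, 16, 6, 1, 8]⟩,
⟨17, 326, 7, 134, true, false, -76, [7, 2, 16, 6, 1, 8, 17]⟩,
⟨7, 134, 8, 153, true, false, -76, [16, 2, 6, 8, 1, 17, 7]⟩,
⟨8, 153, 9, 172, true, false, -76, [2, 6, 8, 17, 1, 7, 16]⟩,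
⟨9, 172, 11, 210, true, false, -74, [2, 6, 17, 8, 1, 16, 7]⟩,
⟨11, 210, 15, 286, true, false, -74, [2, 17, 6, 8, 1, 16, 7]⟩,
⟨15, 286, 17, 324, true, false, -74, [17, 2, 6, 8, 16, 1, 7]⟩,
⟨17, 324, 1, 19, true, false, -74, [2, 6, 8, 16, 1, 7, 17]⟩,
⟨1, 19, 17, 322, true, false, -74, [17, 7, 1, 16, 8, 6, 2]⟩,
⟨17, 322, 15, 284, true, false, -74, [7, 1, 16, 8, 6, 2, 17]⟩,
⟨15, 284, 11, 208, true, false, -74, [7, 16, 1, 8, 6, 17, 2]⟩,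
⟨11, 208, 9, 170, true, false, -74, [7, 16, 1, 8, 17, 6, 2]⟩,
⟨9, 170, 8, 151, true, false, -72, [16, 7, 1, 17, 8, 6, 2]⟩,
⟨8, 151, 7, 132, true, false, -72, [7, 17, 1, 8, 6, 2, 16]⟩,
⟨7, 132, 17, 320, true, false, -72, [17, 8, 1, 6, 16, 2, 7]⟩,
⟨17, 320, 5, 94, true, false, -72, [8, 1, 6, 16, 2, 7, 17]⟩,
⟨5, 94, 4, 75, true, false, -74, [8, 16, 6, 1, 17, 7, 2]⟩,
⟨4, 75, 11, 206, true, false, -74, [6, 17, 1, 7, 2, 16, 8]⟩,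
⟨11, 206, 7, 131, true, false, -74, [17, 6, 1, 7, 2, 16, 8]⟩,
⟨7, 131, 17, 318, true, false, -74, [17, 6, 1, 7, 16, 2, 8]⟩,
⟨17, 318, 3, 56, true, false, -74, [6, 1, 7, 16, 2, 8, 17]⟩,
⟨3, 56, 8, 149, true, false, -72, [16, 7, 1, 17, 8, 2, 6]⟩,
⟨8, 149, 5, 93, true, false, -72, [7, 17, 1, 8, 2, 6, 16]⟩,
⟨5, 93, 17, 316, true, false, -72, [17, 7, 1, 8, 2, 16, 6]⟩,
⟨17, 316, 7, 130, true, false, -72, [7, 1, 8, 2, 16, 6, 17]⟩,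
⟨7, 130, 11, 204, true, false, -72, [8, 1, 16, 2, 6, 17, 7]⟩,
⟨11, 204, 15, 278, true, false, -72, [8, 1, 16, 2, 17, 6, 7]⟩,
⟨15, 278, 2, 37, true, false, -72, [8, 16, 1, 17, 2, 6, 7]⟩,
⟨2, 37, 17, 314, true, false, -72, [17, 1, 6, 2, 7, 16, 8]⟩,
⟨17, 314, 9, 166, true, false, -72, [1, 6, 2, 7, 16, 8, 17]⟩,
⟨9, 166, 7, 129, true, false, -70, [1, 6, 2, 16, 7, 17, 8]⟩,
⟨7, 129, 5, 92, true, false, -70, [1, 6, 16, 2, 7, 17, 8]⟩,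
⟨5, 92, 8, 147, true, false, -72, [16, 6, 1, 17, 7, 2, 8]⟩,
⟨8, 147, 11, 202, true, false, -72, [6, 17, 1, 7, 2, 8, 16]⟩,
⟨11, 202, 17, 312, true, false, -72, [17, 6, 1, 7, 2, 8, 16]⟩,
⟨17, 312, 3, 55, true, false, -72, [6, 1, 7, 2, 8, 16, 17]⟩,
⟨3, 55, 7, 128, true, false, -72, [7, 1, 8, 2, 16, 17, 6]⟩,
⟨7, 128, 15, 274, true, false, -72, [8, 1, 16, 2, 17, 6, 7]⟩,
⟨15, 274, 4, 73, true, false, -72, [8, 16, 1, 17, 2, 6, 7]⟩,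
⟨4, 73, 17, 310, true, false, -72, [17, 1, 2, 6, 7, 16, 8]⟩,
⟨17, 310, 9, 164, true, false, -72, [1, 2, 6, 7, 16, 8, 17]⟩,
⟨9, 164, 5, 91, true, false, -70, [1, 2, 6, 16, 7, 17, 8]⟩,
⟨5, 91, 11, 200, true, false, -70, [1, 2, 16, 6, 17, 7, 8]⟩,
⟨11, 200, 7, 127, true, false, -70, [1, 2, 16, 17, 6, 7, 8]⟩,
⟨7, 127, 15, 272, true, false, -70, [1, 16, 2, 17, 6, 7, 8]⟩,
⟨15, 272, 8, 145, true, false, -70, [16, 1, 17, 2, 6, 7, 8]⟩,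
⟨8, 145, 17, 308, true, false, -70, [17, 1, 2, 6, 7, 8, 16]⟩,
⟨17, 308, 1, 18, true, false, -70, [1, 2, 6, 7, 8, 16, 17]⟩,
⟨1, 18, 17, 304, true, false, -70, [17, 16, 8, 7, 6, 2, 1]⟩,
⟨17, 304, 8, 143, true, false, -70, [16, 8, 7, 6, 2, 1, 17]⟩,
⟨8, 143, 15, 268, true, false, -70, [8, 7, 6, 2, 17, 1, 16]⟩,
⟨15, 268, 7, 125, true, false, -70, [8, 7, 6, 17, 2, 16, 1]⟩,
⟨7, 125, 11, 196, true, false, -70, [8, 7, 6, 17, 16, 2, 1]⟩,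
⟨11, 196, 5, 89, true, false, -70, [8, 7, 17, 6, 16, 2, 1]⟩,
⟨5, 89, 9, 160, true, false, -70, [8, 17, 7, 16, 6, 2, 1]⟩,
⟨9, 160, 17, 302, true, false, -68, [17, 8, 16, 7, 6, 2, 1]⟩,
⟨17, 302, 4, 71, true, false, -68, [8, 16, 7, 6, 2, 1, 17]⟩,
⟨4, 71, 15, 266, true, false, -68, [7, 6, 2, 17, 1, 16, 8]⟩,
⟨15, 266, 7, 124, true, false, -68, [7, 6, 17, 2, 16, 1, 8]⟩,
⟨7, 124, 3, 53, true, false, -68, [6, 17, 16, 2, 8, 1, 7]⟩,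
⟨3, 53, 17, 300, true, false, -68, [17, 16, 8, 2, 7, 1, 6]⟩,
⟨17, 300, 11, 194, true, false, -68, [16, 8, 2, 7, 1, 6, 17]⟩,
⟨11, 194, 8, 141, true, false, -68, [16, 8, 2, 7, 1, 17, 6]⟩,
⟨8, 141, 5, 88, true, false, -68, [8, 2, 7, 17, 1, 6, 16]⟩,
⟨5, 88, 7, 123, true, false, -70, [8, 17, 7, 2, 16, 6, 1]⟩,
⟨7, 123, 9, 158, true, false, -70, [8, 17, 7, 16, 2, 6, 1]⟩,
⟨9, 158, 17, 298, true, false, -68, [17, 8, 16, 7, 2, 6, 1]⟩,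
⟨17, 298, 2, 35, true, false, -68, [8, 16, 7, 2, 6, 1, 17]⟩,
⟨2, 35, 15, 262, true, false, -68, [7, 6, 2, 17, 1, 16, 8]⟩,
⟨15, 262, 11, 192, true, false, -68, [7, 6, 17, 2, 16, 1, 8]⟩,
⟨11, 192, 7, 122, true, false, -68, [7, 17, 6, 2, 16, 1, 8]⟩,
⟨7, 122, 17, 296, true, false, -68, [17, 6, 16, 2, 8, 1, 7]⟩,
⟨17, 296, 5, 87, true, false, -68, [6, 16, 2, 8, 1, 7, 17]⟩,
⟨5, 87, 8, 139, true, false, -68, [16, 6, 2, 8, 1, 17, 7]⟩,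
⟨8, 139, 3, 52, true, false, -68, [6, 2, 8, 17, 1, 7, 16]⟩,
⟨3, 52, 17, 294, true, false, -66, [17, 8, 2, 16, 7, 1, 6]⟩,
⟨17, 294, 7, 121, true, false, -66, [8, 2, 16, 7, 1, 6, 17]⟩,
⟨7, 121, 11, 190, true, false, -66, [8, 16, 2, 7, 1, 6, 17]⟩,
⟨11, 190, 4, 69, true, false, -66, [8, 16, 2, 7, 1, 17, 6]⟩,
⟨4, 69, 5, 86, true, false, -66, [2, 7, 17, 1, 6, 16, 8]⟩,
⟨5, 86, 17, 292, true, false, -68, [17, 7, 2, 16, 6, 1, 8]⟩,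
⟨17, 292, 7, 120, true, false, -68, [7, 2, 16, 6, 1, 8, 17]⟩,
⟨7, 120, 8, 137, true, false, -68, [16, 2, 6, 8, 1, 17, 7]⟩,
⟨8, 137, 9, 154, true, false, -68, [2, 6, 8, 17, 1, 7, 16]⟩,
⟨9, 154, 11, 188, true, false, -66, [2, 6, 17, 8, 1, 16, 7]⟩,
⟨11, 188, 15, 256, true, false, -66, [2, 17, 6, 8, 1, 16, 7]⟩,
⟨15, 256, 17, 290, true, false, -66, [17, 2, 6, 8, 16, 1, 7]⟩,
⟨17, 290, 1, 17, true, false, -66, [2, 6, 8, 16, 1, 7, 17]⟩,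
⟨1, 17, 17, 288, true, false, -66, [17, 7, 1, 16, 8, 6, 2]⟩,
⟨17, 288, 15, 254, true, false, -66, [7, 1, 16, 8, 6, 2, 17]⟩,
⟨15, 254, 11, 186, true, false, -66, [7, 16, 1, 8, 6, 17, 2]⟩,
⟨11, 186, 9, 152, true, false, -66, [7, 16, 1, 8, 17, 6, 2]⟩,
⟨9, 152, 8, 135, true, false, -64, [16, 7, 1, 17, 8, 6, 2]⟩,
⟨8, 135, 7, 118, true, false, -64, [7, 17, 1, 8, 6, 2, 16]⟩,
⟨7, 118, 17, 286, true, false, -64, [17, 8, 1, 6, 16, 2, 7]⟩,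
⟨17, 286, 5, 84, true, false, -64, [8, 1, 6, 16, 2, 7, 17]⟩,
⟨5, 84, 4, 67, true, false, -66, [8, 16, 6, 1, 17, 7, 2]⟩,
⟨4, 67, 11, 184, true, false, -66, [6, 17, 1, 7, 2, 16, 8]⟩,
⟨11, 184, 7, 117, true, false, -66, [17, 6, 1, 7, 2, 16, 8]⟩,
⟨7, 117, 17, 284, true, false, -66, [17, 6, 1, 7, 16, 2, 8]⟩,
⟨17, 284, 3, 50, true, false, -66, [6, 1, 7, 16, 2, 8, 17]⟩,
⟨3, 50, 8, 133, true, false, -64, [16, 7, 1, 17, 8, 2, 6]⟩,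
⟨8, 133, 5, 83, true, false, -64, [7, 17, 1, 8, 2, 6, 16]⟩,
⟨5, 83, 17, 282, true, false, -64, [17, 7, 1, 8, 2, 16, 6]⟩,
⟨17, 282, 7, 116, true, false, -64, [7, 1, 8, 2, 16, 6, 17]⟩,
⟨7, 116, 11, 182, true, false, -64, [8, 1, 16, 2, 6, 17, 7]⟩,
⟨11, 182, 15, 248, true, false, -64, [8, 1, 16, 2, 17, 6, 7]⟩,
⟨15, 248, 2, 33, true, false, -64, [8, 16, 1, 17, 2, 6, 7]⟩,
⟨2, 33, 17, 280, true, false, -64, [17, 1, 6, 2, 7, 16, 8]⟩,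
⟨17, 280, 9, 148, true, false, -64, [1, 6, 2, 7, 16, 8, 17]⟩,
⟨9, 148, 7, 115, true, false, -62, [1, 6, 2, 16, 7, 17, 8]⟩,
⟨7, 115, 5, 82, true, false, -62, [1, 6, 16, 2, 7, 17, 8]⟩,
⟨5, 82, 8, 131, true, false, -64, [16, 6, 1, 17, 7, 2, 8]⟩,
⟨8, 131, 11, 180, true, false, -64, [6, 17, 1, 7, 2, 8, 16]⟩,
⟨11, 180, 17, 278, true, false, -64, [17, 6, 1, 7, 2, 8, 16]⟩,
⟨17, 278, 3, 49, true, false, -64, [6, 1, 7, 2, 8, 16, 17]⟩,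
⟨3, 49, 7, 114, true, false, -64, [7, 1, 8, 2, 16, 17, 6]⟩,
⟨7, 114, 15, 244, true, false, -64, [8, 1, 16, 2, 17, 6, 7]⟩,
⟨15, 244, 4, 65, true, false, -64, [8, 16, 1, 17, 2, 6, 7]⟩,
⟨4, 65, 17, 276, true, false, -64, [17, 1, 2, 6, 7, 16, 8]⟩,
⟨17, 276, 9, 146, true, false, -64, [1, 2, 6, 7, 16, 8, 17]⟩,
⟨9, 146, 5, 81, true, false, -62, [1, 2, 6, 16, 7, 17, 8]⟩,
⟨5, 81, 11, 178, true, false, -62, [1, 2, 16, 6, 17, 7, 8]⟩,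
⟨11, 178, 7, 113, true, false, -62, [1, 2, 16, 17, 6, 7, 8]⟩,
⟨7, 113, 15, 242, true, false, -62, [1, 16, 2, 17, 6, 7, 8]⟩,
⟨15, 242, 8, 129, true, false, -62, [16, 1, 17, 2, 6, 7, 8]⟩,
⟨8, 129, 17, 274, true, false, -62, [17, 1, 2, 6, 7, 8, 16]⟩,
⟨17, 274, 1, 16, true, false, -62, [1, 2, 6, 7, 8, 16, 17]⟩,
⟨1, 16, 17, 270, true, false, -62, [17, 16, 8, 7, 6, 2, 1]⟩,
⟨17, 270, 8, 127, true, false, -62, [16, 8, 7, 6, 2, 1, 17]⟩,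
⟨8, 127, 15, 238, true, false, -62, [8, 7, 6, 2, 17, 1, 16]⟩,
⟨15, 238, 7, 111, true, false, -62, [8, 7, 6, 17, 2, 16, 1]⟩,
⟨7, 111, 11, 174, true, false, -62, [8, 7, 6, 17, 16, 2, 1]⟩,
⟨11, 174, 5, 79, true, false, -62, [8, 7, 17, 6, 16, 2, 1]⟩,
⟨5, 79, 9, 142, true, false, -62, [8, 17, 7, 16, 6, 2, 1]⟩,
⟨9, 142, 17, 268, true, false, -60, [17, 8, 16, 7, 6, 2, 1]⟩,
⟨17, 268, 4, 63, true, false, -60, [8, 16, 7, 6, 2, 1, 17]⟩,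
⟨4, 63, 15, 236, true, false, -60, [7, 6, 2, 17, 1, 16, 8]⟩,
⟨15, 236, 7, 110, true, false, -60, [7, 6, 17, 2, 16, 1, 8]⟩,
⟨7, 110, 3, 47, true, false, -60, [6, 17, 16, 2, 8, 1, 7]⟩,
⟨3, 47, 17, 266, true, false, -60, [17, 16, 8, 2, 7, 1, 6]⟩,
⟨17, 266, 11, 172, true, false, -60, [16, 8, 2, 7, 1, 6, 17]⟩,
⟨11, 172, 8, 125, true, false, -60, [16, 8, 2, 7, 1, 17, 6]⟩,
⟨8, 125, 5, 78, true, false, -60, [8, 2, 7, 17, 1, 6, 16]⟩,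
⟨5, 78, 7, 109, true, false, -62, [8, 17, 7, 2, 16, 6, 1]⟩,
⟨7, 109, 9, 140, true, false, -62, [8, 17, 7, 16, 2, 6, 1]⟩,
⟨9, 140, 17, 264, true, false, -60, [17, 8, 16, 7, 2, 6, 1]⟩,
⟨17, 264, 2, 31, true, false, -60, [8, 16, 7, 2, 6, 1, 17]⟩,
⟨2, 31, 15, 232, true, false, -60, [7, 6, 2, 17, 1, 16, 8]⟩,
⟨15, 232, 11, 170, true, false, -60, [7, 6, 17, 2, 16, 1, 8]⟩,
⟨11, 170, 7, 108, true, false, -60, [7, 17, 6, 2, 16, 1, 8]⟩,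
⟨7, 108, 17, 262, true, false, -60, [17, 6, 16, 2, 8, 1, 7]⟩,
⟨17, 262, 5, 77, true, false, -60, [6, 16, 2, 8, 1, 7, 17]⟩,
⟨5, 77, 8, 123, true, false, -60, [16, 6, 2, 8, 1, 17, 7]⟩,
⟨8, 123, 3, 46, true, false, -60, [6, 2, 8, 17, 1, 7, 16]⟩,
⟨3, 46, 17, 260, true, false, -58, [17, 8, 2, 16, 7, 1, 6]⟩,
⟨17, 260, 7, 107, true, false, -58, [8, 2, 16, 7, 1, 6, 17]⟩,
⟨7, 107, 11, 168, true, false, -58, [8, 16, 2, 7, 1, 6, 17]⟩,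
⟨11, 168, 4, 61, true, false, -58, [8, 16, 2, 7, 1, 17, 6]⟩,
⟨4, 61, 5, 76, true, false, -58, [2, 7, 17, 1, 6, 16, 8]⟩,
⟨5, 76, 17, 258, true, false, -60, [17, 7, 2, 16, 6, 1, 8]⟩,
⟨17, 258, 7, 106, true, false, -60, [7, 2, 16, 6, 1, 8, 17]⟩,
⟨7, 106, 8, 121, true, false, -60, [16, 2, 6, 8, 1, 17, 7]⟩,
⟨8, 121, 9, 136, true, false, -60, [2, 6, 8, 17, 1, 7, 16]⟩,
⟨9, 136, 11, 166, true, false, -58, [2, 6, 17, 8, 1, 16, 7]⟩,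
⟨11, 166, 15, 226, true, false, -58, [2, 17, 6, 8, 1, 16, 7]⟩,
⟨15, 226, 17, 256, true, false, -58, [17, 2, 6, 8, 16, 1, 7]⟩,
⟨17, 256, 1, 15, true, false, -58, [2, 6, 8, 16, 1, 7, 17]⟩]

def cellsP13 : List Cell := [
⟨1, 15, 17, 254, true, false, -58, [17, 7, 1, 16, 8, 6, 2]⟩,
⟨17, 254, 15, 224, true, false, -58, [7, 1, 16, 8, 6, 2, 17]⟩,
⟨15, 224, 11, 164, true, false, -58, [7, 16, 1, 8, 6, 17, 2]⟩,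
⟨11, 164, 9, 134, true, false, -58, [7, 16, 1, 8, 17, 6, 2]⟩,
⟨9, 134, 8, 119, true, false, -56, [16, 7, 1, 17, 8, 6, 2]⟩,
⟨8, 119, 7, 104, true, false, -56, [7, 17, 1, 8, 6, 2, 16]⟩,
⟨7, 104, 17, 252, true, false, -56, [17, 8, 1, 6, 16, 2, 7]⟩,
⟨17, 252, 5, 74, true, false, -56, [8, 1, 6, 16, 2, 7, 17]⟩,
⟨5, 74, 4, 59, true, false, -58, [8, 16, 6, 1, 17, 7, 2]⟩,
⟨4, 59, 11, 162, true, false, -58, [6, 17, 1, 7, 2, 16, 8]⟩,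
⟨11, 162, 7, 103, true, false, -58, [17, 6, 1, 7, 2, 16, 8]⟩,
⟨7, 103, 17, 250, true, false, -58, [17, 6, 1, 7, 16, 2, 8]⟩,
⟨17, 250, 3, 44, true, false, -58, [6, 1, 7, 16, 2, 8, 17]⟩,
⟨3, 44, 8, 117, true, false, -56, [16, 7, 1, 17, 8, 2, 6]⟩,
⟨8, 117, 5, 73, true, false, -56, [7, 17, 1, 8, 2, 6, 16]⟩,
⟨5, 73, 17, 248, true, false, -56, [17, 7, 1, 8, 2, 16, 6]⟩,
⟨17, 248, 7, 102, true, false, -56, [7, 1, 8, 2, 16, 6, 17]⟩,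
⟨7, 102, 11, 160, true, false, -56, [8, 1, 16, 2, 6, 17, 7]⟩,
⟨11, 160, 15, 218, true, false, -56, [8, 1, 16, 2, 17, 6, 7]⟩,
⟨15, 218, 2, 29, true, false, -56, [8, 16, 1, 17, 2, 6, 7]⟩,
⟨2, 29, 17, 246, true, false, -56, [17, 1, 6, 2, 7, 16, 8]⟩,
⟨17, 246, 9, 130, true, false, -56, [1, 6, 2, 7, 16, 8, 17]⟩,
⟨9, 130, 7, 101, true, false, -54, [1, 6, 2, 16, 7, 17, 8]⟩,
⟨7, 101, 5, 72, true, false, -54, [1, 6, 16, 2, 7, 17, 8]⟩,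
⟨5, 72, 8, 115, true, false, -56, [16, 6, 1, 17, 7, 2, 8]⟩,
⟨8, 115, 11, 158, true, false, -56, [6, 17, 1, 7, 2, 8, 16]⟩,
⟨11, 158, 17, 244, true, false, -56, [17, 6, 1, 7, 2, 8, 16]⟩,
⟨17, 244, 3, 43, true, false, -56, [6, 1, 7, 2, 8, 16, 17]⟩,
⟨3, 43, 7, 100, true, false, -56, [7, 1, 8, 2, 16, 17, 6]⟩,
⟨7, 100, 15, 214, true, false, -56, [8, 1, 16, 2, 17, 6, 7]⟩,
⟨15, 214, 4, 57, true, false, -56, [8, 16, 1, 17, 2, 6, 7]⟩,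
⟨4, 57, 17, 242, true, false, -56, [17, 1, 2, 6, 7, 16, 8]⟩,
⟨17, 242, 9, 128, true, false, -56, [1, 2, 6, 7, 16, 8, 17]⟩,
⟨9, 128, 5, 71, true, false, -54, [1, 2, 6, 16, 7, 17, 8]⟩,
⟨5, 71, 11, 156, true, false, -54, [1, 2, 16, 6, 17, 7, 8]⟩,
⟨11, 156, 7, 99, true, false, -54, [1, 2, 16, 17, 6, 7, 8]⟩,
⟨7, 99, 15, 212, true, false, -54, [1, 16, 2, 17, 6, 7, 8]⟩,
⟨15, 212, 8, 113, true, false, -54, [16, 1, 17, 2, 6, 7, 8]⟩,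
⟨8, 113, 17, 240, true, false, -54, [17, 1, 2, 6, 7, 8, 16]⟩,
⟨17, 240, 1, 14, true, false, -54, [1, 2, 6, 7, 8, 16, 17]⟩,
⟨1, 14, 17, 236, true, false, -54, [17, 16, 8, 7, 6, 2, 1]⟩,
⟨17, 236, 8, 111, true, false, -54, [16, 8, 7, 6, 2, 1, 17]⟩,
⟨8, 111, 15, 208, true, false, -54, [8, 7, 6, 2, 17, 1, 16]⟩,
⟨15, 208, 7, 97, true, false, -54, [8, 7, 6, 17, 2, 16, 1]⟩,
⟨7, 97, 11, 152, true, false, -54, [8, 7, 6, 17, 16, 2, 1]⟩,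
⟨11, 152, 5, 69, true, false, -54, [8, 7, 17, 6, 16, 2, 1]⟩,
⟨5, 69, 9, 124, true, false, -54, [8, 17, 7, 16, 6, 2, 1]⟩,
⟨9, 124, 17, 234, true, false, -52, [17, 8, 16, 7, 6, 2, 1]⟩,
⟨17, 234, 4, 55, true, false, -52, [8, 16, 7, 6, 2, 1, 17]⟩,
⟨4, 55, 15, 206, true, false, -52, [7, 6, 2, 17, 1, 16, 8]⟩,
⟨15, 206, 7, 96, true, false, -52, [7, 6, 17, 2, 16, 1, 8]⟩,
⟨7, 96, 3, 41, true, false, -52, [6, 17, 16, 2, 8, 1, 7]⟩,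
⟨3, 41, 17, 232, true, false, -52, [17, 16, 8, 2, 7, 1, 6]⟩,
⟨17, 232, 11, 150, true, false, -52, [16, 8, 2, 7, 1, 6, 17]⟩,
⟨11, 150, 8, 109, true, false, -52, [16, 8, 2, 7, 1, 17, 6]⟩,
⟨8, 109, 5, 68, true, false, -52, [8, 2, 7, 17, 1, 6, 16]⟩,
⟨5, 68, 7, 95, true, false, -54, [8, 17, 7, 2, 16, 6, 1]⟩,
⟨7, 95, 9, 122, true, false, -54, [8, 17, 7, 16, 2, 6, 1]⟩,
⟨9, 122, 17, 230, true, false, -52, [17, 8, 16, 7, 2, 6, 1]⟩,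
⟨17, 230, 2, 27, true, false, -52, [8, 16, 7, 2, 6, 1, 17]⟩,
⟨2, 27, 15, 202, true, false, -52, [7, 6, 2, 17, 1, 16, 8]⟩,
⟨15, 202, 11, 148, true, false, -52, [7, 6, 17, 2, 16, 1, 8]⟩,
⟨11, 148, 7, 94, true, false, -52, [7, 17, 6, 2, 16, 1, 8]⟩,
⟨7, 94, 17, 228, true, false, -52, [17, 6, 16, 2, 8, 1, 7]⟩,
⟨17, 228, 5, 67, true, false, -52, [6, 16, 2, 8, 1, 7, 17]⟩,
⟨5, 67, 8, 107, true, false, -52, [16, 6, 2, 8, 1, 17, 7]⟩,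
⟨8, 107, 3, 40, true, false, -52, [6, 2, 8, 17, 1, 7, 16]⟩,
⟨3, 40, 17, 226, true, false, -50, [17, 8, 2, 16, 7, 1, 6]⟩,
⟨17, 226, 7, 93, true, false, -50, [8, 2, 16, 7, 1, 6, 17]⟩,
⟨7, 93, 11, 146, true, false, -50, [8, 16, 2, 7, 1, 6, 17]⟩,
⟨11, 146, 4, 53, true, false, -50, [8, 16, 2, 7, 1, 17, 6]⟩,
⟨4, 53, 5, 66, true, false, -50, [2, 7, 17, 1, 6, 16, 8]⟩,
⟨5, 66, 17, 224, true, false, -52, [17, 7, 2, 16, 6, 1, 8]⟩,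
⟨17, 224, 7, 92, true, false, -52, [7, 2, 16, 6, 1, 8, 17]⟩,
⟨7, 92, 8, 105, true, false, -52, [16, 2, 6, 8, 1, 17, 7]⟩,
⟨8, 105, 9, 118, true, false, -52, [2, 6, 8, 17, 1, 7, 16]⟩,
⟨9, 118, 11, 144, true, false, -50, [2, 6, 17, 8, 1, 16, 7]⟩,
⟨11, 144, 15, 196, true, false, -50, [2, 17, 6, 8, 1, 16, 7]⟩,
⟨15, 196, 17, 222, true, false, -50, [17, 2, 6, 8, 16, 1, 7]⟩,
⟨17, 222, 1, 13, true, false, -50, [2, 6, 8, 16, 1, 7, 17]⟩,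
⟨1, 13, 17, 220, true, false, -50, [17, 7, 1, 16, 8, 6, 2]⟩,
⟨17, 220, 15, 194, true, false, -50, [7, 1, 16, 8, 6, 2, 17]⟩,
⟨15, 194, 11, 142, true, false, -50, [7, 16, 1, 8, 6, 17, 2]⟩,
⟨11, 142, 9, 116, true, false, -50, [7, 16, 1, 8, 17, 6, 2]⟩,
⟨9, 116, 8, 103, true, false, -48, [16, 7, 1, 17, 8, 6, 2]⟩,
⟨8, 103, 7, 90, true, false, -48, [7, 17, 1, 8, 6, 2, 16]⟩,
⟨7, 90, 17, 218, true, false, -48, [17, 8, 1, 6, 16, 2, 7]⟩,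
⟨17, 218, 5, 64, true, false, -48, [8, 1, 6, 16, 2, 7, 17]⟩,
⟨5, 64, 4, 51, true, false, -50, [8, 16, 6, 1, 17, 7, 2]⟩,
⟨4, 51, 11, 140, true, false, -50, [6, 17, 1, 7, 2, 16, 8]⟩,
⟨11, 140, 7, 89, true, false, -50, [17, 6, 1, 7, 2, 16, 8]⟩,
⟨7, 89, 17, 216, true, false, -50, [17, 6, 1, 7, 16, 2, 8]⟩,
⟨17, 216, 3, 38, true, false, -50, [6, 1, 7, 16, 2, 8, 17]⟩,
⟨3, 38, 8, 101, true, false, -48, [16, 7, 1, 17, 8, 2, 6]⟩,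
⟨8, 101, 5, 63, true, false, -48, [7, 17, 1, 8, 2, 6, 16]⟩,
⟨5, 63, 17, 214, true, false, -48, [17, 7, 1, 8, 2, 16, 6]⟩,
⟨17, 214, 7, 88, true, false, -48, [7, 1, 8, 2, 16, 6, 17]⟩,
⟨7, 88, 11, 138, true, false, -48, [8, 1, 16, 2, 6, 17, 7]⟩,
⟨11, 138, 15, 188, true, false, -48, [8, 1, 16, 2, 17, 6, 7]⟩,
⟨15, 188, 2, 25, true, false, -48, [8, 16, 1, 17, 2, 6, 7]⟩,
⟨2, 25, 17, 212, true, false, -48, [17, 1, 6, 2, 7, 16, 8]⟩,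
⟨17, 212, 9, 112, true, false, -48, [1, 6, 2, 7, 16, 8, 17]⟩,
⟨9, 112, 7, 87, true, false, -46, [1, 6, 2, 16, 7, 17, 8]⟩,
⟨7, 87, 5, 62, true, false, -46, [1, 6, 16, 2, 7, 17, 8]⟩,
⟨5, 62, 8, 99, true, false, -48, [16, 6, 1, 17, 7, 2, 8]⟩,
⟨8, 99, 11, 136, true, false, -48, [6, 17, 1, 7, 2, 8, 16]⟩,
⟨11, 136, 17, 210, true, false, -48, [17, 6, 1, 7, 2, 8, 16]⟩,
⟨17, 210, 3, 37, true, false, -48, [6, 1, 7, 2, 8, 16, 17]⟩,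
⟨3, 37, 7, 86, true, false, -48, [7, 1, 8, 2, 16, 17, 6]⟩,
⟨7, 86, 15, 184, true, false, -48, [8, 1, 16, 2, 17, 6, 7]⟩,
⟨15, 184, 4, 49, true, false, -48, [8, 16, 1, 17, 2, 6, 7]⟩,
⟨4, 49, 17, 208, true, false, -48, [17, 1, 2, 6, 7, 16, 8]⟩,
⟨17, 208, 9, 110, true, false, -48, [1, 2, 6, 7, 16, 8, 17]⟩,
⟨9, 110, 5, 61, true, false, -46, [1, 2, 6, 16, 7, 17, 8]⟩,
⟨5, 61, 11, 134, true, false, -46, [1, 2, 16, 6, 17, 7, 8]⟩,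
⟨11, 134, 7, 85, true, false, -46, [1, 2, 16, 17, 6, 7, 8]⟩,
⟨7, 85, 15, 182, true, false, -46, [1, 16, 2, 17, 6, 7, 8]⟩,
⟨15, 182, 8, 97, true, false, -46, [16, 1, 17, 2, 6, 7, 8]⟩,
⟨8, 97, 17, 206, true, false, -46, [17, 1, 2, 6, 7, 8, 16]⟩,
⟨17, 206, 1, 12, true, false, -46, [1, 2, 6, 7, 8, 16, 17]⟩,
⟨1, 12, 17, 202, true, false, -46, [17, 16, 8, 7, 6, 2, 1]⟩,
⟨17, 202, 8, 95, true, false, -46, [16, 8, 7, 6, 2, 1, 17]⟩,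
⟨8, 95, 15, 178, true, false, -46, [8, 7, 6, 2, 17, 1, 16]⟩,
⟨15, 178, 7, 83, true, false, -46, [8, 7, 6, 17, 2, 16, 1]⟩,
⟨7, 83, 11, 130, true, false, -46, [8, 7, 6, 17, 16, 2, 1]⟩,
⟨11, 130, 5, 59, true, false, -46, [8, 7, 17, 6, 16, 2, 1]⟩,
⟨5, 59, 9, 106, true, false, -46, [8, 17, 7, 16, 6, 2, 1]⟩,
⟨9, 106, 17, 200, true, false, -44, [17, 8, 16, 7, 6, 2, 1]⟩,
⟨17, 200, 4, 47, true, false, -44, [8, 16, 7, 6, 2, 1, 17]⟩,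
⟨4, 47, 15, 176, true, false, -44, [7, 6, 2, 17, 1, 16, 8]⟩,
⟨15, 176, 7, 82, true, false, -44, [7, 6, 17, 2, 16, 1, 8]⟩,
⟨7, 82, 3, 35, true, false, -44, [6, 17, 16, 2, 8, 1, 7]⟩,
⟨3, 35, 17, 198, true, false, -44, [17, 16, 8, 2, 7, 1, 6]⟩,
⟨17, 198, 11, 128, true, false, -44, [16, 8, 2, 7, 1, 6, 17]⟩,
⟨11, 128, 8, 93, true, false, -44, [16, 8, 2, 7, 1, 17, 6]⟩,
⟨8, 93, 5, 58, true, false, -44, [8, 2, 7, 17, 1, 6, 16]⟩,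
⟨5, 58, 7, 81, true, false, -46, [8, 17, 7, 2, 16, 6, 1]⟩,
⟨7, 81, 9, 104, true, false, -46, [8, 17, 7, 16, 2, 6, 1]⟩,
⟨9, 104, 17, 196, true, false, -44, [17, 8, 16, 7, 2, 6, 1]⟩,
⟨17, 196, 2, 23, true, false, -44, [8, 16, 7, 2, 6, 1, 17]⟩,
⟨2, 23, 15, 172, true, false, -44, [7, 6, 2, 17, 1, 16, 8]⟩,
⟨15, 172, 11, 126, true, false, -44, [7, 6, 17, 2, 16, 1, 8]⟩,
⟨11, 126, 7, 80, true, false, -44, [7, 17, 6, 2, 16, 1, 8]⟩,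
⟨7, 80, 17, 194, true, false, -44, [17, 6, 16, 2, 8, 1, 7]⟩,
⟨17, 194, 5, 57, true, false, -44, [6, 16, 2, 8, 1, 7, 17]⟩,
⟨5, 57, 8, 91, true, false, -44, [16, 6, 2, 8, 1, 17, 7]⟩,
⟨8, 91, 3, 34, true, false, -44, [6, 2, 8, 17, 1, 7, 16]⟩,
⟨3, 34, 17, 192, true, false, -42, [17, 8, 2, 16, 7, 1, 6]⟩,
⟨17, 192, 7, 79, true, false, -42, [8, 2, 16, 7, 1, 6, 17]⟩,
⟨7, 79, 11, 124, true, false, -42, [8, 16, 2, 7, 1, 6, 17]⟩,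
⟨11, 124, 4, 45, true, false, -42, [8, 16, 2, 7, 1, 17, 6]⟩,
⟨4, 45, 5, 56, true, false, -42, [2, 7, 17, 1, 6, 16, 8]⟩,
⟨5, 56, 17, 190, true, false, -44, [17, 7, 2, 16, 6, 1, 8]⟩,
⟨17, 190, 7, 78, true, false, -44, [7, 2, 16, 6, 1, 8, 17]⟩,
⟨7, 78, 8, 89, true, false, -44, [16, 2, 6, 8, 1, 17, 7]⟩,
⟨8, 89, 9, 100, true, false, -44, [2, 6, 8, 17, 1, 7, 16]⟩,
⟨9, 100, 11, 122, true, false, -42, [2, 6, 17, 8, 1, 16, 7]⟩,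
⟨11, 122, 15, 166, true, false, -42, [2, 17, 6, 8, 1, 16, 7]⟩,
⟨15, 166, 17, 188, true, false, -42, [17, 2, 6, 8, 16, 1, 7]⟩,
⟨17, 188, 1, 11, true, false, -42, [2, 6, 8, 16, 1, 7, 17]⟩,
⟨1, 11, 17, 186, true, false, -42, [17, 7, 1, 16, 8, 6, 2]⟩,
⟨17, 186, 15, 164, true, false, -42, [7, 1, 16, 8, 6, 2, 17]⟩,
⟨15, 164, 11, 120, true, false, -42, [7, 16, 1, 8, 6, 17, 2]⟩,
⟨11, 120, 9, 98, true, false, -42, [7, 16, 1, 8, 17, 6, 2]⟩,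
⟨9, 98, 8, 87, true, false, -40, [16, 7, 1, 17, 8, 6, 2]⟩,
⟨8, 87, 7, 76, true, false, -40, [7, 17, 1, 8, 6, 2, 16]⟩,
⟨7, 76, 17, 184, true, false, -40, [17, 8, 1, 6, 16, 2, 7]⟩,
⟨17, 184, 5, 54, true, false, -40, [8, 1, 6, 16, 2, 7, 17]⟩,
⟨5, 54, 4, 43, true, false, -42, [8, 16, 6, 1, 17, 7, 2]⟩,
⟨4, 43, 11, 118, true, false, -42, [6, 17, 1, 7, 2, 16, 8]⟩,
⟨11, 118, 7, 75, true, false, -42, [17, 6, 1, 7, 2, 16, 8]⟩,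
⟨7, 75, 17, 182, true, false, -42, [17, 6, 1, 7, 16, 2, 8]⟩,
⟨17, 182, 3, 32, true, false, -42, [6, 1, 7, 16, 2, 8, 17]⟩,
⟨3, 32, 8, 85, true, false, -40, [16, 7, 1, 17, 8, 2, 6]⟩,
⟨8, 85, 5, 53, true, false, -40, [7, 17, 1, 8, 2, 6, 16]⟩,
⟨5, 53, 17, 180, true, false, -40, [17, 7, 1, 8, 2, 16, 6]⟩,
⟨17, 180, 7, 74, true, false, -40, [7, 1, 8, 2, 16, 6, 17]⟩,
⟨7, 74, 11, 116, true, false, -40, [8, 1, 16, 2, 6, 17, 7]⟩,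
⟨11, 116, 15, 158, true, false, -40, [8, 1, 16, 2, 17, 6, 7]⟩,
⟨15, 158, 2, 21, true, false, -40, [8, 16, 1, 17, 2, 6, 7]⟩,
⟨2, 21, 17, 178, true, false, -40, [17, 1, 6, 2, 7, 16, 8]⟩,
⟨17, 178, 9, 94, true, false, -40, [1, 6, 2, 7, 16, 8, 17]⟩,
⟨9, 94, 7, 73, true, false, -38, [1, 6, 2, 16, 7, 17, 8]⟩,
⟨7, 73, 5, 52, true, false, -38, [1, 6, 16, 2, 7, 17, 8]⟩,
⟨5, 52, 8, 83, true, false, -40, [16, 6, 1, 17, 7, 2, 8]⟩,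
⟨8, 83, 11, 114, true, false, -40, [6, 17, 1, 7, 2, 8, 16]⟩,
⟨11, 114, 17, 176, true, false, -40, [17, 6, 1, 7, 2, 8, 16]⟩,
⟨17, 176, 3, 31, true, false, -40, [6, 1, 7, 2, 8, 16, 17]⟩,
⟨3, 31, 7, 72, true, false, -40, [7, 1, 8, 2, 16, 17, 6]⟩,
⟨7, 72, 15, 154, true, false, -40, [8, 1, 16, 2, 17, 6, 7]⟩,
⟨15, 154, 4, 41, true, false, -40, [8, 16, 1, 17, 2, 6, 7]⟩,
⟨4, 41, 17, 174, true, false, -40, [17, 1, 2, 6, 7, 16, 8]⟩,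
⟨17, 174, 9, 92, true, false, -40, [1, 2, 6, 7, 16, 8, 17]⟩,
⟨9, 92, 5, 51, true, false, -38, [1, 2, 6, 16, 7, 17, 8]⟩,
⟨5, 51, 11, 112, true, false, -38, [1, 2, 16, 6, 17, 7, 8]⟩,
⟨11, 112, 7, 71, true, false, -38, [1, 2, 16, 17, 6, 7, 8]⟩,
⟨7, 71, 15, 152, true, false, -38, [1, 16, 2, 17, 6, 7, 8]⟩,
⟨15, 152, 8, 81, true, false, -38, [16, 1, 17, 2, 6, 7, 8]⟩,
⟨8, 81, 17, 172, true, false, -38, [17, 1, 2, 6, 7, 8, 16]⟩,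
⟨17, 172, 1, 10, true, false, -38, [1, 2, 6, 7, 8, 16, 17]⟩]

def cellsP14 : List Cell := [
⟨1, 10, 17, 168, true, false, -38, [17, 16, 8, 7, 6, 2, 1]⟩,
⟨17, 168, 8, 79, true, false, -38, [16, 8, 7, 6, 2, 1, 17]⟩,
⟨8, 79, 15, 148, true, false, -38, [8, 7, 6, 2, 17, 1, 16]⟩,
⟨15, 148, 7, 69, true, false, -38, [8, 7, 6, 17, 2, 16, 1]⟩,
⟨7, 69, 11, 108, true, false, -38, [8, 7, 6, 17, 16, 2, 1]⟩,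
⟨11, 108, 5, 49, true, false, -38, [8, 7, 17, 6, 16, 2, 1]⟩,
⟨5, 49, 9, 88, true, false, -38, [8, 17, 7, 16, 6, 2, 1]⟩,
⟨9, 88, 17, 166, true, false, -36, [17, 8, 16, 7, 6, 2, 1]⟩,
⟨17, 166, 4, 39, true, false, -36, [8, 16, 7, 6, 2, 1, 17]⟩,
⟨4, 39, 15, 146, true, false, -36, [7, 6, 2, 17, 1, 16, 8]⟩,
⟨15, 146, 7, 68, true, false, -36, [7, 6, 17, 2, 16, 1, 8]⟩,
⟨7, 68, 3, 29, true, false, -36, [6, 17, 16, 2, 8, 1, 7]⟩,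
⟨3, 29, 17, 164, true, false, -36, [17, 16, 8, 2, 7, 1, 6]⟩,
⟨17, 164, 11, 106, true, false, -36, [16, 8, 2, 7, 1, 6, 17]⟩,
⟨11, 106, 8, 77, true, false, -36, [16, 8, 2, 7, 1, 17, 6]⟩,
⟨8, 77, 5, 48, true, false, -36, [8, 2, 7, 17, 1, 6, 16]⟩,
⟨5, 48, 7, 67, true, false, -38, [8, 17, 7, 2, 16, 6, 1]⟩,
⟨7, 67, 9, 86, true, false, -38, [8, 17, 7, 16, 2, 6, 1]⟩,
⟨9, 86, 17, 162, true, false, -36, [17, 8, 16, 7, 2, 6, 1]⟩,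
⟨17, 162, 2, 19, true, false, -36, [8, 16, 7, 2, 6, 1, 17]⟩,
⟨2, 19, 15, 142, true, false, -36, [7, 6, 2, 17, 1, 16, 8]⟩,
⟨15, 142, 11, 104, true, false, -36, [7, 6, 17, 2, 16, 1, 8]⟩,
⟨11, 104, 7, 66, true, false, -36, [7, 17, 6, 2, 16, 1, 8]⟩,
⟨7, 66, 17, 160, true, false, -36, [17, 6, 16, 2, 8, 1, 7]⟩,
⟨17, 160, 5, 47, true, false, -36, [6, 16, 2, 8, 1, 7, 17]⟩,
⟨5, 47, 8, 75, true, false, -36, [16, 6, 2, 8, 1, 17, 7]⟩,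
⟨8, 75, 3, 28, true, false, -36, [6, 2, 8, 17, 1, 7, 16]⟩,
⟨3, 28, 17, 158, true, false, -34, [17, 8, 2, 16, 7, 1, 6]⟩,
⟨17, 158, 7, 65, true, false, -34, [8, 2, 16, 7, 1, 6, 17]⟩,
⟨7, 65, 11, 102, true, false, -34, [8, 16, 2, 7, 1, 6, 17]⟩,
⟨11, 102, 4, 37, true, false, -34, [8, 16, 2, 7, 1, 17, 6]⟩,
⟨4, 37, 5, 46, true, false, -34, [2, 7, 17, 1, 6, 16, 8]⟩,
⟨5, 46, 17, 156, true, false, -36, [17, 7, 2, 16, 6, 1, 8]⟩,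
⟨17, 156, 7, 64, true, false, -36, [7, 2, 16, 6, 1, 8, 17]⟩,
⟨7, 64, 8, 73, true, false, -36, [16, 2, 6, 8, 1, 17, 7]⟩,
⟨8, 73, 9, 82, true, false, -36, [2, 6, 8, 17, 1, 7, 16]⟩,
⟨9, 82, 11, 100, true, false, -34, [2, 6, 17, 8, 1, 16, 7]⟩,
⟨11, 100, 15, 136, true, false, -34, [2, 17, 6, 8, 1, 16, 7]⟩,
⟨15, 136, 17, 154, true, false, -34, [17, 2, 6, 8, 16, 1, 7]⟩,
⟨17, 154, 1, 9, true, false, -34, [2, 6, 8, 16, 1, 7, 17]⟩,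
⟨1, 9, 17, 152, true, false, -34, [17, 7, 1, 16, 8, 6, 2]⟩,
⟨17, 152, 15, 134, true, false, -34, [7, 1, 16, 8, 6, 2, 17]⟩,
⟨15, 134, 11, 98, true, false, -34, [7, 16, 1, 8, 6, 17, 2]⟩,
⟨11, 98, 9, 80, true, false, -34, [7, 16, 1, 8, 17, 6, 2]⟩,
⟨9, 80, 8, 71, true, false, -32, [16, 7, 1, 17, 8, 6, 2]⟩,
⟨8, 71, 7, 62, true, false, -32, [7, 17, 1, 8, 6, 2, 16]⟩,
⟨7, 62, 17, 150, true, false, -32, [17, 8, 1, 6, 16, 2, 7]⟩,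
⟨17, 150, 5, 44, true, false, -32, [8, 1, 6, 16, 2, 7, 17]⟩,
⟨5, 44, 4, 35, true, false, -34, [8, 16, 6, 1, 17, 7, 2]⟩,
⟨4, 35, 11, 96, true, false, -34, [6, 17, 1, 7, 2, 16, 8]⟩,
⟨11, 96, 7, 61, true, false, -34, [17, 6, 1, 7, 2, 16, 8]⟩,
⟨7, 61, 17, 148, true, false, -34, [17, 6, 1, 7, 16, 2, 8]⟩,
⟨17, 148, 3, 26, true, false, -34, [6, 1, 7, 16, 2, 8, 17]⟩,
⟨3, 26, 8, 69, true, false, -32, [16, 7, 1, 17, 8, 2, 6]⟩,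
⟨8, 69, 5, 43, true, false, -32, [7, 17, 1, 8, 2, 6, 16]⟩,
⟨5, 43, 17, 146, true, false, -32, [17, 7, 1, 8, 2, 16, 6]⟩,
⟨17, 146, 7, 60, true, false, -32, [7, 1, 8, 2, 16, 6, 17]⟩,
⟨7, 60, 11, 94, true, false, -32, [8, 1, 16, 2, 6, 17, 7]⟩,
⟨11, 94, 15, 128, true, false, -32, [8, 1, 16, 2, 17, 6, 7]⟩,
⟨15, 128, 2, 17, true, false, -32, [8, 16, 1, 17, 2, 6, 7]⟩,
⟨2, 17, 17, 144, true, false, -32, [17, 1, 6, 2, 7, 16, 8]⟩,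
⟨17, 144, 9, 76, true, false, -32, [1, 6, 2, 7, 16, 8, 17]⟩,
⟨9, 76, 7, 59, true, false, -30, [1, 6, 2, 16, 7, 17, 8]⟩,
⟨7, 59, 5, 42, true, false, -30, [1, 6, 16, 2, 7, 17, 8]⟩,
⟨5, 42, 8, 67, true, false, -32, [16, 6, 1, 17, 7, 2, 8]⟩,
⟨8, 67, 11, 92, true, false, -32, [6, 17, 1, 7, 2, 8, 16]⟩,
⟨11, 92, 17, 142, true, false, -32, [17, 6, 1, 7, 2, 8, 16]⟩,
⟨17, 142, 3, 25, true, false, -32, [6, 1, 7, 2, 8, 16, 17]⟩,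
⟨3, 25, 7, 58, true, false, -32, [7, 1, 8, 2, 16, 17, 6]⟩,
⟨7, 58, 15, 124, true, false, -32, [8, 1, 16, 2, 17, 6, 7]⟩,
⟨15, 124, 4, 33, true, false, -32, [8, 16, 1, 17, 2, 6, 7]⟩,
⟨4, 33, 17, 140, true, false, -32, [17, 1, 2, 6, 7, 16, 8]⟩,
⟨17, 140, 9, 74, true, false, -32, [1, 2, 6, 7, 16, 8, 17]⟩,
⟨9, 74, 5, 41, true, false, -30, [1, 2, 6, 16, 7, 17, 8]⟩,
⟨5, 41, 11, 90, true, false, -30, [1, 2, 16, 6, 17, 7, 8]⟩,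
⟨11, 90, 7, 57, true, false, -30, [1, 2, 16, 17, 6, 7, 8]⟩,
⟨7, 57, 15, 122, true, false, -30, [1, 16, 2, 17, 6, 7, 8]⟩,
⟨15, 122, 8, 65, true, false, -30, [16, 1, 17, 2, 6, 7, 8]⟩,
⟨8, 65, 17, 138, true, false, -30, [17, 1, 2, 6, 7, 8, 16]⟩,
⟨17, 138, 1, 8, true, false, -30, [1, 2, 6, 7, 8, 16, 17]⟩,
⟨1, 8, 17, 134, true, false, -30, [17, 16, 8, 7, 6, 2, 1]⟩,
⟨17, 134, 8, 63, true, false, -30, [16, 8, 7, 6, 2, 1, 17]⟩,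
⟨8, 63, 15, 118, true, false, -30, [8, 7, 6, 2, 17, 1, 16]⟩,
⟨15, 118, 7, 55, true, false, -30, [8, 7, 6, 17, 2, 16, 1]⟩,
⟨7, 55, 11, 86, true, false, -30, [8, 7, 6, 17, 16, 2, 1]⟩,
⟨11, 86, 5, 39, true, false, -30, [8, 7, 17, 6, 16, 2, 1]⟩,
⟨5, 39, 9, 70, true, false, -30, [8, 17, 7, 16, 6, 2, 1]⟩,
⟨9, 70, 17, 132, true, false, -28, [17, 8, 16, 7, 6, 2, 1]⟩,
⟨17, 132, 4, 31, true, false, -28, [8, 16, 7, 6, 2, 1, 17]⟩,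
⟨4, 31, 15, 116, true, false, -28, [7, 6, 2, 17, 1, 16, 8]⟩,
⟨15, 116, 7, 54, true, false, -28, [7, 6, 17, 2, 16, 1, 8]⟩,
⟨7, 54, 3, 23, true, false, -28, [6, 17, 16, 2, 8, 1, 7]⟩,
⟨3, 23, 17, 130, true, false, -28, [17, 16, 8, 2, 7, 1, 6]⟩,
⟨17, 130, 11, 84, true, false, -28, [16, 8, 2, 7, 1, 6, 17]⟩,
⟨11, 84, 8, 61, true, false, -28, [16, 8, 2, 7, 1, 17, 6]⟩,
⟨8, 61, 5, 38, true, false, -28, [8, 2, 7, 17, 1, 6, 16]⟩,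
⟨5, 38, 7, 53, true, false, -30, [8, 17, 7, 2, 16, 6, 1]⟩,
⟨7, 53, 9, 68, true, false, -30, [8, 17, 7, 16, 2, 6, 1]⟩,
⟨9, 68, 17, 128, true, false, -28, [17, 8, 16, 7, 2, 6, 1]⟩,
⟨17, 128, 2, 15, true, false, -28, [8, 16, 7, 2, 6, 1, 17]⟩,
⟨2, 15, 15, 112, true, false, -28, [7, 6, 2, 17, 1, 16, 8]⟩,
⟨15, 112, 11, 82, true, false, -28, [7, 6, 17, 2, 16, 1, 8]⟩,
⟨11, 82, 7, 52, true, false, -28, [7, 17, 6, 2, 16, 1, 8]⟩,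
⟨7, 52, 17, 126, true, false, -28, [17, 6, 16, 2, 8, 1, 7]⟩,
⟨17, 126, 5, 37, true, false, -28, [6, 16, 2, 8, 1, 7, 17]⟩,
⟨5, 37, 8, 59, true, false, -28, [16, 6, 2, 8, 1, 17, 7]⟩,
⟨8, 59, 3, 22, true, false, -28, [6, 2, 8, 17, 1, 7, 16]⟩,
⟨3, 22, 17, 124, true, false, -26, [17, 8, 2, 16, 7, 1, 6]⟩,
⟨17, 124, 7, 51, true, false, -26, [8, 2, 16, 7, 1, 6, 17]⟩,
⟨7, 51, 11, 80, true, false, -26, [8, 16, 2, 7, 1, 6, 17]⟩,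
⟨11, 80, 4, 29, true, false, -26, [8, 16, 2, 7, 1, 17, 6]⟩,
⟨4, 29, 5, 36, true, false, -26, [2, 7, 17, 1, 6, 16, 8]⟩,
⟨5, 36, 17, 122, true, false, -28, [17, 7, 2, 16, 6, 1, 8]⟩,
⟨17, 122, 7, 50, true, false, -28, [7, 2, 16, 6, 1, 8, 17]⟩,
⟨7, 50, 8, 57, true, false, -28, [16, 2, 6, 8, 1, 17, 7]⟩,
⟨8, 57, 9, 64, true, false, -28, [2, 6, 8, 17, 1, 7, 16]⟩,
⟨9, 64, 11, 78, true, false, -26, [2, 6, 17, 8, 1, 16, 7]⟩,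
⟨11, 78, 15, 106, true, false, -26, [2, 17, 6, 8, 1, 16, 7]⟩,
⟨15, 106, 17, 120, true, false, -26, [17, 2, 6, 8, 16, 1, 7]⟩,
⟨17, 120, 1, 7, true, false, -26, [2, 6, 8, 16, 1, 7, 17]⟩,
⟨1, 7, 17, 118, true, false, -26, [17, 7, 1, 16, 8, 6, 2]⟩,
⟨17, 118, 15, 104, true, false, -26, [7, 1, 16, 8, 6, 2, 17]⟩,
⟨15, 104, 11, 76, true, false, -26, [7, 16, 1, 8, 6, 17, 2]⟩,
⟨11, 76, 9, 62, true, false, -26, [7, 16, 1, 8, 17, 6, 2]⟩,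
⟨9, 62, 8, 55, true, false, -24, [16, 7, 1, 17, 8, 6, 2]⟩,
⟨8, 55, 7, 48, true, false, -24, [7, 17, 1, 8, 6, 2, 16]⟩,
⟨7, 48, 17, 116, true, false, -24, [17, 8, 1, 6, 16, 2, 7]⟩,
⟨17, 116, 5, 34, true, false, -24, [8, 1, 6, 16, 2, 7, 17]⟩,
⟨5, 34, 4, 27, true, false, -26, [8, 16, 6, 1, 17, 7, 2]⟩,
⟨4, 27, 11, 74, true, false, -26, [6, 17, 1, 7, 2, 16, 8]⟩,
⟨11, 74, 7, 47, true, false, -26, [17, 6, 1, 7, 2, 16, 8]⟩,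
⟨7, 47, 17, 114, true, false, -26, [17, 6, 1, 7, 16, 2, 8]⟩,
⟨17, 114, 3, 20, true, false, -26, [6, 1, 7, 16, 2, 8, 17]⟩,
⟨3, 20, 8, 53, true, false, -24, [16, 7, 1, 17, 8, 2, 6]⟩,
⟨8, 53, 5, 33, true, false, -24, [7, 17, 1, 8, 2, 6, 16]⟩,
⟨5, 33, 17, 112, true, false, -24, [17, 7, 1, 8, 2, 16, 6]⟩,
⟨17, 112, 7, 46, true, false, -24, [7, 1, 8, 2, 16, 6, 17]⟩,
⟨7, 46, 11, 72, true, false, -24, [8, 1, 16, 2, 6, 17, 7]⟩,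
⟨11, 72, 15, 98, true, false, -24, [8, 1, 16, 2, 17, 6, 7]⟩,
⟨15, 98, 2, 13, true, false, -24, [8, 16, 1, 17, 2, 6, 7]⟩,
⟨2, 13, 17, 110, true, false, -24, [17, 1, 6, 2, 7, 16, 8]⟩,
⟨17, 110, 9, 58, true, false, -24, [1, 6, 2, 7, 16, 8, 17]⟩,
⟨9, 58, 7, 45, true, false, -22, [1, 6, 2, 16, 7, 17, 8]⟩,
⟨7, 45, 5, 32, true, false, -22, [1, 6, 16, 2, 7, 17, 8]⟩,
⟨5, 32, 8, 51, true, false, -24, [16, 6, 1, 17, 7, 2, 8]⟩,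
⟨8, 51, 11, 70, true, false, -24, [6, 17, 1, 7, 2, 8, 16]⟩,
⟨11, 70, 17, 108, true, false, -24, [17, 6, 1, 7, 2, 8, 16]⟩,
⟨17, 108, 3, 19, true, false, -24, [6, 1, 7, 2, 8, 16, 17]⟩,
⟨3, 19, 7, 44, true, false, -24, [7, 1, 8, 2, 16, 17, 6]⟩,
⟨7, 44, 15, 94, true, false, -24, [8, 1, 16, 2, 17, 6, 7]⟩,
⟨15, 94, 4, 25, true, false, -24, [8, 16, 1, 17, 2, 6, 7]⟩,
⟨4, 25, 17, 106, true, false, -24, [17, 1, 2, 6, 7, 16, 8]⟩,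
⟨17, 106, 9, 56, true, false, -24, [1, 2, 6, 7, 16, 8, 17]⟩,
⟨9, 56, 5, 31, true, false, -22, [1, 2, 6, 16, 7, 17, 8]⟩,
⟨5, 31, 11, 68, true, false, -22, [1, 2, 16, 6, 17, 7, 8]⟩,
⟨11, 68, 7, 43, true, false, -22, [1, 2, 16, 17, 6, 7, 8]⟩,
⟨7, 43, 15, 92, true, false, -22, [1, 16, 2, 17, 6, 7, 8]⟩,
⟨15, 92, 8, 49, true, false, -22, [16, 1, 17, 2, 6, 7, 8]⟩,
⟨8, 49, 17, 104, true, false, -22, [17, 1, 2, 6, 7, 8, 16]⟩,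
⟨17, 104, 1, 6, true, false, -22, [1, 2, 6, 7, 8, 16, 17]⟩,
⟨1, 6, 17, 100, true, false, -22, [17, 16, 8, 7, 6, 2, 1]⟩,
⟨17, 100, 8, 47, true, false, -22, [16, 8, 7, 6, 2, 1, 17]⟩,
⟨8, 47, 15, 88, true, false, -22, [8, 7, 6, 2, 17, 1, 16]⟩,
⟨15, 88, 7, 41, true, false, -22, [8, 7, 6, 17, 2, 16, 1]⟩,
⟨7, 41, 11, 64, true, false, -22, [8, 7, 6, 17, 16, 2, 1]⟩,
⟨11, 64, 5, 29, true, false, -22, [8, 7, 17, 6, 16, 2, 1]⟩,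
⟨5, 29, 9, 52, true, false, -22, [8, 17, 7, 16, 6, 2, 1]⟩,
⟨9, 52, 17, 98, true, false, -20, [17, 8, 16, 7, 6, 2, 1]⟩,
⟨17, 98, 4, 23, true, false, -20, [8, 16, 7, 6, 2, 1, 17]⟩,
⟨4, 23, 15, 86, true, false, -20, [7, 6, 2, 17, 1, 16, 8]⟩,
⟨15, 86, 7, 40, true, false, -20, [7, 6, 17, 2, 16, 1, 8]⟩,
⟨7, 40, 3, 17, true, false, -20, [6, 17, 16, 2, 8, 1, 7]⟩,
⟨3, 17, 17, 96, true, false, -20, [17, 16, 8, 2, 7, 1, 6]⟩,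
⟨17, 96, 11, 62, true, false, -20, [16, 8, 2, 7, 1, 6, 17]⟩,
⟨11, 62, 8, 45, true, false, -20, [16, 8, 2, 7, 1, 17, 6]⟩,
⟨8, 45, 5, 28, true, false, -20, [8, 2, 7, 17, 1, 6, 16]⟩,
⟨5, 28, 7, 39, true, false, -22, [8, 17, 7, 2, 16, 6, 1]⟩,
⟨7, 39, 9, 50, true, false, -22, [8, 17, 7, 16, 2, 6, 1]⟩,
⟨9, 50, 17, 94, true, false, -20, [17, 8, 16, 7, 2, 6, 1]⟩,
⟨17, 94, 2, 11, true, false, -20, [8, 16, 7, 2, 6, 1, 17]⟩,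
⟨2, 11, 15, 82, true, false, -20, [7, 6, 2, 17, 1, 16, 8]⟩,
⟨15, 82, 11, 60, true, false, -20, [7, 6, 17, 2, 16, 1, 8]⟩,
⟨11, 60, 7, 38, true, false, -20, [7, 17, 6, 2, 16, 1, 8]⟩,
⟨7, 38, 17, 92, true, false, -20, [17, 6, 16, 2, 8, 1, 7]⟩,
⟨17, 92, 5, 27, true, false, -20, [6, 16, 2, 8, 1, 7, 17]⟩,
⟨5, 27, 8, 43, true, false, -20, [16, 6, 2, 8, 1, 17, 7]⟩,
⟨8, 43, 3, 16, true, false, -20, [6, 2, 8, 17, 1, 7, 16]⟩,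
⟨3, 16, 17, 90, true, false, -18, [17, 8, 2, 16, 7, 1, 6]⟩,
⟨17, 90, 7, 37, true, false, -18, [8, 2, 16, 7, 1, 6, 17]⟩,
⟨7, 37, 11, 58, true, false, -18, [8, 16, 2, 7, 1, 6, 17]⟩,
⟨11, 58, 4, 21, true, false, -18, [8, 16, 2, 7, 1, 17, 6]⟩,
⟨4, 21, 5, 26, true, false, -18, [2, 7, 17, 1, 6, 16, 8]⟩,
⟨5, 26, 17, 88, true, false, -20, [17, 7, 2, 16, 6, 1, 8]⟩,
⟨17, 88, 7, 36, true, false, -20, [7, 2, 16, 6, 1, 8, 17]⟩,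
⟨7, 36, 8, 41, true, false, -20, [16, 2, 6, 8, 1, 17, 7]⟩,
⟨8, 41, 9, 46, true, false, -20, [2, 6, 8, 17, 1, 7, 16]⟩,
⟨9, 46, 11, 56, true, false, -18, [2, 6, 17, 8, 1, 16, 7]⟩,
⟨11, 56, 15, 76, true, false, -18, [2, 17, 6, 8, 1, 16, 7]⟩,
⟨15, 76, 17, 86, true, false, -18, [17, 2, 6, 8, 16, 1, 7]⟩,
⟨17, 86, 1, 5, true, false, -18, [2, 6, 8, 16, 1, 7, 17]⟩]

def cellsP15 : List Cell := [
⟨1, 5, 17, 84, true, false, -18, [17, 7, 1, 16, 8, 6, 2]⟩,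
⟨17, 84, 15, 74, true, false, -18, [7, 1, 16, 8, 6, 2, 17]⟩,
⟨15, 74, 11, 54, true, false, -18, [7, 16, 1, 8, 6, 17, 2]⟩,
⟨11, 54, 9, 44, true, false, -18, [7, 16, 1, 8, 17, 6, 2]⟩,
⟨9, 44, 8, 39, true, false, -16, [16, 7, 1, 17, 8, 6, 2]⟩,
⟨8, 39, 7, 34, true, false, -16, [7, 17, 1, 8, 6, 2, 16]⟩,
⟨7, 34, 17, 82, true, false, -16, [17, 8, 1, 6, 16, 2, 7]⟩,
⟨17, 82, 5, 24, true, false, -16, [8, 1, 6, 16, 2, 7, 17]⟩,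
⟨5, 24, 4, 19, true, false, -18, [8, 16, 6, 1, 17, 7, 2]⟩,
⟨4, 19, 11, 52, true, false, -18, [6, 17, 1, 7, 2, 16, 8]⟩,
⟨11, 52, 7, 33, true, false, -18, [17, 6, 1, 7, 2, 16, 8]⟩,
⟨7, 33, 17, 80, true, false, -18, [17, 6, 1, 7, 16, 2, 8]⟩,
⟨17, 80, 3, 14, true, false, -18, [6, 1, 7, 16, 2, 8, 17]⟩,
⟨3, 14, 8, 37, true, false, -16, [16, 7, 1, 17, 8, 2, 6]⟩,
⟨8, 37, 5, 23, true, false, -16, [7, 17, 1, 8, 2, 6, 16]⟩,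
⟨5, 23, 17, 78, true, false, -16, [17, 7, 1, 8, 2, 16, 6]⟩,
⟨17, 78, 7, 32, true, false, -16, [7, 1, 8, 2, 16, 6, 17]⟩,
⟨7, 32, 11, 50, true, false, -16, [8, 1, 16, 2, 6, 17, 7]⟩,
⟨11, 50, 15, 68, true, false, -16, [8, 1, 16, 2, 17, 6, 7]⟩,
⟨15, 68, 2, 9, true, false, -16, [8, 16, 1, 17, 2, 6, 7]⟩,
⟨2, 9, 17, 76, true, false, -16, [17, 1, 6, 2, 7, 16, 8]⟩,
⟨17, 76, 9, 40, true, false, -16, [1, 6, 2, 7, 16, 8, 17]⟩,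
⟨9, 40, 7, 31, true, false, -14, [1, 6, 2, 16, 7, 17, 8]⟩,
⟨7, 31, 5, 22, true, false, -14, [1, 6, 16, 2, 7, 17, 8]⟩,
⟨5, 22, 8, 35, true, false, -16, [16, 6, 1, 17, 7, 2, 8]⟩,
⟨8, 35, 11, 48, true, false, -16, [6, 17, 1, 7, 2, 8, 16]⟩,
⟨11, 48, 17, 74, true, false, -16, [17, 6, 1, 7, 2, 8, 16]⟩,
⟨17, 74, 3, 13, true, false, -16, [6, 1, 7, 2, 8, 16, 17]⟩,
⟨3, 13, 7, 30, true, false, -16, [7, 1, 8, 2, 16, 17, 6]⟩,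
⟨7, 30, 15, 64, true, false, -16, [8, 1, 16, 2, 17, 6, 7]⟩,
⟨15, 64, 4, 17, true, false, -16, [8, 16, 1, 17, 2, 6, 7]⟩,
⟨4, 17, 17, 72, true, false, -16, [17, 1, 2, 6, 7, 16, 8]⟩,
⟨17, 72, 9, 38, true, false, -16, [1, 2, 6, 7, 16, 8, 17]⟩,
⟨9, 38, 5, 21, true, false, -14, [1, 2, 6, 16, 7, 17, 8]⟩,
⟨5, 21, 11, 46, true, false, -14, [1, 2, 16, 6, 17, 7, 8]⟩,
⟨11, 46, 7, 29, true, false, -14, [1, 2, 16, 17, 6, 7, 8]⟩,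
⟨7, 29, 15, 62, true, false, -14, [1, 16, 2, 17, 6, 7, 8]⟩,
⟨15, 62, 8, 33, true, false, -14, [16, 1, 17, 2, 6, 7, 8]⟩,
⟨8, 33, 17, 70, true, false, -14, [17, 1, 2, 6, 7, 8, 16]⟩,
⟨17, 70, 1, 4, true, false, -14, [1, 2, 6, 7, 8, 16, 17]⟩,
⟨1, 4, 17, 66, true, false, -14, [17, 16, 8, 7, 6, 2, 1]⟩,
⟨17, 66, 8, 31, true, false, -14, [16, 8, 7, 6, 2, 1, 17]⟩,
⟨8, 31, 15, 58, true, false, -14, [8, 7, 6, 2, 17, 1, 16]⟩,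
⟨15, 58, 7, 27, true, false, -14, [8, 7, 6, 17, 2, 16, 1]⟩,
⟨7, 27, 11, 42, true, false, -14, [8, 7, 6, 17, 16, 2, 1]⟩,
⟨11, 42, 5, 19, true, false, -14, [8, 7, 17, 6, 16, 2, 1]⟩,
⟨5, 19, 9, 34, true, false, -14, [8, 17, 7, 16, 6, 2, 1]⟩,
⟨9, 34, 17, 64, true, false, -12, [17, 8, 16, 7, 6, 2, 1]⟩,
⟨17, 64, 4, 15, true, false, -12, [8, 16, 7, 6, 2, 1, 17]⟩,
⟨4, 15, 15, 56, true, false, -12, [7, 6, 2, 17, 1, 16, 8]⟩,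
⟨15, 56, 7, 26, true, false, -12, [7, 6, 17, 2, 16, 1, 8]⟩,
⟨7, 26, 3, 11, true, false, -12, [6, 17, 16, 2, 8, 1, 7]⟩,
⟨3, 11, 17, 62, true, false, -12, [17, 16, 8, 2, 7, 1, 6]⟩,
⟨17, 62, 11, 40, true, false, -12, [16, 8, 2, 7, 1, 6, 17]⟩,
⟨11, 40, 8, 29, true, false, -12, [16, 8, 2, 7, 1, 17, 6]⟩,
⟨8, 29, 5, 18, true, false, -12, [8, 2, 7, 17, 1, 6, 16]⟩,
⟨5, 18, 7, 25, true, false, -14, [8, 17, 7, 2, 16, 6, 1]⟩,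
⟨7, 25, 9, 32, true, false, -14, [8, 17, 7, 16, 2, 6, 1]⟩,
⟨9, 32, 17, 60, true, false, -12, [17, 8, 16, 7, 2, 6, 1]⟩,
⟨17, 60, 2, 7, true, false, -12, [8, 16, 7, 2, 6, 1, 17]⟩,
⟨2, 7, 15, 52, true, false, -12, [7, 6, 2, 17, 1, 16, 8]⟩,
⟨15, 52, 11, 38, true, false, -12, [7, 6, 17, 2, 16, 1, 8]⟩,
⟨11, 38, 7, 24, true, false, -12, [7, 17, 6, 2, 16, 1, 8]⟩,
⟨7, 24, 17, 58, true, false, -12, [17, 6, 16, 2, 8, 1, 7]⟩,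
⟨17, 58, 5, 17, true, false, -12, [6, 16, 2, 8, 1, 7, 17]⟩,
⟨5, 17, 8, 27, true, false, -12, [16, 6, 2, 8, 1, 17, 7]⟩,
⟨8, 27, 3, 10, true, false, -12, [6, 2, 8, 17, 1, 7, 16]⟩,
⟨3, 10, 17, 56, true, false, -10, [17, 8, 2, 16, 7, 1, 6]⟩,
⟨17, 56, 7, 23, true, false, -10, [8, 2, 16, 7, 1, 6, 17]⟩,
⟨7, 23, 11, 36, true, false, -10, [8, 16, 2, 7, 1, 6, 17]⟩,
⟨11, 36, 4, 13, true, false, -10, [8, 16, 2, 7, 1, 17, 6]⟩,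
⟨4, 13, 5, 16, true, false, -10, [2, 7, 17, 1, 6, 16, 8]⟩,
⟨5, 16, 17, 54, true, false, -12, [17, 7, 2, 16, 6, 1, 8]⟩,
⟨17, 54, 7, 22, true, false, -12, [7, 2, 16, 6, 1, 8, 17]⟩,
⟨7, 22, 8, 25, true, false, -12, [16, 2, 6, 8, 1, 17, 7]⟩,
⟨8, 25, 9, 28, true, false, -12, [2, 6, 8, 17, 1, 7, 16]⟩,
⟨9, 28, 11, 34, true, false, -10, [2, 6, 17, 8, 1, 16, 7]⟩,
⟨11, 34, 15, 46, true, false, -10, [2, 17, 6, 8, 1, 16, 7]⟩,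
⟨15, 46, 17, 52, true, false, -10, [17, 2, 6, 8, 16, 1, 7]⟩,
⟨17, 52, 1, 3, true, false, -10, [2, 6, 8, 16, 1, 7, 17]⟩,
⟨1, 3, 17, 50, true, false, -10, [17, 7, 1, 16, 8, 6, 2]⟩,
⟨17, 50, 15, 44, true, false, -10, [7, 1, 16, 8, 6, 2, 17]⟩,
⟨15, 44, 11, 32, true, false, -10, [7, 16, 1, 8, 6, 17, 2]⟩,
⟨11, 32, 9, 26, true, false, -10, [7, 16, 1, 8, 17, 6, 2]⟩,
⟨9, 26, 8, 23, true, false, -8, [16, 7, 1, 17, 8, 6, 2]⟩,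
⟨8, 23, 7, 20, true, false, -8, [7, 17, 1, 8, 6, 2, 16]⟩,
⟨7, 20, 17, 48, true, false, -8, [17, 8, 1, 6, 16, 2, 7]⟩,
⟨17, 48, 5, 14, true, false, -8, [8, 1, 6, 16, 2, 7, 17]⟩,
⟨5, 14, 4, 11, true, false, -10, [8, 16, 6, 1, 17, 7, 2]⟩,
⟨4, 11, 11, 30, true, false, -10, [6, 17, 1, 7, 2, 16, 8]⟩,
⟨11, 30, 7, 19, true, false, -10, [17, 6, 1, 7, 2, 16, 8]⟩,
⟨7, 19, 17, 46, true, false, -10, [17, 6, 1, 7, 16, 2, 8]⟩,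
⟨17, 46, 3, 8, true, false, -10, [6, 1, 7, 16, 2, 8, 17]⟩,
⟨3, 8, 8, 21, true, false, -8, [16, 7, 1, 17, 8, 2, 6]⟩,
⟨8, 21, 5, 13, true, false, -8, [7, 17, 1, 8, 2, 6, 16]⟩,
⟨5, 13, 17, 44, true, false, -8, [17, 7, 1, 8, 2, 16, 6]⟩,
⟨17, 44, 7, 18, true, false, -8, [7, 1, 8, 2, 16, 6, 17]⟩,
⟨7, 18, 11, 28, true, false, -8, [8, 1, 16, 2, 6, 17, 7]⟩,
⟨11, 28, 15, 38, true, false, -8, [8, 1, 16, 2, 17, 6, 7]⟩,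
⟨15, 38, 2, 5, true, false, -8, [8, 16, 1, 17, 2, 6, 7]⟩,
⟨2, 5, 17, 42, true, false, -8, [17, 1, 6, 2, 7, 16, 8]⟩,
⟨17, 42, 9, 22, true, false, -8, [1, 6, 2, 7, 16, 8, 17]⟩,
⟨9, 22, 7, 17, true, false, -6, [1, 6, 2, 16, 7, 17, 8]⟩,
⟨7, 17, 5, 12, true, false, -6, [1, 6, 16, 2, 7, 17, 8]⟩,
⟨5, 12, 8, 19, true, false, -8, [16, 6, 1, 17, 7, 2, 8]⟩,
⟨8, 19, 11, 26, true, false, -8, [6, 17, 1, 7, 2, 8, 16]⟩,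
⟨11, 26, 17, 40, true, false, -8, [17, 6, 1, 7, 2, 8, 16]⟩,
⟨17, 40, 3, 7, true, false, -8, [6, 1, 7, 2, 8, 16, 17]⟩,
⟨3, 7, 7, 16, true, false, -8, [7, 1, 8, 2, 16, 17, 6]⟩,
⟨7, 16, 15, 34, true, false, -8, [8, 1, 16, 2, 17, 6, 7]⟩,
⟨15, 34, 4, 9, true, false, -8, [8, 16, 1, 17, 2, 6, 7]⟩,
⟨4, 9, 17, 38, true, false, -8, [17, 1, 2, 6, 7, 16, 8]⟩,
⟨17, 38, 9, 20, true, false, -8, [1, 2, 6, 7, 16, 8, 17]⟩,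
⟨9, 20, 5, 11, true, false, -6, [1, 2, 6, 16, 7, 17, 8]⟩,
⟨5, 11, 11, 24, true, false, -6, [1, 2, 16, 6, 17, 7, 8]⟩,
⟨11, 24, 7, 15, true, false, -6, [1, 2, 16, 17, 6, 7, 8]⟩,
⟨7, 15, 15, 32, true, false, -6, [1, 16, 2, 17, 6, 7, 8]⟩,
⟨15, 32, 8, 17, true, false, -6, [16, 1, 17, 2, 6, 7, 8]⟩,
⟨8, 17, 17, 36, true, false, -6, [17, 1, 2, 6, 7, 8, 16]⟩,
⟨17, 36, 1, 2, true, false, -6, [1, 2, 6, 7, 8, 16, 17]⟩,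
⟨1, 2, 17, 32, true, false, -6, [17, 16, 8, 7, 6, 2, 1]⟩,
⟨17, 32, 8, 15, true, false, -6, [16, 8, 7, 6, 2, 1, 17]⟩,
⟨8, 15, 15, 28, true, false, -6, [8, 7, 6, 2, 17, 1, 16]⟩,
⟨15, 28, 7, 13, true, false, -6, [8, 7, 6, 17, 2, 16, 1]⟩,
⟨7, 13, 11, 20, true, false, -6, [8, 7, 6, 17, 16, 2, 1]⟩,
⟨11, 20, 5, 9, true, false, -6, [8, 7, 17, 6, 16, 2, 1]⟩,
⟨5, 9, 9, 16, true, false, -6, [8, 17, 7, 16, 6, 2, 1]⟩,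
⟨9, 16, 17, 30, true, false, -4, [17, 8, 16, 7, 6, 2, 1]⟩,
⟨17, 30, 4, 7, true, false, -4, [8, 16, 7, 6, 2, 1, 17]⟩,
⟨4, 7, 15, 26, true, false, -4, [7, 6, 2, 17, 1, 16, 8]⟩,
⟨15, 26, 7, 12, true, false, -4, [7, 6, 17, 2, 16, 1, 8]⟩,
⟨7, 12, 3, 5, true, false, -4, [6, 17, 16, 2, 8, 1, 7]⟩,
⟨3, 5, 17, 28, true, false, -4, [17, 16, 8, 2, 7, 1, 6]⟩,
⟨17, 28, 11, 18, true, false, -4, [16, 8, 2, 7, 1, 6, 17]⟩,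
⟨11, 18, 8, 13, true, false, -4, [16, 8, 2, 7, 1, 17, 6]⟩,
⟨8, 13, 5, 8, true, false, -4, [8, 2, 7, 17, 1, 6, 16]⟩,
⟨5, 8, 7, 11, true, false, -6, [8, 17, 7, 2, 16, 6, 1]⟩,
⟨7, 11, 9, 14, true, false, -6, [8, 17, 7, 16, 2, 6, 1]⟩,
⟨9, 14, 17, 26, true, false, -4, [17, 8, 16, 7, 2, 6, 1]⟩,
⟨17, 26, 2, 3, true, false, -4, [8, 16, 7, 2, 6, 1, 17]⟩,
⟨2, 3, 15, 22, true, false, -4, [7, 6, 2, 17, 1, 16, 8]⟩,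
⟨15, 22, 11, 16, true, false, -4, [7, 6, 17, 2, 16, 1, 8]⟩,
⟨11, 16, 7, 10, true, false, -4, [7, 17, 6, 2, 16, 1, 8]⟩,
⟨7, 10, 17, 24, true, false, -4, [17, 6, 16, 2, 8, 1, 7]⟩,
⟨17, 24, 5, 7, true, false, -4, [6, 16, 2, 8, 1, 7, 17]⟩,
⟨5, 7, 8, 11, true, false, -4, [16, 6, 2, 8, 1, 17, 7]⟩,
⟨8, 11, 3, 4, true, false, -4, [6, 2, 8, 17, 1, 7, 16]⟩,
⟨3, 4, 17, 22, true, false, -2, [17, 8, 2, 16, 7, 1, 6]⟩,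
⟨17, 22, 7, 9, true, false, -2, [8, 2, 16, 7, 1, 6, 17]⟩,
⟨7, 9, 11, 14, true, false, -2, [8, 16, 2, 7, 1, 6, 17]⟩,
⟨11, 14, 4, 5, true, false, -2, [8, 16, 2, 7, 1, 17, 6]⟩,
⟨4, 5, 5, 6, true, false, -2, [2, 7, 17, 1, 6, 16, 8]⟩,
⟨5, 6, 17, 20, true, false, -4, [17, 7, 2, 16, 6, 1, 8]⟩,
⟨17, 20, 7, 8, true, false, -4, [7, 2, 16, 6, 1, 8, 17]⟩,
⟨7, 8, 8, 9, true, false, -4, [16, 2, 6, 8, 1, 17, 7]⟩,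
⟨8, 9, 9, 10, true, false, -4, [2, 6, 8, 17, 1, 7, 16]⟩,
⟨9, 10, 11, 12, true, false, -2, [2, 6, 17, 8, 1, 16, 7]⟩,
⟨11, 12, 15, 16, true, false, -2, [2, 17, 6, 8, 1, 16, 7]⟩,
⟨15, 16, 17, 18, true, false, -2, [17, 2, 6, 8, 16, 1, 7]⟩,
⟨17, 18, 1, 1, true, false, -2, [2, 6, 8, 16, 1, 7, 17]⟩,
⟨1, 1, 17, 16, true, false, -2, [17, 7, 1, 16, 8, 6, 2]⟩,
⟨17, 16, 15, 14, true, false, -2, [7, 1, 16, 8, 6, 2, 17]⟩,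
⟨15, 14, 11, 10, true, false, -2, [7, 16, 1, 8, 6, 17, 2]⟩,
⟨11, 10, 9, 8, true, false, -2, [7, 16, 1, 8, 17, 6, 2]⟩,
⟨9, 8, 8, 7, true, false, 0, [16, 7, 1, 17, 8, 6, 2]⟩,
⟨8, 7, 7, 6, true, false, 0, [7, 17, 1, 8, 6, 2, 16]⟩,
⟨7, 6, 17, 14, true, false, 0, [17, 8, 1, 6, 16, 2, 7]⟩,
⟨17, 14, 5, 4, true, false, 0, [8, 1, 6, 16, 2, 7, 17]⟩,
⟨5, 4, 4, 3, true, false, -2, [8, 16, 6, 1, 17, 7, 2]⟩,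
⟨4, 3, 11, 8, true, false, -2, [6, 17, 1, 7, 2, 16, 8]⟩,
⟨11, 8, 7, 5, true, false, -2, [17, 6, 1, 7, 2, 16, 8]⟩,
⟨7, 5, 17, 12, true, false, -2, [17, 6, 1, 7, 16, 2, 8]⟩,
⟨17, 12, 3, 2, true, false, -2, [6, 1, 7, 16, 2, 8, 17]⟩,
⟨3, 2, 8, 5, true, false, 0, [16, 7, 1, 17, 8, 2, 6]⟩,
⟨8, 5, 5, 3, true, false, 0, [7, 17, 1, 8, 2, 6, 16]⟩,
⟨5, 3, 17, 10, true, false, 0, [17, 7, 1, 8, 2, 16, 6]⟩,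
⟨17, 10, 7, 4, true, false, 0, [7, 1, 8, 2, 16, 6, 17]⟩,
⟨7, 4, 11, 6, true, false, 0, [8, 1, 16, 2, 6, 17, 7]⟩,
⟨11, 6, 15, 8, true, false, 0, [8, 1, 16, 2, 17, 6, 7]⟩,
⟨15, 8, 2, 1, true, false, 0, [8, 16, 1, 17, 2, 6, 7]⟩,
⟨2, 1, 17, 8, true, false, 0, [17, 1, 6, 2, 7, 16, 8]⟩,
⟨17, 8, 9, 4, true, false, 0, [1, 6, 2, 7, 16, 8, 17]⟩,
⟨9, 4, 7, 3, true, false, 2, [1, 6, 2, 16, 7, 17, 8]⟩,
⟨7, 3, 5, 2, true, false, 2, [1, 6, 16, 2, 7, 17, 8]⟩,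
⟨5, 2, 8, 3, true, false, 0, [16, 6, 1, 17, 7, 2, 8]⟩,
⟨8, 3, 11, 4, true, false, 0, [6, 17, 1, 7, 2, 8, 16]⟩,
⟨11, 4, 17, 6, true, false, 0, [17, 6, 1, 7, 2, 8, 16]⟩,
⟨17, 6, 3, 1, true, false, 0, [6, 1, 7, 2, 8, 16, 17]⟩,
⟨3, 1, 7, 2, true, false, 0, [7, 1, 8, 2, 16, 17, 6]⟩,
⟨7, 2, 15, 4, true, false, 0, [8, 1, 16, 2, 17, 6, 7]⟩,
⟨15, 4, 4, 1, true, false, 0, [8, 16, 1, 17, 2, 6, 7]⟩,
⟨4, 1, 17, 4, false, true, -2, [17, 1, 2, 6, 7, 16, 8]⟩,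
⟨17, 4, 9, 2, false, true, -2, [1, 2, 6, 7, 16, 8, 17]⟩,
⟨9, 2, 5, 1, false, true, 0, [1, 2, 6, 16, 7, 17, 8]⟩,
⟨5, 1, 11, 2, false, false, 0, [1, 2, 16, 6, 17, 7, 8]⟩,
⟨11, 2, 6, 1, false, false, 0, [1, 2, 16, 17, 6, 7, 8]⟩]

def cells : List Cell := cellsP0 ++ cellsP1 ++ cellsP2 ++ cellsP3 ++ cellsP4 ++ cellsP5 ++ cellsP6 ++ cellsP7 ++ cellsP8 ++ cellsP9 ++ cellsP10 ++ cellsP11 ++ cellsP12 ++ cellsP13 ++ cellsP14 ++ cellsP15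

end Pool.Agent.TH817.Z3
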