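import Pool.Agent.H337R2.LZ.Defs
import Pool.Agent.H336R2.HD.Defs
import Pool.Agent.H337R2.Cx3

/-!
# Irrationality exponent of `ζ(3)`: definitions (second design, sizes in half-integral units)

`R(t) = ((9n/2)!)² / ((5n/2)!)² · ∏_{n/2 < j ≤ 3n} (t+j) · ∏_{n < j ≤ 7n/2} (t+j) /
  (∏_{7n/2 < k ≤ 8n} (t+k) · ∏_{4n < k ≤ 17n/2} (t+k))`
(integer parts of `n/2`, `5n/2`, `7n/2`, `9n/2`, `17n/2`). With the partial fractions
`b_k / (t+k)² + c_k / (t+k)` of `R Q` (`∑ c_k = 0`) `- ∑_{t ≥ -3n} (RQ)'(t) = 2 ρ ζ(3) - h3`, `ρ = ∑ b_k`.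
`NL n x Q = 2 x ρ - h3` is the same number with `ζ(3)` replaced by the rational number `x`. `DET n x m` is the
Hankel determinant of this functional; it is used with `m = 2 n`. The degree of `R` is `-4n`.
-/

open Polynomial Pool.Agent.H337R2

namespace Pool.Agent.TH817.Z3

noncomputable section

/-- `⌊(y+1)²/4⌋` for `y > 0`, and `0` otherwise -/
abbrev TT := Pool.Agent.H336R2.HD.TT

/-- `q` is a denominator of `u` -/
abbrev QI := Pool.Agent.LZ.QI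

/-- primes in `(lo n, hi n]` (for `hi ≤ 14`) -/
abbrev PR := Pool.Agent.LZ.PR

/-- the poles are at `-k`, `7n/2 < k ≤ 17n/2` -/
abbrev sF (n : ℕ) : Finset ℕ := Finset.Icc (7 * n / 2 + 1) (17 * n / 2)

/-- multiplicities of the poles: `2` for `4n < k ≤ 8n`, `1` for `7n/2 < k ≤ 4n` and for `8n < k ≤ 17n/2` -/
def mF (n : ℕ) (k : ℕ) : ℕ := (if k ≤ 8 * n then 1 else 0) + (if 4 * n < k then 1 else 0)

/-- `((9n/2)!)² / ((5n/2)!)²` -/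
def cF (n : ℕ) : ℚ :=
  (((9 * n / 2).factorial ^ 2 : ℕ) : ℚ) / (((5 * n / 2).factorial ^ 2 : ℕ) : ℚ)

/-- numerator -/
def PF (n : ℕ) : ℚ[X] := C (cF n) * ((∏ j ∈ Finset.Icc (n / 2 + 1) (3 * n), (X + C (j : ℚ))) *
  ∏ j ∈ Finset.Icc (n + 1) (7 * n / 2), (X + C (j : ℚ)))

/-- `∑ b_k` -/
def rho (n : ℕ) (P : ℚ[X]) : ℚ := ∑ k ∈ sF n, pa (sF n) (mF n) P k 2

/-- the part with the harmonic numbers -/
def h3 (n : ℕ) (P : ℚ[X]) : ℚ := ∑ k ∈ sF n,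
  (2 * pa (sF n) (mF n) P k 2 * hs 3 (k - 3 * n - 1) + pa (sF n) (mF n) P k 1 * hs 2 (k - 3 * n - 1))

/-- the linear form as a function of the numerator -/
def xf (n : ℕ) (x : ℚ) (P : ℚ[X]) : ℚ := 2 * x * rho n P - h3 n P

lemma pa_add (s : Finset ℕ) (μ : ℕ → ℕ) (P Q : ℚ[X]) (k i : ℕ) :
    pa s μ (P + Q) k i = pa s μ P k i + pa s μ Q k i :=
  Pool.Agent.LZ.pa_add s μ P Q k i

lemma pa_C_mul (s : Finset ℕ) (μ : ℕ → ℕ) (c : ℚ) (P : ℚ[X]) (k i : ℕ) :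
    pa s μ (C c * P) k i = c * pa s μ P k i :=
  Pool.Agent.LZ.pa_C_mul s μ c P k i

lemma rho_add (n : ℕ) (P Q : ℚ[X]) : rho n (P + Q) = rho n P + rho n Q := by
  unfold rho
  rw [← Finset.sum_add_distrib]
  exact Finset.sum_congr rfl fun k _ => pa_add _ _ _ _ _ _

lemma rho_C_mul (n : ℕ) (c : ℚ) (P : ℚ[X]) : rho n (C c * P) = c * rho n P := by
  unfold rho
  rw [Finset.mul_sum]
  exact Finset.sum_congr rfl fun k _ => pa_C_mul _ _ _ _ _ _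

lemma h3_add (n : ℕ) (P Q : ℚ[X]) : h3 n (P + Q) = h3 n P + h3 n Q := by
  unfold h3
  rw [← Finset.sum_add_distrib]
  exact Finset.sum_congr rfl fun k _ => by rw [pa_add, pa_add]; ring

lemma h3_C_mul (n : ℕ) (c : ℚ) (P : ℚ[X]) : h3 n (C c * P) = c * h3 n P := by
  unfold h3
  rw [Finset.mul_sum]
  exact Finset.sum_congr rfl fun k _ => by rw [pa_C_mul, pa_C_mul]; ring

lemma xf_add (n : ℕ) (x : ℚ) (P Q : ℚ[X]) : xf n x (P + Q) = xf n x P + xf n x Q := by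
  unfold xf
  rw [rho_add, h3_add]; ring

lemma xf_C_mul (n : ℕ) (x : ℚ) (c : ℚ) (P : ℚ[X]) : xf n x (C c * P) = c * xf n x P := by
  unfold xf
  rw [rho_C_mul, h3_C_mul]; ring

/-- the functional -/
def NL (n : ℕ) (x : ℚ) : ℚ[X] →ₗ[ℚ] ℚ where
  toFun Q := xf n x (PF n * Q)
  map_add' P Q := by rw [mul_add, xf_add]
  map_smul' c P := by
    rw [RingHom.id_apply, Polynomial.smul_eq_C_mul, mul_left_comm, xf_C_mul, smul_eq_mul]

lemma NL_apply (n : ℕ) (x : ℚ) (Q : ℚ[X]) : NL n x Q = xf n x (PF n * Q) := rfl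

/-- Hankel determinant -/
def DET (n : ℕ) (x : ℚ) (m : ℕ) : ℚ :=
  (Matrix.of fun i j : Fin m => NL n x (X ^ (i.1 + j.1))).det

/-- the exponent `e_p(k)`: valuation of the constant, plus zeros, minus poles in the class of `k` -/
def eF (n p k : ℕ) : ℤ :=
  2 * ((9 * n / 2 / p : ℕ) : ℤ) - 2 * ((5 * n / 2 / p : ℕ) : ℤ) + cnt p (n / 2 + 1) (3 * n) k +
    cnt p (n + 1) (7 * n / 2) k - cnt p (7 * n / 2 + 1) (8 * n) k - cnt p (4 * n + 1) (17 * n / 2) k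

/-! ### Archimedean objects -/

/-- the abscissa of the line is `-(Ln n + 1/2)` -/
def Ln (n : ℕ) : ℕ := 5 * n / 4

/-- the point `-(Ln n + 1/2) + i y` of the line -/
def zn (n : ℕ) (y : ℝ) : ℂ := zl y - (Ln n : ℂ)

/-- `R` on the line -/
def Rn (n : ℕ) (y : ℝ) : ℂ := aeval (zn n y) (PF n) / aeval (zn n y) (QQ (sF n) (mF n))

/-- `|R|` on the line `Re t = -(Ln n + 1/2)` -/
def NG (n : ℕ) (y : ℝ) : ℝ :=
  (((9 * n / 2).factorial : ℕ) : ℝ) ^ 2 / (((5 * n / 2).factorial : ℕ) : ℝ) ^ 2 *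
    ((∏ m ∈ Finset.Icc (n / 2 + 1) (3 * n), ‖zn n y + (m : ℂ)‖) *
      ∏ m ∈ Finset.Icc (n + 1) (7 * n / 2), ‖zn n y + (m : ℂ)‖) /
    ∏ k ∈ sF n, ‖zn n y + (k : ℂ)‖ ^ mF n k

/-- the absolute value of the coefficient of `(t+k)^(-2)` in `R`, `4n < k ≤ 8n` -/
def RK (n k : ℕ) : ℚ :=
  cF n * ((∏ j ∈ Finset.Icc (n / 2 + 1) (3 * n), ((k : ℚ) - j)) *
    ∏ j ∈ Finset.Icc (n + 1) (7 * n / 2), ((k : ℚ) - j)) /
    ∏ m ∈ (sF n).erase k, |(m : ℚ) - k| ^ mF n m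

end

end Pool.Agent.TH817.Z3
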