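import Pool.Agent.TH817.Z3.Stm

/-!
# Irrationality exponent of `ζ(3)` (second design): local objects and statements for the non-vanishing at
primes `n = p ≡ 137 (mod 340)`
-/

open Polynomial Pool.Agent.H337R2 Filter Topology

namespace Pool.Agent.TH817.Z3

noncomputable section

/-! The class of `r`, `1 ≤ r ≤ p`, consists of the sites `r + j p`. There are two types of classes: `false`
(`r ≤ p/2`) and `true` (`p/2 < r`). -/

/-- the type of the class `r` -/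
def typ (p r : ℕ) : Bool := decide (p / 2 < r)

/-- sites `j` in the first block of zeros `(p/2, 3p]` -/
def Z1 (b : Bool) : Finset ℕ := if b then Finset.Icc 0 2 else Finset.Icc 1 2

/-- sites `j` in the second block of zeros `(p, 7p/2]` -/
def Z2 (b : Bool) : Finset ℕ := if b then Finset.Icc 1 2 else Finset.Icc 1 3

/-- sites `j` in the first block of poles `(7p/2, 8p]` -/
def P1 (b : Bool) : Finset ℕ := if b then Finset.Icc 3 7 else Finset.Icc 4 7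

/-- sites `j` in the second block of poles `(4p, 17p/2]` -/
def P2 (b : Bool) : Finset ℕ := if b then Finset.Icc 4 7 else Finset.Icc 4 8

/-- multiplicity of the pole at the site `j` -/
def ml (b : Bool) (j : ℕ) : ℕ := (if j ∈ P1 b then 1 else 0) + (if j ∈ P2 b then 1 else 0)

/-- local power series at the pole `j` -/
def ser (b : Bool) (j e : ℕ) : PowerSeries ℚ :=
  (∏ a ∈ Z1 b, (PowerSeries.X + PowerSeries.C ((a : ℚ) - j))) *
  (∏ a ∈ Z2 b, (PowerSeries.X + PowerSeries.C ((a : ℚ) - j))) *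
  (∏ c ∈ (P1 b).erase j, iv ((c : ℚ) - j)) *
  (∏ c ∈ (P2 b).erase j, iv ((c : ℚ) - j)) * (PowerSeries.X + PowerSeries.C (-(j : ℚ))) ^ e

/-- the double poles are the sites `4, …, 7` for both types; the simple pole is `8` (type `false`) or `3` (type
`true`, not hit). Local functional on monomials: the part with the harmonic numbers -/
def Fm (b : Bool) (e : ℕ) : ℚ :=
  - ((∑ j ∈ Finset.Icc 4 7, (2 * PowerSeries.coeff 0 (ser b j e) * hs 3 (j - 3) +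
    PowerSeries.coeff 1 (ser b j e) * hs 2 (j - 3))) +
    if b then 0 else PowerSeries.coeff 0 (ser b 8 e) * hs 2 5)

/-- local functional on monomials: the sum of the double residues -/
def rm (b : Bool) (e : ℕ) : ℚ := 2 * ∑ j ∈ Finset.Icc 4 7, PowerSeries.coeff 0 (ser b j e)

/-- the other classes, with multiplicity `c` -/
def OT (p r c : ℕ) : ℚ[X] := ∏ r' ∈ (Finset.Icc 1 p).erase r, (X + C (r' : ℚ)) ^ c

/-! ### H. non-vanishing -/

/-- the exponent at `n = p` is `0` (`p` odd) -/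
def StH1 : Prop := ∀ {p : ℕ}, p.Prime → 3 ≤ p → ∀ k, eF p p k = 0

/-- principal coefficients of the partial fractions at `n = p` -/
def StH2 : Prop := ∀ {p : ℕ} [Fact p.Prime] (_ : 100 ≤ p) (r : ℕ) (_ : 1 ≤ r) (_ : r ≤ p),
  ∃ w : ℚ, padicNorm p w = 1 ∧ ∀ e j i : ℕ, e ≤ 2 → 3 ≤ j → j ≤ 8 → 1 ≤ i → i ≤ ml (typ p r) j →
    padicNorm p (pa (sF p) (mF p) (PF p * ((X + C (r : ℚ)) ^ e * OT p r 4)) (r + j * p) i
      / (p : ℚ) ^ (i + e) - w * PowerSeries.coeff (ml (typ p r) j - i) (ser (typ p r) j e)) ≤ (p : ℚ)⁻¹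

def StH3 : Prop := ∀ {p : ℕ} [Fact p.Prime] (_ : 100 ≤ p) (r : ℕ) (_ : 1 ≤ r) (_ : r ≤ p),
  ∃ w : ℚ, padicNorm p w = 1 ∧ ∀ (x a b : ℚ), padicNorm p a ≤ 1 → padicNorm p b ≤ 1 →
    a * ((p : ℚ) ^ 3 * x) = b → ∀ e : ℕ, e ≤ 2 →
    padicNorm p (a * ((p : ℚ) ^ (1 - (e : ℤ)) * NL p x ((X + C (r : ℚ)) ^ e * OT p r 4)) -
      w * (a * Fm (typ p r) e + b * rm (typ p r) e)) ≤ (p : ℚ)⁻¹

def StH4 : Prop := ∀ {p : ℕ} [Fact p.Prime] (_ : 100 ≤ p) (x a b : ℚ) (_ : padicNorm p a ≤ 1)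
  (_ : padicNorm p b ≤ 1) (_ : a * ((p : ℚ) ^ 3 * x) = b) (r s l l' : ℕ) (_ : 1 ≤ r) (_ : r ≤ p)
  (_ : 1 ≤ s) (_ : s ≤ p) (_ : r ≠ s) (_ : l < 2) (_ : l' < 2),
  padicNorm p (a * ((p : ℚ) ^ (1 - (l : ℤ) - (l' : ℤ)) * NL p x
    (((X + C (r : ℚ)) ^ l * OT p r 2) * ((X + C (s : ℚ)) ^ l' * OT p s 2)))) ≤ (p : ℚ)⁻¹

/-- H5: for both types the local quadratic form is a rational multiple of the same explicit form; its
discriminant is `85` times a square -/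
def StH5 : Prop := ∀ t : Bool, ∃ κ : ℚ, κ ≠ 0 ∧ ∀ a b : ℚ,
  (a * Fm t 0 + b * rm t 0) * (a * Fm t 2 + b * rm t 2) - (a * Fm t 1 + b * rm t 1) ^ 2 =
    κ * (274032742037 * a ^ 2 - 455939706240 * a * b + 189649797120 * b ^ 2)

/-- H5': the local determinants are units -/
def StH5' : Prop := ∃ p0 : ℕ, ∀ p : ℕ, p0 ≤ p → p.Prime → p % 340 = 137 → ∀ (t : Bool) (a b : ℚ),
  padicNorm p a ≤ 1 → padicNorm p b ≤ 1 → (padicNorm p a = 1 ∨ padicNorm p b = 1) →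
  padicNorm p ((a * Fm t 0 + b * rm t 0) * (a * Fm t 2 + b * rm t 2) -
    (a * Fm t 1 + b * rm t 1) ^ 2) = 1

/-- non-vanishing -/
def StH6 : Prop := ∃ p0 : ℕ, ∀ p : ℕ, p0 ≤ p → p.Prime → p % 340 = 137 → ∀ x : ℚ, DET p x (2 * p) ≠ 0

/-! ### Z. primes `≡ 137 (mod 340)` in short intervals -/

def StZ1 : Prop := ∀ ε : ℝ, 0 < ε → ∃ L0 : ℝ, ∀ L : ℝ, L0 ≤ L →
  ∃ p : ℕ, p.Prime ∧ p % 340 = 137 ∧ L < p ∧ (p : ℝ) ≤ (1 + ε) * L

end

end Pool.Agent.TH817.Z3
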